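import Mathlib
import Pool.Agent.LF.Ex0

section

/-! # Task ExA: the group `G6` acts freely and properly discontinuously on `U6` -/

open Set Filter Topology
open scoped ContDiff

namespace Pool.Agent.LF

theorem isOpen_U6 : IsOpen U6 := isOpen_lt continuous_const (continuous_apply 3)

theorem conn_U6 : IsConnected U6 := by
  refine ⟨⟨fun _ => 1, by simp [U6]⟩, ?_⟩
  have hc : Convex ℝ U6 := by
    have hl : IsLinearMap ℝ (fun x : E6 => x 3) := ⟨fun _ _ => rfl, fun _ _ => rfl⟩
    exact convex_halfSpace_gt hl 0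
  exact hc.isPreconnected

private theorem gold_sq : Real.goldenRatio ^ 2 = Real.goldenRatio + 1 := Real.goldenRatio_sq
private theorem conj_sq : Real.goldenConj ^ 2 = Real.goldenConj + 1 := Real.goldenConj_sq

private theorem g_ne : Real.goldenRatio ≠ 0 := Real.goldenRatio_ne_zero
private theorem c_ne : Real.goldenConj ≠ 0 := Real.goldenConj_ne_zero

private theorem inv_gsq : (Real.goldenRatio ^ 2)⁻¹ = Real.goldenConj ^ 2 := by
  refine inv_eq_of_mul_eq_one_right ?_
  rw [← mul_pow, Real.goldenRatio_mul_goldenConj]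
  norm_num

private theorem inv_csq : (Real.goldenConj ^ 2)⁻¹ = Real.goldenRatio ^ 2 := by
  rw [← inv_gsq, inv_inv]

private theorem zp (x : ℝ) (hx : x ≠ 0) (k : ℤ) : x ^ (2 * (k + 1)) = x ^ (2 * k) * x ^ 2 := by
  rw [mul_add, zpow_add₀ hx]
  norm_num

private theorem zm (x : ℝ) (hx : x ≠ 0) (k : ℤ) :
    x ^ (2 * (k - 1)) = x ^ (2 * k) * (x ^ 2)⁻¹ := by
  rw [mul_sub, zpow_sub₀ hx, div_eq_mul_inv]
  norm_num

/-- the lattice is invariant -/
private theorem lattice (k : ℤ) : ∀ a b : ℤ, ∃ a' b' : ℤ,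
    Real.goldenRatio ^ (2 * k) * (a + b * Real.goldenRatio) = a' + b' * Real.goldenRatio ∧
    Real.goldenConj ^ (2 * k) * (a + b * Real.goldenConj) = a' + b' * Real.goldenConj := by
  induction k using Int.induction_on with
  | zero => exact fun a b => ⟨a, b, by simp, by simp⟩
  | succ k ih =>
    intro a b
    obtain ⟨a', b', h1, h2⟩ := ih a b
    refine ⟨a' + b', a' + 2 * b', ?_, ?_⟩
    · rw [zp _ g_ne, mul_right_comm, h1]
      push_cast
      linear_combination (a' + b' * Real.goldenRatio + b') * gold_sq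
    · rw [zp _ c_ne, mul_right_comm, h2]
      push_cast
      linear_combination (a' + b' * Real.goldenConj + b') * conj_sq
  | pred k ih =>
    intro a b
    obtain ⟨a', b', h1, h2⟩ := ih a b
    refine ⟨2 * a' - b', b' - a', ?_, ?_⟩
    · rw [zm _ g_ne, mul_right_comm, h1, inv_gsq, conj_sq,
        show Real.goldenConj = 1 - Real.goldenRatio by
          have := Real.goldenRatio_add_goldenConj; linarith]
      push_cast
      linear_combination (-(b' : ℝ)) * gold_sq
    · rw [zm _ c_ne, mul_right_comm, h2, inv_csq, gold_sq,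
        show Real.goldenRatio = 1 - Real.goldenConj by
          have := Real.goldenRatio_add_goldenConj; linarith]
      push_cast
      linear_combination (-(b' : ℝ)) * conj_sq

theorem id_mem6 : id ∈ G6 := by
  refine ⟨0, 0, 0, ?_⟩
  funext x
  funext i
  fin_cases i <;> simp [g6]

theorem comp_mem6 : ∀ g ∈ G6, ∀ h ∈ G6, g ∘ h ∈ G6 := by
  rintro g ⟨k, a, b, rfl⟩ h ⟨k', a', b', rfl⟩
  obtain ⟨a'', b'', h1, h2⟩ := lattice k a' b'
  refine ⟨k + k', a'' + a, b'' + b, ?_⟩
  have e1 : Real.goldenRatio ^ (2 * (k + k')) =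
      Real.goldenRatio ^ (2 * k) * Real.goldenRatio ^ (2 * k') := by
    rw [mul_add, zpow_add₀ g_ne]
  have e2 : Real.goldenConj ^ (2 * (k + k')) =
      Real.goldenConj ^ (2 * k) * Real.goldenConj ^ (2 * k') := by
    rw [mul_add, zpow_add₀ c_ne]
  funext x
  funext i
  fin_cases i
  · simp only [g6, Function.comp, e1]
    simp
    linear_combination h1
  · simp only [g6, Function.comp, e2]
    simp
    linear_combination h2
  · simp only [g6, Function.comp, e2]
    simp
    ring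
  · simp only [g6, Function.comp, e1]
    simp
    ring
  · simp [g6, Function.comp]
  · simp [g6, Function.comp]

theorem inv_mem6 : ∀ g ∈ G6, ∃ h ∈ G6, (∀ x, h (g x) = x) ∧ ∀ x, g (h x) = x := by
  rintro g ⟨k, a, b, rfl⟩
  obtain ⟨a', b', h1, h2⟩ := lattice (-k) a b
  have e1 : Real.goldenRatio ^ (2 * (-k)) * Real.goldenRatio ^ (2 * k) = 1 := by
    rw [← zpow_add₀ g_ne]
    have : 2 * (-k) + 2 * k = 0 := by ring
    rw [this, zpow_zero]
  have e2 : Real.goldenConj ^ (2 * (-k)) * Real.goldenConj ^ (2 * k) = 1 := by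
    rw [← zpow_add₀ c_ne]
    have : 2 * (-k) + 2 * k = 0 := by ring
    rw [this, zpow_zero]
  refine ⟨g6 (-k) (-a') (-b'), ⟨_, _, _, rfl⟩, fun x => ?_, fun x => ?_⟩
  · funext i
    fin_cases i
    · simp only [g6]
      simp only [Matrix.cons_val_zero, Fin.zero_eta]
      push_cast
      linear_combination h1 + x 0 * e1
    · simp only [g6]
      simp only [Matrix.cons_val_one, Fin.mk_one, Matrix.cons_val_zero]
      push_cast
      linear_combination h2 + x 1 * e2
    · simp only [g6]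
      simp only [Fin.reduceFinMk, Matrix.cons_val]
      linear_combination x 2 * e2
    · simp only [g6]
      simp only [Fin.reduceFinMk, Matrix.cons_val]
      linear_combination x 3 * e1
    · simp [g6]
    · simp [g6]
  · funext i
    fin_cases i
    · simp only [g6]
      simp only [Matrix.cons_val_zero, Fin.zero_eta]
      push_cast
      linear_combination (x 0 - (a + b * Real.goldenRatio)) * e1 + Real.goldenRatio ^ (2 * k) * h1
    · simp only [g6]
      simp only [Matrix.cons_val_one, Fin.mk_one, Matrix.cons_val_zero]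
      push_cast
      linear_combination (x 1 - (a + b * Real.goldenConj)) * e2 + Real.goldenConj ^ (2 * k) * h2
    · simp only [g6]
      simp only [Fin.reduceFinMk, Matrix.cons_val]
      linear_combination x 2 * e2
    · simp only [g6]
      simp only [Fin.reduceFinMk, Matrix.cons_val]
      linear_combination x 3 * e1
    · simp [g6]
    · simp [g6]

theorem smooth6 : ∀ g ∈ G6, ContDiff ℝ ∞ g := by
  rintro g ⟨k, a, b, rfl⟩
  refine contDiff_pi.mpr fun i => ?_
  have hp : ∀ j : Fin 6, ContDiff ℝ ∞ (fun x : E6 => x j) := fun j => contDiff_apply ℝ ℝ j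
  fin_cases i
  · exact (contDiff_const.mul (hp 0)).add contDiff_const
  · exact (contDiff_const.mul (hp 1)).add contDiff_const
  · exact contDiff_const.mul (hp 2)
  · exact contDiff_const.mul (hp 3)
  · exact hp 4
  · exact hp 5

theorem maps6 : ∀ g ∈ G6, ∀ x ∈ U6, g x ∈ U6 := by
  rintro g ⟨k, a, b, rfl⟩ x hx
  have hx' : 0 < x 3 := hx
  have : 0 < Real.goldenRatio ^ (2 * k) * x 3 := mul_pos (zpow_pos Real.goldenRatio_pos _) hx'
  exact this

theorem free6 : ∀ g ∈ G6, ∀ x ∈ U6, g x = x → g = id := by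
  rintro g ⟨k, a, b, rfl⟩ x hx h
  have hx' : 0 < x 3 := hx
  have h3 : Real.goldenRatio ^ (2 * k) * x 3 = x 3 := congrFun h 3
  have h0 : Real.goldenRatio ^ (2 * k) * x 0 + (a + b * Real.goldenRatio) = x 0 := congrFun h 0
  have h1 : Real.goldenConj ^ (2 * k) * x 1 + (a + b * Real.goldenConj) = x 1 := congrFun h 1
  have hk1 : Real.goldenRatio ^ (2 * k) = 1 := by
    have : (Real.goldenRatio ^ (2 * k) - 1) * x 3 = 0 := by linarith
    rcases mul_eq_zero.mp this with h | h
    · linarith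
    · exact absurd h hx'.ne'
  have hk : k = 0 := by
    have := (zpow_right_injective₀ Real.goldenRatio_pos Real.one_lt_goldenRatio.ne')
      (hk1.trans (zpow_zero _).symm)
    omega
  subst hk
  simp only [mul_zero, zpow_zero, one_mul] at h0 h1
  have hs : Real.goldenRatio - Real.goldenConj = Real.sqrt 5 := Real.goldenRatio_sub_goldenConj
  have hb : (b : ℝ) * Real.sqrt 5 = 0 := by
    rw [← hs]
    linarith
  have hb0 : (b : ℝ) = 0 := by
    rcases mul_eq_zero.mp hb with h | h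
    · exact h
    · exact absurd h (by positivity)
  have ha0 : (a : ℝ) = 0 := by
    rw [hb0] at h0
    linarith
  have hb' : b = 0 := by exact_mod_cast hb0
  have ha' : a = 0 := by exact_mod_cast ha0
  subst hb' ha'
  funext y
  funext i
  fin_cases i <;> simp [g6]

theorem disc6 : ∀ K ⊆ U6, IsCompact K → {g | g ∈ G6 ∧ ∃ x ∈ K, g x ∈ K}.Finite := by
  intro K hKU hK
  rcases K.eq_empty_or_nonempty with rfl | hne
  · simp
  -- bounds on `K`
  obtain ⟨M, hM⟩ := hK.isBounded.exists_norm_le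
  obtain ⟨x1, hx1K, hx1⟩ := hK.exists_isMinOn hne ((continuous_apply (3 : Fin 6)).continuousOn)
  set q := x1 3 with hq
  have hq0 : 0 < q := hKU hx1K
  have hqle : ∀ x ∈ K, q ≤ x 3 := fun x hx => hx1 hx
  have hcoord : ∀ x ∈ K, ∀ i, |x i| ≤ M := fun x hx i => (norm_le_pi_norm x i).trans (hM x hx)
  have hM0 : 0 < M := lt_of_lt_of_le hq0 ((le_abs_self _).trans (hcoord x1 hx1K 3))
  set R := M / q with hR
  have hR0 : 0 < R := div_pos hM0 hq0
  set B := M + R * M with hB
  have hB0 : 0 < B := by positivity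
  obtain ⟨n, hn⟩ : ∃ n : ℕ, R < Real.goldenRatio ^ n := pow_unbounded_of_one_lt R Real.one_lt_goldenRatio
  set N : ℤ := ⌈3 * B⌉ with hN
  refine Set.Finite.subset (s := (fun p : ℤ × ℤ × ℤ => g6 p.1 p.2.1 p.2.2) ''
    ((Set.Icc (-(n : ℤ)) n) ×ˢ ((Set.Icc (-N) N) ×ˢ (Set.Icc (-N) N)))) ?_ ?_
  · exact (((Set.finite_Icc _ _).prod ((Set.finite_Icc _ _).prod (Set.finite_Icc _ _)))).image _
  rintro g ⟨⟨k, a, b, rfl⟩, x, hxK, hgK⟩
  have e3 : g6 k a b x 3 = Real.goldenRatio ^ (2 * k) * x 3 := rfl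
  have e0 : g6 k a b x 0 = Real.goldenRatio ^ (2 * k) * x 0 + (a + b * Real.goldenRatio) := rfl
  have e1 : g6 k a b x 1 = Real.goldenConj ^ (2 * k) * x 1 + (a + b * Real.goldenConj) := rfl
  have hpos : 0 < Real.goldenRatio ^ (2 * k) := zpow_pos Real.goldenRatio_pos _
  have hinv : Real.goldenConj ^ (2 * k) = (Real.goldenRatio ^ (2 * k))⁻¹ := by
    have : Real.goldenConj ^ (2 * k) * Real.goldenRatio ^ (2 * k) = 1 := by
      rw [← mul_zpow, mul_comm Real.goldenConj, Real.goldenRatio_mul_goldenConj, zpow_mul]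
      norm_num
    exact eq_inv_of_mul_eq_one_left this
  -- upper bound
  have hup : Real.goldenRatio ^ (2 * k) ≤ R := by
    rw [hR, le_div_iff₀ hq0]
    calc Real.goldenRatio ^ (2 * k) * q ≤ Real.goldenRatio ^ (2 * k) * x 3 :=
          mul_le_mul_of_nonneg_left (hqle x hxK) hpos.le
      _ = g6 k a b x 3 := e3.symm
      _ ≤ M := (le_abs_self _).trans (hcoord _ hgK 3)
  have hlo : (Real.goldenRatio ^ (2 * k))⁻¹ ≤ R := by
    rw [hR, le_div_iff₀ hq0, inv_mul_le_iff₀ hpos]
    calc q ≤ g6 k a b x 3 := hqle _ hgK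
      _ = Real.goldenRatio ^ (2 * k) * x 3 := e3
      _ ≤ Real.goldenRatio ^ (2 * k) * M :=
          mul_le_mul_of_nonneg_left ((le_abs_self _).trans (hcoord x hxK 3)) hpos.le
  have hk1 : 2 * k < n := by
    have : Real.goldenRatio ^ (2 * k) < Real.goldenRatio ^ (n : ℤ) := by
      rw [zpow_natCast]
      exact hup.trans_lt hn
    exact (zpow_lt_zpow_iff_right₀ Real.one_lt_goldenRatio).mp this
  have hk2 : -(2 * k) < n := by
    have : Real.goldenRatio ^ (-(2 * k)) < Real.goldenRatio ^ (n : ℤ) := by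
      rw [zpow_natCast, zpow_neg]
      exact hlo.trans_lt hn
    exact (zpow_lt_zpow_iff_right₀ Real.one_lt_goldenRatio).mp this
  -- the translation part
  have hA : |(a : ℝ) + b * Real.goldenRatio| ≤ B := by
    have h1 : (a : ℝ) + b * Real.goldenRatio = g6 k a b x 0 - Real.goldenRatio ^ (2 * k) * x 0 := by
      rw [e0]; ring
    rw [h1, hB]
    refine (abs_sub _ _).trans (add_le_add (hcoord _ hgK 0) ?_)
    rw [abs_mul, abs_of_pos hpos]
    exact mul_le_mul hup (hcoord x hxK 0) (abs_nonneg _) hR0.le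
  have hC : |(a : ℝ) + b * Real.goldenConj| ≤ B := by
    have h1 : (a : ℝ) + b * Real.goldenConj = g6 k a b x 1 - Real.goldenConj ^ (2 * k) * x 1 := by
      rw [e1]; ring
    rw [h1, hB]
    refine (abs_sub _ _).trans (add_le_add (hcoord _ hgK 1) ?_)
    rw [abs_mul, hinv, abs_of_pos (inv_pos.mpr hpos)]
    exact mul_le_mul hlo (hcoord x hxK 1) (abs_nonneg _) hR0.le
  have hs5 : (2 : ℝ) ≤ Real.sqrt 5 := by
    rw [show (2 : ℝ) = Real.sqrt 4 by
      rw [show (4 : ℝ) = 2 ^ 2 by norm_num, Real.sqrt_sq (by norm_num)]]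
    exact Real.sqrt_le_sqrt (by norm_num)
  have hs : Real.goldenRatio - Real.goldenConj = Real.sqrt 5 := Real.goldenRatio_sub_goldenConj
  have hbB : |(b : ℝ)| ≤ B := by
    have h1 : |(b : ℝ)| * Real.sqrt 5 ≤ 2 * B := by
      have : (b : ℝ) * Real.sqrt 5 = (a + b * Real.goldenRatio) - (a + b * Real.goldenConj) := by
        rw [← hs]; ring
      have h5 : |(b : ℝ)| * Real.sqrt 5 = |(b : ℝ) * Real.sqrt 5| := by
        rw [abs_mul, abs_of_nonneg (Real.sqrt_nonneg 5)]
      rw [h5, this]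
      refine (abs_sub _ _).trans ?_
      linarith
    have h2 : |(b : ℝ)| * 2 ≤ |(b : ℝ)| * Real.sqrt 5 :=
      mul_le_mul_of_nonneg_left hs5 (abs_nonneg _)
    linarith
  have haB : |(a : ℝ)| ≤ 3 * B := by
    have h1 : (a : ℝ) = (a + b * Real.goldenRatio) - b * Real.goldenRatio := by ring
    rw [h1]
    refine (abs_sub _ _).trans ?_
    rw [abs_mul, abs_of_pos Real.goldenRatio_pos]
    have h2 : |(b : ℝ)| * Real.goldenRatio ≤ B * 2 :=
      mul_le_mul hbB Real.goldenRatio_lt_two.le Real.goldenRatio_pos.le hB0.le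
    linarith
  have hbN : |b| ≤ N := by
    have : ((|b| : ℤ) : ℝ) ≤ (N : ℝ) := by
      rw [Int.cast_abs]
      exact (hbB.trans (by linarith)).trans (Int.le_ceil _)
    exact_mod_cast this
  have haN : |a| ≤ N := by
    have : ((|a| : ℤ) : ℝ) ≤ (N : ℝ) := by
      rw [Int.cast_abs]
      exact haB.trans (Int.le_ceil _)
    exact_mod_cast this
  refine ⟨(k, a, b), ⟨?_, ?_, ?_⟩, rfl⟩
  · constructor
    · show -(n : ℤ) ≤ k
      omega
    · show k ≤ n
      omega
  · exact abs_le.mp haN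
  · exact abs_le.mp hbN

/-- elements of `G6` are affine -/
theorem affine6 : ∀ g ∈ G6, ∀ x v w : E6, ∀ s : ℝ,
    g (x + (v + s • w)) - g x = (g (x + v) - g x) + s • (g (x + w) - g x) := by
  rintro g ⟨k, a, b, rfl⟩ x v w s
  funext i
  fin_cases i <;> simp [g6] <;> ring

theorem fderiv6 : ∀ g ∈ G6, ∀ x v : E6, fderiv ℝ g x v = g (x + v) - g x := by
  intro g hg x v
  set L : E6 →ₗ[ℝ] E6 :=
    { toFun := fun v => g v - g 0
      map_add' := fun v w => by
        have := affine6 g hg 0 v w 1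
        simpa using this
      map_smul' := fun s w => by
        have := affine6 g hg 0 0 w s
        simpa using this } with hL
  have hLc : g = fun y => LinearMap.toContinuousLinearMap L y + g 0 := by
    funext y
    simp [hL]
  have hd : HasFDerivAt g (LinearMap.toContinuousLinearMap L) x := by
    rw [hLc]
    simpa using ((LinearMap.toContinuousLinearMap L).hasFDerivAt (x := x)).add_const (g 0)
  rw [hd.fderiv]
  have h1 : g (x + v) = L (x + v) + g 0 := by simp [hL]
  have h2 : g x = L x + g 0 := by simp [hL]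
  rw [h1, h2, map_add]
  simp

end Pool.Agent.LF
end

section

open Set Filter Topology
open scoped ContDiff

namespace Pool.Agent.LF

/-- the manifold -/
def Q6 : QMan E6 where
  U := U6
  G := G6
  isOpen_U := isOpen_U6
  conn_U := conn_U6
  id_mem := id_mem6
  comp_mem := comp_mem6
  inv_mem := inv_mem6
  smooth := smooth6
  maps := maps6
  free := free6
  disc := disc6

end Pool.Agent.LF
end

section

/-! # Task ExB: cocompactness -/

open Set Filter Topology
open scoped ContDiff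

namespace Pool.Agent.LF

private theorem exB_round (X0 X1 : ℝ) : ∃ a b : ℤ,
    |X0 + (a + b * Real.goldenRatio)| ≤ 4 ∧ |X1 + (a + b * Real.goldenConj)| ≤ 4 := by
  have hs : (0 : ℝ) < Real.sqrt 5 := by positivity
  have hd : Real.goldenRatio - Real.goldenConj = Real.sqrt 5 := Real.goldenRatio_sub_goldenConj
  set β : ℝ := (X1 - X0) / Real.sqrt 5 with hβ
  set α : ℝ := -X0 - β * Real.goldenRatio with hα
  have hβs : β * Real.sqrt 5 = X1 - X0 := by
    rw [hβ]; field_simp
  have h1 : X0 = -(α + β * Real.goldenRatio) := by rw [hα]; ring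
  have h2 : X1 = -(α + β * Real.goldenConj) := by
    have h3 : β * (Real.goldenRatio - Real.goldenConj) = X1 - X0 := by rw [hd, hβs]
    rw [hα]; linarith
  have ha := abs_sub_round α
  have hb := abs_sub_round β
  have hφ0 : 0 < Real.goldenRatio := Real.goldenRatio_pos
  have hφ2 : Real.goldenRatio < 2 := Real.goldenRatio_lt_two
  have hψ0 : Real.goldenConj < 0 := Real.goldenConj_neg
  have hψ1 : -1 < Real.goldenConj := Real.neg_one_lt_goldenConj
  rw [abs_le] at ha hb
  refine ⟨round α, round β, ?_, ?_⟩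
  · have h4 : X0 + ((round α : ℝ) + (round β : ℝ) * Real.goldenRatio) =
        -(α - round α) - (β - round β) * Real.goldenRatio := by
      rw [h1]; ring
    rw [h4, abs_le]
    constructor <;> nlinarith
  · have h4 : X1 + ((round α : ℝ) + (round β : ℝ) * Real.goldenConj) =
        -(α - round α) - (β - round β) * Real.goldenConj := by
      rw [h2]; ring
    rw [h4, abs_le]
    constructor <;> nlinarith

/-- cocompactness: bounded `m, u, v` means relatively compact in the quotient -/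
theorem bdd6 (c : ℝ) : Q6.Bdd {x | x ∈ U6 ∧ |m6 x| ≤ c ∧ |x 4| ≤ c ∧ |x 5| ≤ c} := by
  refine ⟨Icc ![-4, -4, -c, 1, -c, -c] ![4, 4, c, Real.goldenRatio ^ 2, c, c], ?_,
    isCompact_Icc, ?_⟩
  · intro x hx
    have h := hx.1 3
    have h' : (1 : ℝ) ≤ x 3 := h
    show 0 < x 3
    linarith
  · rintro x ⟨hU, hm, hu, hv⟩
    have hq : 0 < x 3 := hU
    have hφ0 : 0 < Real.goldenRatio := Real.goldenRatio_pos
    have hφ1 : 1 < Real.goldenRatio := Real.one_lt_goldenRatio
    have hy1 : 1 < Real.goldenRatio ^ 2 := one_lt_pow₀ hφ1 (by norm_num)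
    obtain ⟨n, hn1, hn2⟩ := exists_mem_Ico_zpow hq hy1
    have hy0 : (0 : ℝ) < Real.goldenRatio ^ 2 := by positivity
    have hk : Real.goldenRatio ^ (2 * (-n)) = ((Real.goldenRatio ^ 2) ^ n)⁻¹ := by
      rw [zpow_mul, zpow_neg]
      norm_cast
    have hyn : (0 : ℝ) < (Real.goldenRatio ^ 2) ^ n := zpow_pos hy0 n
    obtain ⟨a, b, ha, hb⟩ := exB_round (Real.goldenRatio ^ (2 * (-n)) * x 0)
      (Real.goldenConj ^ (2 * (-n)) * x 1)
    have hq1 : 1 ≤ Real.goldenRatio ^ (2 * (-n)) * x 3 := by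
      rw [hk, inv_mul_eq_div, le_div_iff₀ hyn]
      linarith
    have hq2 : Real.goldenRatio ^ (2 * (-n)) * x 3 ≤ Real.goldenRatio ^ 2 := by
      rw [hk, inv_mul_eq_div, div_le_iff₀ hyn]
      rw [zpow_add_one₀ hy0.ne'] at hn2
      linarith
    have hprod : Real.goldenConj ^ (2 * (-n)) * Real.goldenRatio ^ (2 * (-n)) = 1 := by
      rw [← mul_zpow, Real.goldenConj_mul_goldenRatio, zpow_mul]
      norm_num
    have hp : |Real.goldenConj ^ (2 * (-n)) * x 2| ≤ c := by
      have h1 : (Real.goldenConj ^ (2 * (-n)) * x 2) * (Real.goldenRatio ^ (2 * (-n)) * x 3) =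
          m6 x := by
        unfold m6
        calc (Real.goldenConj ^ (2 * (-n)) * x 2) * (Real.goldenRatio ^ (2 * (-n)) * x 3)
            = (Real.goldenConj ^ (2 * (-n)) * Real.goldenRatio ^ (2 * (-n))) * (x 2 * x 3) := by
              ring
          _ = x 2 * x 3 := by rw [hprod, one_mul]
      have h2 : |Real.goldenConj ^ (2 * (-n)) * x 2| * (Real.goldenRatio ^ (2 * (-n)) * x 3) =
          |m6 x| := by
        rw [← h1, abs_mul (Real.goldenConj ^ (2 * (-n)) * x 2),
          abs_of_pos (a := Real.goldenRatio ^ (2 * (-n)) * x 3) (by linarith)]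
      have h3 := abs_nonneg (Real.goldenConj ^ (2 * (-n)) * x 2)
      nlinarith
    rw [abs_le] at ha hb hp hu hv
    refine ⟨g6 (-n) a b, ⟨-n, a, b, rfl⟩, ?_⟩
    constructor
    · intro i
      fin_cases i
      · exact ha.1
      · exact hb.1
      · exact hp.1
      · exact hq1
      · exact hu.1
      · exact hv.1
    · intro i
      fin_cases i
      · exact ha.2
      · exact hb.2
      · exact hp.2
      · exact hq2
      · exact hu.2
      · exact hv.2

theorem rho_proper6 (c : ℝ) : Q6.Bdd {x | x ∈ U6 ∧ rho6 x ≤ c} := by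
  obtain ⟨K, hK, hKc, h⟩ := bdd6 (max c 1)
  refine ⟨K, hK, hKc, ?_⟩
  rintro x ⟨hU, hr⟩
  apply h
  have hc1 : 1 ≤ max c 1 := le_max_right _ _
  have hr' : rho6 x ≤ max c 1 := hr.trans (le_max_left _ _)
  set C := max c 1 with hC
  unfold rho6 at hr'
  have hm0 : 0 ≤ m6 x ^ 2 := sq_nonneg _
  have hw0 : 0 ≤ x 4 ^ 2 + x 5 ^ 2 := by positivity
  have hw4 : 0 ≤ (x 4 ^ 2 + x 5 ^ 2) ^ 4 := by positivity
  have hCC : C ≤ C ^ 2 := by nlinarith
  have hm : |m6 x| ≤ C := abs_le_of_sq_le_sq (by linarith) (by linarith)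
  have hw : x 4 ^ 2 + x 5 ^ 2 ≤ C := by
    by_contra hcon
    push Not at hcon
    have h1 : C < x 4 ^ 2 + x 5 ^ 2 := hcon
    have h2 : (x 4 ^ 2 + x 5 ^ 2) ≤ (x 4 ^ 2 + x 5 ^ 2) ^ 4 :=
      le_self_pow₀ (by linarith) (by norm_num)
    linarith
  have h40 : 0 ≤ x 4 ^ 2 := sq_nonneg _
  have h50 : 0 ≤ x 5 ^ 2 := sq_nonneg _
  exact ⟨hU, hm, abs_le_of_sq_le_sq (by linarith) (by linarith),
    abs_le_of_sq_le_sq (by linarith) (by linarith)⟩

end Pool.Agent.LF
end

section

/-! # Task ExC: the Liouville form, the Liouville field and its flow -/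

open Set Filter Topology
open scoped ContDiff

namespace Pool.Agent.LF

private theorem gold (k : ℤ) : Real.goldenRatio ^ (2 * k) * Real.goldenConj ^ (2 * k) = 1 := by
  rw [← mul_zpow, Real.goldenRatio_mul_goldenConj, zpow_mul]
  norm_num

private theorem lam6_apply (x w : E6) :
    lam6 x w = x 2 * w 0 + x 3 * w 1 + x 4 / 2 * w 5 - x 5 / 2 * w 4 := by
  simp [lam6]

theorem lam_smooth6 : ContDiff ℝ ∞ lam6 := by
  unfold lam6
  fun_prop

private theorem fderiv_lam6 (x v : E6) : fderiv ℝ lam6 x v = lam6 v := by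
  have hl : IsLinearMap ℝ lam6 := by
    constructor
    · intro x y
      ext w
      rw [add_apply, lam6_apply, lam6_apply, lam6_apply]
      simp only [Pi.add_apply]
      ring
    · intro c x
      ext w
      rw [smul_apply, lam6_apply, lam6_apply]
      simp only [Pi.smul_apply, smul_eq_mul]
      ring
  have h : HasFDerivAt lam6 (hl.mk' lam6).toContinuousLinearMap x :=
    (hl.mk' lam6).toContinuousLinearMap.hasFDerivAt
  rw [h.fderiv]
  rfl

theorem dlam6 (x v w : E6) : dlam lam6 x v w = om v w := by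
  rw [dlam, fderiv_lam6, fderiv_lam6, lam6_apply, lam6_apply, om]
  ring

theorem lam_inv6 : ∀ g ∈ G6, ∀ x ∈ U6, ∀ v, lam6 (g x) (fderiv ℝ g x v) = lam6 x v := by
  intro g hg x _ v
  rw [fderiv6 g hg]
  obtain ⟨k, a, b, rfl⟩ := hg
  have h := gold k
  rw [lam6_apply, lam6_apply]
  simp only [g6, Pi.add_apply, Pi.sub_apply, Matrix.cons_val]
  linear_combination (x 2 * v 0 + x 3 * v 1) * h

theorem nondeg6 (v : E6) (hv : ∀ w, om v w = 0) : v = 0 := by
  have h (i : Fin 6) := hv (Pi.single i 1)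
  have h0 := h 0
  have h1 := h 1
  have h2 := h 2
  have h3 := h 3
  have h4 := h 4
  have h5 := h 5
  simp [om] at h0 h1 h2 h3 h4 h5
  ext i
  fin_cases i <;> simpa

theorem Z_smooth6 : ContDiff ℝ ∞ Z6 := by
  refine contDiff_pi.2 fun i => ?_
  fin_cases i <;> simp [Z6] <;> fun_prop

theorem Z_spec6 (x w : E6) : om (Z6 x) w = lam6 x w := by
  rw [lam6_apply]
  simp [om, Z6]
  ring

theorem flow_mem6 (t : ℝ) (x : E6) (hx : x ∈ U6) : fl t x ∈ U6 := by
  have : 0 < Real.exp t * x 3 := mul_pos (Real.exp_pos t) hx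
  simpa [U6, fl] using this

theorem flow_zero6 (x : E6) : fl 0 x = x := by
  ext i
  fin_cases i <;> simp [fl]

theorem flow_deriv6 (x : E6) (t : ℝ) : HasDerivAt (fun s => fl s x) (Z6 (fl t x)) t := by
  have h1 : HasDerivAt (fun s : ℝ => Real.exp s) (Real.exp t) t := Real.hasDerivAt_exp t
  have h2 : HasDerivAt (fun s : ℝ => Real.exp (s / 2)) (Real.exp (t / 2) / 2) t := by
    have := (((hasDerivAt_id t).div_const 2).exp)
    simpa [div_eq_mul_inv] using this
  refine hasDerivAt_pi.2 fun i => ?_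
  fin_cases i
  · simpa [fl, Z6] using hasDerivAt_const t (x 0)
  · simpa [fl, Z6] using hasDerivAt_const t (x 1)
  · simpa [fl, Z6] using h1.mul_const (x 2)
  · simpa [fl, Z6] using h1.mul_const (x 3)
  · have e : Z6 (fl t x) 4 = Real.exp (t / 2) / 2 * x 4 := by
      simp [Z6, fl]
      ring
    change HasDerivAt (fun s => Real.exp (s / 2) * x 4) (Z6 (fl t x) 4) t
    rw [e]
    exact h2.mul_const (x 4)
  · have e : Z6 (fl t x) 5 = Real.exp (t / 2) / 2 * x 5 := by
      simp [Z6, fl]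
      ring
    change HasDerivAt (fun s => Real.exp (s / 2) * x 5) (Z6 (fl t x) 5) t
    rw [e]
    exact h2.mul_const (x 5)

theorem flow_add6 (s t : ℝ) (x : E6) : fl s (fl t x) = fl (s + t) x := by
  ext i
  fin_cases i <;> simp [fl, add_div, Real.exp_add, mul_assoc]

theorem flow_G6 (g : E6 → E6) (hg : g ∈ G6) (t : ℝ) (x : E6) : fl t (g x) = g (fl t x) := by
  obtain ⟨k, a, b, rfl⟩ := hg
  ext i
  fin_cases i <;> simp [fl, g6] <;> ring

theorem rho_smooth6 : ContDiff ℝ ∞ rho6 := by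
  unfold rho6 m6
  fun_prop

theorem m_G6 (g : E6 → E6) (hg : g ∈ G6) (x : E6) : m6 (g x) = m6 x := by
  obtain ⟨k, a, b, rfl⟩ := hg
  have h := gold k
  simp only [m6, g6, Matrix.cons_val]
  linear_combination (x 2 * x 3) * h

private theorem g6_4 (g : E6 → E6) (hg : g ∈ G6) (x : E6) : g x 4 = x 4 := by
  obtain ⟨k, a, b, rfl⟩ := hg
  simp [g6]

private theorem g6_5 (g : E6 → E6) (hg : g ∈ G6) (x : E6) : g x 5 = x 5 := by
  obtain ⟨k, a, b, rfl⟩ := hg
  simp [g6]

theorem rho_inv6 : ∀ g ∈ G6, ∀ x : E6, rho6 (g x) = rho6 x := by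
  intro g hg x
  rw [rho6, rho6, m_G6 g hg, g6_4 g hg, g6_5 g hg]

theorem h_G6 (g : E6 → E6) (hg : g ∈ G6) (x : E6) : h6 (g x) = h6 x := by
  rw [h6, h6, m_G6 g hg, g6_4 g hg]

theorem C_G6 (g : E6 → E6) (hg : g ∈ G6) (x : E6) (hx : x ∈ U6) : g x ∈ C6 ↔ x ∈ C6 := by
  simp only [C6, mem_ofPred_eq, g6_4 g hg, g6_5 g hg, h_G6 g hg, maps6 g hg x hx, hx]

theorem kap_G6 (g : E6 → E6) (hg : g ∈ G6) (x : E6) : kap (g x) = kap x := by
  rw [kap, kap, m_G6 g hg, g6_4 g hg, g6_5 g hg]

theorem Z_G6 (g : E6 → E6) (hg : g ∈ G6) (x : E6) : Z6 (g x) = fderiv ℝ g x (Z6 x) := by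
  rw [fderiv6 g hg]
  obtain ⟨k, a, b, rfl⟩ := hg
  ext i
  fin_cases i <;> simp [Z6, g6] <;> ring

theorem om_G6 (g : E6 → E6) (hg : g ∈ G6) (x v w : E6) :
    om (fderiv ℝ g x v) (fderiv ℝ g x w) = om v w := by
  rw [fderiv6 g hg, fderiv6 g hg]
  obtain ⟨k, a, b, rfl⟩ := hg
  have h := gold k
  simp only [om, g6, Pi.add_apply, Pi.sub_apply, Matrix.cons_val]
  linear_combination (v 2 * w 0 - v 0 * w 2 + v 3 * w 1 - v 1 * w 3) * h

private theorem exp_half_sq (t : ℝ) : Real.exp (t / 2) ^ 2 = Real.exp t := by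
  rw [← Real.exp_nat_mul]
  congr 1
  push_cast
  ring

theorem rho_fl (t : ℝ) (x : E6) : rho6 (fl t x) = Real.exp (4 * t) * rho6 x := by
  have h1 : Real.exp (4 * t) = Real.exp t ^ 4 := by
    rw [← Real.exp_nat_mul]
    norm_num
  have h2 := exp_half_sq t
  simp only [rho6, m6, fl, Matrix.cons_val]
  rw [h1, mul_pow (Real.exp (t / 2)), mul_pow (Real.exp (t / 2)), h2]
  ring

theorem h_fl (t : ℝ) (x : E6) : h6 (fl t x) = Real.exp (4 * t) * h6 x := by
  have h1 : Real.exp (4 * t) = Real.exp t ^ 4 := by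
    rw [← Real.exp_nat_mul]
    norm_num
  have h2 := exp_half_sq t
  have h3 : (Real.exp (t / 2) * x 4) ^ 8 = Real.exp t ^ 4 * x 4 ^ 8 := by
    rw [← h2]
    ring
  simp only [h6, m6, fl, Matrix.cons_val]
  rw [h1, h3]
  ring

theorem rho_Z6 (x : E6) : fderiv ℝ rho6 x (Z6 x) = 4 * rho6 x := by
  have h1 := flow_deriv6 x 0
  rw [flow_zero6] at h1
  have h2 : HasFDerivAt rho6 (fderiv ℝ rho6 x) ((fun s => fl s x) 0) := by
    change HasFDerivAt rho6 (fderiv ℝ rho6 x) (fl 0 x)
    rw [flow_zero6]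
    exact ((rho_smooth6.differentiable (by simp)) x).hasFDerivAt
  have h3 := h2.comp_hasDerivAt (0 : ℝ) h1
  have h4 : HasDerivAt (fun s : ℝ => Real.exp (4 * s) * rho6 x) (4 * rho6 x) 0 := by
    have := (((hasDerivAt_id (0 : ℝ)).const_mul 4).exp).mul_const (rho6 x)
    simpa using this
  have h5 : (rho6 ∘ fun s => fl s x) = fun s : ℝ => Real.exp (4 * s) * rho6 x := by
    funext s
    exact rho_fl s x
  rw [h5] at h3
  exact h3.unique h4

theorem C_fl (t : ℝ) (x : E6) : fl t x ∈ C6 ↔ x ∈ C6 := by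
  have h1 : (0 : ℝ) < Real.exp t := Real.exp_pos t
  have h2 : Real.exp (t / 2) ≠ 0 := (Real.exp_pos _).ne'
  have h3 : (0 : ℝ) < Real.exp (4 * t) := Real.exp_pos _
  have e3 : fl t x 3 = Real.exp t * x 3 := by simp [fl]
  have e4 : fl t x 4 = Real.exp (t / 2) * x 4 := by simp [fl]
  have e5 : fl t x 5 = Real.exp (t / 2) * x 5 := by simp [fl]
  simp only [C6, U6, mem_ofPred_eq, h_fl, e3, e4, e5]
  have h7 : Real.exp (4 * t) * h6 x ≤ 0 ↔ h6 x ≤ 0 := by
    constructor
    · intro h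
      by_contra h8
      exact absurd h (not_le.mpr (mul_pos h3 (not_le.mp h8)))
    · intro h
      exact mul_nonpos_of_nonneg_of_nonpos h3.le h
  rw [mul_pos_iff_of_pos_left h1, mul_ne_zero_iff, mul_eq_zero, h7]
  tauto

end Pool.Agent.LF
end

section

/-!
# The Liouville manifold `X6 = F^ x C`
-/

open Set Filter Topology
open scoped ContDiff

namespace Pool.Agent.LF

/-- the Liouville manifold `F^ x C` -/
noncomputable def X6 : Liouville E6 3 where
  toQMan := Q6
  dim := by simp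
  lam := lam6
  Z := Z6
  flow := fl
  rho := rho6
  lam_smooth := lam_smooth6.contDiffOn
  lam_inv := lam_inv6
  nondeg := fun x _ v hv => nondeg6 v fun w => by rw [← dlam6 x]; exact hv w
  Z_smooth := Z_smooth6.contDiffOn
  Z_spec := fun x _ w => by rw [dlam6]; exact Z_spec6 x w
  flow_mem := flow_mem6
  flow_zero := fun x _ => flow_zero6 x
  flow_deriv := fun x _ t => flow_deriv6 x t
  rho_smooth := rho_smooth6.contDiffOn
  rho_inv := fun g hg x _ => rho_inv6 g hg x
  rho_proper := rho_proper6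
  rho_conv := by
    intro x hx h
    rw [rho_Z6]; linarith

end Pool.Agent.LF
end

section

/-!
# Task LogA: homotopy lifting for `exp`, Tietze extension

Mathlib: `Complex.isCoveringMap_exp` (Mathlib/Analysis/Complex/CoveringMap.lean),
`IsCoveringMap.liftHomotopy` and friends (Mathlib/Topology/Homotopy/Lifting.lean).
-/

open Set Filter Topology

namespace Pool.Agent.LF

variable {E : Type} [TopologicalSpace E]

/-- every nonvanishing continuous function on `M` has a continuous logarithm -/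
def HasLog (M : Set E) : Prop :=
  ∀ A : E → ℂ, ContinuousOn A M → (∀ x ∈ M, A x ≠ 0) →
    ∃ f : E → ℂ, ContinuousOn f M ∧ ∀ x ∈ M, Complex.exp (f x) = A x

/-- homotopy lifting for `exp`, for functions on a set -/
theorem log_homotopyOn (M : Set E) (c : E → ℝ → ℂ)
    (hc : ContinuousOn (fun p : E × ℝ => c p.1 p.2) (M ×ˢ Icc (0 : ℝ) 1))
    (h0 : ∀ x ∈ M, ∀ s ∈ Icc (0 : ℝ) 1, c x s ≠ 0)
    (f₀ : E → ℂ) (hf₀ : ContinuousOn f₀ M) (hf : ∀ x ∈ M, Complex.exp (f₀ x) = c x 0) :
    ∃ f : E → ℝ → ℂ, ContinuousOn (fun p : E × ℝ => f p.1 p.2) (M ×ˢ Icc (0 : ℝ) 1) ∧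
      (∀ x ∈ M, ∀ s ∈ Icc (0 : ℝ) 1, Complex.exp (f x s) = c x s) ∧
      ∀ x ∈ M, f x 0 = f₀ x := by
  classical
  -- the homotopy on the subtype
  have hcont : Continuous (fun q : unitInterval × M =>
      (⟨c q.2 q.1, h0 q.2 q.2.2 q.1 q.1.2⟩ : {z : ℂ // z ≠ 0})) := by
    apply Continuous.subtype_mk
    have : Continuous (fun q : unitInterval × M => ((q.2 : E), (q.1 : ℝ))) := by fun_prop
    exact hc.comp_continuous this (fun q => ⟨q.2.2, q.1.2⟩)
  let H : C(unitInterval × M, {z : ℂ // z ≠ 0}) := ⟨_, hcont⟩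
  let f : C(M, ℂ) := ⟨fun x => f₀ x, hf₀.comp_continuous continuous_subtype_val (fun x => x.2)⟩
  have H0 : ∀ a : M, H (0, a) = (⟨_, (f a).exp_ne_zero⟩ : {z : ℂ // z ≠ 0}) := by
    intro a
    apply Subtype.ext
    change c a ((0 : unitInterval) : ℝ) = Complex.exp (f₀ a)
    rw [hf a a.2]
    simp
  let L := Complex.isCoveringMap_exp.liftHomotopy H f H0
  refine ⟨fun x s => if h : x ∈ M ∧ s ∈ Icc (0 : ℝ) 1 then L (⟨s, h.2⟩, ⟨x, h.1⟩) else 0, ?_, ?_, ?_⟩
  · rw [continuousOn_iff_continuous_restrict]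
    have h1 : Continuous (fun q : (M ×ˢ Icc (0 : ℝ) 1 : Set (E × ℝ)) =>
        L (⟨q.1.2, q.2.2⟩, ⟨q.1.1, q.2.1⟩)) := by
      apply L.continuous.comp
      fun_prop
    refine h1.congr (fun q => ?_)
    simp only [Set.restrict_apply]
    rw [dif_pos ⟨q.2.1, q.2.2⟩]
  · intro x hx s hs
    simp only
    rw [dif_pos ⟨hx, hs⟩]
    have := congrFun (Complex.isCoveringMap_exp.liftHomotopy_lifts H f H0) (⟨s, hs⟩, ⟨x, hx⟩)
    exact congrArg Subtype.val this
  · intro x hx
    simp only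
    rw [dif_pos ⟨hx, by simp⟩]
    have := Complex.isCoveringMap_exp.liftHomotopy_zero H f H0 ⟨x, hx⟩
    exact this

/-- Tietze extension for functions on sets of a metric space -/
theorem tietzeOn {F : Type} [MetricSpace F] {M T' : Set F} (hT' : IsClosed T') (f : F → ℂ)
    (hf : ContinuousOn f (M ∩ T')) :
    ∃ g : F → ℂ, ContinuousOn g M ∧ ∀ x ∈ M ∩ T', g x = f x := by
  classical
  let S : Set M := (fun x : M => (x : F)) ⁻¹' T'
  have hS : IsClosed S := hT'.preimage continuous_subtype_val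
  let f1 : C(S, ℂ) := ⟨fun x => f x, by
    apply hf.comp_continuous (by fun_prop)
    intro x
    exact ⟨x.1.2, x.2⟩⟩
  obtain ⟨g, hg⟩ := f1.exists_restrict_eq hS
  refine ⟨fun x => if h : x ∈ M then g ⟨x, h⟩ else 0, ?_, ?_⟩
  · rw [continuousOn_iff_continuous_restrict]
    refine g.continuous.congr (fun q => ?_)
    simp only [Set.restrict_apply]
    rw [dif_pos q.2]
  · intro x hx
    simp only
    rw [dif_pos hx.1]
    have := DFunLike.congr_fun hg (⟨⟨x, hx.1⟩, hx.2⟩ : S)
    simpa [f1] using this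

end Pool.Agent.LF
end

section

/-! # Task Rect: induction on rectangles (bisection) -/

open Set Filter Topology

namespace Pool.Agent.LF

/-- closed rectangle `[a, b] x [c, d]` -/
def Rec (a b c d : ℝ) : Set ℂ := {z | a ≤ z.re ∧ z.re ≤ b ∧ c ≤ z.im ∧ z.im ≤ d}

theorem isClosed_rec (a b c d : ℝ) : IsClosed (Rec a b c d) := by
  have h : Rec a b c d = ({z : ℂ | a ≤ z.re} ∩ {z : ℂ | z.re ≤ b}) ∩
      ({z : ℂ | c ≤ z.im} ∩ {z : ℂ | z.im ≤ d}) := by
    ext z
    simp only [Rec, mem_ofPred_eq, mem_inter_iff]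
    tauto
  rw [h]
  exact ((isClosed_le continuous_const Complex.continuous_re).inter
    (isClosed_le Complex.continuous_re continuous_const)).inter
    ((isClosed_le continuous_const Complex.continuous_im).inter
    (isClosed_le Complex.continuous_im continuous_const))

theorem convex_rec (a b c d : ℝ) : Convex ℝ (Rec a b c d) := by
  intro x hx y hy s t hs ht hst
  obtain ⟨hx1, hx2, hx3, hx4⟩ := hx
  obtain ⟨hy1, hy2, hy3, hy4⟩ := hy
  have hs' : s = 1 - t := by linarith
  refine ⟨?_, ?_, ?_, ?_⟩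
  all_goals
    simp only [Complex.add_re, Complex.add_im, Complex.real_smul, Complex.mul_re,
      Complex.mul_im, Complex.ofReal_re, Complex.ofReal_im, zero_mul, sub_zero, add_zero]
  · have h1 := mul_le_mul_of_nonneg_left hx1 hs
    have h2 := mul_le_mul_of_nonneg_left hy1 ht
    have h3 : s * a + t * a = a := by rw [← add_mul, hst, one_mul]
    linarith
  · have h1 := mul_le_mul_of_nonneg_left hx2 hs
    have h2 := mul_le_mul_of_nonneg_left hy2 ht
    have h3 : s * b + t * b = b := by rw [← add_mul, hst, one_mul]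
    linarith
  · have h1 := mul_le_mul_of_nonneg_left hx3 hs
    have h2 := mul_le_mul_of_nonneg_left hy3 ht
    have h3 : s * c + t * c = c := by rw [← add_mul, hst, one_mul]
    linarith
  · have h1 := mul_le_mul_of_nonneg_left hx4 hs
    have h2 := mul_le_mul_of_nonneg_left hy4 ht
    have h3 : s * d + t * d = d := by rw [← add_mul, hst, one_mul]
    linarith

/-- If `P` holds for all small rectangles containing a given point, and is inherited by a
rectangle from its two halves and their common edge, then it holds for all rectangles. -/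
theorem rec_induction {P : Set ℂ → Prop}
    (hloc : ∀ z : ℂ, ∃ e > 0, ∀ a b c d : ℝ, z ∈ Rec a b c d →
      Rec a b c d ⊆ Metric.closedBall z e → P (Rec a b c d))
    (hv : ∀ a b c d t : ℝ, a ≤ t → t ≤ b → c ≤ d → P (Rec a t c d) → P (Rec t b c d) →
      P (Rec t t c d) → P (Rec a b c d))
    (hh : ∀ a b c d t : ℝ, a ≤ b → c ≤ t → t ≤ d → P (Rec a b c t) → P (Rec a b t d) →
      P (Rec a b t t) → P (Rec a b c d)) :
    ∀ a b c d : ℝ, a ≤ b → c ≤ d → P (Rec a b c d) := by
  -- one step of the bisection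
  have stepv : ∀ a b c d : ℝ, a ≤ b → c ≤ d → ¬ P (Rec a b c d) →
      ∃ a' b' : ℝ, a ≤ a' ∧ a' ≤ b' ∧ b' ≤ b ∧ b' - a' ≤ (b - a) / 2 ∧ ¬ P (Rec a' b' c d) := by
    intro a b c d hab hcd hP
    by_contra hcon
    push Not at hcon
    refine hP (hv a b c d ((a + b) / 2) (by linarith) (by linarith) hcd ?_ ?_ ?_)
    · exact hcon a ((a + b) / 2) le_rfl (by linarith) (by linarith) (by linarith)
    · exact hcon ((a + b) / 2) b (by linarith) (by linarith) le_rfl (by linarith)
    · exact hcon ((a + b) / 2) ((a + b) / 2) (by linarith) le_rfl (by linarith) (by linarith)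
  have steph : ∀ a b c d : ℝ, a ≤ b → c ≤ d → ¬ P (Rec a b c d) →
      ∃ c' d' : ℝ, c ≤ c' ∧ c' ≤ d' ∧ d' ≤ d ∧ d' - c' ≤ (d - c) / 2 ∧ ¬ P (Rec a b c' d') := by
    intro a b c d hab hcd hP
    by_contra hcon
    push Not at hcon
    refine hP (hh a b c d ((c + d) / 2) hab (by linarith) (by linarith) ?_ ?_ ?_)
    · exact hcon c ((c + d) / 2) le_rfl (by linarith) (by linarith) (by linarith)
    · exact hcon ((c + d) / 2) d (by linarith) (by linarith) le_rfl (by linarith)
    · exact hcon ((c + d) / 2) ((c + d) / 2) (by linarith) le_rfl (by linarith) (by linarith)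
  have step : ∀ q : ℝ × ℝ × ℝ × ℝ, q.1 ≤ q.2.1 ∧ q.2.2.1 ≤ q.2.2.2 ∧
      ¬ P (Rec q.1 q.2.1 q.2.2.1 q.2.2.2) →
      ∃ r : ℝ × ℝ × ℝ × ℝ, (r.1 ≤ r.2.1 ∧ r.2.2.1 ≤ r.2.2.2 ∧
        ¬ P (Rec r.1 r.2.1 r.2.2.1 r.2.2.2)) ∧
        q.1 ≤ r.1 ∧ r.2.1 ≤ q.2.1 ∧ q.2.2.1 ≤ r.2.2.1 ∧ r.2.2.2 ≤ q.2.2.2 ∧
        r.2.1 - r.1 ≤ (q.2.1 - q.1) / 2 ∧ r.2.2.2 - r.2.2.1 ≤ (q.2.2.2 - q.2.2.1) / 2 := by
    rintro ⟨a, b, c, d⟩ ⟨h1, h2, h3⟩
    obtain ⟨a', b', k1, k2, k3, k4, k5⟩ := stepv a b c d h1 h2 h3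
    obtain ⟨c', d', l1, l2, l3, l4, l5⟩ := steph a' b' c d k2 h2 k5
    exact ⟨(a', b', c', d'), ⟨k2, l2, l5⟩, k1, k3, l1, l3, k4, l4⟩
  intro a b c d hab hcd
  by_contra hP
  choose! f hf using step
  obtain ⟨s, hs0, hs⟩ : ∃ s : ℕ → ℝ × ℝ × ℝ × ℝ, s 0 = (a, b, c, d) ∧ ∀ n, s (n + 1) = f (s n) :=
    ⟨fun n => Nat.rec (a, b, c, d) (fun _ q => f q) n, rfl, fun n => rfl⟩
  have hgood : ∀ n, (s n).1 ≤ (s n).2.1 ∧ (s n).2.2.1 ≤ (s n).2.2.2 ∧
      ¬ P (Rec (s n).1 (s n).2.1 (s n).2.2.1 (s n).2.2.2) := by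
    intro n
    induction n with
    | zero => rw [hs0]; exact ⟨hab, hcd, hP⟩
    | succ n ih => rw [hs n]; exact (hf (s n) ih).1
  have hnext : ∀ n, (s n).1 ≤ (s (n + 1)).1 ∧ (s (n + 1)).2.1 ≤ (s n).2.1 ∧
      (s n).2.2.1 ≤ (s (n + 1)).2.2.1 ∧ (s (n + 1)).2.2.2 ≤ (s n).2.2.2 ∧
      (s (n + 1)).2.1 - (s (n + 1)).1 ≤ ((s n).2.1 - (s n).1) / 2 ∧
      (s (n + 1)).2.2.2 - (s (n + 1)).2.2.1 ≤ ((s n).2.2.2 - (s n).2.2.1) / 2 := by
    intro n
    rw [hs n]
    exact (hf (s n) (hgood n)).2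
  have hma : Monotone fun n => (s n).1 := monotone_nat_of_le_succ fun n => (hnext n).1
  have hmb : Antitone fun n => (s n).2.1 := antitone_nat_of_succ_le fun n => (hnext n).2.1
  have hmc : Monotone fun n => (s n).2.2.1 := monotone_nat_of_le_succ fun n => (hnext n).2.2.1
  have hmd : Antitone fun n => (s n).2.2.2 :=
    antitone_nat_of_succ_le fun n => (hnext n).2.2.2.1
  have hab' : ∀ m n, (s m).1 ≤ (s n).2.1 := by
    intro m n
    have h1 : (s m).1 ≤ (s (max m n)).1 := hma (le_max_left m n)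
    have h2 : (s (max m n)).2.1 ≤ (s n).2.1 := hmb (le_max_right m n)
    exact h1.trans ((hgood _).1.trans h2)
  have hcd' : ∀ m n, (s m).2.2.1 ≤ (s n).2.2.2 := by
    intro m n
    have h1 : (s m).2.2.1 ≤ (s (max m n)).2.2.1 := hmc (le_max_left m n)
    have h2 : (s (max m n)).2.2.2 ≤ (s n).2.2.2 := hmd (le_max_right m n)
    exact h1.trans ((hgood _).2.1.trans h2)
  obtain ⟨z, hz⟩ : ∃ z : ℂ, z = ⟨⨆ n, (s n).1, ⨆ n, (s n).2.2.1⟩ := ⟨_, rfl⟩
  have hza : ∀ n, (s n).1 ≤ z.re := fun n => by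
    rw [hz]; exact le_ciSup (f := fun n => (s n).1) ⟨(s 0).2.1, by rintro _ ⟨m, rfl⟩; exact hab' m 0⟩ n
  have hzb : ∀ n, z.re ≤ (s n).2.1 := fun n => by
    rw [hz]; exact ciSup_le fun m => hab' m n
  have hzc : ∀ n, (s n).2.2.1 ≤ z.im := fun n => by
    rw [hz]
    exact le_ciSup (f := fun n => (s n).2.2.1) ⟨(s 0).2.2.2, by rintro _ ⟨m, rfl⟩; exact hcd' m 0⟩ n
  have hzd : ∀ n, z.im ≤ (s n).2.2.2 := fun n => by
    rw [hz]; exact ciSup_le fun m => hcd' m n
  have hw : ∀ n, (s n).2.1 - (s n).1 + ((s n).2.2.2 - (s n).2.2.1) ≤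
      ((b - a) + (d - c)) * (1 / 2) ^ n := by
    intro n
    induction n with
    | zero => rw [hs0]; simp
    | succ n ih =>
      obtain ⟨-, -, -, -, h5, h6⟩ := hnext n
      rw [pow_succ]
      linarith
  obtain ⟨e, he, hP'⟩ := hloc z
  have hlim : Tendsto (fun n : ℕ => ((b - a) + (d - c)) * (1 / 2 : ℝ) ^ n) atTop (𝓝 0) := by
    have := (tendsto_pow_atTop_nhds_zero_of_lt_one (r := (1 / 2 : ℝ)) (by norm_num)
      (by norm_num)).const_mul ((b - a) + (d - c))
    simpa using this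
  obtain ⟨n, hn⟩ := (hlim.eventually (gt_mem_nhds he)).exists
  refine (hgood n).2.2 (hP' _ _ _ _ ⟨hza n, hzb n, hzc n, hzd n⟩ ?_)
  rintro w ⟨w1, w2, w3, w4⟩
  rw [Metric.mem_closedBall, Complex.dist_eq]
  have h1 : |(w - z).re| ≤ (s n).2.1 - (s n).1 := by
    rw [Complex.sub_re, abs_le]
    constructor <;> linarith [hza n, hzb n]
  have h2 : |(w - z).im| ≤ (s n).2.2.2 - (s n).2.2.1 := by
    rw [Complex.sub_im, abs_le]
    constructor <;> linarith [hzc n, hzd n]
  have h3 := Complex.norm_le_abs_re_add_abs_im (w - z)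
  have h4 := hw n
  linarith

end Pool.Agent.LF
end

section

/-! # Task ExD: the Liouville hypersurface -/

open Set Filter Topology
open scoped ContDiff

namespace Pool.Agent.LF

private theorem mem_ends6 (x : E6) : x ∈ X6.ends ↔ x ∈ U6 ∧ 0 < rho6 x := by
  change (x ∈ U6 ∧ ∃ t, 1 ≤ rho6 (fl t x)) ↔ _
  refine and_congr_right fun _ => ⟨?_, fun h => ?_⟩
  · rintro ⟨t, ht⟩
    rw [rho_fl] at ht
    by_contra h
    have := mul_nonpos_of_nonneg_of_nonpos (Real.exp_pos (4 * t)).le (not_lt.mp h)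
    linarith
  · refine ⟨-(Real.log (rho6 x)) / 4, ?_⟩
    rw [rho_fl, show 4 * (-(Real.log (rho6 x)) / 4) = -Real.log (rho6 x) by ring, Real.exp_neg,
      Real.exp_log h, inv_mul_cancel₀ h.ne']

/-- the trajectories going to infinity are those with `rho > 0` -/
theorem ends6 : X6.ends = {x | x ∈ U6 ∧ 0 < rho6 x} := by
  ext x
  exact mem_ends6 x

theorem isContactScale6 : IsContactScale X6 s6 := by
  refine ⟨?_, ?_, ?_, ?_⟩
  · have h1 : ContDiffOn ℝ ∞ rho6 X6.ends := rho_smooth6.contDiffOn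
    have h2 : ContDiffOn ℝ ∞ (fun x => Real.sqrt (rho6 x)) X6.ends :=
      h1.sqrt fun x hx => ((mem_ends6 x).mp hx).2.ne'
    exact h2.sqrt fun x hx => (Real.sqrt_pos.mpr ((mem_ends6 x).mp hx).2).ne'
  · intro x hx
    exact Real.sqrt_pos.mpr (Real.sqrt_pos.mpr ((mem_ends6 x).mp hx).2)
  · intro g hg x _
    rw [s6, s6, rho_inv6 g hg]
  · intro t x hx
    change s6 (fl t x) = _
    have h1 : Real.exp (4 * t) = (Real.exp t ^ 2) ^ 2 := by
      rw [← pow_mul, ← Real.exp_nat_mul]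
      norm_num
    rw [s6, s6, rho_fl, h1, Real.sqrt_mul (by positivity), Real.sqrt_sq (by positivity),
      Real.sqrt_mul (by positivity), Real.sqrt_sq (by positivity)]

private theorem fderiv_rho6 (x v : E6) : fderiv ℝ rho6 x v =
    2 * m6 x * (x 3 * v 2 + x 2 * v 3) + 8 * (x 4 ^ 2 + x 5 ^ 2) ^ 3 * (x 4 * v 4 + x 5 * v 5) := by
  have hi : ∀ i : Fin 6, HasFDerivAt (fun y : E6 => y i)
      (ContinuousLinearMap.proj (R := ℝ) (φ := fun _ : Fin 6 => ℝ) i) x :=
    fun i => hasFDerivAt_apply i x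
  have H : HasFDerivAt rho6 _ x :=
    (((hi 2).mul (hi 3)).pow 2).add ((((hi 4).pow 2).add ((hi 5).pow 2)).pow 4)
  rw [H.fderiv]
  simp [m6]
  ring

private theorem fderiv_h6 (x v : E6) : fderiv ℝ h6 x v =
    2 * m6 x * (x 3 * v 2 + x 2 * v 3) - 8 * x 4 ^ 7 * v 4 := by
  have hi : ∀ i : Fin 6, HasFDerivAt (fun y : E6 => y i)
      (ContinuousLinearMap.proj (R := ℝ) (φ := fun _ : Fin 6 => ℝ) i) x :=
    fun i => hasFDerivAt_apply i x
  have H : HasFDerivAt h6 _ x := (((hi 2).mul (hi 3)).pow 2).sub ((hi 4).pow 8)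
  rw [H.fderiv]
  simp [m6]
  ring

private theorem h_smooth6 : ContDiff ℝ ∞ h6 := by
  unfold h6 m6
  fun_prop

private theorem fderiv_b6 (x v : E6) : fderiv ℝ (fun y : E6 => y 5) x v = v 5 := by
  rw [(hasFDerivAt_apply (𝕜 := ℝ) (F' := fun _ : Fin 6 => ℝ) 5 x).fderiv]
  rfl

private theorem rho_of_s6 (x : E6) (h : s6 x = 1) : rho6 x = 1 := by
  rw [s6, Real.sqrt_eq_one, Real.sqrt_eq_one] at h
  exact h

private theorem fderiv_s6 (x v : E6) (h : s6 x = 1) :
    fderiv ℝ s6 x v = 1 / 4 * fderiv ℝ rho6 x v := by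
  have h1 := rho_of_s6 x h
  have h2 : HasFDerivAt rho6 (fderiv ℝ rho6 x) x :=
    ((rho_smooth6.differentiable (by simp)) x).hasFDerivAt
  have h3 := (h2.sqrt (by rw [h1]; norm_num)).sqrt (by rw [h1]; norm_num)
  have h4 : HasFDerivAt s6 _ x := h3
  rw [h4.fderiv, h1]
  simp
  ring

/-- two parallel copies of the page are a Liouville hypersurface -/
theorem hypersurface6 : IsLiouvilleHypersurface X6 C6 h6 := by
  have hrho : ∀ x : E6, x 4 ≠ 0 → 0 < rho6 x := by
    intro x hx
    have h1 : 0 < (x 4 ^ 2 + x 5 ^ 2) ^ 4 := by positivity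
    have h2 : 0 ≤ m6 x ^ 2 := sq_nonneg _
    rw [rho6]
    linarith
  refine ⟨?_, ?_, ?_, ?_, ?_, ?_, ?_, ⟨4, fun t x _ => h_fl t x⟩, ?_⟩
  · intro x hx
    exact (mem_ends6 x).mpr ⟨hx.1, hrho x hx.2.1⟩
  · refine ⟨![0, 0, 0, 1, 1, 0], ?_⟩
    simp [C6, U6, h6, m6]
  · intro g hg x hx
    exact (C_G6 g hg x hx.1).mpr hx
  · intro t x hx
    exact (C_fl t x).mpr hx
  · intro x hx hcl
    obtain ⟨hU, hr⟩ := (mem_ends6 x).mp hx
    have hclosed : IsClosed {y : E6 | y 5 = 0 ∧ h6 y ≤ 0} := by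
      have e1 : IsClosed {y : E6 | y 5 = 0} := isClosed_eq (continuous_apply 5) continuous_const
      have e2 : IsClosed {y : E6 | h6 y ≤ 0} := isClosed_le h_smooth6.continuous continuous_const
      exact e1.inter e2
    have hsub : C6 ⊆ {y : E6 | y 5 = 0 ∧ h6 y ≤ 0} := fun y hy => ⟨hy.2.2.1, hy.2.2.2⟩
    have h1 := closure_minimal hsub hclosed hcl
    refine ⟨hU, ?_, h1.1, h1.2⟩
    intro h4
    have h5 := h1.2
    have h6' : m6 x ^ 2 ≤ 0 := by
      have : h6 x = m6 x ^ 2 := by rw [h6, h4]; ring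
      rw [← this]
      exact h5
    have h7 : rho6 x = m6 x ^ 2 := by
      rw [rho6, h4, h1.1]
      ring
    linarith
  · exact h_smooth6.contDiffOn
  · intro g hg x _
    exact h_G6 g hg x
  · refine ⟨s6, isContactScale6, ?_, ?_⟩
    · obtain ⟨K, hK, hKc, hK'⟩ := rho_proper6 1
      exact ⟨K, hK, hKc, fun x hx => hK' x ⟨hx.1.1, (rho_of_s6 x hx.2).le⟩⟩
    · intro x hx hs
      obtain ⟨hU, hx4, hx5, hh⟩ := hx
      have hds : ∀ v : E6, v 5 = 0 → (fderiv ℝ s6 x v = 0 ↔
          2 * m6 x * (x 3 * v 2 + x 2 * v 3) + 8 * x 4 ^ 7 * v 4 = 0) := by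
        intro v hv
        rw [fderiv_s6 x v hs, fderiv_rho6, hx5, hv]
        have : 2 * m6 x * (x 3 * v 2 + x 2 * v 3) +
            8 * (x 4 ^ 2 + 0 ^ 2) ^ 3 * (x 4 * v 4 + 0 * 0) =
            2 * m6 x * (x 3 * v 2 + x 2 * v 3) + 8 * x 4 ^ 7 * v 4 := by ring
        rw [this]
        constructor
        · intro h
          linarith
        · intro h
          rw [h, mul_zero]
      have hu7 : x 4 ^ 7 ≠ 0 := pow_ne_zero _ hx4
      -- test vectors
      have key : ∀ (v : E6) (f : E6 → ℝ), fderiv ℝ (fun y : E6 => y 5) x v = 0 →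
          (∀ w, fderiv ℝ (fun y : E6 => y 5) x w = 0 → fderiv ℝ s6 x w = 0 →
            dlam X6.lam x v w = f w) →
          v 5 = 0 ∧ v 2 = f ![1, 0, 0, 0, 0, 0] ∧ v 3 = f ![0, 1, 0, 0, 0, 0] ∧
          -v 0 = f ![0, 0, 1, 0, -(2 * m6 x * x 3) / (8 * x 4 ^ 7), 0] ∧
          -v 1 = f ![0, 0, 0, 1, -(2 * m6 x * x 2) / (8 * x 4 ^ 7), 0] := by
        intro v f hv hw
        have hv5 : v 5 = 0 := by rw [← fderiv_b6 x v]; exact hv
        have hw' : ∀ w : E6, w 5 = 0 →
            2 * m6 x * (x 3 * w 2 + x 2 * w 3) + 8 * x 4 ^ 7 * w 4 = 0 → om v w = f w := by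
          intro w hw5 hw2
          have h1 := hw w (by rw [fderiv_b6]; exact hw5) ((hds w hw5).mpr hw2)
          have h2 : dlam X6.lam x v w = om v w := dlam6 x v w
          rw [← h2]
          exact h1
        refine ⟨hv5, ?_, ?_, ?_, ?_⟩
        · have := hw' ![1, 0, 0, 0, 0, 0] (by simp) (by simp)
          rw [← this]
          simp [om]
        · have := hw' ![0, 1, 0, 0, 0, 0] (by simp) (by simp)
          rw [← this]
          simp [om]
        · have := hw' ![0, 0, 1, 0, -(2 * m6 x * x 3) / (8 * x 4 ^ 7), 0] (by simp)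
            (by simp only [Matrix.cons_val]; field_simp; ring)
          rw [← this]
          simp [om, hv5]
        · have := hw' ![0, 0, 0, 1, -(2 * m6 x * x 2) / (8 * x 4 ^ 7), 0] (by simp)
            (by simp only [Matrix.cons_val]; field_simp; ring)
          rw [← this]
          simp [om, hv5]
      refine ⟨fun y => y 5, {y | y ∈ X6.ends ∧ y 4 ≠ 0}, ?_, ?_, ?_, ?_, ?_, ?_, ?_, ?_, ?_⟩
      · rw [ends6]
        have e1 : IsOpen {y : E6 | 0 < rho6 y} :=
          isOpen_lt continuous_const rho_smooth6.continuous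
        have e2 : IsOpen {y : E6 | y 4 ≠ 0} := isOpen_ne_fun (continuous_apply 4) continuous_const
        exact (isOpen_U6.inter e1).inter e2
      · exact ⟨(mem_ends6 x).mpr ⟨hU, hrho x hx4⟩, hx4⟩
      · exact fun y hy => hy.1
      · exact ContDiff.contDiffOn (by fun_prop)
      · intro y hy
        have hyU := ((mem_ends6 y).mp hy.1).1
        constructor
        · intro h
          exact ⟨h.2.2.1, h.2.2.2⟩
        · intro h
          exact ⟨hyU, hy.2, h.1, h.2⟩
      · refine ⟨![0, 0, 0, 0, 0, 1], ?_⟩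
        rw [fderiv_b6]
        simp
      · intro _
        refine ⟨![0, 0, 0, 0, 1, 0], ?_, ?_⟩
        · rw [fderiv_b6]
          simp
        · rw [fderiv_h6]
          simp [hx4]
      · intro v hv1 hv2 hv3
        obtain ⟨a5, a2, a3, a0, a1⟩ := key v (fun _ => 0) hv1 hv3
        have h1 := (hds v a5).mp hv2
        rw [a2, a3] at h1
        have h4 : v 4 = 0 := by
          have : 8 * x 4 ^ 7 * v 4 = 0 := by linarith
          rcases mul_eq_zero.mp this with h | h
          · exact absurd h (mul_ne_zero (by norm_num) hu7)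
          · exact h
        ext i
        fin_cases i
        · simpa using a0
        · simpa using a1
        · simpa using a2
        · simpa using a3
        · simpa using h4
        · simpa using a5
      · intro hh0 v hv1 hv2 hv3
        obtain ⟨a5, a2, a3, -, -⟩ := key v (fun w => X6.lam x w) hv1 hv3
        have b2 : v 2 = x 2 := by
          rw [a2]
          change lam6 x _ = _
          simp [lam6]
        have b3 : v 3 = x 3 := by
          rw [a3]
          change lam6 x _ = _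
          simp [lam6]
        have h1 := (hds v a5).mp hv2
        rw [fderiv_h6]
        rw [b2, b3] at h1 ⊢
        have h2 : m6 x ^ 2 = x 4 ^ 8 := by
          rw [h6] at hh0
          linarith
        have h3 : 0 < x 4 ^ 8 := by positivity
        have h4 : m6 x * (x 3 * x 2) = m6 x ^ 2 := by rw [m6]; ring
        nlinarith

end Pool.Agent.LF
end

section

/-! # Task IntB: the group preserves Lebesgue measure -/

open Set Filter Topology MeasureTheory
open scoped ContDiff

namespace Pool.Agent.LF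

/-- the elements of `G6` preserve Lebesgue measure -/
theorem measurePreserving6 {g : E6 → E6} (hg : g ∈ G6) :
    MeasurePreserving g (volume : Measure E6) volume := by
  obtain ⟨k, a, b, rfl⟩ := hg
  set D : Fin 6 → ℝ := ![Real.goldenRatio ^ (2 * k), Real.goldenConj ^ (2 * k),
    Real.goldenConj ^ (2 * k), Real.goldenRatio ^ (2 * k), 1, 1] with hD
  set v : E6 := ![a + b * Real.goldenRatio, a + b * Real.goldenConj, 0, 0, 0, 0] with hv
  have hprod : Real.goldenRatio ^ (2 * k) * Real.goldenConj ^ (2 * k) = 1 := by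
    rw [← mul_zpow, Real.goldenRatio_mul_goldenConj, zpow_mul]
    norm_num
  have hdet : (Matrix.diagonal D).det = 1 := by
    rw [Matrix.det_diagonal, Fin.prod_univ_six]
    simp only [hD, Matrix.cons_val]
    calc _ = (Real.goldenRatio ^ (2 * k) * Real.goldenConj ^ (2 * k)) *
        (Real.goldenRatio ^ (2 * k) * Real.goldenConj ^ (2 * k)) := by ring
      _ = 1 := by rw [hprod]; norm_num
  have hL : MeasurePreserving (Matrix.toLin' (Matrix.diagonal D))
      (volume : Measure E6) volume := by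
    refine ⟨(LinearMap.continuous_of_finiteDimensional _).measurable, ?_⟩
    rw [Real.map_matrix_volume_pi_eq_smul_volume_pi (by rw [hdet]; norm_num), hdet]
    simp
  have hT : MeasurePreserving (fun x : E6 => x + v) volume volume :=
    measurePreserving_add_right volume v
  have hc : g6 k a b = (fun x : E6 => x + v) ∘ (Matrix.toLin' (Matrix.diagonal D)) := by
    funext x
    ext i
    simp only [Function.comp, Matrix.toLin'_apply, Pi.add_apply, Matrix.mulVec_diagonal]
    fin_cases i <;> simp [g6, hD, hv]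
  rw [hc]
  exact hT.comp hL

end Pool.Agent.LF
end
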