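import Pool.Agent.LF.HamA
import Pool.Agent.LF.Mg_MP_639418_gt.G001

section

/-! # Task HamB: smoothness and invariance of `BB`, `NN`, `RR` -/

open Set Filter Topology
open scoped ContDiff

namespace Pool.Agent.LF

private theorem fderiv_eq_d1_d2 (p : E6 → ℂ) (x v : E6) :
    fderiv ℝ p x v = ⟨d1 p x v, d2 p x v⟩ := by
  apply Complex.ext <;> simp [d1, d2]

/-- at a regular point with symplectic fibre the Poisson bracket is nonzero -/
theorem BB_ne {p : E6 → ℂ} (hp : IsLefschetz X6 p) {x : E6} (hx : x ∈ U6)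
    (hs : Function.Surjective (fderiv ℝ p x)) : BB p x ≠ 0 := by
  intro hB
  have h1 : d1 p x (ham (d1 p x)) = 0 := by
    rw [← om_ham (d1 p x) (ham (d1 p x)), om_self]
  have h2 : d2 p x (ham (d1 p x)) = 0 := hB
  have h3 : fderiv ℝ p x (ham (d1 p x)) = 0 := by
    rw [fderiv_eq_d1_d2, h1, h2]; rfl
  have h4 : ham (d1 p x) = 0 := by
    refine hp.fibre_symp x hx hs _ h3 fun w hw => ?_
    have : dlam X6.lam x (ham (d1 p x)) w = om (ham (d1 p x)) w := dlam6 x _ w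
    rw [this, om_ham]
    have := fderiv_eq_d1_d2 p x w
    rw [hw] at this
    have := congrArg Complex.re this
    simpa using this.symm
  obtain ⟨w, hw⟩ := hs 1
  have h5 : d1 p x w = 1 := by
    have := fderiv_eq_d1_d2 p x w
    rw [hw] at this
    have := congrArg Complex.re this
    simpa using this.symm
  have h6 : d1 p x w = 0 := by
    rw [← om_ham (d1 p x) w, h4]
    simp [om]
  rw [h6] at h5
  exact zero_ne_one h5

private theorem fd_cont {p : E6 → ℂ} (hp : ContDiffOn ℝ ∞ p U6) :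
    ContDiffOn ℝ ∞ (fderiv ℝ p) U6 :=
  hp.fderiv_of_isOpen isOpen_U6 (by simp)

private theorem d1_cont {p : E6 → ℂ} (hp : ContDiffOn ℝ ∞ p U6) :
    ContDiffOn ℝ ∞ (d1 p) U6 := by
  unfold d1
  exact contDiffOn_const.clm_comp (fd_cont hp)

private theorem d2_cont {p : E6 → ℂ} (hp : ContDiffOn ℝ ∞ p U6) :
    ContDiffOn ℝ ∞ (d2 p) U6 := by
  unfold d2
  exact contDiffOn_const.clm_comp (fd_cont hp)

private theorem ham_cont {l : E6 → (E6 →L[ℝ] ℝ)} {S : Set E6} (hl : ContDiffOn ℝ ∞ l S) :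
    ContDiffOn ℝ ∞ (fun x => ham (l x)) S := by
  rw [contDiffOn_pi]
  intro i
  have h : ∀ v : E6, ContDiffOn ℝ ∞ (fun x => l x v) S := fun v =>
    hl.clm_apply contDiffOn_const
  fin_cases i
  · exact (h _).neg
  · exact (h _).neg
  · exact h _
  · exact h _
  · exact h _
  · exact (h _).neg

theorem BB_cont {p : E6 → ℂ} (hp : ContDiffOn ℝ ∞ p U6) : ContDiffOn ℝ ∞ (BB p) U6 := by
  unfold BB
  exact (d2_cont hp).clm_apply (ham_cont (d1_cont hp))

theorem NN_cont {p : E6 → ℂ} (hp : ContDiffOn ℝ ∞ p U6) : ContDiffOn ℝ ∞ (NN p) U6 := by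
  unfold NN
  exact (((BB_cont hp).smul Z_smooth6.contDiffOn).sub
    (((d2_cont hp).clm_apply Z_smooth6.contDiffOn).smul (ham_cont (d1_cont hp)))).add
    (((d1_cont hp).clm_apply Z_smooth6.contDiffOn).smul (ham_cont (d2_cont hp)))

/-- invariance under the group; `g (x + v) = g x + fderiv ℝ g x v` by `fderiv6` -/
theorem fderiv_p_G {p : E6 → ℂ} (hp : ContDiffOn ℝ ∞ p U6)
    (hG : ∀ g ∈ G6, ∀ x ∈ U6, p (g x) = p x) {g : E6 → E6} (hg : g ∈ G6) {x : E6} (hx : x ∈ U6)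
    (v : E6) : fderiv ℝ p (g x) (fderiv ℝ g x v) = fderiv ℝ p x v := by
  have hgx : g x ∈ U6 := maps6 g hg x hx
  have h1 : DifferentiableAt ℝ p (g x) :=
    (hp.contDiffAt (isOpen_U6.mem_nhds hgx)).differentiableAt (by simp)
  have h2 : DifferentiableAt ℝ g x := (smooth6 g hg).contDiffAt.differentiableAt (by simp)
  have h3 : (p ∘ g) =ᶠ[𝓝 x] p := by
    filter_upwards [isOpen_U6.mem_nhds hx] with y hy
    exact hG g hg y hy
  have h4 := h3.fderiv_eq (𝕜 := ℝ)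
  rw [fderiv_comp x h1 h2] at h4
  rw [← h4]; rfl

private theorem fderiv_surj {g : E6 → E6} (hg : g ∈ G6) (x : E6) :
    Function.Surjective (fderiv ℝ g x) := by
  intro w
  obtain ⟨h, hh, h1, h2⟩ := inv_mem6 g hg
  refine ⟨h (g x + w) - x, ?_⟩
  rw [fderiv6 g hg]
  have : x + (h (g x + w) - x) = h (g x + w) := by abel
  rw [this, h2]; abel

private theorem om_sub_left (v v' w : E6) : om (v - v') w = om v w - om v' w := by
  simp only [om, Pi.sub_apply]; ring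

private theorem ham_G {g : E6 → E6} (hg : g ∈ G6) (x : E6) (l l' : E6 →L[ℝ] ℝ)
    (h : ∀ w, l' (fderiv ℝ g x w) = l w) : ham l' = fderiv ℝ g x (ham l) := by
  have h1 : ∀ w, om (ham l' - fderiv ℝ g x (ham l)) w = 0 := by
    intro w
    obtain ⟨w', rfl⟩ := fderiv_surj hg x w
    rw [om_sub_left, om_G6 g hg, om_ham, om_ham, h, sub_self]
  exact sub_eq_zero.1 (nondeg6 _ h1)

private theorem d1_G {p : E6 → ℂ} (hp : ContDiffOn ℝ ∞ p U6)
    (hG : ∀ g ∈ G6, ∀ x ∈ U6, p (g x) = p x) {g : E6 → E6} (hg : g ∈ G6) {x : E6} (hx : x ∈ U6)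
    (v : E6) : d1 p (g x) (fderiv ℝ g x v) = d1 p x v := by
  simp only [d1, ContinuousLinearMap.comp_apply, fderiv_p_G hp hG hg hx]

private theorem d2_G {p : E6 → ℂ} (hp : ContDiffOn ℝ ∞ p U6)
    (hG : ∀ g ∈ G6, ∀ x ∈ U6, p (g x) = p x) {g : E6 → E6} (hg : g ∈ G6) {x : E6} (hx : x ∈ U6)
    (v : E6) : d2 p (g x) (fderiv ℝ g x v) = d2 p x v := by
  simp only [d2, ContinuousLinearMap.comp_apply, fderiv_p_G hp hG hg hx]

theorem BB_G {p : E6 → ℂ} (hp : ContDiffOn ℝ ∞ p U6)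
    (hG : ∀ g ∈ G6, ∀ x ∈ U6, p (g x) = p x) {g : E6 → E6} (hg : g ∈ G6) {x : E6}
    (hx : x ∈ U6) : BB p (g x) = BB p x := by
  unfold BB
  rw [ham_G hg x (d1 p x) (d1 p (g x)) (fun w => d1_G hp hG hg hx w), d2_G hp hG hg hx]

theorem NN_G {p : E6 → ℂ} (hp : ContDiffOn ℝ ∞ p U6)
    (hG : ∀ g ∈ G6, ∀ x ∈ U6, p (g x) = p x) {g : E6 → E6} (hg : g ∈ G6) {x : E6}
    (hx : x ∈ U6) : NN p (g x) = fderiv ℝ g x (NN p x) := by
  unfold NN
  rw [BB_G hp hG hg hx, Z_G6 g hg,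
    ham_G hg x (d1 p x) (d1 p (g x)) (fun w => d1_G hp hG hg hx w),
    ham_G hg x (d2 p x) (d2 p (g x)) (fun w => d2_G hp hG hg hx w),
    d1_G hp hG hg hx, d2_G hp hG hg hx]
  simp only [map_add, map_sub, map_smul]

theorem RR_G {p : E6 → ℂ} (hp : ContDiffOn ℝ ∞ p U6)
    (hG : ∀ g ∈ G6, ∀ x ∈ U6, p (g x) = p x) {g : E6 → E6} (hg : g ∈ G6) {x : E6}
    (hx : x ∈ U6) (c : ℂ) : RR p (g x) c = fderiv ℝ g x (RR p x c) := by
  unfold RR
  rw [BB_G hp hG hg hx,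
    ham_G hg x (d1 p x) (d1 p (g x)) (fun w => d1_G hp hG hg hx w),
    ham_G hg x (d2 p x) (d2 p (g x)) (fun w => d2_G hp hG hg hx w)]
  simp only [map_sub, map_smul]

end Pool.Agent.LF
end

section

/-! # The horizontal data, the transport near a regular value, and `Big` -/

open Set Filter Topology
open scoped ContDiff

namespace Pool.Agent.LF

/-- horizontal data (part of `IsLefschetz`) -/
structure Hor (p : E6 → ℂ) (eta : E6 → ℝ) (Phi : E6 → ℂ → E6) : Prop where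
  cont : ContinuousOn eta U6
  inv : ∀ g ∈ G6, ∀ x ∈ U6, eta (g x) = eta x
  proper : ∀ c : ℝ, Q6.Bdd {x | x ∈ U6 ∧ eta x ≤ c ∧ ‖p x‖ ≤ c}
  Phi_cont : ContinuousOn (fun y : E6 × ℂ => Phi y.1 y.2) ({x | x ∈ U6 ∧ 1 < eta x} ×ˢ univ)
  reg : ∀ x ∈ U6, 1 < eta x → Function.Surjective (fderiv ℝ p x)
  Phi_self : ∀ x ∈ U6, 1 < eta x → Phi x (p x) = x
  Phi_mem : ∀ x ∈ U6, 1 < eta x → ∀ w, Phi x w ∈ U6 ∧ eta (Phi x w) = eta x ∧ p (Phi x w) = w
  Phi_G : ∀ x ∈ U6, 1 < eta x → ∀ w, ∀ g ∈ G6, Phi (g x) w = g (Phi x w)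

theorem exists_hor {p : E6 → ℂ} (hp : IsLefschetz X6 p) : ∃ eta Phi, Hor p eta Phi := by
  obtain ⟨eta, Phi, h1, h2, h3, _, h5, h6⟩ := hp.horizontal
  refine ⟨eta, Phi, h1, h2, h3, h5.continuousOn, fun x hx h => (h6 x hx h).1,
    fun x hx h => (h6 x hx h).2.2.1, fun x hx h w => ?_, fun x hx h w g hg => ?_⟩
  · exact ⟨((h6 x hx h).2.2.2.1 w).1, ((h6 x hx h).2.2.2.1 w).2.1, ((h6 x hx h).2.2.2.1 w).2.2.1⟩
  · exact ((h6 x hx h).2.2.2.1 w).2.2.2.2 g hg

/-- transport near the regular value `z₀` -/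
structure Ret (p : E6 → ℂ) (z₀ : ℂ) (e : ℝ) (T : E6 → ℂ → E6) : Prop where
  e_pos : 0 < e
  cont : ContinuousOn (fun y : E6 × ℂ => T y.1 y.2)
    (Fib U6 p (Metric.closedBall z₀ e) ×ˢ Metric.closedBall z₀ e)
  mem : ∀ x ∈ Fib U6 p (Metric.closedBall z₀ e), ∀ w ∈ Metric.closedBall z₀ e,
    T x w ∈ U6 ∧ p (T x w) = w
  self : ∀ x ∈ Fib U6 p (Metric.closedBall z₀ e), T x (p x) = x
  equiv : ∀ x ∈ Fib U6 p (Metric.closedBall z₀ e), ∀ w ∈ Metric.closedBall z₀ e,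
    ∀ g ∈ G6, T (g x) w = g (T x w)
  bdd : ∀ L : Set E6, Q6.Bdd L →
    Q6.Bdd {x | x ∈ Fib U6 p (Metric.closedBall z₀ e) ∧ T x z₀ ∈ L}

/-- everything which holds over `‖w‖ ≥ R₀` -/
structure Big (p : E6 → ℂ) (R₀ : ℝ) : Prop where
  pos : 0 < R₀
  surj : ∀ x ∈ U6, R₀ ≤ ‖p x‖ → Function.Surjective (fderiv ℝ p x)
  rad : ∀ x ∈ U6, R₀ ≤ ‖p x‖ → ∃ c : ℝ, 0 < c ∧ fderiv ℝ p x (Z6 x) = (c : ℂ) * p x
  skel : ∀ x ∈ U6, R₀ ≤ ‖p x‖ → 0 < rho6 x
  real : ∀ x ∈ C6, R₀ ≤ ‖p x‖ → 0 < (p x).re ∧ (p x).im = 0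
  out : ∀ x ∈ C6, R₀ ≤ ‖p x‖ → h6 x = 0 → ∀ v, fderiv ℝ p x v = 0 →
    (∀ w, fderiv ℝ p x w = 0 → om v w = lam6 x w) → 0 < fderiv ℝ h6 x v
  bddC : ∀ c : ℝ, Q6.Bdd {x | x ∈ C6 ∧ ‖p x‖ ≤ c}

end Pool.Agent.LF
end

section

/-! # Task BigR: existence of `R₀` -/

open Set Filter Topology
open scoped ContDiff

namespace Pool.Agent.LF

/-- exponential growth of the real part of `p` along the flow -/
private theorem BigR_grow {p : E6 → ℂ} (hL : IsLefschetz X6 p) {c : E6 → ℝ} {c0 t : ℝ}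
    (ht : 0 ≤ t) {y : E6} (hy : y ∈ U6)
    (h : ∀ s, 0 ≤ s → 0 < (p (fl s y)).re ∧ c0 ≤ c (fl s y) ∧
      fderiv ℝ p (fl s y) (Z6 (fl s y)) = (c (fl s y) : ℂ) * p (fl s y)) :
    (p y).re * Real.exp (c0 * t) ≤ (p (fl t y)).re := by
  have hd : ∀ s : ℝ, HasDerivAt (fun s => p (fl s y)) (fderiv ℝ p (fl s y) (Z6 (fl s y))) s := by
    intro s
    have h1 : fl s y ∈ U6 := flow_mem6 s y hy
    have h2 : ContDiffAt ℝ ∞ p (fl s y) :=
      (hL.smooth (fl s y) h1).contDiffAt (isOpen_U6.mem_nhds h1)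
    have h3 : HasFDerivAt p (fderiv ℝ p (fl s y)) (fl s y) :=
      (h2.differentiableAt (by simp)).hasFDerivAt
    exact h3.comp_hasDerivAt s (flow_deriv6 y s)
  have hre : ∀ s : ℝ, HasDerivAt (fun s => (p (fl s y)).re)
      ((fderiv ℝ p (fl s y) (Z6 (fl s y))).re) s := by
    intro s
    have h3 : HasFDerivAt Complex.re Complex.reCLM (p (fl s y)) := Complex.reCLM.hasFDerivAt
    exact h3.comp_hasDerivAt s (hd s)
  set ψ : ℝ → ℝ := fun s => (p (fl s y)).re * Real.exp (-(c0 * s)) with hψ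
  have hψd : ∀ s : ℝ, HasDerivAt ψ ((fderiv ℝ p (fl s y) (Z6 (fl s y))).re *
      Real.exp (-(c0 * s)) + (p (fl s y)).re * (Real.exp (-(c0 * s)) * (-c0))) s := by
    intro s
    have h4 : HasDerivAt (fun s : ℝ => Real.exp (-(c0 * s))) (Real.exp (-(c0 * s)) * (-c0)) s := by
      have h5 : HasDerivAt (fun s : ℝ => -(c0 * s)) (-c0) s := by
        have h6 := (hasDerivAt_id s).const_mul (-c0)
        simp only [mul_one, id] at h6
        have h7 : (fun s : ℝ => -(c0 * s)) = fun s => -c0 * s := by ext s; ring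
        rw [h7]
        exact h6
      exact h5.exp
    exact (hre s).mul h4
  have hmono : MonotoneOn ψ (Icc 0 t) := by
    refine monotoneOn_of_deriv_nonneg (convex_Icc 0 t) ?_ ?_ ?_
    · exact fun s _ => (hψd s).continuousAt.continuousWithinAt
    · exact fun s _ => (hψd s).differentiableAt.differentiableWithinAt
    · intro s hs
      rw [interior_Icc] at hs
      rw [(hψd s).deriv]
      obtain ⟨h1, h2, h3⟩ := h s hs.1.le
      rw [h3, Complex.re_ofReal_mul]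
      have h4 := Real.exp_pos (-(c0 * s))
      have h5 : c (fl s y) * (p (fl s y)).re * Real.exp (-(c0 * s)) +
          (p (fl s y)).re * (Real.exp (-(c0 * s)) * -c0)
          = (c (fl s y) - c0) * ((p (fl s y)).re * Real.exp (-(c0 * s))) := by ring
      rw [h5]
      exact mul_nonneg (by linarith) (mul_pos h1 h4).le
  have h6 := hmono (left_mem_Icc.mpr ht) (right_mem_Icc.mpr ht) ht
  simp only [hψ] at h6
  rw [flow_zero6 y, mul_zero, neg_zero, Real.exp_zero, mul_one] at h6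
  have h7 : Real.exp (-(c0 * t)) * Real.exp (c0 * t) = 1 := by
    rw [← Real.exp_add, neg_add_cancel, Real.exp_zero]
  calc (p y).re * Real.exp (c0 * t)
      ≤ ((p (fl t y)).re * Real.exp (-(c0 * t))) * Real.exp (c0 * t) :=
        mul_le_mul_of_nonneg_right h6 (Real.exp_pos _).le
    _ = (p (fl t y)).re := by rw [mul_assoc, h7, mul_one]

theorem exists_big {p : E6 → ℂ} (hL : IsLefschetz X6 p) (hF : IsFibreSubdomain X6 p C6 h6) :
    ∃ R₀, Big p R₀ := by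
  have hpc : ContinuousOn p U6 := hL.smooth.continuousOn
  have hpG : ∀ g ∈ G6, ∀ x ∈ U6, p (g x) = p x := hL.inv
  have hrc : ContinuousOn rho6 U6 := rho_smooth6.continuous.continuousOn
  have hrG : ∀ g ∈ G6, ∀ x ∈ U6, rho6 (g x) = rho6 x := fun g hg x _ => rho_inv6 g hg x
  obtain ⟨P, hP⟩ := hL.crit_finite
  obtain ⟨K1, c, c0, hK1, hc0, hv⟩ := hL.vertical
  obtain ⟨K2, hK2, hf⟩ := hF
  have hK1' : Q6.Bdd (U6 ∩ K1) := bdd_mono (T := K1) hK1 inter_subset_right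
  have hK2' : Q6.Bdd (U6 ∩ K2) := bdd_mono (T := K2) hK2 inter_subset_right
  obtain ⟨b0, hb0⟩ : ∃ b : ℝ, ∀ y ∈ P, ‖p y‖ ≤ b :=
    ⟨∑ y ∈ P, ‖p y‖, fun y hy =>
      Finset.single_le_sum (f := fun y => ‖p y‖) (fun i _ => norm_nonneg _) hy⟩
  obtain ⟨b1, hb1⟩ := bdd_image inter_subset_left hK1' hpc hpG
  obtain ⟨b2, hb2⟩ := bdd_image inter_subset_left hK2' hpc hpG
  obtain ⟨b3, hb3⟩ := bdd_image (S := {x | x ∈ U6 ∧ rho6 x ≤ 0}) (fun x hx => hx.1)
    (rho_proper6 0) hpc hpG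
  obtain ⟨r1, hr1⟩ := bdd_image inter_subset_left hK1' hrc hrG
  obtain ⟨r2, hr2⟩ := bdd_image inter_subset_left hK2' hrc hrG
  have hCU : ∀ x ∈ C6, x ∈ U6 := fun x hx => hx.1
  -- R₀
  have hR : ∃ R₀ : ℝ, 0 < R₀ ∧ b0 < R₀ ∧ b1 < R₀ ∧ b2 < R₀ ∧ b3 < R₀ := by
    refine ⟨|b0| + |b1| + |b2| + |b3| + 1, by positivity, ?_, ?_, ?_, ?_⟩ <;>
    linarith [abs_nonneg b0, abs_nonneg b1, abs_nonneg b2, abs_nonneg b3, le_abs_self b0,
      le_abs_self b1, le_abs_self b2, le_abs_self b3]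
  obtain ⟨R₀, hR0, hRb0, hRb1, hRb2, hRb3⟩ := hR
  refine ⟨R₀, ⟨hR0, ?_, ?_, ?_, ?_, ?_, ?_⟩⟩
  · -- surj
    intro x hx hR
    by_contra hs
    obtain ⟨g, hg, hgP⟩ := hP x hx hs
    have h1 := hb0 (g x) hgP
    rw [hpG g hg x hx] at h1
    linarith
  · -- rad
    intro x hx hR
    have hnot : x ∉ K1 := by
      intro hK
      have := hb1 x ⟨hx, hK⟩
      linarith
    obtain ⟨h1, h2⟩ := hv x hx hnot
    exact ⟨c x, lt_of_lt_of_le hc0 h1, h2⟩
  · -- skel
    intro x hx hR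
    by_contra hs
    have := hb3 x ⟨hx, not_lt.mp hs⟩
    linarith
  · -- real
    intro x hx hR
    have hnot : x ∉ K2 := by
      intro hK
      have := hb2 x ⟨hCU x hx, hK⟩
      linarith
    exact ⟨(hf x hx hnot).1, (hf x hx hnot).2.1⟩
  · -- out
    intro x hx hR hh v hv1 hv2
    have hnot : x ∉ K2 := by
      intro hK
      have := hb2 x ⟨hCU x hx, hK⟩
      linarith
    refine (hf x hx hnot).2.2 hh v hv1 (fun w hw => ?_)
    change dlam lam6 x v w = lam6 x w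
    rw [dlam6]
    exact hv2 w hw
  · -- bddC
    intro b
    set ρ : ℝ := |r1| + |r2| + 1 with hρ
    have hρ0 : 0 < ρ := by positivity
    have hn1 : ∀ x ∈ U6, ρ ≤ rho6 x → x ∉ K1 := by
      intro x hx h hK
      have h1 := hr1 x ⟨hx, hK⟩
      rw [Real.norm_eq_abs] at h1
      linarith [le_abs_self (rho6 x), le_abs_self r1, abs_nonneg r2]
    have hn2 : ∀ x ∈ U6, ρ ≤ rho6 x → x ∉ K2 := by
      intro x hx h hK
      have h1 := hr2 x ⟨hx, hK⟩
      rw [Real.norm_eq_abs] at h1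
      linarith [le_abs_self (rho6 x), le_abs_self r2, abs_nonneg r1]
    -- the slice
    set S : Set E6 := {x | x ∈ C6 ∧ rho6 x = ρ} with hS
    have hSU : S ⊆ U6 := fun x hx => hx.1.1
    have hSb : Q6.Bdd S := bdd_mono (rho_proper6 ρ) (fun x hx => ⟨hx.1.1, le_of_eq hx.2⟩)
    have hSG : ∀ g ∈ G6, ∀ x ∈ S, g x ∈ S := by
      intro g hg x hx
      exact ⟨(C_G6 g hg x hx.1.1).mpr hx.1, by rw [rho_inv6 g hg x]; exact hx.2⟩
    have hSc : ∀ x ∈ U6, x ∈ closure S → x ∈ S := by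
      intro x hx hxc
      have hcl : IsClosed {x : E6 | x 5 = 0 ∧ h6 x ≤ 0 ∧ rho6 x = ρ} := by
        have h5 : Continuous (fun x : E6 => x 5) := continuous_apply 5
        have h6' : Continuous h6 := by
          unfold h6 m6
          fun_prop
        exact (isClosed_eq h5 continuous_const).inter ((isClosed_le h6' continuous_const).inter
          (isClosed_eq rho_smooth6.continuous continuous_const))
      have hsub : S ⊆ {x : E6 | x 5 = 0 ∧ h6 x ≤ 0 ∧ rho6 x = ρ} :=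
        fun y hy => ⟨hy.1.2.2.1, hy.1.2.2.2, hy.2⟩
      obtain ⟨h1, h2, h3⟩ := hcl.closure_subset_iff.mpr hsub hxc
      refine ⟨⟨hx, ?_, h1, h2⟩, h3⟩
      intro h0
      unfold h6 at h2
      unfold rho6 at h3
      rw [h0] at h2
      rw [h0, h1] at h3
      have h4 : m6 x ^ 2 = 0 := le_antisymm (by simpa using h2) (sq_nonneg _)
      rw [h4] at h3
      norm_num at h3
      linarith
    obtain ⟨K, hKS, hKc, hKr⟩ := compact_rep hSU hSc hSG hSb
    have hpos : ∀ x ∈ C6, ρ ≤ rho6 x → 0 < (p x).re := fun x hx h =>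
      (hf x hx (hn2 x hx.1 h)).1
    obtain ⟨pm, hpm0, hpm⟩ : ∃ pm : ℝ, 0 < pm ∧ ∀ y ∈ S, pm ≤ (p y).re := by
      rcases K.eq_empty_or_nonempty with hKe | hKn
      · refine ⟨1, one_pos, fun y hy => ?_⟩
        obtain ⟨g, _, hgK⟩ := hKr y hy
        rw [hKe] at hgK
        exact absurd hgK (Set.notMem_empty _)
      · have hcont : ContinuousOn (fun x => (p x).re) K :=
          Complex.continuous_re.comp_continuousOn (hpc.mono (hKS.trans hSU))
        obtain ⟨y0, hy0, hmin⟩ := hKc.exists_isMinOn hKn hcont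
        refine ⟨(p y0).re, hpos y0 (hKS hy0).1 (le_of_eq (hKS hy0).2.symm), fun y hy => ?_⟩
        obtain ⟨g, hg, hgK⟩ := hKr y hy
        have h1 := hmin hgK
        simp only [Set.mem_ofPred_eq] at h1
        rw [hpG g hg y (hSU hy)] at h1
        exact h1
    -- the bound
    refine bdd_mono (T := {x | x ∈ U6 ∧ rho6 x ≤ ρ * Real.exp (4 * max (Real.log (b / pm) / c0) 0)})
      (rho_proper6 _) ?_
    rintro x ⟨hxC, hxb⟩
    refine ⟨hxC.1, ?_⟩
    by_cases hxρ : rho6 x ≤ ρ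
    · refine hxρ.trans ?_
      have h1 : (1 : ℝ) ≤ Real.exp (4 * max (Real.log (b / pm) / c0) 0) :=
        Real.one_le_exp (by positivity)
      nlinarith
    · push Not at hxρ
      set t : ℝ := Real.log (rho6 x / ρ) / 4 with ht
      have hq1 : 1 < rho6 x / ρ := by rw [lt_div_iff₀ hρ0]; linarith
      have ht0 : 0 < t := div_pos (Real.log_pos hq1) (by norm_num)
      have h4t : Real.exp (4 * t) = rho6 x / ρ := by
        rw [ht, mul_div_cancel₀ _ (by norm_num : (4 : ℝ) ≠ 0), Real.exp_log (by linarith)]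
      set y : E6 := fl (-t) x with hy
      have hfy : fl t y = x := by
        rw [hy, flow_add6, add_neg_cancel, flow_zero6]
      have hyC : y ∈ C6 := (C_fl (-t) x).mpr hxC
      have hyρ : rho6 y = ρ := by
        have h1 := rho_fl t y
        rw [hfy, h4t] at h1
        have hx0 : rho6 x ≠ 0 := by linarith
        field_simp at h1
        linarith
      have hyS : y ∈ S := ⟨hyC, hyρ⟩
      have hall : ∀ s, 0 ≤ s → 0 < (p (fl s y)).re ∧ c0 ≤ c (fl s y) ∧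
          fderiv ℝ p (fl s y) (Z6 (fl s y)) = (c (fl s y) : ℂ) * p (fl s y) := by
        intro s hs
        have h1 : fl s y ∈ C6 := (C_fl s y).mpr hyC
        have h2 : ρ ≤ rho6 (fl s y) := by
          rw [rho_fl, hyρ]
          have : (1 : ℝ) ≤ Real.exp (4 * s) := Real.one_le_exp (by positivity)
          nlinarith
        obtain ⟨h3, h4⟩ := hv (fl s y) h1.1 (hn1 _ h1.1 h2)
        exact ⟨hpos _ h1 h2, h3, h4⟩
      have hg := BigR_grow hL ht0.le (hyC.1) hall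
      rw [hfy] at hg
      have h5 : pm * Real.exp (c0 * t) ≤ b := by
        calc pm * Real.exp (c0 * t) ≤ (p y).re * Real.exp (c0 * t) :=
              mul_le_mul_of_nonneg_right (hpm y hyS) (Real.exp_pos _).le
          _ ≤ (p x).re := hg
          _ ≤ ‖p x‖ := Complex.re_le_norm _
          _ ≤ b := hxb
      have h6' : Real.exp (c0 * t) ≤ b / pm := by
        rw [le_div_iff₀ hpm0]; linarith
      have h7 : c0 * t ≤ Real.log (b / pm) := by
        rw [← Real.log_exp (c0 * t)]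
        exact Real.log_le_log (Real.exp_pos _) h6'
      have h8 : t ≤ Real.log (b / pm) / c0 := by
        rw [le_div_iff₀ hc0]; linarith
      have h9 : rho6 x = ρ * Real.exp (4 * t) := by
        rw [h4t]; field_simp
      rw [h9]
      refine mul_le_mul_of_nonneg_left (Real.exp_le_exp.mpr ?_) hρ0.le
      linarith [le_max_left (Real.log (b / pm) / c0) 0]

end Pool.Agent.LF
end

section

/-! # Task ConA: local geometry of the cone `C6` and of the fibre over `R` -/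

open Set Filter Topology
open scoped ContDiff

namespace Pool.Agent.LF

/-- a zero of `kap` off the skeleton lies in `C6` -/
theorem kap_zero {x : E6} (hx : x ∈ U6) (hr : 0 < rho6 x) (hk : kap x = 0) : x ∈ C6 := by
  have h1 : m6 x - x 4 ^ 4 = 0 := congrArg Complex.re hk
  have h2 : x 5 = 0 := congrArg Complex.im hk
  have h3 : m6 x = x 4 ^ 4 := by linarith
  refine ⟨hx, ?_, h2, ?_⟩
  · intro h4
    unfold rho6 at hr
    rw [h3, h2, h4] at hr
    norm_num at hr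
  · unfold h6
    rw [h3]
    apply le_of_eq
    ring

namespace ConA

theorem h6_diff : ContDiff ℝ ∞ h6 := by
  unfold h6 m6
  have hc : ∀ i : Fin 6, ContDiff ℝ ∞ fun x : E6 => x i := fun i => contDiff_apply ℝ ℝ i
  exact (((hc 2).mul (hc 3)).pow 2).sub ((hc 4).pow 8)

theorem h6_line (x w : E6) :
    HasDerivAt (fun t : ℝ => h6 (x + t • w)) (fderiv ℝ h6 x w) 0 := by
  have h1 : HasDerivAt (fun t : ℝ => x + t • w) w 0 := by
    simpa using ((hasDerivAt_id (0 : ℝ)).smul_const w).const_add x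
  have h2 : HasFDerivAt h6 (fderiv ℝ h6 x) (x + (0 : ℝ) • w) := by
    rw [zero_smul, add_zero]
    exact ((h6_diff.differentiable (by simp)) x).hasFDerivAt
  exact h2.comp_hasDerivAt (0 : ℝ) h1

theorem h6_e4 (x : E6) : fderiv ℝ h6 x (Pi.single 4 1) = -(8 * x 4 ^ 7) := by
  have h1 := h6_line x (Pi.single 4 1)
  have h2 : HasDerivAt (fun t : ℝ => h6 (x + t • (Pi.single 4 1 : E6))) (-(8 * x 4 ^ 7)) 0 := by
    have e : (fun t : ℝ => h6 (x + t • (Pi.single 4 1 : E6))) =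
        fun t : ℝ => (x 2 * x 3) ^ 2 - (x 4 + t) ^ 8 := by
      funext t
      simp [h6, m6]
    rw [e]
    have h3 : HasDerivAt (fun t : ℝ => (x 4 + t) ^ 8) (((8 : ℕ) : ℝ) * (x 4 + 0) ^ (8 - 1) * 1) 0 :=
      ((hasDerivAt_id (0 : ℝ)).const_add (x 4)).pow 8
    have h4 := h3.const_sub ((x 2 * x 3) ^ 2)
    rw [show -(8 * x 4 ^ 7) = -(((8 : ℕ) : ℝ) * (x 4 + 0) ^ (8 - 1) * 1) by norm_num]
    exact h4
  exact h1.unique h2

/-- if `w` points into `C6` then `d (im p) w = 0` -/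
theorem im_dir {p : E6 → ℂ} (hp : ContDiffOn ℝ ∞ p U6) {R₀ : ℝ} (hb : Big p R₀) {x : E6}
    (hx : x ∈ C6) (hR : R₀ < ‖p x‖) (w : E6) (hw5 : w 5 = 0) (hw : fderiv ℝ h6 x w < 0) :
    (fderiv ℝ p x w).im = 0 := by
  have hxU : x ∈ U6 := hx.1
  have hpx : HasFDerivAt p (fderiv ℝ p x) x :=
    ((hp.contDiffAt (isOpen_U6.mem_nhds hxU)).differentiableAt (by simp)).hasFDerivAt
  have hl : HasDerivAt (fun t : ℝ => x + t • w) w 0 := by
    simpa using ((hasDerivAt_id (0 : ℝ)).smul_const w).const_add x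
  have hpl : HasDerivAt (fun t : ℝ => p (x + t • w)) (fderiv ℝ p x w) 0 := by
    have h2 : HasFDerivAt p (fderiv ℝ p x) (x + (0 : ℝ) • w) := by
      rw [zero_smul, add_zero]
      exact hpx
    exact h2.comp_hasDerivAt (0 : ℝ) hl
  have him : HasDerivAt (fun t : ℝ => (p (x + t • w)).im) (fderiv ℝ p x w).im 0 :=
    Complex.imCLM.hasFDerivAt.comp_hasDerivAt (0 : ℝ) hpl
  have hlc : Tendsto (fun t : ℝ => x + t • w) (𝓝[>] 0) (𝓝 x) := by
    have := hl.continuousAt.tendsto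
    simp only [zero_smul, add_zero] at this
    exact this.mono_left nhdsWithin_le_nhds
  -- eventually in `C6`
  have e1 : ∀ᶠ t in 𝓝[>] (0 : ℝ), x + t • w ∈ U6 := hlc (isOpen_U6.mem_nhds hxU)
  have e2 : ∀ᶠ t in 𝓝[>] (0 : ℝ), (x + t • w) 4 ≠ 0 := by
    have h1 : {y : E6 | y 4 ≠ 0} ∈ 𝓝 x :=
      (isOpen_ne.preimage (continuous_apply 4)).mem_nhds hx.2.1
    exact hlc h1
  have e3 : ∀ᶠ t in 𝓝[>] (0 : ℝ), h6 (x + t • w) < h6 x := by
    have h1 := (h6_line x w).tendsto_slope_zero_right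
    have h2 := h1.eventually (gt_mem_nhds hw)
    filter_upwards [h2, self_mem_nhdsWithin] with t ht ht0
    have ht0 : 0 < t := ht0
    simp only [zero_add, zero_smul, add_zero, smul_eq_mul] at ht
    have h3 : h6 (x + t • w) - h6 x < 0 := by
      by_contra h4
      exact absurd ht (not_lt.2 (mul_nonneg (inv_pos.2 ht0).le (not_lt.1 h4)))
    linarith
  have e4 : ∀ᶠ t in 𝓝[>] (0 : ℝ), R₀ < ‖p (x + t • w)‖ := by
    have h1 : Tendsto (fun t : ℝ => ‖p (x + t • w)‖) (𝓝[>] 0) (𝓝 ‖p x‖) :=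
      (hpx.continuousAt.tendsto.comp hlc).norm
    exact h1.eventually (lt_mem_nhds hR)
  have e5 : ∀ᶠ t in 𝓝[>] (0 : ℝ), (p (x + t • w)).im = 0 := by
    filter_upwards [e1, e2, e3, e4] with t h1 h2 h3 h4
    refine (hb.real _ ⟨h1, h2, ?_, h3.le.trans hx.2.2.2⟩ h4.le).2
    have h5 := hx.2.2.1
    simp [h5, hw5]
  have e0 : (p (x + (0 : ℝ) • w)).im = 0 := by
    rw [zero_smul, add_zero]
    exact (hb.real x hx hR.le).2
  -- derivative
  have h1 := him.tendsto_slope_zero_right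
  have h2 : Tendsto (fun t : ℝ => t⁻¹ • ((p (x + (0 + t) • w)).im - (p (x + (0 : ℝ) • w)).im))
      (𝓝[>] 0) (𝓝 0) := by
    refine tendsto_const_nhds.congr' ?_
    filter_upwards [e5] with t ht
    rw [zero_add, ht, e0]
    simp
  exact tendsto_nhds_unique h1 h2

end ConA

open ConA

/-- `d (im p)` is a multiple of `dv` along `C6` near infinity, and nonzero -/
theorem im_deriv {p : E6 → ℂ} (hp : ContDiffOn ℝ ∞ p U6) {R₀ : ℝ} (hb : Big p R₀) {x : E6}
    (hx : x ∈ C6) (hR : R₀ < ‖p x‖) :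
    (∀ i : Fin 6, i ≠ 5 → (fderiv ℝ p x (Pi.single i 1)).im = 0) ∧
      (fderiv ℝ p x (Pi.single 5 1)).im ≠ 0 := by
  have h40 : x 4 ≠ 0 := hx.2.1
  have hw0 : fderiv ℝ h6 x (x 4 • (Pi.single 4 1 : E6)) < 0 := by
    rw [map_smul, h6_e4, smul_eq_mul]
    have : 0 < x 4 ^ 8 := by positivity
    nlinarith
  set w0 : E6 := x 4 • (Pi.single 4 1 : E6) with hw0d
  have hw05 : w0 5 = 0 := by simp [hw0d]
  have hL0 := im_dir hp hb hx hR w0 hw05 hw0
  have hall : ∀ i : Fin 6, i ≠ 5 → (fderiv ℝ p x (Pi.single i 1)).im = 0 := by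
    intro i hi
    set a := fderiv ℝ h6 x (Pi.single i 1) with ha
    set b := fderiv ℝ h6 x w0 with hbd
    -- choose `c` with `a + c b < 0`
    obtain ⟨c, hc⟩ : ∃ c : ℝ, a + c * b < 0 := by
      refine ⟨(|a| + 1) / (-b), ?_⟩
      have hb0 : b ≠ 0 := hw0.ne
      have h1 : (|a| + 1) / (-b) * b = -(|a| + 1) := by
        rw [div_neg, neg_mul, div_mul_cancel₀ _ hb0]
      rw [h1]
      linarith [le_abs_self a]
    have h1 := im_dir hp hb hx hR (Pi.single i 1 + c • w0) (by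
      have h2 : (Pi.single i (1 : ℝ) : E6) 5 = 0 := by simp [Ne.symm hi]
      simp only [Pi.add_apply, Pi.smul_apply, h2, hw05, smul_zero, add_zero]) (by
      rw [map_add, map_smul, smul_eq_mul]
      exact hc)
    rw [map_add, map_smul, Complex.add_im, Complex.smul_im, hL0, smul_zero, add_zero] at h1
    exact h1
  refine ⟨hall, fun h5 => ?_⟩
  obtain ⟨v, hv⟩ := hb.surj x hx.1 hR.le Complex.I
  have h1 : v = ∑ i, v i • (Pi.single i 1 : E6) := by
    rw [← LinearMap.sum_single_apply (fun _ : Fin 6 => ℝ) v]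
    refine Finset.sum_congr rfl fun i _ => ?_
    simp [← Pi.single_smul]
  have h2 : (fderiv ℝ p x v).im = 0 := by
    rw [h1, map_sum, Complex.im_sum]
    refine Finset.sum_eq_zero fun i _ => ?_
    rw [map_smul, Complex.smul_im]
    by_cases hi : i = 5
    · rw [hi, h5, smul_zero]
    · rw [hall i hi, smul_zero]
  rw [hv] at h2
  simp at h2

/-- near a point of `C6` over `R`, the fibre is contained in `C6` where `h6 ≤ 0` -/
theorem near_C {p : E6 → ℂ} (hp : ContDiffOn ℝ ∞ p U6) {R₀ R : ℝ} (hb : Big p R₀)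
    (hR : R₀ < R) {x : E6} (hx : x ∈ C6) (hpx : p x = R) :
    ∃ O ∈ 𝓝 x, ∀ x' ∈ O, p x' = R → h6 x' ≤ 0 → x' ∈ C6 := by
  have hR0 : 0 < R₀ := hb.pos
  have hnorm : R₀ < ‖p x‖ := by
    rw [hpx, Complex.norm_real, Real.norm_eq_abs, abs_of_pos (hR0.trans hR)]
    exact hR
  have h5 := (im_deriv hp hb hx hnorm).2
  have hpc : ContinuousOn p U6 := hp.continuousOn
  have hfd : ContinuousOn (fderiv ℝ p) U6 :=
    hp.continuousOn_fderiv_of_isOpen isOpen_U6 (by simp)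
  have hxU : U6 ∈ 𝓝 x := isOpen_U6.mem_nhds hx.1
  have n1 : ∀ᶠ y in 𝓝 x, R₀ < ‖p y‖ :=
    ((hpc.continuousAt hxU).norm.tendsto).eventually (lt_mem_nhds hnorm)
  have n2 : ∀ᶠ y in 𝓝 x, (fderiv ℝ p y (Pi.single 5 1)).im ≠ 0 := by
    have h1 : ContinuousAt (fun y => (fderiv ℝ p y (Pi.single 5 1)).im) x :=
      Complex.continuous_im.continuousAt.comp
        ((hfd.continuousAt hxU).clm_apply continuousAt_const)
    exact h1.eventually_ne h5
  have n3 : ∀ᶠ y : E6 in 𝓝 x, y 4 ≠ 0 :=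
    (isOpen_ne.preimage (continuous_apply 4)).mem_nhds hx.2.1
  have n0 : ∀ᶠ y in 𝓝 x, y ∈ U6 := hxU
  obtain ⟨e, he, hball'⟩ := Metric.mem_nhds_iff.1 ((n0.and n1).and (n2.and n3))
  have hball : ∀ {y}, y ∈ Metric.ball x e → (y ∈ U6 ∧ R₀ < ‖p y‖) ∧
    ((fderiv ℝ p y (Pi.single 5 1)).im ≠ 0 ∧ y 4 ≠ 0) := fun {y} hy => hball' hy
  refine ⟨Metric.ball x e, Metric.ball_mem_nhds x he, fun x' hx' hpx' hh => ?_⟩
  have hB := hball hx'
  set x0 : E6 := Function.update x' 5 0 with hx0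
  have hx0i : ∀ i, i ≠ 5 → x0 i = x' i := fun i hi => by simp [hx0, hi]
  have hx05 : x0 5 = 0 := by simp [hx0]
  have hx0b : x0 ∈ Metric.ball x e := by
    rw [Metric.mem_ball, dist_pi_lt_iff he] at hx' ⊢
    intro i
    by_cases hi : i = 5
    · rw [hi, hx05, hx.2.2.1, dist_self]
      exact he
    · rw [hx0i i hi]
      exact hx' i
  have hB0 := hball hx0b
  have hh0 : h6 x0 = h6 x' := by
    unfold h6 m6
    rw [hx0i 2 (by decide), hx0i 3 (by decide), hx0i 4 (by decide)]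
  have hx0C : x0 ∈ C6 := ⟨hB0.1.1, hB0.2.2, hx05, by rw [hh0]; exact hh⟩
  have him0 : (p x0).im = 0 := (hb.real x0 hx0C hB0.1.2.le).2
  have him1 : (p x').im = 0 := by
    rw [hpx', Complex.ofReal_im]
  refine ⟨hB.1.1, hB.2.2, ?_, hh⟩
  by_contra hne
  -- Rolle
  have hseg : ∀ t ∈ Icc (0 : ℝ) 1, x0 + (t * x' 5) • (Pi.single 5 1 : E6) ∈ Metric.ball x e := by
    intro t ht
    have hconv := convex_ball x e
    have h1 : x0 + (t * x' 5) • (Pi.single 5 1 : E6) = (1 - t) • x0 + t • x' := by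
      funext i
      by_cases hi : i = 5
      · subst hi
        simp only [Pi.add_apply, Pi.smul_apply, Pi.single_eq_same, hx05, smul_eq_mul]
        ring
      · have h2 : (Pi.single 5 (1 : ℝ) : E6) i = 0 := by simp [hi]
        simp only [Pi.add_apply, Pi.smul_apply, h2, hx0i i hi, smul_eq_mul]
        ring
    rw [h1]
    exact hconv hx0b hx' (by linarith [ht.2]) ht.1 (by ring)
  have hder : ∀ t ∈ Icc (0 : ℝ) 1,
      HasDerivAt (fun t : ℝ => (p (x0 + (t * x' 5) • (Pi.single 5 1 : E6))).im)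
        ((fderiv ℝ p (x0 + (t * x' 5) • (Pi.single 5 1 : E6))
          (x' 5 • (Pi.single 5 1 : E6))).im) t := by
    intro t ht
    have hU := (hball (hseg t ht)).1.1
    have h1 : HasFDerivAt p (fderiv ℝ p (x0 + (t * x' 5) • (Pi.single 5 1 : E6)))
        (x0 + (t * x' 5) • (Pi.single 5 1 : E6)) :=
      ((hp.contDiffAt (isOpen_U6.mem_nhds hU)).differentiableAt (by simp)).hasFDerivAt
    have h2 : HasDerivAt (fun t : ℝ => x0 + (t * x' 5) • (Pi.single 5 1 : E6))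
        (x' 5 • (Pi.single 5 1 : E6)) t := by
      have h3 : HasDerivAt (fun t : ℝ => t * x' 5) (x' 5) t := by
        simpa using (hasDerivAt_id t).mul_const (x' 5)
      exact (h3.smul_const (Pi.single 5 1 : E6)).const_add x0
    exact Complex.imCLM.hasFDerivAt.comp_hasDerivAt t (h1.comp_hasDerivAt t h2)
  obtain ⟨c, hc, hc0⟩ := exists_deriv_eq_zero (f := fun t : ℝ =>
    (p (x0 + (t * x' 5) • (Pi.single 5 1 : E6))).im) zero_lt_one
    (fun t ht => (hder t ht).continuousAt.continuousWithinAt) (by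
      simp only [zero_mul, zero_smul, add_zero, one_mul]
      have h1 : x0 + x' 5 • (Pi.single 5 1 : E6) = x' := by
        funext i
        by_cases hi : i = 5
        · subst hi
          simp [hx05]
        · simp [hx0i i hi, hi]
      rw [h1, him0, him1])
  have hcI : c ∈ Icc (0 : ℝ) 1 := ⟨hc.1.le, hc.2.le⟩
  rw [(hder c hcI).deriv, map_smul, Complex.smul_im, smul_eq_mul] at hc0
  exact (mul_ne_zero hne (hball (hseg c hcI)).2.1) hc0

end Pool.Agent.LF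
end

section

/-! # Task ConB: Lagrange multipliers -/

open Set Filter Topology
open scoped ContDiff

namespace Pool.Agent.LF

private theorem conB_h_smooth : ContDiff ℝ ∞ h6 := by
  unfold h6 m6
  fun_prop

/-- a boundary point of `C6` over `R` is a limit of points of the fibre outside `C6`
(Lagrange multipliers, `IsLocalExtrOn.exists_linear_map_of_hasStrictFDerivAt`) -/
theorem not_interior {p : E6 → ℂ} (hL : IsLefschetz X6 p) {R₀ R : ℝ} (hb : Big p R₀)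
    (hR : R₀ < R) {y : E6} (hy : y ∈ C6) (hpy : p y = R) (hh : h6 y = 0) :
    ∀ O ∈ 𝓝 y, ∃ x' ∈ O, x' ∈ U6 ∧ p x' = R ∧ x' ∉ C6 := by
  intro O hO
  by_contra hcon
  push Not at hcon
  have hyU : y ∈ U6 := hy.1
  have hnorm : R₀ ≤ ‖p y‖ := by
    rw [hpy, Complex.norm_real, Real.norm_eq_abs]
    exact hR.le.trans (le_abs_self _)
  have hsurj := hb.surj y hyU hnorm
  have hU : U6 ∈ 𝓝 y := isOpen_U6.mem_nhds hyU
  have hmax : IsLocalMaxOn h6 {x | p x = p y} y := by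
    have h1 : O ∩ U6 ∈ 𝓝[{x | p x = p y}] y :=
      mem_nhdsWithin_of_mem_nhds (Filter.inter_mem hO hU)
    have h2 : {x | p x = p y} ∈ 𝓝[{x | p x = p y}] y := self_mem_nhdsWithin
    refine Filter.mem_of_superset (Filter.inter_mem h1 h2) ?_
    rintro x ⟨⟨hx1, hx2⟩, hx3⟩
    exact (hcon x hx1 hx2 (hx3.trans hpy)).2.2.2.trans hh.ge
  have hps : HasStrictFDerivAt p (fderiv ℝ p y) y := by
    have h1 : ContDiffAt ℝ ∞ p y := hL.smooth.contDiffAt hU
    exact h1.hasStrictFDerivAt (by simp)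
  have hhs : HasStrictFDerivAt h6 (fderiv ℝ h6 y) y :=
    conB_h_smooth.contDiffAt.hasStrictFDerivAt (by simp)
  obtain ⟨Λ, Λ₀, hne, hΛ⟩ :=
    IsLocalExtrOn.exists_linear_map_of_hasStrictFDerivAt (Or.inr hmax) hps hhs
  have hΛ0 : Λ₀ ≠ 0 := by
    rintro rfl
    apply hne
    have : Λ = 0 := by
      ext z
      obtain ⟨v, hv⟩ := hsurj z
      have := hΛ v
      rw [hv] at this
      simpa using this
    rw [this]; rfl
  have hBB : BB p y ≠ 0 := BB_ne hL hyU hsurj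
  set v : E6 := (1 / BB p y) • NN p y with hv
  have hv0 : fderiv ℝ p y v = 0 := by
    rw [hv, map_smul, p_NN, smul_zero]
  have hpos := hb.out y hy hnorm hh v hv0 (by
    intro w hw
    have h1 : om v w = (1 / BB p y) * om (NN p y) w := by
      rw [hv]
      simp only [om, Pi.smul_apply, smul_eq_mul]
      ring
    rw [h1, om_NN p y w hw]
    field_simp)
  have h2 := hΛ v
  rw [hv0, map_zero, zero_add, smul_eq_mul] at h2
  rcases mul_eq_zero.1 h2 with h3 | h3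
  · exact hΛ0 h3
  · rw [h3] at hpos
    exact lt_irrefl _ hpos

end Pool.Agent.LF
end

section

/-! # Task ConC: local section of `(kap, re p)` -/

open Set Filter Topology
open scoped ContDiff

namespace Pool.Agent.LF

private lemma conC_isOpen : IsOpen U6 :=
  isOpen_lt continuous_const (continuous_apply 3)

/-- the map `(kap, re p)` in real coordinates -/
private noncomputable def conC_F (p : E6 → ℂ) (x : E6) : (ℝ × ℝ) × ℝ :=
  ((x 2 * x 3 - x 4 ^ 4, x 5), (p x).re)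

/-- its derivative -/
private noncomputable def conC_F' (p : E6 → ℂ) (y : E6) : E6 →L[ℝ] (ℝ × ℝ) × ℝ :=
  ((y 2 • ContinuousLinearMap.proj (R := ℝ) (φ := fun _ : Fin 6 => ℝ) 3 +
    y 3 • ContinuousLinearMap.proj (R := ℝ) (φ := fun _ : Fin 6 => ℝ) 2 -
    (4 * y 4 ^ 3) • ContinuousLinearMap.proj (R := ℝ) (φ := fun _ : Fin 6 => ℝ) 4).prod
    (ContinuousLinearMap.proj (R := ℝ) (φ := fun _ : Fin 6 => ℝ) 5)).prod
    (Complex.reCLM.comp (fderiv ℝ p y))

private lemma conC_strict {p : E6 → ℂ} (hp : ContDiffOn ℝ ∞ p U6) {y : E6} (hy : y ∈ U6) :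
    HasStrictFDerivAt (conC_F p) (conC_F' p y) y := by
  have hpy : ContDiffAt ℝ ∞ p y := (hp y hy).contDiffAt (conC_isOpen.mem_nhds hy)
  have h1 : HasStrictFDerivAt p (fderiv ℝ p y) y := hpy.hasStrictFDerivAt (by simp)
  have hi : ∀ i : Fin 6, HasStrictFDerivAt (fun x : E6 => x i)
      (ContinuousLinearMap.proj (R := ℝ) (φ := fun _ : Fin 6 => ℝ) i) y := fun i =>
    (ContinuousLinearMap.proj (R := ℝ) (φ := fun _ : Fin 6 => ℝ) i).hasStrictFDerivAt
  have h2 : HasStrictFDerivAt (fun x : E6 => x 2 * x 3)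
      (y 2 • ContinuousLinearMap.proj (R := ℝ) (φ := fun _ : Fin 6 => ℝ) 3 +
        y 3 • ContinuousLinearMap.proj (R := ℝ) (φ := fun _ : Fin 6 => ℝ) 2) y :=
    (hi 2).mul (hi 3)
  have h3 : HasStrictFDerivAt (fun x : E6 => x 4 ^ 4)
      ((4 * y 4 ^ 3) • ContinuousLinearMap.proj (R := ℝ) (φ := fun _ : Fin 6 => ℝ) 4) y := by
    have := (hi 4).pow 4
    have e : (4 * y 4 ^ 3) • ContinuousLinearMap.proj (R := ℝ) (φ := fun _ : Fin 6 => ℝ) 4 =
        (4 • y 4 ^ (4 - 1)) • ContinuousLinearMap.proj (R := ℝ) (φ := fun _ : Fin 6 => ℝ) 4 := by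
      rw [nsmul_eq_mul]
      norm_num
    rw [e]
    exact this
  exact ((h2.sub h3).prodMk (hi 5)).prodMk (Complex.reCLM.hasStrictFDerivAt.comp y h1)

private lemma conC_surj {p : E6 → ℂ} {R₀ R : ℝ} (hb : Big p R₀)
    (hR : R₀ < R) {y : E6} (hy : y ∈ C6) (hpy : p y = R) (hk : kap y = 0) :
    Function.Surjective (conC_F' p y) := by
  have hyU : y ∈ U6 := hy.1
  have hq : 0 < y 3 := hyU
  have hR0 : 0 < R := hb.pos.trans hR
  have hn : R₀ ≤ ‖p y‖ := by
    rw [hpy, Complex.norm_real, Real.norm_eq_abs, abs_of_pos hR0]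
    exact hR.le
  obtain ⟨c, hc, hcZ⟩ := hb.rad y hyU hn
  have hre : y 2 * y 3 - y 4 ^ 4 = 0 := congrArg Complex.re hk
  have him : y 5 = 0 := congrArg Complex.im hk
  have hF : ∀ v : E6, conC_F' p y v =
      ((y 2 * v 3 + y 3 * v 2 - 4 * y 4 ^ 3 * v 4, v 5), (fderiv ℝ p y v).re) := by
    intro v
    simp [conC_F']
  have hZ : conC_F' p y (Z6 y) = ((0, 0), c * R) := by
    rw [hF, hcZ, hpy]
    have e1 : (Z6 y) 2 = y 2 := rfl
    have e2 : (Z6 y) 3 = y 3 := rfl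
    have e3 : (Z6 y) 4 = y 4 / 2 := rfl
    have e4 : (Z6 y) 5 = y 5 / 2 := rfl
    rw [e1, e2, e3, e4, him]
    have e5 : y 2 * y 3 + y 3 * y 2 - 4 * y 4 ^ 3 * (y 4 / 2) = 0 := by
      linear_combination 2 * hre
    rw [e5]
    simp
  rintro ⟨⟨a, b⟩, r⟩
  obtain ⟨v, hv⟩ : ∃ v : E6, v = (a / y 3) • (Pi.single 2 1 : E6) + b • (Pi.single 5 1 : E6) :=
    ⟨_, rfl⟩
  have h2 : v 2 = a / y 3 := by rw [hv]; simp
  have h3 : v 3 = 0 := by rw [hv]; simp
  have h4 : v 4 = 0 := by rw [hv]; simp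
  have h5 : v 5 = b := by rw [hv]; simp
  have hFv : conC_F' p y v = ((a, b), (fderiv ℝ p y v).re) := by
    rw [hF, h2, h3, h4, h5]
    congr 2
    field_simp
    ring
  refine ⟨v + ((r - (fderiv ℝ p y v).re) / (c * R)) • Z6 y, ?_⟩
  rw [map_add, map_smul, hFv, hZ]
  have hcR : c * R ≠ 0 := (mul_pos hc hR0).ne'
  ext
  · simp
  · simp
  · simp only [Prod.snd_add, Prod.smul_snd, smul_eq_mul]
    field_simp
    ring

/-- local section of `(kap, re p)` through a point of `C6` with `kap = 0` -/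
theorem kap_section {p : E6 → ℂ} (hp : ContDiffOn ℝ ∞ p U6) {R₀ R : ℝ} (hb : Big p R₀)
    (hR : R₀ < R) {y : E6} (hy : y ∈ C6) (hpy : p y = R) (hk : kap y = 0) :
    ∃ (s : ℂ → E6) (t : ℝ), 0 < t ∧ ContinuousOn s (Metric.ball 0 t) ∧ s 0 = y ∧
      ∀ c ∈ Metric.ball (0 : ℂ) t, s c ∈ U6 ∧ kap (s c) = c ∧ (p (s c)).re = R := by
  have hyU : y ∈ U6 := hy.1
  have hsurj := conC_surj hb hR hy hpy hk
  have hre : y 2 * y 3 - y 4 ^ 4 = 0 := congrArg Complex.re hk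
  have him : y 5 = 0 := congrArg Complex.im hk
  obtain ⟨A, hA⟩ := (conC_F' p y).toLinearMap.exists_rightInverse_of_surjective
    (LinearMap.range_eq_top.2 hsurj)
  obtain ⟨B, hB⟩ : ∃ B : (ℝ × ℝ) × ℝ →L[ℝ] E6, ∀ a, conC_F' p y (B a) = a := by
    refine ⟨LinearMap.toContinuousLinearMap A, fun a => ?_⟩
    exact LinearMap.congr_fun hA a
  -- the map `a ↦ F (y + B a)` has derivative the identity at `0`
  obtain ⟨G, hG⟩ : ∃ G : (ℝ × ℝ) × ℝ → (ℝ × ℝ) × ℝ, G = fun a => conC_F p (y + B a) :=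
    ⟨_, rfl⟩
  have hG' : HasStrictFDerivAt G
      ((ContinuousLinearEquiv.refl ℝ ((ℝ × ℝ) × ℝ)) : ((ℝ × ℝ) × ℝ) →L[ℝ] ((ℝ × ℝ) × ℝ)) 0 := by
    have h1 : HasStrictFDerivAt (fun a => y + B a) B 0 := B.hasStrictFDerivAt.const_add y
    have h2 : HasStrictFDerivAt (conC_F p) (conC_F' p y) (y + B 0) := by
      rw [map_zero, add_zero]
      exact conC_strict hp hyU
    have h3 := h2.comp 0 h1
    have h4 : (conC_F' p y).comp B =
        ((ContinuousLinearEquiv.refl ℝ ((ℝ × ℝ) × ℝ)) : ((ℝ × ℝ) × ℝ) →L[ℝ] ((ℝ × ℝ) × ℝ)) := by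
      apply ContinuousLinearMap.ext
      intro a
      exact hB a
    rw [h4] at h3
    rw [hG]
    exact h3
  obtain ⟨φ, hφ⟩ : ∃ φ : OpenPartialHomeomorph ((ℝ × ℝ) × ℝ) ((ℝ × ℝ) × ℝ),
      φ = hG'.toOpenPartialHomeomorph G := ⟨_, rfl⟩
  have hφc : ∀ a, φ a = G a := by
    intro a
    rw [hφ]
    rfl
  have h0s : (0 : (ℝ × ℝ) × ℝ) ∈ φ.source := by
    rw [hφ]
    exact hG'.mem_toOpenPartialHomeomorph_source
  have hG0 : G 0 = ((0, 0), R) := by
    rw [hG]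
    show conC_F p (y + B 0) = _
    rw [map_zero, add_zero]
    unfold conC_F
    rw [hre, him, hpy, Complex.ofReal_re]
  have hT0 : (((0 : ℝ), (0 : ℝ)), R) ∈ φ.target := by
    rw [← hG0, ← hφc]
    exact φ.map_source h0s
  obtain ⟨j, hj⟩ : ∃ j : ℂ → (ℝ × ℝ) × ℝ, j = fun c => ((c.re, c.im), R) := ⟨_, rfl⟩
  have hjc : Continuous j := by
    rw [hj]
    exact (Complex.continuous_re.prodMk Complex.continuous_im).prodMk continuous_const
  have hj0 : j 0 = ((0, 0), R) := by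
    rw [hj]
    simp
  obtain ⟨s, hs⟩ : ∃ s : ℂ → E6, s = fun c => y + B (φ.symm (j c)) := ⟨_, rfl⟩
  have hW : IsOpen (j ⁻¹' φ.target) := φ.open_target.preimage hjc
  have hsc : ContinuousOn s (j ⁻¹' φ.target) := by
    rw [hs]
    exact continuousOn_const.add
      (B.continuous.comp_continuousOn (φ.continuousOn_symm.comp hjc.continuousOn fun c hc => hc))
  have h0W : (0 : ℂ) ∈ j ⁻¹' φ.target := by
    rw [mem_preimage, hj0]
    exact hT0
  have hs0 : s 0 = y := by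
    rw [hs]
    show y + B (φ.symm (j 0)) = y
    rw [hj0, ← hG0, ← hφc, φ.left_inv h0s, map_zero, add_zero]
  have hN : (j ⁻¹' φ.target) ∩ s ⁻¹' U6 ∈ 𝓝 (0 : ℂ) :=
    (hsc.isOpen_inter_preimage hW conC_isOpen).mem_nhds ⟨h0W, by
      rw [mem_preimage, hs0]
      exact hyU⟩
  obtain ⟨t, ht, hsub⟩ := Metric.mem_nhds_iff.1 hN
  refine ⟨s, t, ht, hsc.mono fun c hc => (hsub hc).1, hs0, fun c hc => ?_⟩
  obtain ⟨hc1, hc2⟩ := hsub hc
  have key : conC_F p (s c) = j c := by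
    have h1 : φ (φ.symm (j c)) = j c := φ.right_inv hc1
    rw [hφc, hG] at h1
    rw [hs]
    exact h1
  have k1 : s c 2 * s c 3 - s c 4 ^ 4 = c.re := by
    have := congrArg (fun z => z.1.1) key
    rw [hj] at this
    exact this
  have k2 : s c 5 = c.im := by
    have := congrArg (fun z => z.1.2) key
    rw [hj] at this
    exact this
  have k3 : (p (s c)).re = R := by
    have := congrArg (fun z => z.2) key
    rw [hj] at this
    exact this
  refine ⟨hc2, ?_, k3⟩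
  apply Complex.ext
  · exact k1
  · exact k2

end Pool.Agent.LF
end

section

end

section

/-! # Task ExE: the projection is a Lefschetz fibration -/

open Set Filter Topology
open scoped ContDiff

namespace Pool.Agent.LF

private noncomputable def piL : E6 →L[ℝ] ℂ :=
  (Complex.ofRealCLM).comp (ContinuousLinearMap.proj (R := ℝ) (φ := fun _ : Fin 6 => ℝ) 4) +
    Complex.I • (Complex.ofRealCLM).comp
      (ContinuousLinearMap.proj (R := ℝ) (φ := fun _ : Fin 6 => ℝ) 5)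

private theorem piL_apply (x : E6) : piL x = pi6 x := by
  apply Complex.ext <;> simp [piL, pi6]

private theorem pi6_eq : pi6 = piL := by
  funext x; exact (piL_apply x).symm

private theorem fderiv_pi6 (x : E6) : fderiv ℝ pi6 x = piL := by
  rw [pi6_eq]; exact piL.fderiv

private theorem pi6_smooth : ContDiff ℝ ∞ pi6 := by
  rw [pi6_eq]; exact piL.contDiff

private theorem pi6_surj (x : E6) : Function.Surjective (fderiv ℝ pi6 x) := by
  rw [fderiv_pi6]
  intro w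
  refine ⟨![0, 0, 0, 0, w.re, w.im], ?_⟩
  rw [piL_apply]
  apply Complex.ext <;> simp [pi6]

private theorem piL_eq_zero {v : E6} (h : piL v = 0) : v 4 = 0 ∧ v 5 = 0 := by
  rw [piL_apply] at h
  exact ⟨congrArg Complex.re h, congrArg Complex.im h⟩

private theorem piL_of_zero {v : E6} (h4 : v 4 = 0) (h5 : v 5 = 0) : piL v = 0 := by
  rw [piL_apply]
  apply Complex.ext <;> simp [pi6, h4, h5]

private theorem pi6_G (g : E6 → E6) (hg : g ∈ G6) (x : E6) : pi6 (g x) = pi6 x := by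
  obtain ⟨k, a, b, rfl⟩ := hg
  apply Complex.ext <;> simp [pi6, g6]

private noncomputable def Ph (x : E6) (w : ℂ) : E6 := ![x 0, x 1, x 2, x 3, w.re, w.im]

private noncomputable def PhL : E6 × ℂ →L[ℝ] E6 :=
  ContinuousLinearMap.pi ![
    (ContinuousLinearMap.proj (R := ℝ) (φ := fun _ : Fin 6 => ℝ) 0).comp
      (ContinuousLinearMap.fst ℝ E6 ℂ),
    (ContinuousLinearMap.proj (R := ℝ) (φ := fun _ : Fin 6 => ℝ) 1).comp
      (ContinuousLinearMap.fst ℝ E6 ℂ),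
    (ContinuousLinearMap.proj (R := ℝ) (φ := fun _ : Fin 6 => ℝ) 2).comp
      (ContinuousLinearMap.fst ℝ E6 ℂ),
    (ContinuousLinearMap.proj (R := ℝ) (φ := fun _ : Fin 6 => ℝ) 3).comp
      (ContinuousLinearMap.fst ℝ E6 ℂ),
    Complex.reCLM.comp (ContinuousLinearMap.snd ℝ E6 ℂ),
    Complex.imCLM.comp (ContinuousLinearMap.snd ℝ E6 ℂ)]

private theorem PhL_apply (x : E6) (w : ℂ) : PhL (x, w) = Ph x w := by
  funext i
  fin_cases i <;> simp [PhL, Ph]

private theorem Ph_smooth : ContDiff ℝ ∞ (fun y : E6 × ℂ => Ph y.1 y.2) := by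
  have h : (fun y : E6 × ℂ => Ph y.1 y.2) = PhL := by
    funext y; exact (PhL_apply y.1 y.2).symm
  rw [h]; exact PhL.contDiff

private theorem fderiv_Ph (x v : E6) : fderiv ℝ (fun y => Ph y 0) x v = Ph v 0 := by
  have h : (fun y : E6 => Ph y 0) = PhL.comp (ContinuousLinearMap.inl ℝ E6 ℂ) := by
    funext y
    rw [ContinuousLinearMap.comp_apply, ContinuousLinearMap.inl_apply, PhL_apply]
  rw [h, ContinuousLinearMap.fderiv, ContinuousLinearMap.comp_apply,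
    ContinuousLinearMap.inl_apply, PhL_apply]

private noncomputable def et (x : E6) : ℝ := Real.sqrt |m6 x|

private theorem m6_smooth : ContDiff ℝ ∞ m6 := by
  unfold m6
  exact (contDiff_apply ℝ ℝ (2 : Fin 6)).mul (contDiff_apply ℝ ℝ (3 : Fin 6))

private theorem m6_fderiv (x v : E6) : fderiv ℝ m6 x v = x 2 * v 3 + x 3 * v 2 := by
  have h2 : HasFDerivAt (fun y : E6 => y 2)
      (ContinuousLinearMap.proj (R := ℝ) (φ := fun _ : Fin 6 => ℝ) 2) x :=
    (ContinuousLinearMap.proj (R := ℝ) (φ := fun _ : Fin 6 => ℝ) 2).hasFDerivAt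
  have h3 : HasFDerivAt (fun y : E6 => y 3)
      (ContinuousLinearMap.proj (R := ℝ) (φ := fun _ : Fin 6 => ℝ) 3) x :=
    (ContinuousLinearMap.proj (R := ℝ) (φ := fun _ : Fin 6 => ℝ) 3).hasFDerivAt
  have h := (h2.mul h3).fderiv
  have e : fderiv ℝ m6 x = fderiv ℝ ((fun y : E6 => y 2) * fun y : E6 => y 3) x := rfl
  rw [e, h]
  simp

private theorem et_cont : Continuous et :=
  Real.continuous_sqrt.comp (continuous_abs.comp m6_smooth.continuous)

private theorem m6_ne {x : E6} (h : 1 < et x) : m6 x ≠ 0 := by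
  intro h0
  rw [et, h0, abs_zero, Real.sqrt_zero] at h
  linarith

private theorem et_contDiffAt {x : E6} (h : 1 < et x) : ContDiffAt ℝ ∞ et x := by
  have hm := m6_ne h
  have h1 : ContDiffAt ℝ ∞ (fun y : E6 => |m6 y|) x :=
    (contDiffAt_abs hm).comp x m6_smooth.contDiffAt
  exact h1.sqrt (abs_ne_zero.mpr hm)

private theorem et_fderiv {x : E6} (h : 1 < et x) : fderiv ℝ et x (Z6 x) = et x := by
  have hm := m6_ne h
  have hd : HasFDerivAt m6 (fderiv ℝ m6 x) x :=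
    (m6_smooth.differentiable (by simp)).differentiableAt.hasFDerivAt
  have hZ : fderiv ℝ m6 x (Z6 x) = 2 * m6 x := by
    rw [m6_fderiv]; simp [Z6, m6]; ring
  have habs : HasDerivAt (fun t : ℝ => |t|) (SignType.sign (m6 x) : ℝ) (m6 x) :=
    hasDerivAt_abs hm
  have h1 : HasFDerivAt (fun y => |m6 y|) ((SignType.sign (m6 x) : ℝ) • fderiv ℝ m6 x) x :=
    habs.comp_hasFDerivAt x hd
  have h2 := h1.sqrt (abs_ne_zero.mpr hm)
  have h3 : fderiv ℝ et x = (1 / (2 * Real.sqrt |m6 x|)) •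
      ((SignType.sign (m6 x) : ℝ) • fderiv ℝ m6 x) := h2.fderiv
  rw [h3]
  simp only [smul_apply, smul_eq_mul]
  rw [hZ]
  have hs : (SignType.sign (m6 x) : ℝ) * (2 * m6 x) = 2 * |m6 x| := by
    have := sign_mul_self (m6 x)
    rw [← this]; ring
  rw [hs, et]
  have hpos : 0 < Real.sqrt |m6 x| := Real.sqrt_pos.mpr (abs_pos.mpr hm)
  have hsq : Real.sqrt |m6 x| * Real.sqrt |m6 x| = |m6 x| := Real.mul_self_sqrt (abs_nonneg _)
  field_simp
  nlinarith

private theorem et_G (g : E6 → E6) (hg : g ∈ G6) (x : E6) : et (g x) = et x := by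
  rw [et, m_G6 g hg, et]

private theorem Bdd_mono {X : QMan E6} {S T : Set E6} (h : S ⊆ T) (hT : X.Bdd T) : X.Bdd S := by
  obtain ⟨K, hK, hc, h'⟩ := hT
  exact ⟨K, hK, hc, fun x hx => h' x (h hx)⟩

private theorem et_bdd (c : ℝ) : Q6.Bdd {x | x ∈ U6 ∧ et x ≤ c ∧ ‖pi6 x‖ ≤ c} := by
  refine Bdd_mono ?_ (bdd6 (max c (c ^ 2)))
  rintro x ⟨hx, h1, h2⟩
  have hc : 0 ≤ c := (Real.sqrt_nonneg _).trans h1
  refine ⟨hx, ?_, ?_, ?_⟩
  · refine le_trans ?_ (le_max_right _ _)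
    rw [et, Real.sqrt_le_left hc] at h1
    exact h1
  · refine le_trans ?_ (le_max_left _ _)
    exact (Complex.abs_re_le_norm (pi6 x)).trans h2
  · refine le_trans ?_ (le_max_left _ _)
    exact (Complex.abs_im_le_norm (pi6 x)).trans h2

private theorem Ph_G (g : E6 → E6) (hg : g ∈ G6) (x : E6) (w : ℂ) : Ph (g x) w = g (Ph x w) := by
  obtain ⟨k, a, b, rfl⟩ := hg
  funext i
  fin_cases i <;> simp [Ph, g6]

private theorem lam_split (x v : E6) :
    lam6 x v = lam6 (Ph x 0) (Ph v 0) +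
      (1 / 2) * ((starRingEnd ℂ) (pi6 x) * piL v).im := by
  rw [piL_apply]
  simp [lam6, Ph, pi6]
  ring

/-- the projection is a Lefschetz fibration
(`eta = sqrt |m|`, `Phi x w = (x0, x1, x2, x3, re w, im w)`, `c = 1/2`, `K = ∅`) -/
theorem lefschetz6 : IsLefschetz X6 pi6 where
  smooth := pi6_smooth.contDiffOn
  inv := fun g hg x _ => pi6_G g hg x
  crit_finite := ⟨∅, fun x _ h => absurd (pi6_surj x) h⟩
  crit_morse := fun x _ h => absurd (pi6_surj x) h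
  fibre_symp := by
    intro x _ _ v hv hw
    rw [fderiv_pi6] at hv
    obtain ⟨h4, h5⟩ := piL_eq_zero hv
    apply nondeg6
    intro w
    have h := hw (Ph w 0) (by rw [fderiv_pi6]; exact piL_of_zero (by simp [Ph]) (by simp [Ph]))
    rw [show X6.lam = lam6 from rfl, dlam6] at h
    rw [← h]
    simp [om, Ph, h4, h5]
  horizontal := by
    refine ⟨et, Ph, et_cont.continuousOn, fun g hg x _ => et_G g hg x, fun c => et_bdd c,
      fun x hx => (et_contDiffAt hx.2).contDiffWithinAt, Ph_smooth.contDiffOn, ?_⟩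
    intro x hx h
    refine ⟨pi6_surj x, et_fderiv h, ?_, ?_, ?_⟩
    · funext i
      fin_cases i <;> simp [Ph, pi6]
    · intro w
      refine ⟨?_, ?_, ?_, ?_, ?_⟩
      · have h3 : 0 < x 3 := hx
        exact (show 0 < Ph x w 3 by simpa [Ph] using h3)
      · simp [et, m6, Ph]
      · apply Complex.ext <;> simp [pi6, Ph]
      · intro w'
        funext i
        fin_cases i <;> simp [Ph]
      · intro g hg
        exact Ph_G g hg x w
    · intro v
      rw [fderiv_Ph, fderiv_pi6]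
      exact lam_split x v
  vertical := by
    refine ⟨∅, fun _ => 1 / 2, 1 / 2, ⟨∅, empty_subset _, isCompact_empty, by simp⟩, by norm_num,
      ?_⟩
    intro x _ _
    refine ⟨le_refl _, ?_⟩
    rw [fderiv_pi6, show X6.Z = Z6 from rfl, piL_apply]
    apply Complex.ext
    · simp [pi6, Z6]; ring
    · simp [pi6, Z6]; ring

end Pool.Agent.LF
end

section

/-! # Task FloA: `‖p‖` along the Liouville flow in `C6` -/

open Set Filter Topology
open scoped ContDiff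

namespace Pool.Agent.LF

/-- the radial derivative of `p` along the flow -/
theorem deriv_p_fl {p : E6 → ℂ} (hp : ContDiffOn ℝ ∞ p U6) {x : E6} (hx : x ∈ U6) (t : ℝ) :
    HasDerivAt (fun s => p (fl s x)) (fderiv ℝ p (fl t x) (Z6 (fl t x))) t := by
  have hU : fl t x ∈ U6 := flow_mem6 t x hx
  have h1 : DifferentiableAt ℝ p (fl t x) :=
    (hp.contDiffAt (isOpen_U6.mem_nhds hU)).differentiableAt (by simp)
  exact h1.hasFDerivAt.comp_hasDerivAt t (flow_deriv6 x t)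

/-- the derivative of the square of the norm -/
theorem deriv_nsq_fl {p : E6 → ℂ} (hp : ContDiffOn ℝ ∞ p U6) {x : E6} (hx : x ∈ U6) (t : ℝ)
    {c : ℝ} (hc : fderiv ℝ p (fl t x) (Z6 (fl t x)) = (c : ℂ) * p (fl t x)) :
    HasDerivAt (fun s => ‖p (fl s x)‖ ^ 2) (2 * c * ‖p (fl t x)‖ ^ 2) t := by
  have h := deriv_p_fl hp hx t
  have h2 := h.norm_sq
  rw [hc] at h2
  convert h2 using 1
  rw [show (c : ℂ) * p (fl t x) = c • p (fl t x) from by simp]
  rw [inner_smul_right, real_inner_self_eq_norm_sq]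
  ring

/-- on `C6`, `‖p‖` is strictly increasing along the flow once it is `≥ R₀` -/
theorem norm_p_mono {p : E6 → ℂ} (hp : ContDiffOn ℝ ∞ p U6) {R₀ : ℝ} (hb : Big p R₀) {x : E6}
    (hx : x ∈ C6) {s t : ℝ} (hst : s < t) (hs : R₀ ≤ ‖p (fl s x)‖) :
    ‖p (fl s x)‖ < ‖p (fl t x)‖ := by
  have hxU : x ∈ U6 := hx.1
  set N : ℝ → ℝ := fun τ => ‖p (fl τ x)‖ ^ 2 with hN
  have hd : ∀ τ, HasDerivAt N (deriv N τ) τ := by
    intro τ
    have h := (deriv_p_fl hp hxU τ).norm_sq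
    have h' : DifferentiableAt ℝ N τ := h.differentiableAt
    exact h'.hasDerivAt
  have hpos : ∀ τ, R₀ ≤ ‖p (fl τ x)‖ → 0 < deriv N τ := by
    intro τ hτ
    obtain ⟨c, hc0, hc⟩ := hb.rad (fl τ x) (flow_mem6 τ x hxU) hτ
    have h := (deriv_nsq_fl hp hxU τ hc).deriv
    have h0 : 0 < ‖p (fl τ x)‖ := lt_of_lt_of_le hb.pos hτ
    show 0 < deriv N τ
    rw [hN, h]
    positivity
  have hcont : Continuous N := continuous_iff_continuousAt.2 fun τ => (hd τ).continuousAt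
  have hle : ∀ τ ∈ Icc s t, N s ≤ N τ := by
    intro τ hτ
    have := image_le_of_deriv_right_lt_deriv_boundary' (f := fun _ => N s) (f' := fun _ => 0)
      (a := s) (b := t) continuousOn_const (fun x _ => hasDerivWithinAt_const _ _ _)
      (B := N) (B' := deriv N) le_rfl hcont.continuousOn
      (fun y _ => (hd y).hasDerivWithinAt) (fun y hy hyN => by
        apply hpos
        have : ‖p (fl s x)‖ ^ 2 = ‖p (fl y x)‖ ^ 2 := hyN
        have h3 : ‖p (fl s x)‖ = ‖p (fl y x)‖ :=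
          (pow_left_inj₀ (norm_nonneg _) (norm_nonneg _) two_ne_zero).1 this
        rw [← h3]; exact hs) hτ
    exact this
  have hge : ∀ τ ∈ Icc s t, R₀ ≤ ‖p (fl τ x)‖ := by
    intro τ hτ
    have := (pow_le_pow_iff_left₀ (norm_nonneg _) (norm_nonneg _) two_ne_zero).1 (hle τ hτ)
    exact hs.trans this
  have hmono : StrictMonoOn N (Icc s t) := by
    apply strictMonoOn_of_deriv_pos (convex_Icc s t) hcont.continuousOn
    intro τ hτ
    rw [interior_Icc] at hτ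
    exact hpos τ (hge τ ⟨hτ.1.le, hτ.2.le⟩)
  have := hmono (left_mem_Icc.2 hst.le) (right_mem_Icc.2 hst.le) hst
  exact (pow_lt_pow_iff_left₀ (norm_nonneg _) (norm_nonneg _) two_ne_zero).1 this

/-- `rho6` is positive on `C6` -/
theorem rho_pos_C {x : E6} (hx : x ∈ C6) : 0 < rho6 x := by
  obtain ⟨_, h4, h5, _⟩ := hx
  unfold rho6
  have h1 : 0 ≤ m6 x ^ 2 := sq_nonneg _
  have h2 : 0 < (x 4 ^ 2 + x 5 ^ 2) ^ 4 := by
    have : 0 < x 4 ^ 2 := by positivity
    positivity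
  linarith

/-- membership in `C6` of limit points with `rho6 > 0` -/
theorem mem_C_of_closure {S : Set E6} (hS : S ⊆ C6) {x : E6} (hx : x ∈ U6)
    (hc : x ∈ closure S) (hr : 0 < rho6 x) : x ∈ C6 := by
  have h5 : x 5 = 0 := by
    have hcl : IsClosed {y : E6 | y 5 = 0} := isClosed_eq (continuous_apply 5) continuous_const
    exact (hcl.closure_subset_iff.2 (fun y hy => (hS hy).2.2.1)) hc
  have hh : h6 x ≤ 0 := by
    have hcont : Continuous h6 := by
      unfold h6 m6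
      fun_prop
    have hcl : IsClosed {y : E6 | h6 y ≤ 0} := isClosed_le hcont continuous_const
    exact (hcl.closure_subset_iff.2 (fun y hy => (hS hy).2.2.2)) hc
  refine ⟨hx, fun h4 => ?_, h5, hh⟩
  unfold h6 at hh
  unfold rho6 at hr
  rw [h4] at hh
  rw [h4, h5] at hr
  nlinarith [hh, hr]

/-- each trajectory in `C6` meets the fibre over `R` -/
theorem exists_hit {p : E6 → ℂ} (hL : IsLefschetz X6 p) {R₀ R : ℝ} (hb : Big p R₀)
    (hR : R₀ < R) {x : E6} (hx : x ∈ C6) : ∃ t : ℝ, p (fl t x) = R := by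
  have hp : ContDiffOn ℝ ∞ p U6 := hL.smooth
  have hpG : ∀ g ∈ G6, ∀ x ∈ U6, p (g x) = p x := hL.inv
  have hxU : x ∈ U6 := hx.1
  have hr0 : 0 < rho6 x := rho_pos_C hx
  have hflC : ∀ t, fl t x ∈ C6 := fun t => (C_fl t x).2 hx
  have hR0 : 0 < R := hb.pos.trans hR
  -- forward
  obtain ⟨t₁, ht₁⟩ : ∃ t, R < ‖p (fl t x)‖ := by
    by_contra hcon
    push Not at hcon
    obtain ⟨c, hc⟩ := bdd_image (f := rho6) (S := {y | y ∈ C6 ∧ ‖p y‖ ≤ R})
      (fun y hy => hy.1.1) (hb.bddC R) rho_smooth6.continuous.continuousOn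
      (fun g hg y _ => rho_inv6 g hg y)
    have h1 : ∀ t : ℝ, Real.exp (4 * t) * rho6 x ≤ c := by
      intro t
      have h2 := hc (fl t x) ⟨hflC t, hcon t⟩
      rw [rho_fl] at h2
      exact (le_abs_self _).trans h2
    have h3 : Tendsto (fun t : ℝ => Real.exp (4 * t) * rho6 x) atTop atTop := by
      apply Tendsto.atTop_mul_const hr0
      exact Real.tendsto_exp_atTop.comp (tendsto_id.const_mul_atTop (by norm_num))
    obtain ⟨t, ht⟩ := (h3.eventually (eventually_gt_atTop c)).exists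
    exact absurd (h1 t) (not_le.2 ht)
  -- backward
  obtain ⟨t₀, ht₀⟩ : ∃ t, ‖p (fl t x)‖ < R₀ := by
    by_contra hcon
    push Not at hcon
    set c : ℝ := ‖p (fl t₁ x)‖ with hcdef
    set S : Set E6 := {y | y ∈ C6 ∧ R₀ ≤ ‖p y‖ ∧ ‖p y‖ ≤ c} with hSdef
    have hSU : S ⊆ U6 := fun y hy => hy.1.1
    have hScl : ∀ y ∈ U6, y ∈ closure S → y ∈ S := by
      intro y hy hyc
      have hpc : ContinuousWithinAt (fun z => ‖p z‖) S y :=
        ((hp.continuousOn y hy).mono hSU).norm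
      have hmem : ‖p y‖ ∈ closure (Icc R₀ c) :=
        hpc.mem_closure hyc (fun z hz => hz.2)
      rw [isClosed_Icc.closure_eq] at hmem
      exact ⟨mem_C_of_closure (fun z hz => hz.1) hy hyc (hb.skel y hy hmem.1), hmem⟩
    have hSG : ∀ g ∈ G6, ∀ y ∈ S, g y ∈ S := by
      intro g hg y hy
      refine ⟨(C_G6 g hg y (hSU hy)).2 hy.1, ?_⟩
      rw [hpG g hg y (hSU hy)]
      exact hy.2
    have hSb : Q6.Bdd S := bdd_mono (hb.bddC c) (fun y hy => ⟨hy.1, hy.2.2⟩)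
    obtain ⟨K, hKS, hK, hKc⟩ := compact_rep hSU hScl hSG hSb
    have h1S : fl t₁ x ∈ S := ⟨hflC t₁, hcon t₁, le_rfl⟩
    obtain ⟨g₁, hg₁, hk₁⟩ := hKc _ h1S
    obtain ⟨k, hkK, hkmin⟩ := hK.exists_isMinOn ⟨_, hk₁⟩
      (rho_smooth6.continuous.continuousOn (s := K))
    have hkpos : 0 < rho6 k := rho_pos_C (hKS hkK).1
    have hlow : ∀ t ≤ t₁, rho6 k ≤ Real.exp (4 * t) * rho6 x := by
      intro t ht
      have htS : fl t x ∈ S := by
        refine ⟨hflC t, hcon t, ?_⟩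
        rcases ht.lt_or_eq with h | h
        · exact (norm_p_mono hp hb hx h (hcon t)).le
        · rw [h]
      obtain ⟨g, hg, hgk⟩ := hKc _ htS
      have h2 : rho6 k ≤ rho6 (g (fl t x)) := hkmin hgk
      rw [rho_inv6 g hg, rho_fl] at h2
      exact h2
    have h3 : Tendsto (fun t : ℝ => Real.exp (4 * t) * rho6 x) atBot (𝓝 (0 * rho6 x)) := by
      apply Tendsto.mul_const
      exact Real.tendsto_exp_atBot.comp (tendsto_id.const_mul_atBot (by norm_num))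
    rw [zero_mul] at h3
    obtain ⟨t, ht, ht'⟩ := ((h3.eventually (gt_mem_nhds hkpos)).and
      (eventually_le_atBot t₁)).exists
    exact absurd (hlow t ht') (not_le.2 ht)
  -- intermediate value
  have hcont : Continuous fun t => ‖p (fl t x)‖ :=
    (continuous_iff_continuousAt.2 fun t => (deriv_p_fl hp hxU t).continuousAt).norm
  obtain ⟨t, ht⟩ : ∃ t, ‖p (fl t x)‖ = R :=
    mem_range_of_exists_le_of_exists_ge hcont ⟨t₀, (ht₀.trans hR).le⟩ ⟨t₁, ht₁.le⟩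
  refine ⟨t, ?_⟩
  obtain ⟨h1, h2⟩ := hb.real (fl t x) (hflC t) (ht ▸ hR.le)
  have h3 : ‖p (fl t x)‖ = (p (fl t x)).re := by
    have : p (fl t x) = ((p (fl t x)).re : ℂ) := by
      apply Complex.ext <;> simp [h2]
    rw [this, Complex.norm_real, Complex.ofReal_re, Real.norm_of_nonneg h1.le]
  apply Complex.ext
  · rw [← h3, ht]; simp
  · rw [h2]; simp

end Pool.Agent.LF
end

section

/-! # Task FloB: moving along the Liouville flow inside `C6` -/

open Set Filter Topology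
open scoped ContDiff

namespace Pool.Agent.LF

private theorem kap_fl (t : ℝ) (x : E6) : kap (fl t x) =
    ⟨Real.exp (2 * t) * (m6 x - x 4 ^ 4), Real.exp (t / 2) * x 5⟩ := by
  have h1 : Real.exp t * Real.exp t = Real.exp (2 * t) := by
    rw [← Real.exp_add]; congr 1; ring
  have h2 : Real.exp (t / 2) ^ 4 = Real.exp (2 * t) := by
    rw [← Real.exp_nat_mul]; congr 1; push_cast; ring
  apply Complex.ext
  · change (Real.exp t * x 2) * (Real.exp t * x 3) - (Real.exp (t / 2) * x 4) ^ 4 = _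
    simp only [m6]
    rw [mul_pow, h2, ← h1]
    ring
  · rfl

private theorem kap_fl_ne {t : ℝ} {x : E6} (h : kap x ≠ 0) (h5 : x 5 = 0) :
    kap (fl t x) ≠ 0 := by
  intro h0
  rw [kap_fl] at h0
  have h1 : Real.exp (2 * t) * (m6 x - x 4 ^ 4) = 0 := congrArg Complex.re h0
  have h2 : m6 x - x 4 ^ 4 = 0 := by
    rcases mul_eq_zero.1 h1 with h | h
    · exact absurd h (Real.exp_pos _).ne'
    · exact h
  apply h
  apply Complex.ext
  · exact h2
  · exact h5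

/-- On `C6`, where `‖p‖ = R` we have `p = R`. -/
private theorem p_eq_of_norm {p : E6 → ℂ} {R₀ R : ℝ} (hb : Big p R₀)
    (hR : R₀ < R) {x : E6} (hx : x ∈ C6) (h : ‖p x‖ = R) : p x = R := by
  obtain ⟨h1, h2⟩ := hb.real x hx (by rw [h]; exact hR.le)
  have h3 : p x = ((p x).re : ℂ) := by
    apply Complex.ext
    · simp
    · simp [h2]
  have h4 : ‖p x‖ = (p x).re := by
    rw [h3, Complex.norm_real, Real.norm_eq_abs]
    simp [abs_of_pos h1]
  rw [h3, ← h4, h]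

private theorem norm_p_of_eq {p : E6 → ℂ} {R₀ R : ℝ} (hb : Big p R₀)
    (hR : R₀ < R) {x : E6} (h : p x = R) : ‖p x‖ = R := by
  rw [h, Complex.norm_real, Real.norm_eq_abs, abs_of_pos (hb.pos.trans hR)]

private theorem fl_cont : Continuous fun y : ℝ × E6 => fl y.1 y.2 := by
  unfold fl
  apply continuous_pi
  intro i
  fin_cases i <;> simp <;> fun_prop

/-- continuous choice of the hitting time -/
private theorem hit_cont {p : E6 → ℂ} (hL : IsLefschetz X6 p) {R₀ R : ℝ} (hb : Big p R₀)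
    (hR : R₀ < R) {I : Set ℝ} {c : ℝ → E6} (hc : ContinuousOn c I) (hcC : ∀ s ∈ I, c s ∈ C6) :
    ∃ τ : ℝ → ℝ, ContinuousOn τ I ∧ (∀ s ∈ I, p (fl (τ s) (c s)) = R) ∧
      ∀ s ∈ I, ∀ t, p (fl t (c s)) = R → t = τ s := by
  have hp : ContDiffOn ℝ ∞ p U6 := hL.smooth
  have hex : ∀ s, ∃ t : ℝ, s ∈ I → p (fl t (c s)) = R := by
    intro s
    by_cases hs : s ∈ I
    · obtain ⟨t, ht⟩ := exists_hit hL hb hR (hcC s hs)
      exact ⟨t, fun _ => ht⟩
    · exact ⟨0, fun h => absurd h hs⟩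
  choose τ hτ using hex
  have hgt : ∀ s ∈ I, ∀ t, τ s < t → R < ‖p (fl t (c s))‖ := by
    intro s hs t ht
    have h1 := norm_p_of_eq hb hR (hτ s hs)
    have := norm_p_mono hp hb (hcC s hs) ht (by rw [h1]; exact hR.le)
    rwa [h1] at this
  have hlt : ∀ s ∈ I, ∀ t, t < τ s → ‖p (fl t (c s))‖ < R := by
    intro s hs t ht
    by_contra hge
    rw [not_lt] at hge
    have h1 := norm_p_of_eq hb hR (hτ s hs)
    have := norm_p_mono hp hb (hcC s hs) ht (hR.le.trans hge)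
    rw [h1] at this
    linarith
  refine ⟨τ, ?_, hτ, ?_⟩
  · have hN : ∀ t, ContinuousOn (fun s => ‖p (fl t (c s))‖) I := by
      intro t
      apply ContinuousOn.norm
      apply hp.continuousOn.comp
      · exact (fl_cont.comp (Continuous.prodMk continuous_const continuous_id)).comp_continuousOn hc
      · intro s hs
        exact flow_mem6 t _ (hcC s hs).1
    intro s₀ hs₀
    rw [ContinuousWithinAt, tendsto_order]
    constructor
    · intro a ha
      have h1 := hlt s₀ hs₀ a ha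
      have h2 := (hN a s₀ hs₀).eventually (gt_mem_nhds h1)
      filter_upwards [h2, self_mem_nhdsWithin] with s hs hsI
      by_contra hle
      rw [not_lt] at hle
      rcases hle.eq_or_lt with heq | hlt'
      · have := norm_p_of_eq hb hR (hτ s hsI)
        rw [heq] at this
        linarith
      · have := hgt s hsI a hlt'
        linarith
    · intro a ha
      have h1 := hgt s₀ hs₀ a ha
      have h2 := (hN a s₀ hs₀).eventually (lt_mem_nhds h1)
      filter_upwards [h2, self_mem_nhdsWithin] with s hs hsI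
      by_contra hle
      rw [not_lt] at hle
      rcases hle.eq_or_lt with heq | hlt'
      · have := norm_p_of_eq hb hR (hτ s hsI)
        rw [← heq] at this
        linarith
      · have := hlt s hsI a hlt'
        linarith
  · intro s hs t ht
    have h1 := norm_p_of_eq hb hR ht
    rcases lt_trichotomy t (τ s) with h | h | h
    · have := hlt s hs t h
      linarith
    · exact h
    · have := hgt s hs t h
      linarith

/-- every point of `C6` over `R` with `kap ≠ 0` is connected inside `C6`, inside the fibre and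
inside `kap ≠ 0` to a boundary point -/
theorem path_C {p : E6 → ℂ} (hL : IsLefschetz X6 p) {R₀ R : ℝ} (hb : Big p R₀)
    (hR : R₀ < R) {x : E6} (hx : x ∈ C6) (hpx : p x = R) (hk : kap x ≠ 0) :
    ∃ Γ : Set E6, IsPreconnected Γ ∧ x ∈ Γ ∧ (∀ y ∈ Γ, y ∈ C6 ∧ p y = R ∧ kap y ≠ 0) ∧
      ∃ y ∈ Γ, h6 y = 0 := by
  obtain ⟨hxU, hx4, hx5, hxh⟩ := hx
  have hq : 0 < x 3 := hxU
  have hu4 : 0 < x 4 ^ 4 := by positivity
  have habs : |m6 x| ≤ x 4 ^ 4 := by
    apply abs_le_of_sq_le_sq _ hu4.le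
    have := hxh
    unfold h6 at this
    nlinarith
  have hmlt : m6 x < x 4 ^ 4 := by
    refine lt_of_le_of_ne (abs_le.1 habs).2 fun h => hk ?_
    apply Complex.ext
    · change m6 x - x 4 ^ 4 = 0
      linarith
    · exact hx5
  have hm : m6 x = x 2 * x 3 := rfl
  -- the path
  let c : ℝ → E6 := fun s => ![x 0, x 1, s, x 3, x 4, 0]
  have hc : Continuous c := by
    apply continuous_pi
    intro i
    fin_cases i <;> simp [c] <;> fun_prop
  let I : Set ℝ := Icc (-(x 4 ^ 4) / x 3) (x 2)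
  have hmc : ∀ s, m6 (c s) = s * x 3 := fun s => rfl
  have hle : -(x 4 ^ 4) / x 3 ≤ x 2 := by
    rw [div_le_iff₀ hq]
    have := (abs_le.1 habs).1
    linarith
  have hcI : ∀ s ∈ I, -(x 4 ^ 4) ≤ m6 (c s) ∧ m6 (c s) < x 4 ^ 4 := by
    intro s hs
    rw [hmc]
    constructor
    · have := hs.1
      rwa [div_le_iff₀ hq] at this
    · have : s * x 3 ≤ x 2 * x 3 := mul_le_mul_of_nonneg_right hs.2 hq.le
      linarith
  have hcC : ∀ s ∈ I, c s ∈ C6 := by
    intro s hs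
    refine ⟨hq, hx4, rfl, ?_⟩
    obtain ⟨h1, h2⟩ := hcI s hs
    have h3 : m6 (c s) ^ 2 ≤ (x 4 ^ 4) ^ 2 := by
      apply sq_le_sq'
      · exact h1
      · exact h2.le
    change m6 (c s) ^ 2 - x 4 ^ 8 ≤ 0
    nlinarith
  have hck : ∀ s ∈ I, kap (c s) ≠ 0 := by
    intro s hs h0
    have h1 : m6 (c s) - x 4 ^ 4 = 0 := congrArg Complex.re h0
    linarith [(hcI s hs).2]
  obtain ⟨τ, hτc, hτ, hτu⟩ := hit_cont hL hb hR hc.continuousOn hcC
  have hcx : c (x 2) = x := by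
    funext i
    fin_cases i <;> simp [c, hx5]
  refine ⟨(fun s => fl (τ s) (c s)) '' I, ?_, ?_, ?_, ?_⟩
  · apply isPreconnected_Icc.image
    exact fl_cont.comp_continuousOn (hτc.prodMk hc.continuousOn)
  · refine ⟨x 2, ⟨hle, le_rfl⟩, ?_⟩
    have : (0 : ℝ) = τ (x 2) := hτu (x 2) ⟨hle, le_rfl⟩ 0 (by rw [hcx, flow_zero6]; exact hpx)
    simp only
    rw [← this, hcx, flow_zero6]
  · rintro _ ⟨s, hs, rfl⟩
    exact ⟨(C_fl _ _).2 (hcC s hs), hτ s hs, kap_fl_ne (hck s hs) rfl⟩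
  · refine ⟨_, ⟨-(x 4 ^ 4) / x 3, ⟨le_rfl, hle⟩, rfl⟩, ?_⟩
    simp only
    rw [h_fl]
    have : h6 (c (-(x 4 ^ 4) / x 3)) = 0 := by
      change m6 (c (-(x 4 ^ 4) / x 3)) ^ 2 - x 4 ^ 8 = 0
      rw [hmc, div_mul_cancel₀ _ hq.ne']
      ring
    rw [this, mul_zero]

/-- there is a zero of `kap` in `C6` over `R` -/
theorem exists_zero {p : E6 → ℂ} (hL : IsLefschetz X6 p) {R₀ R : ℝ} (hb : Big p R₀)
    (hR : R₀ < R) : ∃ y ∈ C6, p y = R ∧ kap y = 0 := by
  let x : E6 := ![0, 0, 1, 1, 1, 0]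
  have hx : x ∈ C6 := by
    refine ⟨?_, ?_, rfl, ?_⟩
    · change (0 : ℝ) < 1
      exact one_pos
    · change (1 : ℝ) ≠ 0
      exact one_ne_zero
    · change ((1 : ℝ) * 1) ^ 2 - 1 ^ 8 ≤ 0
      norm_num
  obtain ⟨t, ht⟩ := exists_hit hL hb hR hx
  refine ⟨fl t x, (C_fl _ _).2 hx, ht, ?_⟩
  rw [kap_fl]
  have h1 : m6 x - x 4 ^ 4 = 0 := by
    change (1 : ℝ) * 1 - 1 ^ 4 = 0
    norm_num
  have h2 : x 5 = 0 := rfl
  rw [h1, h2, mul_zero, mul_zero]
  rfl

end Pool.Agent.LF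
end

section

/-! # Task MorA: finitely many critical values -/

open Set Filter Topology
open scoped ContDiff

namespace Pool.Agent.LF

/-- only finitely many critical values: near `z₁` all critical points lie over `z₁` -/
theorem crit_near {p : E6 → ℂ} (hp : IsLefschetz X6 p) (z₁ : ℂ) :
    ∃ e > 0, ∀ x ∈ U6, ‖p x - z₁‖ ≤ e → ¬ Function.Surjective (fderiv ℝ p x) → p x = z₁ := by
  obtain ⟨P, hP⟩ := hp.crit_finite
  have hF : ((p '' (P : Set E6)) \ {z₁}).Finite := (P.finite_toSet.image p).subset Set.sdiff_subset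
  have h1 : ((p '' (P : Set E6)) \ {z₁})ᶜ ∈ 𝓝 z₁ :=
    hF.isClosed.isOpen_compl.mem_nhds (by simp)
  obtain ⟨e, he, hball⟩ := Metric.mem_nhds_iff.1 h1
  refine ⟨e / 2, half_pos he, fun x hx hxe hs => ?_⟩
  by_contra hne
  obtain ⟨g, hg, hgx⟩ := hP x hx hs
  have h2 : p (g x) = p x := hp.inv g hg x hx
  have h3 : p x ∈ Metric.ball z₁ e := by
    rw [Metric.mem_ball, dist_eq_norm]
    linarith
  exact hball h3 ⟨⟨g x, hgx, h2⟩, hne⟩

end Pool.Agent.LF
end

section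

/-! # Task Morse: Morse balls around the critical points over `z₁` -/

open Set Filter Topology
open scoped ContDiff

namespace Pool.Agent.LF

namespace MorseAux

/-- Morse chart at one critical point -/
theorem chart {p : E6 → ℂ} (hp : IsLefschetz X6 p) {V : Set E6} (hV : IsOpen V) {x : E6}
    (hx : x ∈ U6) (hs : ¬ Function.Surjective (fderiv ℝ p x)) (hxV : x ∈ V) :
    ∃ (psi : (Fin 3 → ℂ) → E6) (S : Set (Fin 3 → ℂ)), IsOpen S ∧ 0 ∈ S ∧ InjOn psi S ∧
      ContinuousOn psi S ∧ (∀ O ⊆ S, IsOpen O → IsOpen (psi '' O)) ∧ psi 0 = x ∧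
      ∀ z ∈ S, psi z ∈ U6 ∧ psi z ∈ V ∧ p (psi z) = p x + qf z := by
  obtain ⟨psi, h0, hsm, hbij, -, hev⟩ := hp.crit_morse x hx hs
  have hstr : HasStrictFDerivAt psi (fderiv ℝ psi 0) 0 := hsm.hasStrictFDerivAt (by simp)
  set F' : (Fin 3 → ℂ) ≃L[ℝ] E6 := ContinuousLinearEquiv.ofBijective (fderiv ℝ psi 0)
    (LinearMap.ker_eq_bot.2 hbij.1) (LinearMap.range_eq_top.2 hbij.2) with hF'
  have hstr' : HasStrictFDerivAt psi (F' : (Fin 3 → ℂ) →L[ℝ] E6) 0 := by
    have : (F' : (Fin 3 → ℂ) →L[ℝ] E6) = fderiv ℝ psi 0 := by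
      ext1 v
      rfl
    rw [this]
    exact hstr
  set Ψ := hstr'.toOpenPartialHomeomorph psi with hΨ
  have hc : (Ψ : (Fin 3 → ℂ) → E6) = psi := hstr'.toOpenPartialHomeomorph_coe
  have h0s : (0 : Fin 3 → ℂ) ∈ Ψ.source := hstr'.mem_toOpenPartialHomeomorph_source
  obtain ⟨O, hOsub, hOo, h0O⟩ := mem_nhds_iff.1 hev
  have hcont : ContinuousOn psi Ψ.source := by
    have := Ψ.continuousOn
    rwa [hc] at this
  refine ⟨psi, (Ψ.source ∩ psi ⁻¹' (U6 ∩ V)) ∩ O, ?_, ?_, ?_, ?_, ?_, h0, ?_⟩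
  · exact (hcont.isOpen_inter_preimage Ψ.open_source (isOpen_U6.inter hV)).inter hOo
  · refine ⟨⟨h0s, ?_⟩, h0O⟩
    show psi 0 ∈ U6 ∩ V
    rw [h0]
    exact ⟨hx, hxV⟩
  · have := Ψ.injOn
    rw [hc] at this
    exact this.mono fun z hz => hz.1.1
  · exact hcont.mono fun z hz => hz.1.1
  · intro O' hO' hO'o
    have := Ψ.isOpen_image_of_subset_source hO'o (fun z hz => (hO' hz).1.1)
    rwa [hc] at this
  · intro z hz
    exact ⟨hz.1.2.1, hz.1.2.2, hOsub hz.2⟩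

theorem N2_zero : N2 0 = 0 := by
  simp [N2]

theorem small_ball {O : Set (Fin 3 → ℂ)} (hO : IsOpen O) (h0 : 0 ∈ O) :
    ∀ᶠ d in 𝓝[>] (0 : ℝ), {z | N2 z ≤ d} ⊆ O := by
  obtain ⟨e, he, hball⟩ := Metric.mem_nhds_iff.1 (hO.mem_nhds h0)
  have h1 : Iio (e ^ 2) ∈ 𝓝[>] (0 : ℝ) := mem_nhdsWithin_of_mem_nhds (Iio_mem_nhds (by positivity))
  filter_upwards [h1] with d hd z hz
  apply hball
  rw [mem_ball_zero_iff, pi_norm_lt_iff he]
  intro i
  have h2 : ‖z i‖ ^ 2 ≤ N2 z :=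
    Finset.single_le_sum (f := fun j => ‖z j‖ ^ 2) (fun j _ => by positivity) (Finset.mem_univ i)
  have h3 : ‖z i‖ ^ 2 < e ^ 2 := lt_of_le_of_lt (h2.trans hz) hd
  exact lt_of_pow_lt_pow_left₀ 2 he.le h3

/-- two maps with different values at `0` have disjoint images of small balls -/
theorem small_disj {f g : (Fin 3 → ℂ) → E6} (hf : ContinuousAt f 0) (hg : ContinuousAt g 0)
    (hne : f 0 ≠ g 0) :
    ∀ᶠ d in 𝓝[>] (0 : ℝ), Disjoint (f '' {z | N2 z ≤ d}) (g '' {z | N2 z ≤ d}) := by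
  obtain ⟨A, B, hA, hB, hfA, hgB, hAB⟩ := t2_separation hne
  have h1 : f ⁻¹' A ∩ g ⁻¹' B ∈ 𝓝 (0 : Fin 3 → ℂ) :=
    inter_mem (hf.preimage_mem_nhds (hA.mem_nhds hfA)) (hg.preimage_mem_nhds (hB.mem_nhds hgB))
  obtain ⟨O, hOsub, hOo, h0O⟩ := mem_nhds_iff.1 h1
  filter_upwards [small_ball hOo h0O] with d hd
  refine hAB.mono ?_ ?_
  · rintro _ ⟨z, hz, rfl⟩
    exact (hOsub (hd hz)).1
  · rintro _ ⟨z, hz, rfl⟩
    exact (hOsub (hd hz)).2

theorem image_open {g : E6 → E6} (hg : g ∈ G6) {A : Set E6} (hA : IsOpen A) :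
    IsOpen (g '' A) := by
  obtain ⟨h, hh, h1, h2⟩ := inv_mem6 g hg
  have : g '' A = h ⁻¹' A := by
    ext y
    constructor
    · rintro ⟨a, ha, rfl⟩
      show h (g a) ∈ A
      rwa [h1]
    · intro hy
      exact ⟨h y, hy, h2 y⟩
  rw [this]
  exact hA.preimage (smooth6 h hh).continuous

theorem g_inj {g : E6 → E6} (hg : g ∈ G6) : Function.Injective g := by
  obtain ⟨h, hh, h1, h2⟩ := inv_mem6 g hg
  intro a b hab
  rw [← h1 a, hab, h1]

theorem g_mem {g : E6 → E6} (hg : g ∈ G6) {x : E6} (h : g x ∈ U6) : x ∈ U6 := by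
  obtain ⟨h', hh, h1, h2⟩ := inv_mem6 g hg
  rw [← h1 x]
  exact maps6 _ hh _ h

/-- being critical is invariant -/
theorem crit_G {p : E6 → ℂ} (hp : IsLefschetz X6 p) {g : E6 → E6} (hg : g ∈ G6) {x : E6}
    (hx : x ∈ U6) (hs : ¬ Function.Surjective (fderiv ℝ p x)) :
    ¬ Function.Surjective (fderiv ℝ p (g x)) := by
  intro h
  apply hs
  intro c
  obtain ⟨w, hw⟩ := h c
  obtain ⟨h', hh', h1, h2⟩ := inv_mem6 g hg
  refine ⟨fderiv ℝ h' (g x) w, ?_⟩
  have h3 := fderiv_p_G hp.smooth hp.inv hh' (maps6 g hg x hx) w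
  rw [h1] at h3
  rw [h3, hw]

end MorseAux

open MorseAux

theorem morse_balls {p : E6 → ℂ} (hp : IsLefschetz X6 p) (z₁ : ℂ) {V : Set E6} (hV : IsOpen V)
    (hVG : ∀ g ∈ G6, ∀ x ∈ U6, x ∈ V → g x ∈ V)
    (hcV : ∀ x ∈ U6, ¬ Function.Surjective (fderiv ℝ p x) → p x = z₁ → x ∈ V) :
    ∃ (r : E6 → ℝ) (I : Type) (psi : I → (Fin 3 → ℂ) → E6) (d₀ : ℝ), 0 < d₀ ∧
      ContinuousOn r U6 ∧ (∀ g ∈ G6, ∀ x ∈ U6, r (g x) = r x) ∧ (∀ x ∈ U6, r x ≤ d₀) ∧
      (∀ x ∈ U6, 0 < r x → p x = z₁ → Function.Surjective (fderiv ℝ p x)) ∧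
      (∀ x ∈ U6, r x < d₀ → x ∈ V) ∧
      (∀ i, ContinuousOn (psi i) {z | N2 z < d₀}) ∧ (∀ i, InjOn (psi i) {z | N2 z < d₀}) ∧
      (∀ i, ∀ z, N2 z < d₀ → psi i z ∈ U6 ∧ p (psi i z) = z₁ + qf z ∧ r (psi i z) = N2 z) ∧
      (∀ x ∈ U6, r x < d₀ → ∃ i z, N2 z < d₀ ∧ psi i z = x) ∧
      (∀ i, IsOpen (psi i '' {z | N2 z < d₀})) ∧
      ∀ i j, i ≠ j → Disjoint (psi i '' {z | N2 z < d₀}) (psi j '' {z | N2 z < d₀}) := by
  classical
  -- the critical points over `z₁`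
  set Crit : Set E6 := {x | x ∈ U6 ∧ ¬ Function.Surjective (fderiv ℝ p x) ∧ p x = z₁} with hCrit
  have hCritG : ∀ g ∈ G6, ∀ x ∈ Crit, g x ∈ Crit := fun g hg x hx =>
    ⟨maps6 g hg x hx.1, crit_G hp hg hx.1 hx.2.1, (hp.inv g hg x hx.1).trans hx.2.2⟩
  -- a minimal finite set of representatives
  let Q : Finset E6 → Prop := fun P => (P : Set E6) ⊆ Crit ∧ ∀ x ∈ Crit, ∃ g ∈ G6, g x ∈ P
  have hQ : ∃ P, Q P := by
    obtain ⟨P, hP⟩ := hp.crit_finite
    refine ⟨P.filter (fun x => x ∈ Crit), ?_, ?_⟩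
    · intro x hx
      exact (Finset.mem_filter.1 (Finset.mem_coe.1 hx)).2
    · intro x hx
      obtain ⟨g, hg, hgx⟩ := hP x hx.1 hx.2.1
      exact ⟨g, hg, Finset.mem_filter.2 ⟨hgx, hCritG g hg x hx⟩⟩
  obtain ⟨P, hPQ, hPmin⟩ := WellFounded.has_min (measure (Finset.card (α := E6))).wf {P | Q P} hQ
  have hPC : ∀ x ∈ P, x ∈ Crit := fun x hx => hPQ.1 hx
  have hPorb : ∀ a ∈ P, ∀ b ∈ P, ∀ g ∈ G6, g a = b → a = b := by
    intro a ha b hb g hg hab
    by_contra hne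
    refine hPmin (P.erase a) ⟨?_, ?_⟩ (Finset.card_erase_lt_of_mem ha)
    · intro x hx
      exact hPC x (Finset.mem_of_mem_erase hx)
    · intro x hx
      obtain ⟨g', hg', hgx⟩ := hPQ.2 x hx
      by_cases h : g' x = a
      · refine ⟨g ∘ g', comp_mem6 g hg g' hg', ?_⟩
        show g (g' x) ∈ _
        rw [h, hab]
        exact Finset.mem_erase.2 ⟨fun h => hne h.symm, hb⟩
      · exact ⟨g', hg', Finset.mem_erase.2 ⟨h, hgx⟩⟩
  -- charts
  have hch : ∀ x : E6, ∃ (psi : (Fin 3 → ℂ) → E6) (S : Set (Fin 3 → ℂ)), x ∈ Crit → IsOpen S ∧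
      0 ∈ S ∧ InjOn psi S ∧ ContinuousOn psi S ∧ (∀ O ⊆ S, IsOpen O → IsOpen (psi '' O)) ∧
      psi 0 = x ∧ ∀ z ∈ S, psi z ∈ U6 ∧ psi z ∈ V ∧ p (psi z) = z₁ + qf z := by
    intro x
    by_cases hx : x ∈ Crit
    · obtain ⟨psi, S, h⟩ := chart hp hV hx.1 hx.2.1 (hcV x hx.1 hx.2.1 hx.2.2)
      rw [hx.2.2] at h
      exact ⟨psi, S, fun _ => h⟩
    · exact ⟨fun _ => 0, ∅, fun h => absurd h hx⟩
  choose ps S hps using hch
  -- first radius
  have hE1 : ∀ᶠ d in 𝓝[>] (0 : ℝ), ∀ x ∈ P, {z | N2 z ≤ d} ⊆ S x :=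
    (Filter.eventually_all_finset P).2 fun x hx =>
      small_ball (hps x (hPC x hx)).1 (hps x (hPC x hx)).2.1
  obtain ⟨d₁, hd₁, hd₁pos⟩ := (hE1.and self_mem_nhdsWithin).exists
  have hd₁pos : 0 < d₁ := hd₁pos
  -- the compact set of closed balls
  set K : Set E6 := ⋃ x ∈ P, ps x '' {z | N2 z ≤ d₁} with hKdef
  have hK : IsCompact K := P.isCompact_biUnion fun x hx =>
    (isCompact_N2 d₁).image_of_continuousOn ((hps x (hPC x hx)).2.2.2.1.mono (hd₁ x hx))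
  have hKU : K ⊆ U6 := by
    intro y hy
    simp only [hKdef, Set.mem_iUnion] at hy
    obtain ⟨x, hx, z, hz, rfl⟩ := hy
    exact ((hps x (hPC x hx)).2.2.2.2.2.2 z (hd₁ x hx hz)).1
  have hΓ := disc6 K hKU hK
  set Γ := {g | g ∈ G6 ∧ ∃ x ∈ K, g x ∈ K} with hΓdef
  have hcont0 : ∀ x ∈ P, ContinuousAt (ps x) 0 := fun x hx =>
    (hps x (hPC x hx)).2.2.2.1.continuousAt
      ((hps x (hPC x hx)).1.mem_nhds (hps x (hPC x hx)).2.1)
  have hE2 : ∀ᶠ d in 𝓝[>] (0 : ℝ), ∀ g ∈ Γ, ∀ a ∈ P, ∀ b ∈ P, g a ≠ b →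
      Disjoint ((fun z => g (ps a z)) '' {z | N2 z ≤ d}) (ps b '' {z | N2 z ≤ d}) := by
    refine (Filter.eventually_all_finite hΓ).2 fun g hg => ?_
    refine (Filter.eventually_all_finset P).2 fun a ha => ?_
    refine (Filter.eventually_all_finset P).2 fun b hb => ?_
    by_cases h : g a = b
    · exact Filter.Eventually.of_forall fun d hne => absurd h hne
    · have h1 := small_disj (f := fun z => g (ps a z)) (g := ps b)
        ((smooth6 g hg.1).continuous.continuousAt.comp (hcont0 a ha)) (hcont0 b hb)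
        (by
          show g (ps a 0) ≠ ps b 0
          rw [(hps a (hPC a ha)).2.2.2.2.2.1, (hps b (hPC b hb)).2.2.2.2.2.1]
          exact h)
      filter_upwards [h1] with d hd _ using hd
  have hE3 : Iio d₁ ∈ 𝓝[>] (0 : ℝ) := mem_nhdsWithin_of_mem_nhds (Iio_mem_nhds hd₁pos)
  obtain ⟨d₀, hd₀, hd₀1, hd₀pos⟩ := (hE2.and ((show ∀ᶠ d in 𝓝[>] (0 : ℝ), d < d₁ from hE3).and
    self_mem_nhdsWithin)).exists
  have hd₀pos : 0 < d₀ := hd₀pos
  -- index type and maps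
  let I : Type := G6 × P
  let psi : I → (Fin 3 → ℂ) → E6 := fun i z => i.1.1 (ps i.2.1 z)
  have hsub : ∀ x ∈ P, {z | N2 z < d₀} ⊆ S x := fun x hx z hz =>
    hd₁ x hx (le_of_lt (lt_trans hz hd₀1))
  have hsub' : ∀ x ∈ P, ∀ t, t < d₀ → {z | N2 z ≤ t} ⊆ S x := fun x hx t ht z hz =>
    hd₁ x hx (le_of_lt (lt_of_le_of_lt hz (lt_trans ht hd₀1)))
  have hinK : ∀ x ∈ P, ∀ z, N2 z < d₀ → ps x z ∈ K := by
    intro x hx z hz
    simp only [hKdef, Set.mem_iUnion]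
    exact ⟨x, hx, z, le_of_lt (lt_trans hz hd₀1), rfl⟩
  -- uniqueness
  have huniq : ∀ i j : I, ∀ z w, N2 z < d₀ → N2 w < d₀ → psi i z = psi j w → i = j ∧ z = w := by
    rintro ⟨⟨g, hg⟩, a, ha⟩ ⟨⟨g', hg'⟩, b, hb⟩ z w hz hw heq
    have heq' : g (ps a z) = g' (ps b w) := heq
    obtain ⟨h', hh', h1, h2⟩ := inv_mem6 g' hg'
    have e1 : (h' ∘ g) (ps a z) = ps b w := by
      show h' (g (ps a z)) = _
      rw [heq', h1]
    have hmem : h' ∘ g ∈ G6 := comp_mem6 h' hh' g hg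
    have hmΓ : h' ∘ g ∈ Γ := ⟨hmem, ps a z, hinK a ha z hz, by rw [e1]; exact hinK b hb w hw⟩
    have e2 : (h' ∘ g) a = b := by
      by_contra hne
      exact (Set.disjoint_left.1 (hd₀ _ hmΓ a ha b hb hne)) ⟨z, le_of_lt hz, rfl⟩
        ⟨w, le_of_lt hw, e1.symm⟩
    have e3 : a = b := hPorb a ha b hb _ hmem e2
    subst e3
    have e4 : h' ∘ g = id := free6 _ hmem a (hPC a ha).1 e2
    have e5 : g = g' := by
      funext y
      have e6 := congrFun e4 y
      have e7 : h' (g y) = y := e6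
      rw [← h2 (g y), e7]
    subst e5
    have e6 : ps a z = ps a w := g_inj hg heq'
    have e7 : z = w := (hps a (hPC a ha)).2.2.1 (hsub a ha hz) (hsub a ha hw) e6
    exact ⟨rfl, e7⟩
  -- the Morse radius
  let r : E6 → ℝ := fun x => if h : ∃ iz : I × (Fin 3 → ℂ), N2 iz.2 < d₀ ∧ psi iz.1 iz.2 = x
    then N2 h.choose.2 else d₀
  have hr1 : ∀ i z, N2 z < d₀ → r (psi i z) = N2 z := by
    intro i z hz
    have h : ∃ iz : I × (Fin 3 → ℂ), N2 iz.2 < d₀ ∧ psi iz.1 iz.2 = psi i z := ⟨(i, z), hz, rfl⟩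
    have h1 : r (psi i z) = N2 h.choose.2 := dif_pos h
    rw [h1, (huniq _ _ _ _ h.choose_spec.1 hz h.choose_spec.2).2]
  have hr2 : ∀ x, (¬ ∃ iz : I × (Fin 3 → ℂ), N2 iz.2 < d₀ ∧ psi iz.1 iz.2 = x) → r x = d₀ :=
    fun x h => dif_neg h
  have hr3 : ∀ x, r x ≤ d₀ := by
    intro x
    by_cases h : ∃ iz : I × (Fin 3 → ℂ), N2 iz.2 < d₀ ∧ psi iz.1 iz.2 = x
    · obtain ⟨⟨i, z⟩, hz, rfl⟩ := h
      rw [hr1 i z hz]
      exact hz.le
    · exact (hr2 x h).le
  have hr4 : ∀ x, r x < d₀ → ∃ i z, N2 z < d₀ ∧ psi i z = x := by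
    intro x hx
    by_contra h
    apply hx.ne
    apply hr2
    rintro ⟨⟨i, z⟩, hz, hzx⟩
    exact h ⟨i, z, hz, hzx⟩
  have hopen : ∀ i : I, ∀ O : Set (Fin 3 → ℂ), IsOpen O → O ⊆ {z | N2 z < d₀} →
      IsOpen (psi i '' O) := by
    rintro ⟨⟨g, hg⟩, a, ha⟩ O hO hOs
    have h1 : IsOpen (ps a '' O) := (hps a (hPC a ha)).2.2.2.2.1 O (hOs.trans (hsub a ha)) hO
    have h2 := image_open hg h1
    rw [Set.image_image] at h2
    exact h2
  have hUopen : IsOpen {z : Fin 3 → ℂ | N2 z < d₀} := isOpen_lt N2_cont continuous_const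
  -- local finiteness: far from the closed balls
  have hfar : ∀ t, t < d₀ → ∀ x ∈ U6, t < r x → ∀ᶠ y in 𝓝 x, t < r y := by
    intro t ht x hx hrx
    obtain ⟨N, hNx, hNU, hN⟩ := local_compact_nhds (isOpen_U6.mem_nhds hx)
    have hfin := disc6 (K ∪ N) (Set.union_subset hKU hNU) (hK.union hN)
    set Γ' := {g | g ∈ G6 ∧ ∃ x ∈ K ∪ N, g x ∈ K ∪ N} with hΓ'
    -- the relevant closed set
    have hcl : IsClosed (⋃ g ∈ Γ', ⋃ a ∈ P, (fun z => g (ps a z)) '' {z | N2 z ≤ t}) := by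
      refine hfin.isClosed_biUnion fun g hg => ?_
      refine P.finite_toSet.isClosed_biUnion fun a ha => ?_
      refine ((isCompact_N2 t).image_of_continuousOn ?_).isClosed
      exact (smooth6 g hg.1).continuous.comp_continuousOn
        ((hps a (hPC a ha)).2.2.2.1.mono (hsub' a ha t ht))
    have hxn : x ∉ ⋃ g ∈ Γ', ⋃ a ∈ P, (fun z => g (ps a z)) '' {z | N2 z ≤ t} := by
      intro h
      simp only [Set.mem_iUnion] at h
      obtain ⟨g, hg, a, ha, z, hz, rfl⟩ := h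
      have h1 := hr1 (⟨g, hg.1⟩, ⟨a, ha⟩) z (lt_of_le_of_lt hz ht)
      have h2 : r (g (ps a z)) = N2 z := h1
      simp only at hrx
      rw [h2] at hrx
      exact absurd hz (not_le.2 hrx)
    filter_upwards [hcl.isOpen_compl.mem_nhds hxn, hNx] with y hy hyN
    by_contra hry
    apply hy
    have hry' : r y < d₀ := lt_of_le_of_lt (not_lt.1 hry) ht
    obtain ⟨⟨⟨g, hg⟩, a, ha⟩, z, hz, hzy⟩ := hr4 y hry'
    have h1 := hr1 (⟨g, hg⟩, ⟨a, ha⟩) z hz
    rw [hzy] at h1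
    have hzy' : g (ps a z) = y := hzy
    have h2 : N2 z ≤ t := by
      rw [← h1]
      exact not_lt.1 hry
    simp only [Set.mem_iUnion]
    refine ⟨g, ⟨hg, ps a z, Or.inl (hinK a ha z hz), Or.inr ?_⟩, a, ha, z, h2, hzy'⟩
    rw [hzy']
    exact hyN
  have hrcont : ContinuousOn r U6 := by
    intro x hx
    apply ContinuousAt.continuousWithinAt
    rw [ContinuousAt, tendsto_order]
    constructor
    · intro t ht
      rcases lt_or_ge t d₀ with h | h
      · exact hfar t h x hx ht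
      · exact absurd ht (not_lt.2 ((hr3 x).trans h))
    · intro t ht
      by_cases hd : r x < d₀
      · obtain ⟨i, z, hz, rfl⟩ := hr4 x hd
        rw [hr1 i z hz] at ht
        have hO : IsOpen ({w : Fin 3 → ℂ | N2 w < d₀} ∩ {w | N2 w < t}) :=
          hUopen.inter (isOpen_lt N2_cont continuous_const)
        have h1 := (hopen i _ hO Set.inter_subset_left).mem_nhds ⟨z, ⟨hz, ht⟩, rfl⟩
        filter_upwards [h1] with y hy
        obtain ⟨w, hw, rfl⟩ := hy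
        rw [hr1 i w hw.1]
        exact hw.2
      · have h1 : r x = d₀ := le_antisymm (hr3 x) (not_lt.1 hd)
        rw [h1] at ht
        exact Filter.Eventually.of_forall fun y => lt_of_le_of_lt (hr3 y) ht
  have hmemU : ∀ i z, N2 z < d₀ → psi i z ∈ U6 := by
    rintro ⟨⟨g, hg⟩, a, ha⟩ z hz
    exact maps6 g hg _ ((hps a (hPC a ha)).2.2.2.2.2.2 z (hsub a ha hz)).1
  have hrG : ∀ g ∈ G6, ∀ x, r (g x) ≤ r x := by
    intro g hg x
    by_cases hd : r x < d₀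
    · obtain ⟨⟨⟨g', hg'⟩, a, ha⟩, z, hz, rfl⟩ := hr4 x hd
      rw [hr1 _ z hz]
      have h1 := hr1 (⟨g ∘ g', comp_mem6 g hg g' hg'⟩, ⟨a, ha⟩) z hz
      exact h1.le
    · exact (hr3 _).trans (not_lt.1 hd)
  refine ⟨r, I, psi, d₀, hd₀pos, hrcont, ?_, fun x _ => hr3 x, ?_, ?_, ?_, ?_, ?_,
    fun x _ => hr4 x, fun i => hopen i _ hUopen Subset.rfl, ?_⟩
  · intro g hg x hx
    apply le_antisymm (hrG g hg x)
    obtain ⟨h', hh', h1, h2⟩ := inv_mem6 g hg
    have := hrG h' hh' (g x)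
    rwa [h1] at this
  · intro x hx hrx hpx
    by_contra hs
    obtain ⟨g, hg, hgx⟩ := hPQ.2 x ⟨hx, hs, hpx⟩
    have hid : id ∈ G6 := id_mem6
    have h1 := hr1 (⟨id, hid⟩, ⟨g x, hgx⟩) 0 (by rw [N2_zero]; exact hd₀pos)
    have h2 : psi (⟨id, hid⟩, ⟨g x, hgx⟩) 0 = g x := (hps (g x) (hPC _ hgx)).2.2.2.2.2.1
    rw [h2, N2_zero] at h1
    obtain ⟨h', hh', h3, h4⟩ := inv_mem6 g hg
    have h5 := hrG h' hh' (g x)
    rw [h3, h1] at h5
    exact absurd hrx (not_lt.2 h5)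
  · intro x hx hrx
    obtain ⟨⟨⟨g, hg⟩, a, ha⟩, z, hz, rfl⟩ := hr4 x hrx
    have h1 := (hps a (hPC a ha)).2.2.2.2.2.2 z (hsub a ha hz)
    exact hVG g hg _ h1.1 h1.2.1
  · rintro ⟨⟨g, hg⟩, a, ha⟩
    exact (smooth6 g hg).continuous.comp_continuousOn ((hps a (hPC a ha)).2.2.2.1.mono (hsub a ha))
  · intro i z hz w hw h
    exact (huniq i i z w hz hw h).2
  · rintro ⟨⟨g, hg⟩, a, ha⟩ z hz
    have h1 := (hps a (hPC a ha)).2.2.2.2.2.2 z (hsub a ha hz)
    refine ⟨hmemU _ z hz, ?_, hr1 _ z hz⟩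
    exact (hp.inv g hg _ h1.1).trans h1.2.2
  · intro i j hij
    rw [Set.disjoint_left]
    rintro _ ⟨z, hz, rfl⟩ ⟨w, hw, hwz⟩
    exact hij (huniq i j z w hz hw hwz.symm).1

end Pool.Agent.LF
end

section

/-! # Task Div: the divergence of `NN` is `2 BB` -/

open Set Filter Topology
open scoped ContDiff

namespace Pool.Agent.LF

private lemma isOpen_U6' : IsOpen U6 := isOpen_lt continuous_const (continuous_apply 3)

private lemma clm_expand (l : E6 →L[ℝ] ℝ) (v : E6) :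
    l v = v 0 * l (Pi.single 0 1) + v 1 * l (Pi.single 1 1) + v 2 * l (Pi.single 2 1) +
      v 3 * l (Pi.single 3 1) + v 4 * l (Pi.single 4 1) + v 5 * l (Pi.single 5 1) := by
  have h : v = v 0 • (Pi.single 0 1 : E6) + v 1 • (Pi.single 1 1 : E6) +
      v 2 • (Pi.single 2 1 : E6) + v 3 • (Pi.single 3 1 : E6) + v 4 • (Pi.single 4 1 : E6) +
      v 5 • (Pi.single 5 1 : E6) := by
    ext i
    fin_cases i <;> simp
  conv_lhs => rw [h]
  simp only [map_add, map_smul, smul_eq_mul]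

private lemma hasF_coord (i : Fin 6) (x : E6) : HasFDerivAt (fun y : E6 => y i)
    (ContinuousLinearMap.proj (R := ℝ) (φ := fun _ : Fin 6 => ℝ) i) x :=
  (ContinuousLinearMap.proj (R := ℝ) (φ := fun _ : Fin 6 => ℝ) i).hasFDerivAt

/-- abstract form: `a i`, `b i` are the first derivatives (components) of two functions -/
private lemma div_aux (a b : Fin 6 → E6 → ℝ) (A B : Fin 6 → E6 →L[ℝ] ℝ) (x : E6)
    (ha : ∀ i, HasFDerivAt (a i) (A i) x) (hb : ∀ i, HasFDerivAt (b i) (B i) x)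
    (hA : ∀ i j, A i (Pi.single j 1) = A j (Pi.single i 1))
    (hB : ∀ i j, B i (Pi.single j 1) = B j (Pi.single i 1))
    (N : E6 → E6) (z1 z2 bb : E6 → ℝ)
    (hz1 : z1 = fun y => y 2 * a 2 y + y 3 * a 3 y + y 4 * a 4 y * (1 / 2) +
      y 5 * a 5 y * (1 / 2))
    (hz2 : z2 = fun y => y 2 * b 2 y + y 3 * b 3 y + y 4 * b 4 y * (1 / 2) +
      y 5 * b 5 y * (1 / 2))
    (hbb : bb = fun y => -(a 2 y * b 0 y) - a 3 y * b 1 y + a 0 y * b 2 y + a 1 y * b 3 y +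
      a 5 y * b 4 y - a 4 y * b 5 y)
    (h0 : (fun y => N y 0) = fun y => z2 y * a 2 y - z1 y * b 2 y)
    (h1 : (fun y => N y 1) = fun y => z2 y * a 3 y - z1 y * b 3 y)
    (h2 : (fun y => N y 2) = fun y => bb y * y 2 - z2 y * a 0 y + z1 y * b 0 y)
    (h3 : (fun y => N y 3) = fun y => bb y * y 3 - z2 y * a 1 y + z1 y * b 1 y)
    (h4 : (fun y => N y 4) = fun y => bb y * y 4 * (1 / 2) - z2 y * a 5 y + z1 y * b 5 y)
    (h5 : (fun y => N y 5) = fun y => bb y * y 5 * (1 / 2) + z2 y * a 4 y - z1 y * b 4 y) :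
    ∑ i : Fin 6, fderiv ℝ (fun y => N y i) x (Pi.single i 1) = 2 * bb x := by
  have c : ∀ i : Fin 6, HasFDerivAt (fun y : E6 => y i)
      (ContinuousLinearMap.proj (R := ℝ) (φ := fun _ : Fin 6 => ℝ) i) x :=
    fun i => hasF_coord i x
  have dz1 := ((((c 2).fun_mul (ha 2)).fun_add ((c 3).fun_mul (ha 3))).fun_add
      (((c 4).fun_mul (ha 4)).mul_const (1 / 2))).fun_add
      (((c 5).fun_mul (ha 5)).mul_const (1 / 2))
  rw [← hz1] at dz1
  have dz2 := ((((c 2).fun_mul (hb 2)).fun_add ((c 3).fun_mul (hb 3))).fun_add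
      (((c 4).fun_mul (hb 4)).mul_const (1 / 2))).fun_add
      (((c 5).fun_mul (hb 5)).mul_const (1 / 2))
  rw [← hz2] at dz2
  have dbb := (((((((ha 2).fun_mul (hb 0)).fun_neg).fun_sub ((ha 3).fun_mul (hb 1))).fun_add
      ((ha 0).fun_mul (hb 2))).fun_add ((ha 1).fun_mul (hb 3))).fun_add
      ((ha 5).fun_mul (hb 4))).fun_sub ((ha 4).fun_mul (hb 5))
  rw [← hbb] at dbb
  have e0 := (dz2.fun_mul (ha 2)).fun_sub (dz1.fun_mul (hb 2))
  rw [← h0] at e0
  have e1 := (dz2.fun_mul (ha 3)).fun_sub (dz1.fun_mul (hb 3))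
  rw [← h1] at e1
  have e2 := ((dbb.fun_mul (c 2)).fun_sub (dz2.fun_mul (ha 0))).fun_add (dz1.fun_mul (hb 0))
  rw [← h2] at e2
  have e3 := ((dbb.fun_mul (c 3)).fun_sub (dz2.fun_mul (ha 1))).fun_add (dz1.fun_mul (hb 1))
  rw [← h3] at e3
  have e4 := (((dbb.fun_mul (c 4)).mul_const (1 / 2)).fun_sub (dz2.fun_mul (ha 5))).fun_add
      (dz1.fun_mul (hb 5))
  rw [← h4] at e4
  have e5 := (((dbb.fun_mul (c 5)).mul_const (1 / 2)).fun_add (dz2.fun_mul (ha 4))).fun_sub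
      (dz1.fun_mul (hb 4))
  rw [← h5] at e5
  rw [Fin.sum_univ_six, e0.fderiv, e1.fderiv, e2.fderiv, e3.fderiv, e4.fderiv, e5.fderiv]
  have v1 : z1 x = x 2 * a 2 x + x 3 * a 3 x + x 4 * a 4 x * (1 / 2) +
      x 5 * a 5 x * (1 / 2) := by rw [hz1]
  have v2 : z2 x = x 2 * b 2 x + x 3 * b 3 x + x 4 * b 4 x * (1 / 2) +
      x 5 * b 5 x * (1 / 2) := by rw [hz2]
  have v3 : bb x = -(a 2 x * b 0 x) - a 3 x * b 1 x + a 0 x * b 2 x + a 1 x * b 3 x +
      a 5 x * b 4 x - a 4 x * b 5 x := by rw [hbb]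
  have hs : ∀ i j : Fin 6, (Pi.single i (1 : ℝ) : E6) j = if j = i then 1 else 0 :=
    fun i j => Pi.single_apply i 1 j
  simp only [add_apply, sub_apply, neg_apply, smul_apply, smul_eq_mul,
    ContinuousLinearMap.proj_apply, hs, v1, v2, v3]
  simp only [Fin.reduceEq, if_true, if_false, hA 2 0, hA 3 0, hA 4 0, hA 5 0, hA 2 1,
    hA 3 1, hA 4 1, hA 5 1, hA 3 2, hA 4 2, hA 5 2, hA 4 3, hA 5 3, hA 5 4,
    hB 2 0, hB 3 0, hB 4 0, hB 5 0, hB 2 1,
    hB 3 1, hB 4 1, hB 5 1, hB 3 2, hB 4 2, hB 5 2, hB 4 3, hB 5 3, hB 5 4]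
  ring

private lemma d1_Z (p : E6 → ℂ) (l : (E6 → ℂ) → E6 → E6 →L[ℝ] ℝ) (y : E6) :
    l p y (Z6 y) = y 2 * l p y (Pi.single 2 1) + y 3 * l p y (Pi.single 3 1) +
      y 4 * l p y (Pi.single 4 1) * (1 / 2) + y 5 * l p y (Pi.single 5 1) * (1 / 2) := by
  rw [clm_expand (l p y) (Z6 y)]
  simp only [Z6, Matrix.cons_val]
  ring

private lemma BB_expand (p : E6 → ℂ) (y : E6) :
    BB p y = -(d1 p y (Pi.single 2 1) * d2 p y (Pi.single 0 1)) -
      d1 p y (Pi.single 3 1) * d2 p y (Pi.single 1 1) +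
      d1 p y (Pi.single 0 1) * d2 p y (Pi.single 2 1) +
      d1 p y (Pi.single 1 1) * d2 p y (Pi.single 3 1) +
      d1 p y (Pi.single 5 1) * d2 p y (Pi.single 4 1) -
      d1 p y (Pi.single 4 1) * d2 p y (Pi.single 5 1) := by
  rw [BB, clm_expand (d2 p y) (ham (d1 p y))]
  simp only [ham, Matrix.cons_val]
  ring

theorem div_NN {p : E6 → ℂ} (hp : ContDiffOn ℝ ∞ p U6) {x : E6} (hx : x ∈ U6) :
    ∑ i : Fin 6, fderiv ℝ (fun y => NN p y i) x (Pi.single i 1) = 2 * BB p x := by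
  have hpx : ContDiffAt ℝ ∞ p x := hp.contDiffAt (isOpen_U6'.mem_nhds hx)
  have hsym : IsSymmSndFDerivAt ℝ p x := by
    apply hpx.isSymmSndFDerivAt
    rw [minSmoothness_of_isRCLikeNormedField]
    exact WithTop.coe_le_coe.2 (le_top : (2 : ℕ∞) ≤ ⊤)
  have hD : HasFDerivAt (fderiv ℝ p) (fderiv ℝ (fderiv ℝ p) x) x := by
    have h1 : ContDiffAt ℝ 1 (fderiv ℝ p) x :=
      hpx.fderiv_right (by norm_cast)
    exact (h1.differentiableAt (by norm_num)).hasFDerivAt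
  have hE : ∀ v : E6, HasFDerivAt (fun y => fderiv ℝ p y v)
      ((ContinuousLinearMap.apply ℝ ℂ v).comp (fderiv ℝ (fderiv ℝ p) x)) x := fun v =>
    (ContinuousLinearMap.apply ℝ ℂ v).hasFDerivAt.comp x hD
  refine div_aux (fun i y => d1 p y (Pi.single i 1)) (fun i y => d2 p y (Pi.single i 1))
    (fun i => Complex.reCLM.comp ((ContinuousLinearMap.apply ℝ ℂ (Pi.single i 1)).comp
      (fderiv ℝ (fderiv ℝ p) x)))
    (fun i => Complex.imCLM.comp ((ContinuousLinearMap.apply ℝ ℂ (Pi.single i 1)).comp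
      (fderiv ℝ (fderiv ℝ p) x))) x ?_ ?_ ?_ ?_ (NN p)
    (fun y => d1 p y (Z6 y)) (fun y => d2 p y (Z6 y)) (BB p) ?_ ?_ ?_ ?_ ?_ ?_ ?_ ?_ ?_
  · intro i
    exact Complex.reCLM.hasFDerivAt.comp x (hE _)
  · intro i
    exact Complex.imCLM.hasFDerivAt.comp x (hE _)
  · intro i j
    simp [hsym.eq (Pi.single i 1) (Pi.single j 1)]
  · intro i j
    simp [hsym.eq (Pi.single i 1) (Pi.single j 1)]
  · funext y
    exact d1_Z p d1 y
  · funext y
    exact d1_Z p d2 y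
  · funext y
    exact BB_expand p y
  · funext y
    simp [NN, ham, Z6]
    ring
  · funext y
    simp [NN, ham, Z6]
    ring
  · funext y
    simp [NN, ham, Z6]
  · funext y
    simp [NN, ham, Z6]
  · funext y
    simp [NN, ham, Z6]
    ring
  · funext y
    simp [NN, ham, Z6]
    ring

end Pool.Agent.LF
end
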