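import Pool.Agent.LF.Local
import Pool.Agent.LF.Mg_MP_639418_gt.G001
import Pool.Agent.LF.Mg_MP_639418_gt.G002
import Pool.Agent.LF.LocI

section

/-! # Task Glue: gluing `PP` over unions, and induction on rectangles -/

open Set Filter Topology

namespace Pool.Agent.LF

variable {E : Type} [MetricSpace E]

private theorem glue_mono {U : Set E} {p : E → ℂ} {S T : Set ℂ} (h : S ⊆ T) :
    Fib U p S ⊆ Fib U p T := fun _ hx => ⟨hx.1, h hx.2⟩

/-- the part over a closed set is relatively closed -/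
private theorem glue_closed {U : Set E} {p : E → ℂ} (hp : ContinuousOn p U) {S : Set ℂ}
    (hS : IsClosed S) {x : E} (hx : x ∈ U) (hxc : x ∈ closure (Fib U p S)) : p x ∈ S := by
  rw [← hS.closure_eq]
  have h1 : ContinuousWithinAt p (Fib U p S) x := (hp x hx).mono fun y hy => hy.1
  exact h1.mem_closure hxc fun y hy => hy.2

private theorem glue_bot {U : Set E} {p : E → ℂ} (hp : ContinuousOn p U) {S : Set ℂ}
    (hS : IsClosed S) {x : E} (hx : x ∈ U) (hxS : p x ∉ S) : 𝓝[Fib U p S] x = ⊥ := by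
  by_contra h
  exact hxS (glue_closed hp hS hx (mem_closure_iff_nhdsWithin_neBot.2 ⟨h⟩))

private theorem glue_fun {U : Set E} {p : E → ℂ} (hp : ContinuousOn p U) {S₁ S₂ : Set ℂ}
    (c₁ : IsClosed S₁) (c₂ : IsClosed S₂) {f₁ f₂ : E → ℂ} (h₁ : ContinuousOn f₁ (Fib U p S₁))
    (h₂ : ContinuousOn f₂ (Fib U p S₂)) (heq : ∀ x ∈ Fib U p (S₁ ∩ S₂), f₁ x = f₂ x) :
    ∃ f : E → ℂ, ContinuousOn f (Fib U p (S₁ ∪ S₂)) ∧ (∀ x ∈ Fib U p S₁, f x = f₁ x) ∧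
      ∀ x ∈ Fib U p S₂, f x = f₂ x := by
  classical
  let f : E → ℂ := fun x => if p x ∈ S₁ then f₁ x else f₂ x
  have e₁ : ∀ x ∈ Fib U p S₁, f x = f₁ x := fun x hx => if_pos hx.2
  have e₂ : ∀ x ∈ Fib U p S₂, f x = f₂ x := by
    intro x hx
    by_cases h : p x ∈ S₁
    · rw [e₁ x ⟨hx.1, h⟩, heq x ⟨hx.1, h, hx.2⟩]
    · exact if_neg h
  refine ⟨f, ?_, e₁, e₂⟩
  have hun : Fib U p (S₁ ∪ S₂) = Fib U p S₁ ∪ Fib U p S₂ := by
    ext x; constructor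
    · rintro ⟨h1, h2 | h2⟩
      · exact Or.inl ⟨h1, h2⟩
      · exact Or.inr ⟨h1, h2⟩
    · rintro (⟨h1, h2⟩ | ⟨h1, h2⟩)
      · exact ⟨h1, Or.inl h2⟩
      · exact ⟨h1, Or.inr h2⟩
  intro x hx
  have hxU : x ∈ U := hx.1
  rw [hun]
  have k₁ : ContinuousWithinAt f (Fib U p S₁) x := by
    by_cases h : p x ∈ S₁
    · exact (h₁ x ⟨hxU, h⟩).congr e₁ (e₁ x ⟨hxU, h⟩)
    · rw [ContinuousWithinAt, glue_bot hp c₁ hxU h]
      exact tendsto_bot
  have k₂ : ContinuousWithinAt f (Fib U p S₂) x := by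
    by_cases h : p x ∈ S₂
    · exact (h₂ x ⟨hxU, h⟩).congr e₂ (e₂ x ⟨hxU, h⟩)
    · rw [ContinuousWithinAt, glue_bot hp c₂ hxU h]
      exact tendsto_bot
  exact k₁.union k₂

private theorem glue_ext {U : Set E} {p : E → ℂ} (hp : ContinuousOn p U) {S₁ S₂ : Set ℂ}
    (c₁ : IsClosed S₁) (c₂ : IsClosed S₂) (h₁ : PP U p S₁) (h₂ : PP U p S₂)
    (h₁₂ : PP U p (S₁ ∩ S₂)) (hne : (S₁ ∩ S₂).Nonempty) {z : ℂ} (hz : z ∈ S₁) (A : E → ℂ)
    (hA : ContinuousOn A (Fib U p {z})) (hA0 : ∀ x ∈ Fib U p {z}, A x ≠ 0) :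
    ∃ A' : E → ℂ, ContinuousOn A' (Fib U p (S₁ ∪ S₂)) ∧ (∀ x ∈ Fib U p (S₁ ∪ S₂), A' x ≠ 0) ∧
      ∀ x ∈ Fib U p {z}, A' x = A x := by
  obtain ⟨z', hz'⟩ := hne
  obtain ⟨A₁, a1, a2, a3⟩ := h₁.ext z hz A hA hA0
  have s₁ : Fib U p {z'} ⊆ Fib U p S₁ := glue_mono (singleton_subset_iff.2 hz'.1)
  have i₁ : Fib U p (S₁ ∩ S₂) ⊆ Fib U p S₁ := glue_mono inter_subset_left
  have i₂ : Fib U p (S₁ ∩ S₂) ⊆ Fib U p S₂ := glue_mono inter_subset_right
  have i₃ : Fib U p {z'} ⊆ Fib U p (S₁ ∩ S₂) := glue_mono (singleton_subset_iff.2 hz')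
  obtain ⟨A₂, b1, b2, b3⟩ := h₂.ext z' hz'.2 A₁ (a1.mono s₁) fun x hx => a2 x (s₁ hx)
  obtain ⟨q, q1, q2, q3⟩ := h₁₂.log z' hz' (fun x => A₁ x / A₂ x)
    ((a1.mono i₁).div (b1.mono i₂) fun x hx => b2 x (i₂ hx))
    (fun x hx => div_ne_zero (a2 x (i₁ hx)) (b2 x (i₂ hx))) (fun _ => 0) continuousOn_const
    (fun x hx => by
      rw [Complex.exp_zero, b3 x hx, div_self (a2 x (s₁ hx))])
  have hT : Fib U p S₂ ∩ closure (Fib U p (S₁ ∩ S₂)) = Fib U p (S₁ ∩ S₂) := by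
    ext x; constructor
    · rintro ⟨hx1, hx2⟩
      exact ⟨hx1.1, glue_closed hp (c₁.inter c₂) hx1.1 hx2⟩
    · intro hx
      exact ⟨i₂ hx, subset_closure hx⟩
  obtain ⟨g, g1, g2⟩ := tietzeOn (M := Fib U p S₂) (T' := closure (Fib U p (S₁ ∩ S₂)))
    isClosed_closure q (by rw [hT]; exact q1)
  rw [hT] at g2
  obtain ⟨A', d1, d2, d3⟩ := glue_fun hp c₁ c₂ a1
    (f₂ := fun x => A₂ x * Complex.exp (g x)) (b1.mul g1.cexp) (fun x hx => by
      rw [g2 x hx, q2 x hx, mul_div_cancel₀ _ (b2 x (i₂ hx))])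
  refine ⟨A', d1, ?_, ?_⟩
  · rintro x ⟨hx, hx1 | hx2⟩
    · rw [d2 x ⟨hx, hx1⟩]; exact a2 x ⟨hx, hx1⟩
    · rw [d3 x ⟨hx, hx2⟩]; exact mul_ne_zero (b2 x ⟨hx, hx2⟩) (Complex.exp_ne_zero _)
  · intro x hx
    rw [d2 x (glue_mono (singleton_subset_iff.2 hz) hx), a3 x hx]

private theorem glue_log {U : Set E} {p : E → ℂ} (hp : ContinuousOn p U) {S₁ S₂ : Set ℂ}
    (c₁ : IsClosed S₁) (c₂ : IsClosed S₂) (h₁ : PP U p S₁) (h₂ : PP U p S₂)
    (h₁₂ : PP U p (S₁ ∩ S₂)) (hne : (S₁ ∩ S₂).Nonempty) {z : ℂ} (hz : z ∈ S₁) (A : E → ℂ)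
    (hA : ContinuousOn A (Fib U p (S₁ ∪ S₂))) (hA0 : ∀ x ∈ Fib U p (S₁ ∪ S₂), A x ≠ 0)
    (f₀ : E → ℂ) (hf₀ : ContinuousOn f₀ (Fib U p {z}))
    (he : ∀ x ∈ Fib U p {z}, Complex.exp (f₀ x) = A x) :
    ∃ f : E → ℂ, ContinuousOn f (Fib U p (S₁ ∪ S₂)) ∧
      (∀ x ∈ Fib U p (S₁ ∪ S₂), Complex.exp (f x) = A x) ∧ ∀ x ∈ Fib U p {z}, f x = f₀ x := by
  obtain ⟨z', hz'⟩ := hne
  have u₁ : Fib U p S₁ ⊆ Fib U p (S₁ ∪ S₂) := glue_mono subset_union_left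
  have u₂ : Fib U p S₂ ⊆ Fib U p (S₁ ∪ S₂) := glue_mono subset_union_right
  have s₁ : Fib U p {z'} ⊆ Fib U p S₁ := glue_mono (singleton_subset_iff.2 hz'.1)
  have i₁ : Fib U p (S₁ ∩ S₂) ⊆ Fib U p S₁ := glue_mono inter_subset_left
  have i₂ : Fib U p (S₁ ∩ S₂) ⊆ Fib U p S₂ := glue_mono inter_subset_right
  obtain ⟨f₁, a1, a2, a3⟩ := h₁.log z hz A (hA.mono u₁) (fun x hx => hA0 x (u₁ hx)) f₀ hf₀ he
  obtain ⟨f₂, b1, b2, b3⟩ := h₂.log z' hz'.2 A (hA.mono u₂) (fun x hx => hA0 x (u₂ hx)) f₁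
    (a1.mono s₁) (fun x hx => a2 x (s₁ hx))
  have key := h₁₂.uniq z' hz' (fun x => f₂ x - f₁ x) ((b1.mono i₂).sub (a1.mono i₁))
    (fun x hx => by
      rw [Complex.exp_sub, a2 x (i₁ hx), b2 x (i₂ hx), div_self (hA0 x (u₁ (i₁ hx)))])
    (fun x hx => by rw [b3 x hx, sub_self])
  obtain ⟨f, d1, d2, d3⟩ := glue_fun hp c₁ c₂ a1 b1
    (fun x hx => (sub_eq_zero.1 (key x hx)).symm)
  refine ⟨f, d1, ?_, ?_⟩
  · rintro x ⟨hx, hx1 | hx2⟩
    · rw [d2 x ⟨hx, hx1⟩]; exact a2 x ⟨hx, hx1⟩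
    · rw [d3 x ⟨hx, hx2⟩]; exact b2 x ⟨hx, hx2⟩
  · intro x hx
    rw [d2 x (glue_mono (singleton_subset_iff.2 hz) hx), a3 x hx]

private theorem glue_uniq {U : Set E} {p : E → ℂ} {S₁ S₂ : Set ℂ}
    (h₁ : PP U p S₁) (h₂ : PP U p S₂) (hne : (S₁ ∩ S₂).Nonempty) {z : ℂ} (hz : z ∈ S₁)
    (d : E → ℂ) (hd : ContinuousOn d (Fib U p (S₁ ∪ S₂)))
    (h1 : ∀ x ∈ Fib U p (S₁ ∪ S₂), Complex.exp (d x) = 1) (h0 : ∀ x ∈ Fib U p {z}, d x = 0) :
    ∀ x ∈ Fib U p (S₁ ∪ S₂), d x = 0 := by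
  obtain ⟨z', hz'⟩ := hne
  have u₁ : Fib U p S₁ ⊆ Fib U p (S₁ ∪ S₂) := glue_mono subset_union_left
  have u₂ : Fib U p S₂ ⊆ Fib U p (S₁ ∪ S₂) := glue_mono subset_union_right
  have k₁ := h₁.uniq z hz d (hd.mono u₁) (fun x hx => h1 x (u₁ hx)) h0
  have k₂ := h₂.uniq z' hz'.2 d (hd.mono u₂) (fun x hx => h1 x (u₂ hx))
    (fun x hx => k₁ x (glue_mono (singleton_subset_iff.2 hz'.1) hx))
  rintro x ⟨hx, hx1 | hx2⟩
  · exact k₁ x ⟨hx, hx1⟩
  · exact k₂ x ⟨hx, hx2⟩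

theorem PP.union {U : Set E} {p : E → ℂ} (hp : ContinuousOn p U) {S₁ S₂ : Set ℂ}
    (c₁ : IsClosed S₁) (c₂ : IsClosed S₂) (h₁ : PP U p S₁) (h₂ : PP U p S₂)
    (h₁₂ : PP U p (S₁ ∩ S₂)) (hne : (S₁ ∩ S₂).Nonempty) : PP U p (S₁ ∪ S₂) := by
  have h₂₁ : PP U p (S₂ ∩ S₁) := by rw [inter_comm]; exact h₁₂
  have hne' : (S₂ ∩ S₁).Nonempty := by rw [inter_comm]; exact hne
  refine ⟨?_, ?_, ?_⟩
  · rintro z (hz | hz) A hA hA0
    · exact glue_ext hp c₁ c₂ h₁ h₂ h₁₂ hne hz A hA hA0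
    · rw [union_comm]
      exact glue_ext hp c₂ c₁ h₂ h₁ h₂₁ hne' hz A hA hA0
  · rintro z (hz | hz)
    · exact fun A hA hA0 f₀ hf₀ he => glue_log hp c₁ c₂ h₁ h₂ h₁₂ hne hz A hA hA0 f₀ hf₀ he
    · rw [union_comm]
      exact fun A hA hA0 f₀ hf₀ he => glue_log hp c₂ c₁ h₂ h₁ h₂₁ hne' hz A hA hA0 f₀ hf₀ he
  · rintro z (hz | hz)
    · exact fun d hd h1 h0 => glue_uniq h₁ h₂ hne hz d hd h1 h0
    · rw [union_comm]
      exact fun d hd h1 h0 => glue_uniq h₂ h₁ hne' hz d hd h1 h0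

end Pool.Agent.LF
end

section

/-! # Task Ext: factorisation `kappa = A exp f` over the boundary of the square minus a point -/

open Set Filter Topology

namespace Pool.Agent.LF

variable {E : Type} [MetricSpace E]

/-- the boundary of the square `[-R, R]^2` minus the point `R` -/
def Bd (R : ℝ) : Set ℂ := {z | z ∈ Rec (-R) R (-R) R ∧ (|z.re| = R ∨ |z.im| = R) ∧ z ≠ (R : ℂ)}

/-- the boundary of the square minus the segment `im < t` of the right side -/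
private def ExtJ (R t : ℝ) : Set ℂ :=
  (((Rec R R t R ∪ Rec (-R) R R R) ∪ Rec (-R) (-R) (-R) R) ∪ Rec (-R) R (-R) (-R)) ∪
    Rec R R (-R) (-t)

private theorem ext_fib_mono {U : Set E} {p : E → ℂ} {S T : Set ℂ} (h : S ⊆ T) :
    Fib U p S ⊆ Fib U p T := fun _ hx => ⟨hx.1, h hx.2⟩

private theorem ext_PP {U : Set E} {p : E → ℂ} (hp : ContinuousOn p U)
    (hPP : ∀ a b c d : ℝ, a ≤ b → c ≤ d → PP U p (Rec a b c d)) {R t : ℝ} (ht : 0 < t)
    (htR : t ≤ R) : PP U p (ExtJ R t) := by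
  have hR : 0 < R := ht.trans_le htR
  have c1 := isClosed_rec R R t R
  have c2 := isClosed_rec (-R) R R R
  have c3 := isClosed_rec (-R) (-R) (-R) R
  have c4 := isClosed_rec (-R) R (-R) (-R)
  have c5 := isClosed_rec R R (-R) (-t)
  have i1 : Rec R R t R ∩ Rec (-R) R R R = Rec R R R R := by
    ext z; simp only [Rec, mem_inter_iff, mem_ofPred_eq]
    constructor
    · rintro ⟨⟨h1, h2, h3, h4⟩, ⟨h5, h6, h7, h8⟩⟩; exact ⟨h1, h2, h7, h8⟩
    · rintro ⟨h1, h2, h3, h4⟩; exact ⟨⟨h1, h2, by linarith, h4⟩, ⟨by linarith, h2, h3, h4⟩⟩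
  have i2 : (Rec R R t R ∪ Rec (-R) R R R) ∩ Rec (-R) (-R) (-R) R = Rec (-R) (-R) R R := by
    ext z; simp only [Rec, mem_inter_iff, mem_union, mem_ofPred_eq]
    constructor
    · rintro ⟨⟨h1, h2, h3, h4⟩ | ⟨h1, h2, h3, h4⟩, ⟨h5, h6, h7, h8⟩⟩
      · exact absurd (h1.trans h6) (by linarith)
      · exact ⟨h5, h6, h3, h4⟩
    · rintro ⟨h1, h2, h3, h4⟩
      exact ⟨Or.inr ⟨h1, by linarith, h3, h4⟩, ⟨h1, h2, by linarith, h4⟩⟩
  have i3 : ((Rec R R t R ∪ Rec (-R) R R R) ∪ Rec (-R) (-R) (-R) R) ∩ Rec (-R) R (-R) (-R) =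
      Rec (-R) (-R) (-R) (-R) := by
    ext z; simp only [Rec, mem_inter_iff, mem_union, mem_ofPred_eq]
    constructor
    · rintro ⟨(⟨h1, h2, h3, h4⟩ | ⟨h1, h2, h3, h4⟩) | ⟨h1, h2, h3, h4⟩, ⟨h5, h6, h7, h8⟩⟩
      · exact absurd (h3.trans h8) (by linarith)
      · exact absurd (h3.trans h8) (by linarith)
      · exact ⟨h1, h2, h7, h8⟩
    · rintro ⟨h1, h2, h3, h4⟩
      exact ⟨Or.inr ⟨h1, h2, h3, by linarith⟩, ⟨h1, by linarith, h3, h4⟩⟩
  have i4 : (((Rec R R t R ∪ Rec (-R) R R R) ∪ Rec (-R) (-R) (-R) R) ∪ Rec (-R) R (-R) (-R)) ∩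
      Rec R R (-R) (-t) = Rec R R (-R) (-R) := by
    ext z; simp only [Rec, mem_inter_iff, mem_union, mem_ofPred_eq]
    constructor
    · rintro ⟨((⟨h1, h2, h3, h4⟩ | ⟨h1, h2, h3, h4⟩) | ⟨h1, h2, h3, h4⟩) | ⟨h1, h2, h3, h4⟩,
        ⟨h5, h6, h7, h8⟩⟩
      · exact absurd (h3.trans h8) (by linarith)
      · exact absurd (h3.trans h8) (by linarith)
      · exact absurd (h5.trans h2) (by linarith)
      · exact ⟨h5, h6, h3, h4⟩
    · rintro ⟨h1, h2, h3, h4⟩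
      exact ⟨Or.inr ⟨by linarith, h2, h3, h4⟩, ⟨h1, h2, h3, by linarith⟩⟩
  have p1 : PP U p (Rec R R t R ∪ Rec (-R) R R R) := by
    refine PP.union hp c1 c2 (hPP _ _ _ _ le_rfl htR) (hPP _ _ _ _ (by linarith) le_rfl) ?_ ?_
    · rw [i1]; exact hPP _ _ _ _ le_rfl le_rfl
    · rw [i1]; exact ⟨⟨R, R⟩, le_rfl, le_rfl, le_rfl, le_rfl⟩
  have p2 : PP U p ((Rec R R t R ∪ Rec (-R) R R R) ∪ Rec (-R) (-R) (-R) R) := by
    refine PP.union hp (c1.union c2) c3 p1 (hPP _ _ _ _ le_rfl (by linarith)) ?_ ?_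
    · rw [i2]; exact hPP _ _ _ _ le_rfl le_rfl
    · rw [i2]; exact ⟨⟨-R, R⟩, le_rfl, le_rfl, le_rfl, le_rfl⟩
  have p3 : PP U p (((Rec R R t R ∪ Rec (-R) R R R) ∪ Rec (-R) (-R) (-R) R) ∪
      Rec (-R) R (-R) (-R)) := by
    refine PP.union hp ((c1.union c2).union c3) c4 p2 (hPP _ _ _ _ (by linarith) le_rfl) ?_ ?_
    · rw [i3]; exact hPP _ _ _ _ le_rfl le_rfl
    · rw [i3]; exact ⟨⟨-R, -R⟩, le_rfl, le_rfl, le_rfl, le_rfl⟩
  refine PP.union hp (((c1.union c2).union c3).union c4) c5 p3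
    (hPP _ _ _ _ le_rfl (by linarith)) ?_ ?_
  · rw [i4]; exact hPP _ _ _ _ le_rfl le_rfl
  · rw [i4]; exact ⟨⟨R, -R⟩, le_rfl, le_rfl, le_rfl, le_rfl⟩

private theorem ext_J_sub {R t : ℝ} (ht : 0 < t) (htR : t ≤ R) : ExtJ R t ⊆ Bd R := by
  have hR : 0 < R := ht.trans_le htR
  intro z hz
  have hne : ∀ w : ℂ, (w.re = R → w.im ≠ 0) → w ≠ (R : ℂ) := by
    rintro w hw rfl
    exact hw (Complex.ofReal_re R) (Complex.ofReal_im R)
  simp only [ExtJ, Rec, mem_union, mem_ofPred_eq] at hz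
  rcases hz with (((⟨h1, h2, h3, h4⟩ | ⟨h1, h2, h3, h4⟩) | ⟨h1, h2, h3, h4⟩) |
    ⟨h1, h2, h3, h4⟩) | ⟨h1, h2, h3, h4⟩
  · refine ⟨⟨by linarith, h2, by linarith, h4⟩, Or.inl ?_, hne z fun _ => by linarith⟩
    rw [le_antisymm h2 h1, abs_of_pos hR]
  · refine ⟨⟨by linarith, h2, by linarith, h4⟩, Or.inr ?_, hne z fun _ => by linarith⟩
    rw [le_antisymm h4 h3, abs_of_pos hR]
  · refine ⟨⟨by linarith, by linarith, by linarith, h4⟩, Or.inl ?_, hne z fun h => by linarith⟩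
    rw [le_antisymm h2 h1, abs_neg, abs_of_pos hR]
  · refine ⟨⟨by linarith, h2, by linarith, by linarith⟩, Or.inr ?_, hne z fun _ => by linarith⟩
    rw [le_antisymm h4 h3, abs_neg, abs_of_pos hR]
  · refine ⟨⟨by linarith, h2, by linarith, by linarith⟩, Or.inl ?_, hne z fun _ => by linarith⟩
    rw [le_antisymm h2 h1, abs_of_pos hR]

private theorem ext_Bd_sub {R t : ℝ} {z : ℂ} (hz : z ∈ Bd R) (hW : z.re ≠ R ∨ t < |z.im|) :
    z ∈ ExtJ R t := by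
  obtain ⟨⟨h1, h2, h3, h4⟩, h5, -⟩ := hz
  simp only [ExtJ, Rec, mem_union, mem_ofPred_eq]
  rcases h5 with h5 | h5
  · rcases abs_eq_abs.1 (h5.trans (abs_of_nonneg (h5 ▸ abs_nonneg z.re)).symm) with h6 | h6
    · rcases hW with h7 | h7
      · exact absurd h6 h7
      · rcases lt_abs.1 h7 with h8 | h8
        · exact Or.inl (Or.inl (Or.inl (Or.inl ⟨h6.ge, h2, h8.le, h4⟩)))
        · exact Or.inr ⟨h6.ge, h2, h3, by linarith⟩
    · exact Or.inl (Or.inl (Or.inr ⟨h1, h6.le, h3, h4⟩))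
  · rcases abs_eq_abs.1 (h5.trans (abs_of_nonneg (h5 ▸ abs_nonneg z.im)).symm) with h6 | h6
    · exact Or.inl (Or.inl (Or.inl (Or.inr ⟨h1, h2, h6.ge, h4⟩)))
    · exact Or.inl (Or.inr ⟨h1, h2, h3, h6.le⟩)

private theorem ext_J_mono {R t t' : ℝ} (h : t' ≤ t) : ExtJ R t ⊆ ExtJ R t' := by
  intro z hz
  simp only [ExtJ, Rec, mem_union, mem_ofPred_eq] at hz ⊢
  rcases hz with (((⟨h1, h2, h3, h4⟩ | h1) | h1) | h1) | ⟨h1, h2, h3, h4⟩
  · exact Or.inl (Or.inl (Or.inl (Or.inl ⟨h1, h2, by linarith, h4⟩)))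
  · exact Or.inl (Or.inl (Or.inl (Or.inr h1)))
  · exact Or.inl (Or.inl (Or.inr h1))
  · exact Or.inl (Or.inr h1)
  · exact Or.inr ⟨h1, h2, h3, by linarith⟩

theorem log_ext {U : Set E} {p : E → ℂ} (hp : ContinuousOn p U)
    (hPP : ∀ a b c d : ℝ, a ≤ b → c ≤ d → PP U p (Rec a b c d)) {R : ℝ} (hR : 0 < R)
    {k : E → ℂ} (hk : ContinuousOn k U) (hne : ∀ x ∈ Fib U p (Bd R), k x ≠ 0) :
    ∃ A f : E → ℂ, ContinuousOn A (Fib U p (Rec (-R) R (-R) R)) ∧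
      (∀ x ∈ Fib U p (Rec (-R) R (-R) R), A x ≠ 0) ∧ ContinuousOn f (Fib U p (Bd R)) ∧
      ∀ x ∈ Fib U p (Bd R), k x = A x * Complex.exp (f x) := by
  classical
  -- the corner
  set z₁ : ℂ := ⟨R, R⟩ with hz₁
  have hz₁J : ∀ t : ℝ, 0 < t → t ≤ R → z₁ ∈ ExtJ R t := fun t _ htR =>
    Or.inl (Or.inl (Or.inl (Or.inl ⟨le_rfl, le_rfl, htR, le_rfl⟩)))
  have hz₁B : z₁ ∈ Bd R := ext_J_sub hR le_rfl (hz₁J R hR le_rfl)
  have hBQ : Bd R ⊆ Rec (-R) R (-R) R := fun z hz => hz.1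
  have hfU : ∀ S : Set ℂ, Fib U p S ⊆ U := fun S x hx => hx.1
  have hz₁sub : Fib U p {z₁} ⊆ Fib U p (Bd R) := ext_fib_mono (singleton_subset_iff.2 hz₁B)
  obtain ⟨A, hA1, hA2, hA3⟩ := (hPP (-R) R (-R) R (by linarith) (by linarith)).ext z₁ (hBQ hz₁B) k
    (hk.mono (hfU _)) (fun x hx => hne x (hz₁sub hx))
  -- the logarithms on the arcs
  let t : ℕ → ℝ := fun n => R / (n + 1)
  have ht0 : ∀ n, 0 < t n := fun n => by positivity
  have htR : ∀ n, t n ≤ R := fun n => div_le_self hR.le (by linarith [(n.cast_nonneg : (0:ℝ) ≤ n)])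
  have hanti : ∀ m n, m ≤ n → t n ≤ t m := fun m n hmn => by
    apply div_le_div_of_nonneg_left hR.le (by positivity)
    have : (m : ℝ) ≤ n := by exact_mod_cast hmn
    linarith
  have hJB : ∀ n, ExtJ R (t n) ⊆ Bd R := fun n => ext_J_sub (ht0 n) (htR n)
  have hkA : ∀ n, ContinuousOn (fun x => k x / A x) (Fib U p (ExtJ R (t n))) := fun n =>
    (hk.mono (hfU _)).div (hA1.mono (ext_fib_mono ((hJB n).trans hBQ)))
      (fun x hx => hA2 x (ext_fib_mono ((hJB n).trans hBQ) hx))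
  have hlog : ∀ n, ∃ f : E → ℂ, ContinuousOn f (Fib U p (ExtJ R (t n))) ∧
      (∀ x ∈ Fib U p (ExtJ R (t n)), Complex.exp (f x) = k x / A x) ∧
      ∀ x ∈ Fib U p {z₁}, f x = 0 := by
    intro n
    refine (ext_PP hp hPP (ht0 n) (htR n)).log z₁ (hz₁J _ (ht0 n) (htR n)) (fun x => k x / A x)
      (hkA n) ?_ (fun _ => 0) continuousOn_const ?_
    · intro x hx
      have hx' := ext_fib_mono (hJB n) hx
      exact div_ne_zero (hne x hx') (hA2 x (ext_fib_mono hBQ hx'))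
    · intro x hx
      rw [Complex.exp_zero, hA3 x hx, div_self (hne x (hz₁sub hx))]
  choose F hF1 hF2 hF3 using hlog
  have huniq : ∀ m n, m ≤ n → ∀ x ∈ Fib U p (ExtJ R (t m)), F n x = F m x := by
    intro m n hmn x hx
    have hsub : Fib U p (ExtJ R (t m)) ⊆ Fib U p (ExtJ R (t n)) :=
      ext_fib_mono (ext_J_mono (hanti m n hmn))
    have := (ext_PP hp hPP (ht0 m) (htR m)).uniq z₁ (hz₁J _ (ht0 m) (htR m))
      (fun x => F n x - F m x) (((hF1 n).mono hsub).sub (hF1 m)) ?_ ?_ x hx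
    · exact sub_eq_zero.1 this
    · intro y hy
      have hy' := ext_fib_mono (hJB m) hy
      have hn0 : k y / A y ≠ 0 := div_ne_zero (hne y hy') (hA2 y (ext_fib_mono hBQ hy'))
      rw [Complex.exp_sub, hF2 n y (hsub hy), hF2 m y hy, div_self hn0]
    · intro y hy
      rw [hF3 n y hy, hF3 m y hy, sub_self]
  have hcover : ∀ z ∈ Bd R, ∃ n : ℕ, z.re ≠ R ∨ t n < |z.im| := by
    intro z hz
    by_cases hre : z.re = R
    · have him : z.im ≠ 0 := by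
        intro h
        apply hz.2.2
        apply Complex.ext
        · rw [hre, Complex.ofReal_re]
        · rw [h, Complex.ofReal_im]
      have hpos : 0 < |z.im| := abs_pos.2 him
      obtain ⟨n, hn⟩ := exists_nat_gt (R / |z.im|)
      refine ⟨n, Or.inr ?_⟩
      show R / ((n : ℝ) + 1) < |z.im|
      rw [div_lt_iff₀ hpos] at hn
      rw [div_lt_iff₀ (by positivity)]
      nlinarith
    · exact ⟨0, Or.inl hre⟩
  let f : E → ℂ := fun x => if h : ∃ n, p x ∈ ExtJ R (t n) then F (Nat.find h) x else 0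
  have hf : ∀ n, ∀ x ∈ Fib U p (ExtJ R (t n)), f x = F n x := by
    intro n x hx
    have h : ∃ n, p x ∈ ExtJ R (t n) := ⟨n, hx.2⟩
    have h1 : f x = F (Nat.find h) x := dif_pos h
    rw [h1]
    exact (huniq _ _ (Nat.find_min' h hx.2) x ⟨hx.1, Nat.find_spec h⟩).symm
  refine ⟨A, f, hA1, hA2, ?_, ?_⟩
  · intro x hx
    obtain ⟨n, hn⟩ := hcover _ hx.2
    have hxJ : x ∈ Fib U p (ExtJ R (t n)) := ⟨hx.1, ext_Bd_sub hx.2 hn⟩
    have hopen : IsOpen {z : ℂ | z.re ≠ R ∨ t n < |z.im|} := by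
      have h1 : IsOpen {z : ℂ | z.re ≠ R} := isOpen_ne_fun Complex.continuous_re continuous_const
      have h2 : IsOpen {z : ℂ | t n < |z.im|} :=
        isOpen_lt continuous_const (continuous_abs.comp Complex.continuous_im)
      exact h1.union h2
    have hpx : ContinuousWithinAt p (Fib U p (Bd R)) x := (hp x hx.1).mono (hfU _)
    have hev : ∀ᶠ y in 𝓝[Fib U p (Bd R)] x, y ∈ Fib U p (ExtJ R (t n)) := by
      have h1 : ∀ᶠ y in 𝓝[Fib U p (Bd R)] x, p y ∈ {z : ℂ | z.re ≠ R ∨ t n < |z.im|} :=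
        hpx.eventually (hopen.mem_nhds hn)
      filter_upwards [h1, self_mem_nhdsWithin] with y hy1 hy2
      exact ⟨hy2.1, ext_Bd_sub hy2.2 hy1⟩
    have hcF : ContinuousWithinAt (F n) (Fib U p (Bd R)) x := by
      have h1 := hF1 n x hxJ
      exact h1.mono_of_mem_nhdsWithin hev
    refine hcF.congr_of_eventuallyEq ?_ (hf n x hxJ)
    filter_upwards [hev] with y hy using hf n y hy
  · intro x hx
    obtain ⟨n, hn⟩ := hcover _ hx.2
    have hxJ : x ∈ Fib U p (ExtJ R (t n)) := ⟨hx.1, ext_Bd_sub hx.2 hn⟩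
    have hAx : A x ≠ 0 := hA2 x (ext_fib_mono hBQ hx)
    rw [hf n x hxJ, hF2 n x hxJ, mul_div_cancel₀ _ hAx]

end Pool.Agent.LF
end

section

/-! # Good points of the fibre over `R`: `f` extends continuously across the fibre -/

open Set Filter Topology
open scoped ContDiff

namespace Pool.Agent.LF

/-- `f` has a limit at `x` along the part over the boundary of the square minus `R` -/
def Good (p : E6 → ℂ) (R : ℝ) (f : E6 → ℂ) (x : E6) : Prop :=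
  ∃ l : ℂ, Tendsto f (𝓝[Fib U6 p (Bd R)] x) (𝓝 l)

/-- the factorisation `k = A exp f` over the boundary of the square minus `R` -/
structure Fac (p : E6 → ℂ) (R : ℝ) (k A f : E6 → ℂ) : Prop where
  R_pos : 0 < R
  p_cont : ContinuousOn p U6
  k_cont : ContinuousOn k U6
  A_cont : ContinuousOn A (Fib U6 p (Rec (-R) R (-R) R))
  A_ne : ∀ x ∈ Fib U6 p (Rec (-R) R (-R) R), A x ≠ 0
  f_cont : ContinuousOn f (Fib U6 p (Bd R))
  eq : ∀ x ∈ Fib U6 p (Bd R), k x = A x * Complex.exp (f x)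

end Pool.Agent.LF
end

section

/-! # Task GooA: local topology of the fibre over `R` -/

open Set Filter Topology
open scoped ContDiff

namespace Pool.Agent.LF

private theorem gooA_isOpen_U6 : IsOpen U6 := by
  have h : Continuous (fun x : E6 => x 3) := continuous_apply 3
  exact isOpen_lt continuous_const h

/-- points of the fibre over `R` are limits of points over the boundary of the square minus `R` -/
theorem mem_closure_bd {p : E6 → ℂ} {R : ℝ} (hR : 0 < R) {e : ℝ} {T : E6 → ℂ → E6}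
    (hT : Ret p R e T) {x : E6} (hx : x ∈ U6) (hpx : p x = R) :
    (𝓝[Fib U6 p (Bd R)] x).NeBot := by
  rw [← mem_closure_iff_nhdsWithin_neBot]
  have he := hT.e_pos
  have hxF : x ∈ Fib U6 p (Metric.closedBall (R : ℂ) e) :=
    ⟨hx, by rw [hpx]; exact Metric.mem_closedBall_self he.le⟩
  have hRb : (R : ℂ) ∈ Metric.closedBall (R : ℂ) e := Metric.mem_closedBall_self he.le
  have hself : T x R = x := by rw [← hpx]; exact hT.self x hxF
  let γ : ℝ → ℂ := fun s => (R : ℂ) + (s : ℂ) * Complex.I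
  have hγc : Continuous γ := by fun_prop
  have hγ0 : γ 0 = R := by simp [γ]
  have hγb : ∀ s : ℝ, 0 < s → s < e → γ s ∈ Metric.closedBall (R : ℂ) e := by
    intro s hs1 hs2
    rw [Metric.mem_closedBall, dist_eq_norm]
    have : γ s - R = (s : ℂ) * Complex.I := by simp [γ]
    rw [this, norm_mul, Complex.norm_I, mul_one, Complex.norm_real, Real.norm_eq_abs,
      abs_of_pos hs1]
    exact hs2.le
  have hcw : Tendsto (fun s => T x (γ s)) (𝓝[>] 0) (𝓝 x) := by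
    have h1 : ContinuousWithinAt (fun y : E6 × ℂ => T y.1 y.2)
      (Fib U6 p (Metric.closedBall (R : ℂ) e) ×ˢ Metric.closedBall (R : ℂ) e) (x, (R : ℂ)) :=
      hT.cont (x, (R : ℂ)) ⟨hxF, hRb⟩
    have h2 : Tendsto (fun s : ℝ => (x, γ s)) (𝓝[>] 0)
        (𝓝[Fib U6 p (Metric.closedBall (R : ℂ) e) ×ˢ Metric.closedBall (R : ℂ) e]
          (x, (R : ℂ))) := by
      refine tendsto_nhdsWithin_iff.2 ⟨?_, ?_⟩
      · have h3 : Tendsto (fun s : ℝ => (x, γ s)) (𝓝 0) (𝓝 (x, γ 0)) :=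
          (continuous_const.prodMk hγc).tendsto 0
        rw [hγ0] at h3
        exact h3.mono_left nhdsWithin_le_nhds
      · filter_upwards [Ioo_mem_nhdsGT he] with s hs
        exact ⟨hxF, hγb s hs.1 hs.2⟩
    have h4 := h1.tendsto.comp h2
    simp only [Function.comp_def] at h4
    rw [hself] at h4
    exact h4
  refine mem_closure_of_tendsto hcw ?_
  filter_upwards [Ioo_mem_nhdsGT (lt_min he hR)] with s hs
  have hs1 : 0 < s := hs.1
  have hs2 : s < e := hs.2.trans_le (min_le_left _ _)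
  have hs3 : s < R := hs.2.trans_le (min_le_right _ _)
  obtain ⟨k1, k2⟩ := hT.mem x hxF (γ s) (hγb s hs1 hs2)
  have hre : (γ s).re = R := by simp [γ]
  have him : (γ s).im = s := by simp [γ]
  refine ⟨k1, ?_⟩
  rw [k2]
  refine ⟨⟨by rw [hre]; linarith, by rw [hre], by rw [him]; linarith, by rw [him]; linarith⟩,
    Or.inl (by rw [hre, abs_of_pos hR]), fun h => ?_⟩
  have := congrArg Complex.im h
  rw [him, Complex.ofReal_im] at this
  linarith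

/-- the fibre over `R` is locally connected -/
theorem local_conn {p : E6 → ℂ} (hp : ContinuousOn p U6) {R : ℝ} {e : ℝ} {T : E6 → ℂ → E6}
    (hT : Ret p R e T) {x : E6} (hx : x ∈ U6) (hpx : p x = R) {O : Set E6} (hO : O ∈ 𝓝 x) :
    ∃ O' ∈ 𝓝 x, ∀ x' ∈ O', x' ∈ U6 → p x' = R → ∃ Γ ⊆ O, IsPreconnected Γ ∧ x ∈ Γ ∧ x' ∈ Γ ∧
      ∀ y ∈ Γ, y ∈ U6 ∧ p y = R := by
  have he := hT.e_pos
  have hRb : (R : ℂ) ∈ Metric.closedBall (R : ℂ) e := Metric.mem_closedBall_self he.le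
  have hxF : x ∈ Fib U6 p (Metric.closedBall (R : ℂ) e) :=
    ⟨hx, by rw [hpx]; exact Metric.mem_closedBall_self he.le⟩
  have hself : ∀ y, y ∈ U6 → p y = R → T y R = y := by
    intro y hy hpy
    rw [← hpy]
    refine hT.self y ⟨hy, ?_⟩
    rw [hpy]; exact hRb
  have hcF : ContinuousOn (fun y : E6 => T y R) (Fib U6 p (Metric.closedBall (R : ℂ) e)) := by
    have h1 : ContinuousOn (fun y : E6 => (y, (R : ℂ)))
      (Fib U6 p (Metric.closedBall (R : ℂ) e)) := (continuous_id.prodMk continuous_const).continuousOn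
    exact hT.cont.comp h1 fun y hy => ⟨hy, hRb⟩
  -- a neighbourhood in the domain
  have hev1 : ∀ᶠ y in 𝓝 x, y ∈ Fib U6 p (Metric.closedBall (R : ℂ) e) := by
    have h1 : ∀ᶠ y in 𝓝 x, y ∈ U6 := gooA_isOpen_U6.mem_nhds hx
    have h2 : ContinuousAt p x := (hp x hx).continuousAt (gooA_isOpen_U6.mem_nhds hx)
    have h3 : ∀ᶠ y in 𝓝 x, p y ∈ Metric.closedBall (R : ℂ) e := by
      apply h2.eventually
      rw [hpx]
      exact Metric.closedBall_mem_nhds _ he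
    filter_upwards [h1, h3] with y hy1 hy3 using ⟨hy1, hy3⟩
  have hev2 : ∀ᶠ y in 𝓝 x, T y R ∈ O := by
    have h1 : ContinuousAt (fun y : E6 => T y R) x := (hcF x hxF).continuousAt hev1
    apply h1.eventually
    show ∀ᶠ y in 𝓝 (T x R), y ∈ O
    rw [hself x hx hpx]
    exact hO
  obtain ⟨δ, hδ, hball⟩ := Metric.eventually_nhds_iff_ball.1 (hev1.and hev2)
  refine ⟨Metric.ball x δ, Metric.ball_mem_nhds x hδ, fun x' hx' hxU hxp => ?_⟩
  refine ⟨(fun y => T y R) '' Metric.ball x δ, ?_, ?_, ?_, ?_, ?_⟩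
  · rintro _ ⟨y, hy, rfl⟩
    exact (hball y hy).2
  · exact (convex_ball x δ).isPreconnected.image _ (hcF.mono fun y hy => (hball y hy).1)
  · exact ⟨x, Metric.mem_ball_self hδ, hself x hx hpx⟩
  · exact ⟨x', hx', hself x' hxU hxp⟩
  · rintro _ ⟨y, hy, rfl⟩
    exact hT.mem y (hball y hy).1 R hRb

end Pool.Agent.LF
end

section

/-! # Task GooB: local structure of `f` near the fibre over `R` -/

open Set Filter Topology
open scoped ContDiff

namespace Pool.Agent.LF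

/-- one side of the fibre over `R` (`ε = 1` or `ε = -1`) -/
def sideB (p : E6 → ℂ) (R ε : ℝ) : Set E6 :=
  {y | y ∈ U6 ∧ ∃ s : ℝ, 0 < s ∧ p y = (R : ℂ) + ((ε * s : ℝ) : ℂ) * Complex.I}

theorem distB (R ε s : ℝ) (hε : |ε| = 1) (hs : 0 ≤ s) :
    dist ((R : ℂ) + ((ε * s : ℝ) : ℂ) * Complex.I) (R : ℂ) = s := by
  rw [dist_eq_norm]
  have : (R : ℂ) + ((ε * s : ℝ) : ℂ) * Complex.I - (R : ℂ) = ((ε * s : ℝ) : ℂ) * Complex.I := by
    ring
  rw [this, norm_mul, Complex.norm_I, mul_one, Complex.norm_real, Real.norm_eq_abs, abs_mul, hε,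
    one_mul, abs_of_nonneg hs]

theorem exp_one_small {w : ℂ} (h : Complex.exp w = 1) (hw : ‖w‖ < 1) : w = 0 := by
  obtain ⟨n, hn⟩ := Complex.exp_eq_one_iff.1 h
  by_cases h0 : n = 0
  · simpa [h0] using hn
  · exfalso
    rw [hn, norm_mul, norm_mul, norm_mul, Complex.norm_I, mul_one] at hw
    have h1 : (1 : ℝ) ≤ ‖(n : ℂ)‖ := by
      rw [Complex.norm_intCast]
      exact_mod_cast Int.one_le_abs h0
    have h2 : ‖(2 : ℂ)‖ * ‖(Real.pi : ℂ)‖ = 2 * Real.pi := by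
      rw [Complex.norm_real, Real.norm_eq_abs, abs_of_pos Real.pi_pos]
      norm_num
    rw [h2] at hw
    nlinarith [Real.pi_gt_three]

theorem ret_near {p : E6 → ℂ} {R : ℝ} {e : ℝ} {T : E6 → ℂ → E6} (hT : Ret p R e T) {x : E6}
    (hx : x ∈ U6) (hpx : p x = R) {V : Set E6} (hV : V ∈ 𝓝 x) :
    ∃ V' ∈ 𝓝 x, ∃ δ > 0, δ ≤ e ∧ ∀ y ∈ V', y ∈ Fib U6 p (Metric.closedBall (R : ℂ) e) →
      ∀ w : ℂ, dist w R ≤ δ → T y w ∈ V := by
  have hR : (R : ℂ) ∈ Metric.closedBall (R : ℂ) e := Metric.mem_closedBall_self hT.e_pos.le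
  have hxF : x ∈ Fib U6 p (Metric.closedBall (R : ℂ) e) := ⟨hx, by rw [hpx]; exact hR⟩
  have hTx : T x (R : ℂ) = x := by
    have := hT.self x hxF
    rwa [hpx] at this
  have h1 := hT.cont (x, (R : ℂ)) ⟨hxF, hR⟩
  have h2 : (fun y : E6 × ℂ => T y.1 y.2) ⁻¹' V ∈
      𝓝[Fib U6 p (Metric.closedBall (R : ℂ) e) ×ˢ Metric.closedBall (R : ℂ) e] (x, (R : ℂ)) := by
    apply h1
    simp only [hTx]
    exact hV
  rw [nhdsWithin_prod_eq, mem_prod_iff] at h2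
  obtain ⟨t₁, ht₁, t₂, ht₂, ht⟩ := h2
  obtain ⟨V', hV', hV't⟩ := mem_nhdsWithin_iff_exists_mem_nhds_inter.1 ht₁
  obtain ⟨δ, hδ, hδt⟩ := Metric.mem_nhdsWithin_iff.1 ht₂
  refine ⟨V', hV', min (δ / 2) e, lt_min (by linarith) hT.e_pos, min_le_right _ _, ?_⟩
  intro y hy hyF w hw
  have hwt : w ∈ t₂ := by
    apply hδt
    refine ⟨?_, ?_⟩
    · rw [Metric.mem_ball]
      calc dist w R ≤ min (δ / 2) e := hw
        _ ≤ δ / 2 := min_le_left _ _
        _ < δ := by linarith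
    · rw [Metric.mem_closedBall]
      exact hw.trans (min_le_right _ _)
  exact ht (mk_mem_prod (hV't ⟨hy, hyF⟩) hwt)

theorem good_side {p : E6 → ℂ} {R : ℝ} {e : ℝ} (hp : ContinuousOn p U6)
    {T : E6 → ℂ → E6} (hT : Ret p R e T) {x : E6} (hx : x ∈ U6) (hpx : p x = R)
    {ε : ℝ} (hε : |ε| = 1) {d : E6 → ℂ} {O₁ : Set E6} (hO₁ : O₁ ∈ 𝓝 x)
    (hd : ContinuousOn d (O₁ ∩ sideB p R ε)) (h1 : ∀ y ∈ O₁ ∩ sideB p R ε, Complex.exp (d y) = 1) :
    ∃ l : ℂ, Complex.exp l = 1 ∧ ∀ᶠ y in 𝓝 x, y ∈ sideB p R ε → d y = l := by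
  obtain ⟨V₁, hV₁, δ₁, hδ₁, hδ₁e, hT₁⟩ := ret_near hT hx hpx hO₁
  obtain ⟨V₂, hV₂, δ₂, hδ₂, hδ₂e, hT₂⟩ := ret_near hT hx hpx hV₁
  set s₁ := min δ₁ δ₂ with hs₁
  have hs₁0 : 0 < s₁ := lt_min hδ₁ hδ₂
  have hs₁1 : s₁ ≤ δ₁ := min_le_left _ _
  have hs₁2 : s₁ ≤ δ₂ := min_le_right _ _
  have hs₁e : s₁ ≤ e := hs₁1.trans hδ₁e
  set F := Fib U6 p (Metric.closedBall (R : ℂ) e) with hF
  set w : ℝ → ℂ := fun s => (R : ℂ) + ((ε * s : ℝ) : ℂ) * Complex.I with hw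
  have hwc : Continuous w := by
    simp only [hw]
    fun_prop
  have hwd : ∀ s, 0 ≤ s → dist (w s) (R : ℂ) = s := fun s hs => distB R ε s hε hs
  have hw0 : w 0 = (R : ℂ) := by simp [hw]
  have hwB : ∀ s, 0 ≤ s → s ≤ s₁ → w s ∈ Metric.closedBall (R : ℂ) e := by
    intro s hs hs'
    rw [Metric.mem_closedBall, hwd s hs]
    exact hs'.trans hs₁e
  have hR : (R : ℂ) ∈ Metric.closedBall (R : ℂ) e := Metric.mem_closedBall_self hT.e_pos.le
  have hxF : x ∈ F := ⟨hx, by rw [hpx]; exact hR⟩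
  -- the intermediate point
  have hmid : ∀ y ∈ V₂, y ∈ F → ∀ s, 0 ≤ s → s ≤ s₁ → T y (w s) ∈ V₁ ∧ T y (w s) ∈ F := by
    intro y hy hyF s hs hs'
    refine ⟨hT₂ y hy hyF _ (by rw [hwd s hs]; exact hs'.trans hs₁2), ?_⟩
    have := hT.mem y hyF (w s) (hwB s hs hs')
    exact ⟨this.1, by rw [this.2]; exact hwB s hs hs'⟩
  have hfin : ∀ y ∈ V₂, y ∈ F → ∀ s, 0 ≤ s → s ≤ s₁ → ∀ t, 0 < t → t ≤ s₁ →
      T (T y (w s)) (w t) ∈ O₁ ∩ sideB p R ε := by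
    intro y hy hyF s hs hs' t ht ht'
    obtain ⟨ha, hb⟩ := hmid y hy hyF s hs hs'
    refine ⟨hT₁ _ ha hb _ (by rw [hwd t ht.le]; exact ht'.trans hs₁1), ?_⟩
    have := hT.mem _ hb (w t) (hwB t ht.le ht')
    exact ⟨this.1, t, ht, this.2⟩
  have hTx : T x (w 0) = x := by
    have := hT.self x hxF
    rwa [hpx, ← hw0] at this
  have hxV₂ : x ∈ V₂ := mem_of_mem_nhds hV₂
  set y₁ := T (T x (w 0)) (w s₁) with hy₁
  refine ⟨d y₁, h1 _ (hfin x hxV₂ hxF 0 le_rfl hs₁0.le s₁ hs₁0 le_rfl), ?_⟩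
  -- step 1: `d y = d (T (T y R) (w s₁))`
  have step1 : ∀ y ∈ V₂, y ∈ F → ∀ s, 0 < s → s ≤ s₁ → p y = w s →
      d y = d (T (T y (w 0)) (w s₁)) := by
    intro y hy hyF s hs hs' hpy
    let c : ℝ × ℝ → E6 := fun q => T (T y (w q.1)) (w q.2)
    let D : Set (ℝ × ℝ) := Icc (0 : ℝ) s₁ ×ˢ Ioc (0 : ℝ) s₁
    have hD : IsPreconnected D := isPreconnected_Icc.prod isPreconnected_Ioc
    have hc₁ : ContinuousOn (fun q : ℝ × ℝ => T y (w q.1)) D := by
      have : ContinuousOn (fun q : ℝ × ℝ => (y, w q.1)) D := by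
        apply Continuous.continuousOn
        fun_prop
      exact hT.cont.comp this (fun q hq => ⟨hyF, hwB q.1 hq.1.1 hq.1.2⟩)
    have hc : ContinuousOn c D := by
      have : ContinuousOn (fun q : ℝ × ℝ => (T y (w q.1), w q.2)) D :=
        hc₁.prodMk (Continuous.continuousOn (by fun_prop))
      exact hT.cont.comp this (fun q hq => ⟨(hmid y hy hyF q.1 hq.1.1 hq.1.2).2,
        hwB q.2 hq.2.1.le hq.2.2⟩)
    have hcO : ∀ q ∈ D, c q ∈ O₁ ∩ sideB p R ε := fun q hq =>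
      hfin y hy hyF q.1 hq.1.1 hq.1.2 q.2 hq.2.1 hq.2.2
    have hdc : ContinuousOn (fun q => d (c q) - d (c (s, s))) D :=
      (hd.comp hc hcO).sub continuousOn_const
    have hssD : (s, s) ∈ D := ⟨⟨hs.le, hs'⟩, ⟨hs, hs'⟩⟩
    have hcss : c (s, s) = y := by
      have e1 : T y (w s) = y := by
        have := hT.self y hyF
        rwa [hpy] at this
      change T (T y (w s)) (w s) = y
      rw [e1, e1]
    have huniq := log_unique hD hdc (fun q hq => by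
      rw [Complex.exp_sub, h1 _ (hcO q hq), h1 _ (hcO _ hssD), div_one]) hssD (sub_self _)
    have h0D : ((0 : ℝ), s₁) ∈ D := ⟨⟨le_rfl, hs₁0.le⟩, ⟨hs₁0, le_rfl⟩⟩
    have := huniq _ h0D
    rw [hcss, sub_eq_zero] at this
    exact this.symm
  -- step 2: continuity in `y`
  have step2 : ∀ᶠ y in 𝓝[F] x, d (T (T y (w 0)) (w s₁)) = d y₁ := by
    have hc₁ : ContinuousWithinAt (fun y : E6 => T y (w 0)) (F ∩ V₂) x := by
      have h := hT.cont (x, w 0) ⟨hxF, hwB 0 le_rfl hs₁0.le⟩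
      have h' : ContinuousWithinAt (fun y : E6 => (y, w 0)) (F ∩ V₂) x :=
        (Continuous.continuousWithinAt (by fun_prop))
      exact ContinuousWithinAt.comp (f := fun y : E6 => (y, w 0)) h h'
        (fun y hy => ⟨hy.1, hwB 0 le_rfl hs₁0.le⟩)
    have hc₂ : ContinuousWithinAt (fun y : E6 => T (T y (w 0)) (w s₁)) (F ∩ V₂) x := by
      have h := hT.cont (T x (w 0), w s₁) ⟨(hmid x hxV₂ hxF 0 le_rfl hs₁0.le).2,
        hwB s₁ hs₁0.le le_rfl⟩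
      exact ContinuousWithinAt.comp (f := fun y : E6 => (T y (w 0), w s₁)) h
        (hc₁.prodMk continuousWithinAt_const)
        (fun y hy => ⟨(hmid y hy.2 hy.1 0 le_rfl hs₁0.le).2, hwB s₁ hs₁0.le le_rfl⟩)
    have hc₃ : ContinuousWithinAt (fun y : E6 => d (T (T y (w 0)) (w s₁))) (F ∩ V₂) x := by
      have h := hd y₁ (hfin x hxV₂ hxF 0 le_rfl hs₁0.le s₁ hs₁0 le_rfl)
      exact ContinuousWithinAt.comp (f := fun y : E6 => T (T y (w 0)) (w s₁)) h hc₂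
        (fun y hy => hfin y hy.2 hy.1 0 le_rfl hs₁0.le s₁ hs₁0 le_rfl)
    have hnear : ∀ᶠ y in 𝓝[F ∩ V₂] x, dist (d (T (T y (w 0)) (w s₁))) (d y₁) < 1 :=
      hc₃ (Metric.ball_mem_nhds _ one_pos)
    have hFV : 𝓝[F ∩ V₂] x = 𝓝[F] x := nhdsWithin_inter_of_mem' (mem_nhdsWithin_of_mem_nhds hV₂)
    rw [hFV] at hnear
    have hV₂' : ∀ᶠ y in 𝓝[F] x, y ∈ V₂ := mem_nhdsWithin_of_mem_nhds hV₂
    filter_upwards [hnear, hV₂', self_mem_nhdsWithin] with y hy hyV hyF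
    have he : Complex.exp (d (T (T y (w 0)) (w s₁)) - d y₁) = 1 := by
      rw [Complex.exp_sub, h1 _ (hfin y hyV hyF 0 le_rfl hs₁0.le s₁ hs₁0 le_rfl),
        h1 _ (hfin x hxV₂ hxF 0 le_rfl hs₁0.le s₁ hs₁0 le_rfl), div_one]
    have := exp_one_small he (by rwa [dist_eq_norm] at hy)
    exact sub_eq_zero.1 this
  -- conclusion
  have hU : U6 ∈ 𝓝 x := isOpen_U6.mem_nhds hx
  have hpc : ∀ᶠ y in 𝓝 x, dist (p y) (R : ℂ) < s₁ := by
    have h := hp.continuousAt hU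
    have h' := h (Metric.ball_mem_nhds _ hs₁0)
    rw [hpx] at h'
    exact h'
  have step2' := eventually_nhdsWithin_iff.1 step2
  filter_upwards [step2', hpc, hV₂, hU] with y h2 hpy hyV hyU hy
  obtain ⟨_, s, hs, hps⟩ := hy
  have hps' : p y = w s := hps
  have hss : s < s₁ := by
    rw [hps', hwd s hs.le] at hpy
    exact hpy
  have hyF : y ∈ F := ⟨hyU, by rw [hps']; exact hwB s hs.le hss.le⟩
  rw [step1 y hyV hyF s hs hss.le hps', h2 hyF]

theorem bd_side {R ε s : ℝ} (hR : 0 < R) (hε : |ε| = 1) (hs : 0 < s) (hsR : s ≤ R) :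
    (R : ℂ) + ((ε * s : ℝ) : ℂ) * Complex.I ∈ Bd R := by
  have him : ((R : ℂ) + ((ε * s : ℝ) : ℂ) * Complex.I).im = ε * s := by simp
  have hre : ((R : ℂ) + ((ε * s : ℝ) : ℂ) * Complex.I).re = R := by simp
  have habs : |ε * s| ≤ R := by
    rw [abs_mul, hε, one_mul, abs_of_pos hs]
    exact hsR
  refine ⟨⟨?_, ?_, ?_, ?_⟩, Or.inl ?_, ?_⟩
  · rw [hre]; linarith
  · rw [hre]
  · rw [him]; exact (abs_le.1 habs).1
  · rw [him]; exact (abs_le.1 habs).2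
  · rw [hre, abs_of_pos hR]
  · intro h
    have h' := congrArg Complex.im h
    rw [him, Complex.ofReal_im] at h'
    have : |ε * s| = 0 := by rw [h', abs_zero]
    rw [abs_mul, hε, one_mul, abs_of_pos hs] at this
    linarith

theorem neBot_side {p : E6 → ℂ} {R : ℝ} (hR : 0 < R) {e : ℝ}
    {T : E6 → ℂ → E6} (hT : Ret p R e T) {y : E6} (hy : y ∈ U6) (hpy : p y = R)
    {ε : ℝ} (hε : |ε| = 1) {S : Set E6}
    (hS : ∀ z ∈ U6, ∀ s : ℝ, 0 < s → s ≤ R →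
      p z = (R : ℂ) + ((ε * s : ℝ) : ℂ) * Complex.I → z ∈ S) : (𝓝[S] y).NeBot := by
  rw [← mem_closure_iff_nhdsWithin_neBot]
  have hRB : (R : ℂ) ∈ Metric.closedBall (R : ℂ) e := Metric.mem_closedBall_self hT.e_pos.le
  have hyF : y ∈ Fib U6 p (Metric.closedBall (R : ℂ) e) := ⟨hy, by rw [hpy]; exact hRB⟩
  set w : ℝ → ℂ := fun s => (R : ℂ) + ((ε * s : ℝ) : ℂ) * Complex.I with hw
  have hwc : Continuous w := by
    simp only [hw]
    fun_prop
  have hw0 : w 0 = (R : ℂ) := by simp [hw]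
  have hTy : T y (w 0) = y := by
    have := hT.self y hyF
    rwa [hpy, ← hw0] at this
  have hmaps : ∀ s ∈ Icc (0 : ℝ) e, w s ∈ Metric.closedBall (R : ℂ) e := by
    intro s hs
    rw [Metric.mem_closedBall]
    rw [show dist (w s) (R : ℂ) = s from distB R ε s hε hs.1]
    exact hs.2
  have hc : ContinuousWithinAt (fun s : ℝ => T y (w s)) (Icc 0 e) 0 := by
    have h := hT.cont (y, w 0) ⟨hyF, by rw [hw0]; exact hRB⟩
    exact ContinuousWithinAt.comp (f := fun s : ℝ => (y, w s)) h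
      (Continuous.continuousWithinAt (by fun_prop)) (fun s hs => ⟨hyF, hmaps s hs⟩)
  have hc' : Tendsto (fun s : ℝ => T y (w s)) (𝓝[>] 0) (𝓝 y) := by
    have h0 : Tendsto (fun s : ℝ => T y (w s)) (𝓝[Icc 0 e] 0) (𝓝 (T y (w 0))) := hc
    rw [hTy] at h0
    refine h0.mono_left ?_
    have : 𝓝[>] (0:ℝ) = 𝓝[Ioo 0 e] 0 := (nhdsWithin_Ioo_eq_nhdsGT hT.e_pos).symm
    rw [this]
    exact nhdsWithin_mono _ Ioo_subset_Icc_self
  refine mem_closure_of_tendsto hc' ?_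
  have h1 : ∀ᶠ s in 𝓝[>] (0:ℝ), s ∈ Ioo (0:ℝ) (min e R) :=
    Ioo_mem_nhdsGT (lt_min hT.e_pos hR)
  filter_upwards [h1] with s hs
  have hse : s ≤ e := hs.2.le.trans (min_le_left _ _)
  have hsR : s ≤ R := hs.2.le.trans (min_le_right _ _)
  have := hT.mem y hyF (w s) (hmaps s ⟨hs.1.le, hse⟩)
  exact hS _ this.1 s hs.1 hsR this.2

/-- near a point `x` of the fibre over `R` with `k x ≠ 0`, `f` differs from a continuous
function `g` by constants in `2 π i ℤ` above and below the fibre -/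
theorem good_struct {p : E6 → ℂ} {R : ℝ} {k A f : E6 → ℂ} (hF : Fac p R k A f) {e : ℝ}
    {T : E6 → ℂ → E6} (hT : Ret p R e T) {x : E6} (hx : x ∈ U6) (hpx : p x = R)
    (hk : k x ≠ 0) :
    ∃ O : Set E6, IsOpen O ∧ x ∈ O ∧ ∃ (g : E6 → ℂ) (a b : ℤ),
      ContinuousOn g (O ∩ Fib U6 p (Rec (-R) R (-R) R)) ∧
      (∀ y ∈ O, y ∈ Fib U6 p (Bd R) → (p y).re = R ∧ (p y).im ≠ 0) ∧
      (∀ y ∈ O, y ∈ Fib U6 p (Bd R) → 0 < (p y).im →
        f y = g y + 2 * Real.pi * Complex.I * a) ∧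
      (∀ y ∈ O, y ∈ Fib U6 p (Bd R) → (p y).im < 0 →
        f y = g y + 2 * Real.pi * Complex.I * b) ∧
      ∀ y ∈ O, y ∈ U6 → p y = R →
        (𝓝[{z | z ∈ Fib U6 p (Bd R) ∧ 0 < (p z).im}] y).NeBot ∧
        (𝓝[{z | z ∈ Fib U6 p (Bd R) ∧ (p z).im < 0}] y).NeBot := by
  have hR := hF.R_pos
  have habs1 : |(1:ℝ)| = 1 := abs_one
  have habs2 : |(-1:ℝ)| = 1 := by rw [abs_neg, abs_one]
  set S := Fib U6 p (Rec (-R) R (-R) R) with hS
  have hxS : x ∈ S := by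
    refine ⟨hx, ?_⟩
    rw [hpx]
    refine ⟨?_, ?_, ?_, ?_⟩ <;> simp <;> linarith
  have hBdS : ∀ y, y ∈ Fib U6 p (Bd R) → y ∈ S := fun y hy => ⟨hy.1, hy.2.1⟩
  set G : E6 → ℂ := fun y => k y / A y with hG
  have hGc : ContinuousOn G S :=
    (hF.k_cont.mono fun y hy => hy.1).div hF.A_cont hF.A_ne
  have hGx : G x ≠ 0 := div_ne_zero hk (hF.A_ne x hxS)
  set q : E6 → ℂ := fun y => G y / G x with hq
  have hqc : ContinuousOn q S := hGc.div_const _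
  have hqx : q x = 1 := div_self hGx
  have hev : ∀ᶠ y in 𝓝[S] x, dist (q y) 1 < 1 := by
    have := hqc x hxS (Metric.ball_mem_nhds _ one_pos)
    rw [hqx] at this
    exact this
  obtain ⟨W, hWo, hxW, hW⟩ := mem_nhdsWithin.1 hev
  have hW' : ∀ y ∈ W, y ∈ S → q y ∈ Complex.slitPlane ∧ q y ≠ 0 := by
    intro y hyW hyS
    have h : dist (q y) 1 < 1 := hW ⟨hyW, hyS⟩
    have hb : q y ∈ Metric.ball (1 : ℂ) 1 := h
    have hsl := Complex.ball_one_subset_slitPlane hb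
    exact ⟨hsl, Complex.slitPlane_ne_zero hsl⟩
  set g : E6 → ℂ := fun y => Complex.log (q y) + Complex.log (G x) with hg
  have hgc : ContinuousOn g (W ∩ S) :=
    ((hqc.mono inter_subset_right).clog fun y hy => (hW' y hy.1 hy.2).1).add continuousOn_const
  have hgexp : ∀ y ∈ W, y ∈ S → Complex.exp (g y) = G y := by
    intro y hyW hyS
    simp only [hg]
    rw [Complex.exp_add, Complex.exp_log (hW' y hyW hyS).2, Complex.exp_log hGx]
    simp only [hq]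
    rw [div_mul_cancel₀ _ hGx]
  have hfexp : ∀ y ∈ Fib U6 p (Bd R), Complex.exp (f y) = G y := by
    intro y hy
    simp only [hG]
    rw [hF.eq y hy, mul_div_cancel_left₀ _ (hF.A_ne y (hBdS y hy))]
  have hdexp : ∀ y ∈ W, y ∈ Fib U6 p (Bd R) → Complex.exp (f y - g y) = 1 := by
    intro y hyW hy
    rw [Complex.exp_sub, hfexp y hy, hgexp y hyW (hBdS y hy)]
    refine div_self ?_
    rw [← hfexp y hy]
    exact Complex.exp_ne_zero _
  have hU : U6 ∈ 𝓝 x := isOpen_U6.mem_nhds hx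
  have hpc : ∀ᶠ y in 𝓝 x, dist (p y) (R : ℂ) < R := by
    have h' := (hF.p_cont.continuousAt hU) (Metric.ball_mem_nhds _ hR)
    rw [hpx] at h'
    exact h'
  set O₁ : Set E6 := {y | y ∈ W ∧ dist (p y) (R : ℂ) < R} with hO₁
  have hO₁n : O₁ ∈ 𝓝 x := by
    filter_upwards [hWo.mem_nhds hxW, hpc] with y h1 h2 using ⟨h1, h2⟩
  have hsideBd : ∀ ε : ℝ, |ε| = 1 → ∀ y ∈ O₁ ∩ sideB p R ε, y ∈ Fib U6 p (Bd R) := by
    intro ε hε y hy
    obtain ⟨⟨_, hyd⟩, hyU, s, hs, hps⟩ := hy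
    rw [hps, distB R ε s hε hs.le] at hyd
    exact ⟨hyU, by rw [hps]; exact bd_side hR hε hs hyd.le⟩
  have hside : ∀ ε : ℝ, |ε| = 1 → ∃ l : ℂ, Complex.exp l = 1 ∧
      ∀ᶠ y in 𝓝 x, y ∈ sideB p R ε → f y - g y = l := by
    intro ε hε
    refine good_side (d := fun y => f y - g y) hF.p_cont hT hx hpx hε hO₁n ?_ ?_
    · refine (hF.f_cont.mono (hsideBd ε hε)).sub (hgc.mono ?_)
      intro y hy
      exact ⟨hy.1.1, hBdS y (hsideBd ε hε y hy)⟩
    · intro y hy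
      exact hdexp y hy.1.1 (hsideBd ε hε y hy)
  obtain ⟨l₁, hl₁, hev₁⟩ := hside 1 habs1
  obtain ⟨l₂, hl₂, hev₂⟩ := hside (-1) habs2
  obtain ⟨a, ha⟩ := Complex.exp_eq_one_iff.1 hl₁
  obtain ⟨b, hb⟩ := Complex.exp_eq_one_iff.1 hl₂
  have hO₁n' : ∀ᶠ y in 𝓝 x, y ∈ O₁ := hO₁n
  have hall := Filter.Eventually.and hO₁n' (hev₁.and hev₂)
  obtain ⟨O, hO, hOo, hxO⟩ := eventually_nhds_iff.1 hall
  have hreim : ∀ y ∈ O, y ∈ Fib U6 p (Bd R) → (p y).re = R ∧ (p y).im ≠ 0 := by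
    intro y hyO hy
    have hyd : dist (p y) (R : ℂ) < R := (hO y hyO).1.2
    obtain ⟨hy1, hy2, hy3⟩ := hy.2
    rw [dist_eq_norm] at hyd
    have hre := (Complex.abs_re_le_norm (p y - R)).trans_lt hyd
    have him := (Complex.abs_im_le_norm (p y - R)).trans_lt hyd
    simp only [Complex.sub_re, Complex.ofReal_re, Complex.sub_im, Complex.ofReal_im,
      sub_zero] at hre him
    have hre' : (p y).re = R := by
      rcases hy2 with h | h
      · rcases abs_eq hR.le |>.1 h with h' | h'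
        · exact h'
        · rw [h', abs_lt] at hre
          linarith [hre.1]
      · rw [h] at him
        exact absurd him (lt_irrefl _)
    refine ⟨hre', fun h0 => hy3 ?_⟩
    apply Complex.ext
    · rw [hre', Complex.ofReal_re]
    · rw [h0, Complex.ofReal_im]
  refine ⟨O, hOo, hxO, g, a, b, ?_, hreim, ?_, ?_, ?_⟩
  · exact hgc.mono fun y hy => ⟨(hO y hy.1).1.1, hy.2⟩
  · intro y hyO hy him
    have hs : y ∈ sideB p R 1 := by
      refine ⟨hy.1, (p y).im, him, ?_⟩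
      apply Complex.ext <;> simp [(hreim y hyO hy).1]
    have := (hO y hyO).2.1 hs
    rw [ha, sub_eq_iff_eq_add] at this
    rw [this]
    ring
  · intro y hyO hy him
    have hs : y ∈ sideB p R (-1) := by
      refine ⟨hy.1, -(p y).im, by linarith, ?_⟩
      apply Complex.ext <;> simp [(hreim y hyO hy).1]
    have := (hO y hyO).2.2 hs
    rw [hb, sub_eq_iff_eq_add] at this
    rw [this]
    ring
  · intro y _ hyU hpy
    constructor
    · refine neBot_side hR hT hyU hpy habs1 ?_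
      intro z hz s hs hsR hpz
      refine ⟨⟨hz, by rw [hpz]; exact bd_side hR habs1 hs hsR⟩, ?_⟩
      rw [hpz]
      simpa using hs
    · refine neBot_side hR hT hyU hpy habs2 ?_
      intro z hz s hs hsR hpz
      refine ⟨⟨hz, by rw [hpz]; exact bd_side hR habs2 hs hsR⟩, ?_⟩
      rw [hpz]
      simpa using hs

end Pool.Agent.LF
end

section

/-! # Task LocT: logarithm on the tube of vanishing cycles -/

open Set Filter Topology

namespace Pool.Agent.LF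

variable {E : Type} [MetricSpace E]

/-- logarithm on the union of the Milnor fibres: a nonvanishing function on the fibre over `z`
has a logarithm on the part with `r ≤ 4 d` -/
theorem LocalData.tube_log {U : Set E} {p : E → ℂ} {z₁ : ℂ} (L : LocalData U p z₁)
    {z : ℂ} (hz : z ∈ Metric.closedBall z₁ L.e) {A : E → ℂ}
    (hA : ContinuousOn A (Fib U p {z})) (h0 : ∀ x ∈ Fib U p {z}, A x ≠ 0) :
    ∃ f : E → ℂ, ContinuousOn f {x | x ∈ Fib U p {z} ∧ L.r x ≤ 4 * L.d} ∧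
      ∀ x ∈ Fib U p {z}, L.r x ≤ 4 * L.d → Complex.exp (f x) = A x := by
  have hd := L.d_pos
  have hsub : ({z} : Set ℂ) ⊆ Metric.closedBall z₁ L.e := singleton_subset_iff.2 hz
  by_cases hne : ∃ x ∈ Fib U p {z}, L.r x ≤ 4 * L.d
  swap
  · push Not at hne
    refine ⟨fun _ => 0, continuousOn_const, fun x hx hr => ?_⟩
    exact absurd hr (not_le.2 (hne x hx))
  obtain ⟨x₀, hx₀, hr₀⟩ := hne
  obtain ⟨i₀, -⟩ := L.ball x₀ (fib_mono hsub hx₀) (by linarith)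
  have hmil : ∀ ζ : Fin 3 → ℂ, ζ ∈ Mil (z - z₁) (4 * L.d) →
      N2 ζ ≤ 5 * L.d ∧ z₁ + qf ζ ∈ ({z} : Set ℂ) := by
    intro ζ hζ
    refine ⟨by have := hζ.2; linarith, ?_⟩
    have h1 : qf ζ = z - z₁ := hζ.1
    rw [h1]; simp
  have hlog : ∀ i, ∃ g : (Fin 3 → ℂ) → ℂ, ContinuousOn g (Mil (z - z₁) (4 * L.d)) ∧
      ∀ ζ ∈ Mil (z - z₁) (4 * L.d), Complex.exp (g ζ) = A (L.psi i ζ) := by
    intro i
    have hzn : ‖z - z₁‖ < 4 * L.d := by
      have h1 : ‖z - z₁‖ ≤ L.e := by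
        rw [← dist_eq_norm]; exact Metric.mem_closedBall.1 hz
      have h2 := L.e_lt
      linarith
    have hmaps : MapsTo (L.psi i) (Mil (z - z₁) (4 * L.d)) (Fib U p {z}) := fun ζ hζ =>
      L.mem_fib i (hmil ζ hζ).1 (hmil ζ hζ).2
    exact mil_log hzn (fun ζ => A (L.psi i ζ))
      (hA.comp ((L.psi_cont i).mono fun ζ hζ => (hmil ζ hζ).1) hmaps)
      (fun ζ hζ => h0 _ (hmaps hζ))
  choose g hg1 hg2 using hlog
  refine ⟨fun x => g (L.idx i₀ x) (L.inv (L.idx i₀ x) x), ?_, ?_⟩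
  · apply L.glue_balls i₀ hsub (by linarith : 4 * L.d ≤ 5 * L.d) g
    intro i
    refine (hg1 i).mono fun ζ hζ => ?_
    have h1 : z₁ + qf ζ = z := hζ.1
    exact ⟨by rw [← h1]; ring, hζ.2⟩
  · intro x hx hr
    have hex : ∃ i, L.InB i x := L.ball x (fib_mono hsub hx) (by linarith)
    have hi := L.inB_idx i₀ hex
    have h1 : L.inv (L.idx i₀ x) x ∈ Mil (z - z₁) (4 * L.d) := by
      have h2 : z₁ + qf (L.inv (L.idx i₀ x) x) = z := L.inB_fib _ hi hx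
      refine ⟨by rw [← h2]; ring, ?_⟩
      have h3 := (L.psi_mem (L.idx i₀ x) (L.inv (L.idx i₀ x) x) (L.inv_le _ hi)).2.2
      rw [L.psi_inv _ hi] at h3
      rw [← h3]; exact hr
    have h4 := hg2 (L.idx i₀ x) _ h1
    rw [L.psi_inv _ hi] at h4
    exact h4

end Pool.Agent.LF
end

section

/-! # Task LocE: the extension property from local data -/

open Set Filter Topology

namespace Pool.Agent.LF

variable {E : Type} [MetricSpace E]

/-- `Fib S` meets the closure of the fibre over `z` in the fibre -/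
theorem fib_inter_closure {U : Set E} {p : E → ℂ} (hp : ContinuousOn p U) {S : Set ℂ} {z : ℂ}
    (hz : z ∈ S) : Fib U p S ∩ closure (Fib U p {z}) = Fib U p {z} := by
  ext x
  constructor
  · rintro ⟨hx, hcl⟩
    refine ⟨hx.1, ?_⟩
    have h1 : ContinuousWithinAt p (Fib U p {z}) x := (hp x hx.1).mono fun y hy => hy.1
    have h2 : p x ∈ closure (p '' Fib U p {z}) := h1.mem_closure_image hcl
    have h3 : p '' Fib U p {z} ⊆ {z} := by
      rintro _ ⟨y, hy, rfl⟩; exact hy.2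
    exact (closure_minimal h3 isClosed_singleton) h2
  · intro hx
    exact ⟨fib_mono (singleton_subset_iff.2 hz) hx, subset_closure hx⟩

theorem LocalData.ext {U : Set E} {p : E → ℂ} {z₁ : ℂ} (L : LocalData U p z₁)
    (hp : ContinuousOn p U) {S : Set ℂ} (hS : Convex ℝ S) (hz₁ : z₁ ∈ S)
    (hSe : S ⊆ Metric.closedBall z₁ L.e) :
    ∀ z ∈ S, ∀ A : E → ℂ, ContinuousOn A (Fib U p {z}) → (∀ x ∈ Fib U p {z}, A x ≠ 0) →
    ∃ A' : E → ℂ, ContinuousOn A' (Fib U p S) ∧ (∀ x ∈ Fib U p S, A' x ≠ 0) ∧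
      ∀ x ∈ Fib U p {z}, A' x = A x := by
  intro z hz A hA h0
  have hd := L.d_pos
  have hzb : z ∈ Metric.closedBall z₁ L.e := hSe hz
  have hzS : ({z} : Set ℂ) ⊆ S := singleton_subset_iff.2 hz
  have hzB : ({z} : Set ℂ) ⊆ Metric.closedBall z₁ L.e := singleton_subset_iff.2 hzb
  have hrz : ContinuousOn L.r (Fib U p {z}) := L.r_cont.mono (fib_mono hzB)
  have hrS : ContinuousOn L.r (Fib U p S) := L.r_cont.mono (fib_mono hSe)
  obtain ⟨f, hf, hfe⟩ := L.tube_log hzb hA h0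
  -- the cut-off logarithm `f'`
  obtain ⟨f', hf', hf'1, hf'2⟩ : ∃ f' : E → ℂ, ContinuousOn f' (Fib U p {z}) ∧
      (∀ x ∈ Fib U p {z}, L.r x ≤ 4 * L.d →
        f' x = ((max 0 (min 1 ((4 * L.d - L.r x) / L.d)) : ℝ) : ℂ) * f x) ∧
      (∀ x ∈ Fib U p {z}, 4 * L.d ≤ L.r x → f' x = 0) := by
    refine glue_le hrz le_rfl (g := fun _ => 0) ?_ continuousOn_const ?_
    · refine ContinuousOn.mul ?_ hf
      refine Complex.continuous_ofReal.comp_continuousOn ?_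
      have hcut : Continuous fun t : ℝ => max 0 (min 1 ((4 * L.d - t) / L.d)) := by fun_prop
      exact hcut.comp_continuousOn (hrz.mono fun x hx => hx.1)
    · intro x hx h1 h2
      have h3 : L.r x = 4 * L.d := le_antisymm h2 h1
      simp [h3]
  have hf'3 : ∀ x ∈ Fib U p {z}, L.r x ≤ 3 * L.d → Complex.exp (f' x) = A x := by
    intro x hx hr
    rw [hf'1 x hx (by linarith), ← hfe x hx (by linarith)]
    have h1 : 1 ≤ (4 * L.d - L.r x) / L.d := by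
      rw [le_div_iff₀ hd]; linarith
    rw [min_eq_left h1]
    simp
  -- `A₁ = A exp (- f')` on the fibre
  set A₁ : E → ℂ := fun x => A x * Complex.exp (-f' x) with hA₁
  have hA₁c : ContinuousOn A₁ (Fib U p {z}) :=
    hA.mul (Complex.continuous_exp.comp_continuousOn hf'.neg)
  have hA₁0 : ∀ x ∈ Fib U p {z}, A₁ x ≠ 0 := fun x hx =>
    mul_ne_zero (h0 x hx) (Complex.exp_ne_zero _)
  have hA₁1 : ∀ x ∈ Fib U p {z}, L.r x ≤ 3 * L.d → A₁ x = 1 := by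
    intro x hx hr
    simp only [hA₁]
    rw [← hf'3 x hx hr, ← Complex.exp_add]; simp
  -- `A₂` on `Fib S`
  have hTmem : ∀ x ∈ Fib U p S, L.d ≤ L.r x → L.T x z ∈ Fib U p {z} := by
    intro x hx hr
    have := L.T_mem x (fib_mono hSe hx) hr z hzb
    exact ⟨this.1, this.2⟩
  obtain ⟨A₂, hA₂, hA₂1, hA₂2⟩ : ∃ A₂ : E → ℂ, ContinuousOn A₂ (Fib U p S) ∧
      (∀ x ∈ Fib U p S, L.r x ≤ 2 * L.d → A₂ x = 1) ∧
      (∀ x ∈ Fib U p S, L.d ≤ L.r x → A₂ x = A₁ (L.T x z)) := by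
    refine glue_le hrS (a := L.d) (b := 2 * L.d) (by linarith) (f := fun _ => 1)
      (g := fun x => A₁ (L.T x z)) continuousOn_const ?_ ?_
    · refine hA₁c.comp ?_ fun x hx => hTmem x hx.1 hx.2
      have h1 : ContinuousOn (fun x : E => (x, z)) {x | x ∈ Fib U p S ∧ L.d ≤ L.r x} := by
        fun_prop
      exact L.T_cont.comp h1 fun x hx => ⟨⟨fib_mono hSe hx.1, hx.2⟩, hzb⟩
    · intro x hx h1 h2
      exact (hA₁1 _ (hTmem x hx h1) (L.T_near₁ x (fib_mono hSe hx) h1 h2 z hzb)).symm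
  have hA₂0 : ∀ x ∈ Fib U p S, A₂ x ≠ 0 := by
    intro x hx
    rcases le_total (L.r x) (2 * L.d) with h | h
    · rw [hA₂1 x hx h]; exact one_ne_zero
    · rw [hA₂2 x hx (by linarith)]; exact hA₁0 _ (hTmem x hx (by linarith))
  have hA₂z : ∀ x ∈ Fib U p {z}, A₂ x = A₁ x := by
    intro x hx
    have hxS : x ∈ Fib U p S := fib_mono hzS hx
    rcases le_total (L.r x) (2 * L.d) with h | h
    · rw [hA₂1 x hxS h, hA₁1 x hx (by linarith)]
    · rw [hA₂2 x hxS (by linarith)]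
      have h1 := L.T_self x (fib_mono hSe hxS) (by linarith)
      have h2 : p x = z := hx.2
      rw [h2] at h1
      rw [h1]
  -- extend `f'`
  obtain ⟨g, hg, hge⟩ := tietzeOn (M := Fib U p S) (T' := closure (Fib U p {z}))
    isClosed_closure f' (by rw [fib_inter_closure hp hz]; exact hf')
  rw [fib_inter_closure hp hz] at hge
  refine ⟨fun x => A₂ x * Complex.exp (g x), hA₂.mul (Complex.continuous_exp.comp_continuousOn hg),
    fun x hx => mul_ne_zero (hA₂0 x hx) (Complex.exp_ne_zero _), fun x hx => ?_⟩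
  simp only
  rw [hA₂z x hx, hge x hx]
  simp only [hA₁]
  rw [mul_assoc, ← Complex.exp_add]; simp

end Pool.Agent.LF
end
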