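import Pool.Agent.LF.Mg_MP_639418_gt.G003
import Pool.Agent.LF.LocI
import Pool.Agent.LF.Mg_MP_639418_gt.G002

section

/-! # Task GooC: the good points form a relatively clopen set -/

open Set Filter Topology
open scoped ContDiff

namespace Pool.Agent.LF

theorem good_loc {p : E6 → ℂ} {R : ℝ} {k A f : E6 → ℂ} (hF : Fac p R k A f) {e : ℝ}
    {T : E6 → ℂ → E6} (hT : Ret p R e T) {x : E6} (hx : x ∈ U6) (hpx : p x = R)
    (hk : k x ≠ 0) :
    ∃ O ∈ 𝓝 x, ∀ x' ∈ O, x' ∈ U6 → p x' = R → (Good p R f x' ↔ Good p R f x) := by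
  obtain ⟨O, hO, hxO, g, a, b, hg, hbd, hup, hdn, hne⟩ := good_struct hF hT hx hpx hk
  have key : ∀ y ∈ O, y ∈ U6 → p y = R → (Good p R f y ↔ a = b) := by
    intro y hyO hyU hpy
    have hR := hF.R_pos
    have hyR : y ∈ O ∩ Fib U6 p (Rec (-R) R (-R) R) := by
      refine ⟨hyO, hyU, ?_⟩
      rw [hpy]
      refine ⟨?_, ?_, ?_, ?_⟩ <;> simp <;> linarith
    have hle : 𝓝[Fib U6 p (Bd R)] y ≤ 𝓝[O ∩ Fib U6 p (Rec (-R) R (-R) R)] y := by
      rw [← nhdsWithin_inter_of_mem' (mem_nhdsWithin_of_mem_nhds (hO.mem_nhds hyO))]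
      refine nhdsWithin_mono _ ?_
      rintro z ⟨hz1, hz2⟩
      exact ⟨hz2, hz1.1, hz1.2.1⟩
    have hgy : Tendsto g (𝓝[Fib U6 p (Bd R)] y) (𝓝 (g y)) := (hg y hyR).mono_left hle
    have hOev : ∀ᶠ z in 𝓝[Fib U6 p (Bd R)] y, z ∈ O :=
      mem_nhdsWithin_of_mem_nhds (hO.mem_nhds hyO)
    have hFev : ∀ᶠ z in 𝓝[Fib U6 p (Bd R)] y, z ∈ Fib U6 p (Bd R) := self_mem_nhdsWithin
    have hup' : 𝓝[{z | z ∈ Fib U6 p (Bd R) ∧ 0 < (p z).im}] y ≤ 𝓝[Fib U6 p (Bd R)] y :=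
      nhdsWithin_mono _ fun z hz => hz.1
    have hdn' : 𝓝[{z | z ∈ Fib U6 p (Bd R) ∧ (p z).im < 0}] y ≤ 𝓝[Fib U6 p (Bd R)] y :=
      nhdsWithin_mono _ fun z hz => hz.1
    constructor
    · rintro ⟨l, hl⟩
      obtain ⟨n1, n2⟩ := hne y hyO hyU hpy
      have e1 : l = g y + 2 * Real.pi * Complex.I * a := by
        refine tendsto_nhds_unique (hl.mono_left hup') ?_
        refine ((hgy.mono_left hup').add_const _).congr' ?_
        filter_upwards [hup' hOev, self_mem_nhdsWithin] with z hz1 hz2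
        exact (hup z hz1 hz2.1 hz2.2).symm
      have e2 : l = g y + 2 * Real.pi * Complex.I * b := by
        refine tendsto_nhds_unique (hl.mono_left hdn') ?_
        refine ((hgy.mono_left hdn').add_const _).congr' ?_
        filter_upwards [hdn' hOev, self_mem_nhdsWithin] with z hz1 hz2
        exact (hdn z hz1 hz2.1 hz2.2).symm
      have e3 : 2 * (Real.pi : ℂ) * Complex.I * a = 2 * Real.pi * Complex.I * b := by
        have := e1.symm.trans e2
        exact add_left_cancel this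
      have e4 : (a : ℂ) = b := mul_left_cancel₀ Complex.two_pi_I_ne_zero e3
      exact_mod_cast e4
    · intro hab
      refine ⟨g y + 2 * Real.pi * Complex.I * a, ?_⟩
      refine (hgy.add_const _).congr' ?_
      filter_upwards [hOev, hFev] with z hz1 hz2
      rcases lt_or_gt_of_ne (hbd z hz1 hz2).2 with h | h
      · rw [hdn z hz1 hz2 h, hab]
      · exact (hup z hz1 hz2 h).symm
  refine ⟨O, hO.mem_nhds hxO, fun x' hx' hU hp => ?_⟩
  rw [key x' hx' hU hp, key x hxO hx hpx]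

end Pool.Agent.LF
end

section

/-! # Task GooD: points near the ends are good -/

open Set Filter Topology
open scoped ContDiff

namespace Pool.Agent.LF

private theorem gooD_bd_conn {R : ℝ} (hR : 0 < R) : IsPreconnected (Bd R) := by
  have conv : ∀ S : Set ℂ, Convex ℝ S → IsPreconnected S := fun S h => h.isPreconnected
  -- the five pieces
  set S1 : Set ℂ := {z | z.re = R ∧ 0 < z.im ∧ z.im ≤ R} with hS1
  set S2 : Set ℂ := {z | z.im = R ∧ -R ≤ z.re ∧ z.re ≤ R} with hS2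
  set S3 : Set ℂ := {z | z.re = -R ∧ -R ≤ z.im ∧ z.im ≤ R} with hS3
  set S4 : Set ℂ := {z | z.im = -R ∧ -R ≤ z.re ∧ z.re ≤ R} with hS4
  set S5 : Set ℂ := {z | z.re = R ∧ z.im < 0 ∧ -R ≤ z.im} with hS5
  have comb : ∀ {z w : ℂ} {a b : ℝ}, (a • z + b • w).re = a * z.re + b * w.re ∧
      (a • z + b • w).im = a * z.im + b * w.im := by
    intro z w a b
    simp
  have c1 : Convex ℝ S1 := by
    rintro z ⟨h1, h2, h3⟩ w ⟨h4, h5, h6⟩ a b ha hb hab
    refine ⟨?_, ?_, ?_⟩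
    · rw [comb.1, h1, h4, ← add_mul, hab, one_mul]
    · rw [comb.2]
      rcases ha.eq_or_lt with h | h
      · have : b = 1 := by linarith
        rw [← h, this]; linarith
      · have := mul_pos h h2
        have := mul_nonneg hb h5.le
        linarith
    · rw [comb.2]
      have := mul_le_mul_of_nonneg_left h3 ha
      have := mul_le_mul_of_nonneg_left h6 hb
      have h7 : a * R + b * R = R := by rw [← add_mul, hab, one_mul]
      linarith
  have c5 : Convex ℝ S5 := by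
    rintro z ⟨h1, h2, h3⟩ w ⟨h4, h5, h6⟩ a b ha hb hab
    refine ⟨?_, ?_, ?_⟩
    · rw [comb.1, h1, h4, ← add_mul, hab, one_mul]
    · rw [comb.2]
      rcases ha.eq_or_lt with h | h
      · have : b = 1 := by linarith
        rw [← h, this]; linarith
      · have := mul_neg_of_pos_of_neg h h2
        have := mul_nonpos_of_nonneg_of_nonpos hb h5.le
        linarith
    · rw [comb.2]
      have := mul_le_mul_of_nonneg_left h3 ha
      have := mul_le_mul_of_nonneg_left h6 hb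
      have h7 : a * (-R) + b * (-R) = -R := by rw [← add_mul, hab, one_mul]
      linarith
  have cseg : ∀ t : ℝ, Convex ℝ {z : ℂ | z.im = t ∧ -R ≤ z.re ∧ z.re ≤ R} := by
    rintro t z ⟨h1, h2, h3⟩ w ⟨h4, h5, h6⟩ a b ha hb hab
    have h7 : a * R + b * R = R := by rw [← add_mul, hab, one_mul]
    have := mul_le_mul_of_nonneg_left h3 ha
    have := mul_le_mul_of_nonneg_left h6 hb
    have := mul_le_mul_of_nonneg_left h2 ha
    have := mul_le_mul_of_nonneg_left h5 hb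
    refine ⟨?_, ?_, ?_⟩
    · rw [comb.2, h1, h4, ← add_mul, hab, one_mul]
    · rw [comb.1]; linarith
    · rw [comb.1]; linarith
  have c3 : Convex ℝ S3 := by
    rintro z ⟨h1, h2, h3⟩ w ⟨h4, h5, h6⟩ a b ha hb hab
    have h7 : a * R + b * R = R := by rw [← add_mul, hab, one_mul]
    have := mul_le_mul_of_nonneg_left h3 ha
    have := mul_le_mul_of_nonneg_left h6 hb
    have := mul_le_mul_of_nonneg_left h2 ha
    have := mul_le_mul_of_nonneg_left h5 hb
    refine ⟨?_, ?_, ?_⟩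
    · rw [comb.1, h1, h4, ← add_mul, hab, one_mul]
    · rw [comb.2]; linarith
    · rw [comb.2]; linarith
  have hU : Bd R = (((S1 ∪ S2) ∪ S3) ∪ S4) ∪ S5 := by
    ext z
    simp only [Bd, Rec, hS1, hS2, hS3, hS4, hS5, mem_ofPred_eq, mem_union]
    constructor
    · rintro ⟨⟨h1, h2, h3, h4⟩, h5, h6⟩
      rcases h5 with h5 | h5
      · rcases abs_eq hR.le |>.1 h5 with h7 | h7
        · rcases lt_trichotomy z.im 0 with h8 | h8 | h8
          · exact Or.inr ⟨h7, h8, h3⟩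
          · exact absurd (Complex.ext (by simpa using h7) (by simpa using h8)) h6
          · exact Or.inl (Or.inl (Or.inl (Or.inl ⟨h7, h8, h4⟩)))
        · exact Or.inl (Or.inl (Or.inr ⟨h7, h3, h4⟩))
      · rcases abs_eq hR.le |>.1 h5 with h7 | h7
        · exact Or.inl (Or.inl (Or.inl (Or.inr ⟨h7, h1, h2⟩)))
        · exact Or.inl (Or.inr ⟨h7, h1, h2⟩)
    · have hne : z.im ≠ 0 ∨ z.re ≠ R → z ≠ (R : ℂ) := by
        rintro h rfl
        simp at h
      rintro ((((⟨h1, h2, h3⟩ | ⟨h1, h2, h3⟩) | ⟨h1, h2, h3⟩) | ⟨h1, h2, h3⟩) | ⟨h1, h2, h3⟩)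
      · exact ⟨⟨by linarith, by linarith, by linarith, by linarith⟩,
          Or.inl (by rw [h1, abs_of_pos hR]), hne (Or.inl h2.ne')⟩
      · exact ⟨⟨by linarith, by linarith, by linarith, by linarith⟩,
          Or.inr (by rw [h1, abs_of_pos hR]), hne (Or.inl (by rw [h1]; exact hR.ne'))⟩
      · exact ⟨⟨by linarith, by linarith, by linarith, by linarith⟩,
          Or.inl (by rw [h1, abs_neg, abs_of_pos hR]), hne (Or.inr (by rw [h1]; linarith))⟩
      · exact ⟨⟨by linarith, by linarith, by linarith, by linarith⟩,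
          Or.inr (by rw [h1, abs_neg, abs_of_pos hR]), hne (Or.inl (by rw [h1]; linarith))⟩
      · exact ⟨⟨by linarith, by linarith, by linarith, by linarith⟩,
          Or.inl (by rw [h1, abs_of_pos hR]), hne (Or.inl h2.ne)⟩
  rw [hU]
  have k1 : IsPreconnected (S1 ∪ S2) := IsPreconnected.union (⟨R, R⟩ : ℂ)
    ⟨rfl, hR, le_rfl⟩ ⟨rfl, by simp; linarith, le_rfl⟩ (conv _ c1) (conv _ (cseg R))
  have k2 : IsPreconnected ((S1 ∪ S2) ∪ S3) := IsPreconnected.union (⟨-R, R⟩ : ℂ)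
    (Or.inr ⟨rfl, le_rfl, by simp; linarith⟩) ⟨rfl, by simp; linarith, le_rfl⟩ k1 (conv _ c3)
  have k3 : IsPreconnected (((S1 ∪ S2) ∪ S3) ∪ S4) := IsPreconnected.union (⟨-R, -R⟩ : ℂ)
    (Or.inr ⟨rfl, le_rfl, by simp; linarith⟩) ⟨rfl, le_rfl, by simp; linarith⟩ k2
    (conv _ (cseg (-R)))
  exact IsPreconnected.union (⟨R, -R⟩ : ℂ)
    (Or.inr ⟨rfl, by simp; linarith, le_rfl⟩) ⟨rfl, by simp; linarith, le_rfl⟩ k3 (conv _ c5)

/-- a point through which there is a section `c` over the whole square with `k ≠ 0` is good -/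
theorem good_end {p : E6 → ℂ} {R : ℝ} {k A f : E6 → ℂ} (hF : Fac p R k A f) {e : ℝ}
    {T : E6 → ℂ → E6} (hT : Ret p R e T) {x : E6} (hx : x ∈ U6) (hpx : p x = R)
    (c : ℂ → E6) (hc : ContinuousOn c (Rec (-R) R (-R) R)) (hc0 : c R = x)
    (hcm : ∀ w ∈ Rec (-R) R (-R) R, c w ∈ U6 ∧ p (c w) = w ∧ k (c w) ≠ 0) : Good p R f x := by
  have hR := hF.R_pos
  set Q := Rec (-R) R (-R) R with hQ
  have hRQ : (R : ℂ) ∈ Q := ⟨by simp; linarith, by simp, by simp; linarith, by simp; linarith⟩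
  have h0Q : (0 : ℂ) ∈ Q := ⟨by simp; linarith, by simp; linarith, by simp; linarith,
    by simp; linarith⟩
  have hBQ : Bd R ⊆ Q := fun z hz => hz.1
  have hcQ : ∀ w ∈ Q, c w ∈ Fib U6 p Q := fun w hw => ⟨(hcm w hw).1, by
    rw [(hcm w hw).2.1]; exact hw⟩
  have hcB : ∀ w ∈ Bd R, c w ∈ Fib U6 p (Bd R) := fun w hw => ⟨(hcm w (hBQ hw)).1, by
    rw [(hcm w (hBQ hw)).2.1]; exact hw⟩
  -- the logarithm on the square
  have hlog : HasLog Q := by
    refine HasLog.of_contract (fun z s => s • z) 0 ?_ ?_ ?_ ?_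
    · fun_prop
    · intro z hz s hs
      have := (convex_rec (-R) R (-R) R) h0Q hz (by linarith [hs.2] : (0 : ℝ) ≤ 1 - s) hs.1
        (by ring)
      simpa using this
    · intro z _; simp
    · intro z _; simp
  obtain ⟨l, hl1, hl2⟩ := hlog (fun w => k (c w) / A (c w))
    (((hF.k_cont.comp hc (fun w hw => (hcm w hw).1))).div
      (hF.A_cont.comp hc hcQ) (fun w hw => hF.A_ne _ (hcQ w hw)))
    (fun w hw => div_ne_zero (hcm w hw).2.2 (hF.A_ne _ (hcQ w hw)))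
  obtain ⟨O, hO, hxO, g, a, b, hg, hO1, hup, hlo, -⟩ := good_struct hF hT hx hpx
    (by rw [← hc0]; exact (hcm _ hRQ).2.2)
  -- the difference is constant on the boundary
  have hexp : ∀ w ∈ Bd R, Complex.exp (f (c w) - l w) = 1 := by
    intro w hw
    have h1 := hF.eq _ (hcB w hw)
    have h2 := hl2 w (hBQ hw)
    have h3 := hF.A_ne _ (hcQ w (hBQ hw))
    rw [Complex.exp_sub, h2, h1]
    have h4 := Complex.exp_ne_zero (f (c w))
    field_simp
  have hdcont : ContinuousOn (fun w => f (c w) - l w) (Bd R) :=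
    (hF.f_cont.comp (hc.mono hBQ) hcB).sub (hl1.mono hBQ)
  set w0 : ℂ := ⟨R, R⟩ with hw0
  have hw0B : w0 ∈ Bd R := by
    refine ⟨⟨by simp [hw0]; linarith, le_rfl, by simp [hw0]; linarith, le_rfl⟩,
      Or.inl (by simp [hw0, abs_of_pos hR]), ?_⟩
    intro h
    have := congrArg Complex.im h
    simp [hw0] at this
    linarith
  set D : ℂ := f (c w0) - l w0 with hD
  have hconst : ∀ w ∈ Bd R, f (c w) = l w + D := by
    intro w hw
    have h1 := log_unique (gooD_bd_conn hR) (d := fun w => f (c w) - l w - D)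
      (hdcont.sub continuousOn_const) (fun w hw => by
        rw [Complex.exp_sub, hexp w hw, hD, hexp w0 hw0B, div_one]) hw0B (by simp [hD]) w hw
    linear_combination h1
  -- the limit at R
  have hxF : x ∈ O ∩ Fib U6 p Q := ⟨hxO, hx, by rw [hpx]; exact hRQ⟩
  have hcR : Tendsto c (𝓝[Q] (R : ℂ)) (𝓝[O ∩ Fib U6 p Q] x) := by
    rw [tendsto_nhdsWithin_iff]
    have h1 : Tendsto c (𝓝[Q] (R : ℂ)) (𝓝 x) := by
      have := hc (R : ℂ) hRQ
      rw [← hc0]; exact this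
    refine ⟨h1, ?_⟩
    filter_upwards [h1 (hO.mem_nhds hxO), self_mem_nhdsWithin] with w hw1 hw2
    exact ⟨hw1, hcQ w hw2⟩
  have hu : Tendsto (fun w => g (c w) - l w) (𝓝[Q] (R : ℂ)) (𝓝 (g x - l R)) :=
    ((hg x hxF).tendsto.comp hcR).sub (hl1 _ hRQ)
  have hvert : ∀ σ : ℝ, (σ = 1 ∨ σ = -1) →
      Tendsto (fun s : ℝ => (⟨R, σ * s⟩ : ℂ)) (𝓝[>] 0) (𝓝[Q] (R : ℂ)) ∧
      ∀ᶠ s : ℝ in 𝓝[>] 0, (⟨R, σ * s⟩ : ℂ) ∈ Bd R := by
    intro σ hσ
    have h2 : ∀ᶠ s : ℝ in 𝓝[>] 0, (⟨R, σ * s⟩ : ℂ) ∈ Bd R := by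
      have h3 : Ioc (0 : ℝ) R ∈ 𝓝[>] (0 : ℝ) := Ioc_mem_nhdsGT hR
      filter_upwards [h3] with s hs
      have hne : (⟨R, σ * s⟩ : ℂ) ≠ (R : ℂ) := by
        intro h
        have := congrArg Complex.im h
        simp only [Complex.ofReal_im] at this
        rcases hσ with rfl | rfl <;> linarith [hs.1]
      refine ⟨⟨?_, le_rfl, ?_, ?_⟩, Or.inl (abs_of_pos hR), hne⟩
      · simp only; linarith
      · simp only; rcases hσ with rfl | rfl <;> linarith [hs.1, hs.2]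
      · simp only; rcases hσ with rfl | rfl <;> linarith [hs.1, hs.2]
    refine ⟨?_, h2⟩
    rw [tendsto_nhdsWithin_iff]
    refine ⟨?_, h2.mono fun s hs => hBQ hs⟩
    have h4 : Continuous (fun s : ℝ => (R : ℂ) + (σ * s : ℝ) * Complex.I) := by fun_prop
    have h5 := h4.tendsto 0
    simp only [mul_zero, Complex.ofReal_zero, zero_mul, add_zero] at h5
    have h6 : (fun s : ℝ => (⟨R, σ * s⟩ : ℂ))
        = fun s : ℝ => (R : ℂ) + (σ * s : ℝ) * Complex.I := by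
      funext s
      apply Complex.ext <;> simp
    rw [h6]
    exact h5.mono_left nhdsWithin_le_nhds
  have key : ∀ (σ : ℝ) (n : ℤ), (σ = 1 ∨ σ = -1) →
      (∀ s : ℝ, 0 < s → (⟨R, σ * s⟩ : ℂ) ∈ Bd R → c ⟨R, σ * s⟩ ∈ O →
        f (c ⟨R, σ * s⟩) = g (c ⟨R, σ * s⟩) + 2 * Real.pi * Complex.I * n) →
      g x - l R = D - 2 * Real.pi * Complex.I * n := by
    intro σ n hσ hfg
    obtain ⟨h1, h2⟩ := hvert σ hσ
    have h3 := hu.comp h1
    have h4 : ∀ᶠ s : ℝ in 𝓝[>] 0, c ⟨R, σ * s⟩ ∈ O :=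
      ((hcR.comp h1).mono_right nhdsWithin_le_nhds) (hO.mem_nhds hxO)
    refine tendsto_nhds_unique h3 ?_
    refine Tendsto.congr' ?_ tendsto_const_nhds
    filter_upwards [h2, h4, self_mem_nhdsWithin] with s hs1 hs2 hs3
    have h5 := hfg s hs3 hs1 hs2
    have h6 := hconst _ hs1
    simp only [Function.comp]
    rw [h6] at h5
    linear_combination h5
  have hpc : ∀ (σ s : ℝ), (⟨R, σ * s⟩ : ℂ) ∈ Bd R → (p (c ⟨R, σ * s⟩)).im = σ * s := by
    intro σ s h
    rw [(hcm _ (hBQ h)).2.1]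
  have ha := key 1 a (Or.inl rfl) (fun s hs h1 h2 => hup _ h2 (hcB _ h1) (by
    rw [hpc _ _ h1]; linarith))
  have hb := key (-1) b (Or.inr rfl) (fun s hs h1 h2 => hlo _ h2 (hcB _ h1) (by
    rw [hpc _ _ h1]; linarith))
  have hab : (2 * Real.pi * Complex.I * a : ℂ) = 2 * Real.pi * Complex.I * b := by
    linear_combination ha - hb
  refine ⟨g x + 2 * Real.pi * Complex.I * a, ?_⟩
  have h7 : ∀ᶠ y in 𝓝[Fib U6 p (Bd R)] x, f y = g y + 2 * Real.pi * Complex.I * a := by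
    filter_upwards [mem_nhdsWithin_of_mem_nhds (hO.mem_nhds hxO), self_mem_nhdsWithin]
      with y hy1 hy2
    rcases lt_or_gt_of_ne (hO1 y hy1 hy2).2 with h8 | h8
    · rw [hlo y hy1 hy2 h8, hab]
    · exact hup y hy1 hy2 h8
  have h8 : Tendsto g (𝓝[Fib U6 p (Bd R)] x) (𝓝 (g x)) := by
    refine (hg x hxF).tendsto.mono_left ?_
    refine nhdsWithin_le_of_mem (Filter.inter_mem
      (mem_nhdsWithin_of_mem_nhds (hO.mem_nhds hxO)) ?_)
    exact Filter.mem_of_superset self_mem_nhdsWithin (fun y hy => ⟨hy.1, hBQ hy.2⟩)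
  refine Tendsto.congr' (h7.mono fun y hy => hy.symm) ?_
  exact h8.add tendsto_const_nhds

end Pool.Agent.LF
end

section

/-! # Task GooE: not all points near a zero of `k` are good -/

open Set Filter Topology
open scoped ContDiff

namespace Pool.Agent.LF

/-- `s` is a local section of `(k, re p)` through the zero `y` of `k` -/
theorem jump {p : E6 → ℂ} {R : ℝ} {k A f : E6 → ℂ} (hF : Fac p R k A f) {e : ℝ}
    {T : E6 → ℂ → E6} (hT : Ret p R e T) {y : E6} (hy : y ∈ U6) (hpy : p y = R)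
    (s : ℂ → E6) {t : ℝ} (ht : 0 < t) (hs : ContinuousOn s (Metric.ball 0 t)) (hs0 : s 0 = y)
    (hsm : ∀ c ∈ Metric.ball (0 : ℂ) t, s c ∈ U6 ∧ k (s c) = c ∧ (p (s c)).re = R) :
    ¬ ∃ O ∈ 𝓝 y, ∀ x ∈ O, x ∈ U6 → p x = R → k x ≠ 0 → Good p R f x := by
  rintro ⟨O, hO, hgood⟩
  have hR : 0 < R := hF.R_pos
  have h0t : (0 : ℂ) ∈ Metric.ball (0 : ℂ) t := Metric.mem_ball_self ht
  -- continuity at 0 (full neighbourhood)
  have hs_at : ContinuousAt s 0 := (hs 0 h0t).continuousAt (Metric.ball_mem_nhds _ ht)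
  have hsU : ∀ᶠ c in 𝓝 (0 : ℂ), c ∈ Metric.ball (0 : ℂ) t := Metric.ball_mem_nhds _ ht
  have hsO : ∀ᶠ c in 𝓝 (0 : ℂ), s c ∈ O := by
    have : Tendsto s (𝓝 0) (𝓝 y) := by simpa [ContinuousAt, hs0] using hs_at
    exact this hO
  have hps : ContinuousOn (fun c => p (s c)) (Metric.ball 0 t) :=
    hF.p_cont.comp hs (fun c hc => (hsm c hc).1)
  have hps_at : ContinuousAt (fun c => p (s c)) 0 :=
    (hps 0 h0t).continuousAt (Metric.ball_mem_nhds _ ht)
  have him : ∀ᶠ c in 𝓝 (0 : ℂ), |(p (s c)).im| < R := by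
    have h1 : ContinuousAt (fun c => |(p (s c)).im|) 0 :=
      (continuous_abs.comp Complex.continuous_im).continuousAt.comp hps_at
    have h2 : |(p (s 0)).im| < R := by rw [hs0, hpy]; simpa using hR
    exact h1.eventually (Iio_mem_nhds h2) |>.mono fun c hc => hc
  have hRec : ∀ c ∈ Metric.ball (0 : ℂ) t, |(p (s c)).im| < R →
      s c ∈ Fib U6 p (Rec (-R) R (-R) R) := by
    intro c hc h
    obtain ⟨h1, h2⟩ := abs_lt.mp h
    refine ⟨(hsm c hc).1, ?_⟩
    have := (hsm c hc).2.2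
    refine ⟨?_, ?_, h1.le, h2.le⟩ <;> linarith
  have hyRec : y ∈ Fib U6 p (Rec (-R) R (-R) R) := by
    refine ⟨hy, ?_⟩
    rw [hpy]
    refine ⟨?_, ?_, ?_, ?_⟩ <;> simp <;> linarith
  have hAy : A y ≠ 0 := hF.A_ne y hyRec
  have hslit : ∀ᶠ c in 𝓝 (0 : ℂ), A (s c) / A y ∈ Complex.slitPlane := by
    have h1 : Tendsto (fun c => s c) (𝓝 0) (𝓝[Fib U6 p (Rec (-R) R (-R) R)] y) := by
      refine tendsto_nhdsWithin_iff.mpr ⟨?_, ?_⟩
      · simpa [ContinuousAt, hs0] using hs_at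
      · filter_upwards [hsU, him] with c hc hc' using hRec c hc hc'
    have h2 : Tendsto (fun c => A (s c)) (𝓝 0) (𝓝 (A y)) := (hF.A_cont y hyRec).tendsto.comp h1
    have h3 : Tendsto (fun c => A (s c) / A y) (𝓝 0) (𝓝 (A y / A y)) := h2.div_const _
    rw [div_self hAy] at h3
    exact h3 (Complex.isOpen_slitPlane.mem_nhds Complex.one_mem_slitPlane)
  obtain ⟨r, hr, hball⟩ := Metric.eventually_nhds_iff_ball.mp
    (hsU.and (hsO.and (him.and hslit)))
  set r' : ℝ := r / 2 with hr'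
  have hr'0 : 0 < r' := by positivity
  have hsub : ∀ c ∈ Metric.sphere (0 : ℂ) r', c ∈ Metric.ball (0 : ℂ) r := by
    intro c hc
    rw [mem_sphere_iff_norm, sub_zero] at hc
    rw [mem_ball_zero_iff, hc]
    linarith
  set M : Set E6 := Fib U6 p (Bd R) with hM
  have hMRec : M ⊆ Fib U6 p (Rec (-R) R (-R) R) := fun x hx => ⟨hx.1, hx.2.1⟩
  -- every point of the circle has a limit
  have hlim : ∀ x ∈ s '' Metric.sphere (0 : ℂ) r', x ∈ closure M ∧
      ∃ l, Tendsto f (𝓝[M] x) (𝓝 l) := by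
    rintro x ⟨c, hc, rfl⟩
    obtain ⟨h1, h2, h3, h4⟩ := hball c (hsub c hc)
    have hc0 : c ≠ 0 := by
      rintro rfl
      rw [mem_sphere_iff_norm, sub_zero, norm_zero] at hc
      linarith
    by_cases hp : p (s c) = R
    · have h5 := mem_closure_bd hR hT (hsm c h1).1 hp
      refine ⟨mem_closure_iff_nhdsWithin_neBot.mpr h5, hgood (s c) h2 (hsm c h1).1 hp ?_⟩
      rw [(hsm c h1).2.1]
      exact hc0
    · have h6 : s c ∈ M := by
        refine ⟨(hsm c h1).1, (hRec c h1 h3).2, Or.inl ?_, hp⟩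
        rw [(hsm c h1).2.2, abs_of_pos hR]
      exact ⟨subset_closure h6, f (s c), (hF.f_cont (s c) h6).tendsto⟩
  have hext : ContinuousOn (extendFrom M f) (s '' Metric.sphere (0 : ℂ) r') :=
    continuousOn_extendFrom (fun x hx => (hlim x hx).1) (fun x hx => (hlim x hx).2)
  have hexp : ∀ x ∈ s '' Metric.sphere (0 : ℂ) r', x ∈ Fib U6 p (Rec (-R) R (-R) R) →
      Complex.exp (extendFrom M f x) = k x / A x := by
    intro x hx hxR
    have h1 : (𝓝[M] x).NeBot := mem_closure_iff_nhdsWithin_neBot.mp (hlim x hx).1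
    have h2 : Tendsto f (𝓝[M] x) (𝓝 (extendFrom M f x)) := tendsto_extendFrom (hlim x hx).2
    have h3 : Tendsto (fun z => Complex.exp (f z)) (𝓝[M] x)
        (𝓝 (Complex.exp (extendFrom M f x))) :=
      (Complex.continuous_exp.tendsto _).comp h2
    have h4 : Tendsto (fun z => k z / A z) (𝓝[M] x) (𝓝 (k x / A x)) := by
      refine Tendsto.div ?_ ?_ (hF.A_ne x hxR)
      · exact (hF.k_cont x hxR.1).tendsto.mono_left (nhdsWithin_mono _ fun z hz => hz.1)
      · exact (hF.A_cont x hxR).tendsto.mono_left (nhdsWithin_mono _ hMRec)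
    refine tendsto_nhds_unique (h3.congr' ?_) h4
    filter_upwards [self_mem_nhdsWithin] with z hz
    rw [hF.eq z hz, mul_div_assoc, mul_comm, div_mul_cancel₀ _ (hF.A_ne z (hMRec hz))]
  -- the logarithm on the circle
  have hsc : ContinuousOn s (Metric.sphere (0 : ℂ) r') :=
    hs.mono fun c hc => (hball c (hsub c hc)).1
  refine no_log_circle hr'0
    (fun c => extendFrom M f (s c) + Complex.log (A (s c) / A y) + Complex.log (A y)) ?_ ?_
  · refine ContinuousOn.add (ContinuousOn.add ?_ ?_) continuousOn_const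
    · exact hext.comp hsc (fun c hc => mem_image_of_mem s hc)
    · refine ContinuousOn.clog ?_ (fun c hc => (hball c (hsub c hc)).2.2.2)
      refine ContinuousOn.div_const ?_ _
      refine hF.A_cont.comp hsc (fun c hc => ?_)
      obtain ⟨h1, h2, h3, h4⟩ := hball c (hsub c hc)
      exact hRec c h1 h3
  · intro c hc
    obtain ⟨h1, h2, h3, h4⟩ := hball c (hsub c hc)
    have hAc : A (s c) ≠ 0 := hF.A_ne _ (hRec c h1 h3)
    rw [Complex.exp_add, Complex.exp_add, hexp (s c) (mem_image_of_mem s hc) (hRec c h1 h3),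
      Complex.exp_log (div_ne_zero hAc hAy), Complex.exp_log hAy, (hsm c h1).2.1]
    field_simp

end Pool.Agent.LF
end

section

/-! # Task LocU: logarithm on the balls, and the uniqueness property -/

open Set Filter Topology

namespace Pool.Agent.LF

variable {E : Type} [MetricSpace E]

theorem star_convex {S : Set ℂ} (hS : Convex ℝ S) (z₁ : ℂ) : Convex ℝ {w : ℂ | z₁ + w ∈ S} := by
  intro a ha b hb s t hs ht hst
  have h := hS ha hb hs ht hst
  have h2 : s • (z₁ + a) + t • (z₁ + b) = z₁ + (s • a + t • b) := by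
    have h3 : s • z₁ + t • z₁ = z₁ := by rw [← add_smul, hst, one_smul]
    calc s • (z₁ + a) + t • (z₁ + b) = (s • z₁ + t • z₁) + (s • a + t • b) := by
          rw [smul_add, smul_add]; abel
      _ = _ := by rw [h3]
  rw [h2] at h
  exact h

theorem mil_sub {S : Set ℂ} {z z₁ : ℂ} (hz : z ∈ S) {c : ℝ} {ζ : Fin 3 → ℂ}
    (h : ζ ∈ Mil (z - z₁) c) : ζ ∈ {ζ | qf ζ ∈ {w : ℂ | z₁ + w ∈ S} ∧ N2 ζ ≤ c} := by
  refine ⟨?_, h.2⟩
  have h1 : qf ζ = z - z₁ := h.1
  have h2 : z₁ + qf ζ = z := by rw [h1]; ring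
  change z₁ + qf ζ ∈ S
  rw [h2]; exact hz

/-- logarithm on the balls over `S`, extending a given logarithm on the fibre over `z` -/
theorem LocalData.ball_log {U : Set E} {p : E → ℂ} {z₁ : ℂ} (L : LocalData U p z₁)
    (hp : ContinuousOn p U) {S : Set ℂ} (hS : Convex ℝ S) (hz₁ : z₁ ∈ S)
    (hSe : S ⊆ Metric.closedBall z₁ L.e) {z : ℂ} (hz : z ∈ S) {A : E → ℂ}
    (hA : ContinuousOn A (Fib U p S)) (h0 : ∀ x ∈ Fib U p S, A x ≠ 0) {f₀ : E → ℂ}
    (hf₀ : ContinuousOn f₀ (Fib U p {z})) (hf : ∀ x ∈ Fib U p {z}, Complex.exp (f₀ x) = A x) :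
    ∃ g : E → ℂ, ContinuousOn g {x | x ∈ Fib U p S ∧ L.r x ≤ 5 * L.d} ∧
      (∀ x ∈ Fib U p S, L.r x ≤ 5 * L.d → Complex.exp (g x) = A x) ∧
      ∀ x ∈ Fib U p {z}, L.r x ≤ 5 * L.d → g x = f₀ x := by
  have hd := L.d_pos
  have hzS : ({z} : Set ℂ) ⊆ S := singleton_subset_iff.2 hz
  by_cases hne : ∃ x ∈ Fib U p S, L.r x ≤ 5 * L.d
  swap
  · push Not at hne
    refine ⟨fun _ => 0, continuousOn_const, fun x hx hr => ?_, fun x hx hr => ?_⟩
    · exact absurd hr (not_le.2 (hne x hx))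
    · exact absurd hr (not_le.2 (hne x (fib_mono hzS hx)))
  obtain ⟨x₀, hx₀, hr₀⟩ := hne
  obtain ⟨i₀, -⟩ := L.ball x₀ (fib_mono hSe hx₀) hr₀
  have hzn : ‖z - z₁‖ < 5 * L.d := by
    have h1 : ‖z - z₁‖ ≤ L.e := by
      rw [← dist_eq_norm]; exact Metric.mem_closedBall.1 (hSe hz)
    have h2 := L.e_lt
    linarith
  have hlog : ∀ i, ∃ g : (Fin 3 → ℂ) → ℂ,
      ContinuousOn g {ζ | qf ζ ∈ {w : ℂ | z₁ + w ∈ S} ∧ N2 ζ ≤ 5 * L.d} ∧
      (∀ ζ ∈ {ζ | qf ζ ∈ {w : ℂ | z₁ + w ∈ S} ∧ N2 ζ ≤ 5 * L.d},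
        Complex.exp (g ζ) = A (L.psi i ζ)) ∧
      ∀ ζ ∈ Mil (z - z₁) (5 * L.d), g ζ = f₀ (L.psi i ζ) := by
    intro i
    have hmaps : MapsTo (L.psi i) {ζ | qf ζ ∈ {w : ℂ | z₁ + w ∈ S} ∧ N2 ζ ≤ 5 * L.d}
        (Fib U p S) := fun ζ hζ => L.mem_fib i hζ.2 hζ.1
    obtain ⟨g, hg, hge⟩ := star_log (star_convex hS z₁) (by simpa using hz₁) (5 * L.d)
      (fun ζ => A (L.psi i ζ))
      (hA.comp ((L.psi_cont i).mono fun ζ hζ => hζ.2) hmaps)
      (fun ζ hζ => h0 _ (hmaps hζ))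
    obtain ⟨ζ₀, hζ₀⟩ := mil_nonempty hzn.le
    have hmz : ∀ ζ ∈ Mil (z - z₁) (5 * L.d), L.psi i ζ ∈ Fib U p {z} := by
      intro ζ hζ
      refine L.mem_fib i hζ.2 ?_
      have h1 : qf ζ = z - z₁ := hζ.1
      rw [h1]; simp
    have hexp : ∀ ζ ∈ Mil (z - z₁) (5 * L.d),
        Complex.exp (g ζ - f₀ (L.psi i ζ)) = 1 := by
      intro ζ hζ
      rw [Complex.exp_sub, hge ζ (mil_sub hz hζ), hf _ (hmz ζ hζ)]
      exact div_self (h0 _ (fib_mono hzS (hmz ζ hζ)))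
    set c : ℂ := g ζ₀ - f₀ (L.psi i ζ₀) with hc
    have hc1 : Complex.exp c = 1 := hexp ζ₀ hζ₀
    refine ⟨fun ζ => g ζ - c, hg.sub continuousOn_const, fun ζ hζ => ?_, fun ζ hζ => ?_⟩
    · simp only
      rw [Complex.exp_sub, hc1, div_one]; exact hge ζ hζ
    · have h := log_unique (mil_conn hzn) (d := fun ζ => g ζ - f₀ (L.psi i ζ) - c) ?_ ?_ hζ₀
        (by simp only [hc]; ring) ζ hζ
      · beta_reduce at h
        simp only
        linear_combination h
      · refine ((hg.mono fun ζ hζ => mil_sub hz hζ).sub ?_).sub continuousOn_const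
        exact hf₀.comp ((L.psi_cont i).mono fun ζ hζ => hζ.2) hmz
      · intro ζ hζ
        beta_reduce
        rw [Complex.exp_sub, hexp ζ hζ, hc1, div_one]
  choose g hg1 hg2 hg3 using hlog
  refine ⟨fun x => g (L.idx i₀ x) (L.inv (L.idx i₀ x) x), ?_, ?_, ?_⟩
  · exact L.glue_balls i₀ hSe le_rfl g fun i => hg1 i
  · intro x hx hr
    have hex : ∃ i, L.InB i x := L.ball x (fib_mono hSe hx) hr
    have hi := L.inB_idx i₀ hex
    have h4 := hg2 (L.idx i₀ x) (L.inv (L.idx i₀ x) x)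
      ⟨L.inB_fib _ hi hx, L.inv_le _ hi⟩
    rw [L.psi_inv _ hi] at h4
    exact h4
  · intro x hx hr
    have hex : ∃ i, L.InB i x := L.ball x (fib_mono hSe (fib_mono hzS hx)) hr
    have hi := L.inB_idx i₀ hex
    have h1 : L.inv (L.idx i₀ x) x ∈ Mil (z - z₁) (5 * L.d) := by
      have h2 : z₁ + qf (L.inv (L.idx i₀ x) x) = z := L.inB_fib _ hi hx
      exact ⟨by rw [← h2]; ring, L.inv_le _ hi⟩
    have h4 := hg3 (L.idx i₀ x) _ h1
    rw [L.psi_inv _ hi] at h4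
    exact h4

/-- the path from `x` to the fibre over `z` -/
theorem LocalData.path_cont {U : Set E} {p : E → ℂ} {z₁ : ℂ} (L : LocalData U p z₁)
    {S : Set ℂ} (hS : Convex ℝ S) (hSe : S ⊆ Metric.closedBall z₁ L.e) {z : ℂ} (hz : z ∈ S)
    {x : E} (hx : x ∈ Fib U p S) (hr : L.d ≤ L.r x) :
    ContinuousOn (fun s : ℝ => L.T x ((1 - (s : ℂ)) * z + (s : ℂ) * p x)) (Icc 0 1) ∧
      ∀ s ∈ Icc (0 : ℝ) 1, (1 - (s : ℂ)) * z + (s : ℂ) * p x ∈ S ∧
        L.T x ((1 - (s : ℂ)) * z + (s : ℂ) * p x) ∈ Fib U p S := by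
  have hmem : ∀ s ∈ Icc (0 : ℝ) 1, (1 - (s : ℂ)) * z + (s : ℂ) * p x ∈ S := by
    intro s hs
    have h := hS hz hx.2 (a := 1 - s) (b := s) (by linarith [hs.2]) hs.1 (by ring)
    have h2 : (1 - s) • z + s • p x = (1 - (s : ℂ)) * z + (s : ℂ) * p x := by
      rw [Complex.real_smul, Complex.real_smul]; push_cast; ring
    rw [h2] at h; exact h
  refine ⟨?_, fun s hs => ⟨hmem s hs, ?_⟩⟩
  · have h1 : ContinuousOn (fun s : ℝ => (x, (1 - (s : ℂ)) * z + (s : ℂ) * p x)) (Icc 0 1) := by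
      fun_prop
    exact L.T_cont.comp h1 fun s hs => ⟨⟨fib_mono hSe hx, hr⟩, hSe (hmem s hs)⟩
  · have h := L.T_mem x (fib_mono hSe hx) hr _ (hSe (hmem s hs))
    exact ⟨h.1, by rw [h.2]; exact hmem s hs⟩

theorem LocalData.uniq {U : Set E} {p : E → ℂ} {z₁ : ℂ} (L : LocalData U p z₁)
    (hp : ContinuousOn p U) {S : Set ℂ} (hS : Convex ℝ S) (hz₁ : z₁ ∈ S)
    (hSe : S ⊆ Metric.closedBall z₁ L.e) :
    ∀ z ∈ S, ∀ d : E → ℂ, ContinuousOn d (Fib U p S) →
    (∀ x ∈ Fib U p S, Complex.exp (d x) = 1) → (∀ x ∈ Fib U p {z}, d x = 0) →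
    ∀ x ∈ Fib U p S, d x = 0 := by
  intro z hz d hd hexp h0 x hx
  have hdp := L.d_pos
  rcases le_total L.d (L.r x) with hr | hr
  · obtain ⟨hc, hm⟩ := L.path_cont hS hSe hz hx hr
    have hs0 : (0 : ℝ) ∈ Icc (0 : ℝ) 1 := by simp
    have hs1 : (1 : ℝ) ∈ Icc (0 : ℝ) 1 := by simp
    have h := log_unique isPreconnected_Icc
      (d := fun s : ℝ => d (L.T x ((1 - (s : ℂ)) * z + (s : ℂ) * p x)))
      (hd.comp hc fun s hs => (hm s hs).2) (fun s hs => hexp _ (hm s hs).2) hs0 ?_ 1 hs1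
    · beta_reduce at h
      have h2 : (1 - ((1 : ℝ) : ℂ)) * z + ((1 : ℝ) : ℂ) * p x = p x := by push_cast; ring
      rw [h2, L.T_self x (fib_mono hSe hx) hr] at h
      exact h
    · beta_reduce
      have h2 : (1 - ((0 : ℝ) : ℂ)) * z + ((0 : ℝ) : ℂ) * p x = z := by push_cast; ring
      rw [h2]
      have h3 := L.T_mem x (fib_mono hSe hx) hr z (hSe hz)
      exact h0 _ ⟨h3.1, h3.2⟩
  · obtain ⟨i, ζ, hζ, hζx⟩ := L.ball x (fib_mono hSe hx) (by linarith)
    have hzn : ‖z - z₁‖ < 5 * L.d := by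
      have h1 : ‖z - z₁‖ ≤ L.e := by
        rw [← dist_eq_norm]; exact Metric.mem_closedBall.1 (hSe hz)
      have h2 := L.e_lt
      linarith
    obtain ⟨ζ₀, hζ₀⟩ := mil_nonempty hzn.le
    have hmaps : MapsTo (L.psi i) {ζ | qf ζ ∈ {w : ℂ | z₁ + w ∈ S} ∧ N2 ζ ≤ 5 * L.d}
        (Fib U p S) := fun ζ hζ => L.mem_fib i hζ.2 hζ.1
    have hmemζ : ζ ∈ {ζ | qf ζ ∈ {w : ℂ | z₁ + w ∈ S} ∧ N2 ζ ≤ 5 * L.d} := by
      refine ⟨?_, hζ⟩
      change z₁ + qf ζ ∈ S
      have h1 := (L.psi_mem i ζ hζ).2.1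
      rw [hζx] at h1
      rw [← h1]; exact hx.2
    have h := log_unique (star_conn (star_convex hS z₁) (by simpa using hz₁) (5 * L.d))
      (d := fun ζ => d (L.psi i ζ))
      (hd.comp ((L.psi_cont i).mono fun ζ hζ => hζ.2) hmaps)
      (fun ζ hζ => hexp _ (hmaps hζ)) (mil_sub hz hζ₀) ?_ ζ hmemζ
    · beta_reduce at h
      rw [hζx] at h
      exact h
    · refine h0 _ (L.mem_fib i hζ₀.2 ?_)
      have h1 : qf ζ₀ = z - z₁ := hζ₀.1
      rw [h1]; simp

end Pool.Agent.LF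
end

section

/-! # Task LocL: the logarithm property from local data -/

open Set Filter Topology

namespace Pool.Agent.LF

variable {E : Type} [MetricSpace E]

theorem LocalData.log {U : Set E} {p : E → ℂ} {z₁ : ℂ} (L : LocalData U p z₁)
    (hp : ContinuousOn p U) {S : Set ℂ} (hS : Convex ℝ S) (hz₁ : z₁ ∈ S)
    (hSe : S ⊆ Metric.closedBall z₁ L.e) :
    ∀ z ∈ S, ∀ A : E → ℂ, ContinuousOn A (Fib U p S) → (∀ x ∈ Fib U p S, A x ≠ 0) →
    ∀ f₀ : E → ℂ, ContinuousOn f₀ (Fib U p {z}) →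
      (∀ x ∈ Fib U p {z}, Complex.exp (f₀ x) = A x) →
      ∃ f : E → ℂ, ContinuousOn f (Fib U p S) ∧ (∀ x ∈ Fib U p S, Complex.exp (f x) = A x) ∧
        ∀ x ∈ Fib U p {z}, f x = f₀ x := by
  intro z hz A hA h0 f₀ hf₀ hf
  have hd := L.d_pos
  have hzb : z ∈ Metric.closedBall z₁ L.e := hSe hz
  have hzS : ({z} : Set ℂ) ⊆ S := singleton_subset_iff.2 hz
  have hrS : ContinuousOn L.r (Fib U p S) := L.r_cont.mono (fib_mono hSe)
  obtain ⟨g, hg, hge, hgz⟩ := L.ball_log hp hS hz₁ hSe hz hA h0 hf₀ hf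
  set M : Set E := {x | x ∈ Fib U p S ∧ L.d ≤ L.r x} with hM
  have hpM : ContinuousOn p M := hp.mono fun x hx => hx.1.1
  have hpath := fun x (hx : x ∈ M) => L.path_cont hS hSe hz hx.1 hx.2
  have hw : ContinuousOn (fun y : E × ℝ => (y.1, (1 - (y.2 : ℂ)) * z + (y.2 : ℂ) * p y.1))
      (M ×ˢ Icc (0 : ℝ) 1) := by
    have h1 : ContinuousOn (fun y : E × ℝ => p y.1) (M ×ˢ Icc (0 : ℝ) 1) :=
      hpM.comp continuous_fst.continuousOn fun y hy => hy.1
    have h2 : ContinuousOn (fun y : E × ℝ => (y.2 : ℂ)) (M ×ˢ Icc (0 : ℝ) 1) := by fun_prop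
    exact continuous_fst.continuousOn.prodMk
      (((continuousOn_const.sub h2).mul continuousOn_const).add (h2.mul h1))
  have hTw : ContinuousOn (fun y : E × ℝ => L.T y.1 ((1 - (y.2 : ℂ)) * z + (y.2 : ℂ) * p y.1))
      (M ×ˢ Icc (0 : ℝ) 1) := by
    refine L.T_cont.comp hw fun y hy => ⟨⟨fib_mono hSe hy.1.1, hy.1.2⟩, ?_⟩
    exact hSe ((hpath y.1 hy.1).2 y.2 hy.2).1
  have hTz : ∀ x ∈ M, L.T x z ∈ Fib U p {z} := by
    intro x hx
    have := L.T_mem x (fib_mono hSe hx.1) hx.2 z hzb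
    exact ⟨this.1, this.2⟩
  have e0 : ∀ x : E, (1 - ((0 : ℝ) : ℂ)) * z + ((0 : ℝ) : ℂ) * p x = z := by
    intro x; push_cast; ring
  have e1 : ∀ x : E, (1 - ((1 : ℝ) : ℂ)) * z + ((1 : ℝ) : ℂ) * p x = p x := by
    intro x; push_cast; ring
  obtain ⟨F, hF, hFe, hF0⟩ := log_homotopyOn M
    (fun x s => A (L.T x ((1 - (s : ℂ)) * z + (s : ℂ) * p x)))
    (hA.comp hTw fun y hy => ((hpath y.1 hy.1).2 y.2 hy.2).2)
    (fun x hx s hs => h0 _ ((hpath x hx).2 s hs).2)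
    (fun x => f₀ (L.T x z))
    (by
      refine hf₀.comp ?_ hTz
      have h1 : ContinuousOn (fun x : E => (x, z)) M := by fun_prop
      exact L.T_cont.comp h1 fun x hx => ⟨⟨fib_mono hSe hx.1, hx.2⟩, hzb⟩)
    (by
      intro x hx
      beta_reduce
      rw [e0 x]
      exact hf _ (hTz x hx))
  have hs0 : (0 : ℝ) ∈ Icc (0 : ℝ) 1 := by simp
  have hs1 : (1 : ℝ) ∈ Icc (0 : ℝ) 1 := by simp
  have hF1 : ContinuousOn (fun x => F x 1) M := by
    have h1 : ContinuousOn (fun x : E => (x, (1 : ℝ))) M := by fun_prop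
    exact hF.comp h1 fun x hx => ⟨hx, hs1⟩
  have hFs : ∀ x ∈ M, ContinuousOn (fun s => F x s) (Icc 0 1) := by
    intro x hx
    have h1 : ContinuousOn (fun s : ℝ => (x, s)) (Icc (0 : ℝ) 1) := by fun_prop
    exact hF.comp h1 fun s hs => ⟨hx, hs⟩
  have hF1e : ∀ x ∈ M, Complex.exp (F x 1) = A x := by
    intro x hx
    have h := hFe x hx 1 hs1
    beta_reduce at h
    rw [e1 x, L.T_self x (fib_mono hSe hx.1) hx.2] at h
    exact h
  -- agreement with `g`
  have hagree : ∀ x ∈ Fib U p S, L.d ≤ L.r x → L.r x ≤ 4 * L.d → g x = F x 1 := by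
    intro x hx hr1 hr2
    have hxM : x ∈ M := ⟨hx, hr1⟩
    have hr5 : ∀ s ∈ Icc (0 : ℝ) 1,
        L.r (L.T x ((1 - (s : ℂ)) * z + (s : ℂ) * p x)) ≤ 5 * L.d := fun s hs =>
      L.T_near₂ x (fib_mono hSe hx) hr1 hr2 _ (hSe ((hpath x hxM).2 s hs).1)
    have h := log_unique isPreconnected_Icc
      (d := fun s : ℝ => F x s - g (L.T x ((1 - (s : ℂ)) * z + (s : ℂ) * p x))) ?_ ?_ hs0 ?_ 1 hs1
    · beta_reduce at h
      rw [e1 x, L.T_self x (fib_mono hSe hx) hr1] at h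
      exact (sub_eq_zero.1 h).symm
    · refine (hFs x hxM).sub (hg.comp (hpath x hxM).1 fun s hs => ?_)
      exact ⟨((hpath x hxM).2 s hs).2, hr5 s hs⟩
    · intro s hs
      beta_reduce
      rw [Complex.exp_sub, hFe x hxM s hs, hge _ ((hpath x hxM).2 s hs).2 (hr5 s hs)]
      exact div_self (h0 _ ((hpath x hxM).2 s hs).2)
    · beta_reduce
      rw [hF0 x hxM, e0 x, hgz _ (hTz x hxM), sub_self]
      have := hr5 0 hs0
      rw [e0 x] at this
      exact this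
  obtain ⟨f, hfc, hf1, hf2⟩ := glue_le hrS (a := L.d) (b := 4 * L.d) (by linarith) (f := g)
    (g := fun x => F x 1) (hg.mono fun x hx => ⟨hx.1, by have := hx.2; linarith⟩) hF1 hagree
  refine ⟨f, hfc, fun x hx => ?_, fun x hx => ?_⟩
  · rcases le_total (L.r x) (4 * L.d) with h | h
    · rw [hf1 x hx h]; exact hge x hx (by linarith)
    · rw [hf2 x hx (by linarith)]; exact hF1e x ⟨hx, by linarith⟩
  · have hxS : x ∈ Fib U p S := fib_mono hzS hx
    rcases le_total (L.r x) (4 * L.d) with h | h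
    · rw [hf1 x hxS h]; exact hgz x hx (by linarith)
    · have hxM : x ∈ M := ⟨hxS, by linarith⟩
      rw [hf2 x hxS (by linarith)]
      have hpx : p x = z := hx.2
      have hTx : L.T x z = x := by
        have h1 := L.T_self x (fib_mono hSe hxS) hxM.2
        rw [hpx] at h1; exact h1
      have hww : ∀ s : ℝ, (1 - (s : ℂ)) * z + (s : ℂ) * p x = z := by
        intro s; rw [hpx]; ring
      have hh := log_unique isPreconnected_Icc (d := fun s : ℝ => F x s - f₀ x)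
        ((hFs x hxM).sub continuousOn_const) ?_ hs0 ?_ 1 hs1
      · exact sub_eq_zero.1 hh
      · intro s hs
        beta_reduce
        have h3 := hFe x hxM s hs
        beta_reduce at h3
        rw [hww s, hTx] at h3
        rw [Complex.exp_sub, h3, hf x hx]
        exact div_self (h0 x hxS)
      · beta_reduce
        rw [hF0 x hxM, hTx, sub_self]

end Pool.Agent.LF
end

section

/-! # Task Sect: local sections through all points of a compact set (inverse function theorem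
with parameters) -/

open Set Filter Topology
open scoped ContDiff

namespace Pool.Agent.LF

private theorem sect_d_smooth {p : E6 → ℂ} {x : E6} (hp : ContDiffAt ℝ ∞ p x) :
    ContDiffAt ℝ ∞ (fun y => ham (d1 p y)) x ∧ ContDiffAt ℝ ∞ (fun y => ham (d2 p y)) x := by
  have hf : ContDiffAt ℝ ∞ (fderiv ℝ p) x := hp.fderiv_right (by simp)
  have h1 : ∀ v : E6, ContDiffAt ℝ ∞ (fun y => d1 p y v) x := by
    intro v
    have := (hf.clm_apply (contDiffAt_const (c := v)))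
    exact Complex.reCLM.contDiff.contDiffAt.comp x this
  have h2 : ∀ v : E6, ContDiffAt ℝ ∞ (fun y => d2 p y v) x := by
    intro v
    have := (hf.clm_apply (contDiffAt_const (c := v)))
    exact Complex.imCLM.contDiff.contDiffAt.comp x this
  constructor
  · rw [contDiffAt_pi]
    intro i
    fin_cases i <;> simp [ham]
    · exact (h1 _).neg
    · exact (h1 _).neg
    · exact h1 _
    · exact h1 _
    · exact h1 _
    · exact (h1 _).neg
  · rw [contDiffAt_pi]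
    intro i
    fin_cases i <;> simp [ham]
    · exact (h2 _).neg
    · exact (h2 _).neg
    · exact h2 _
    · exact h2 _
    · exact h2 _
    · exact (h2 _).neg

private theorem sect_RR_smooth {p : E6 → ℂ} (hp : ContDiffOn ℝ ∞ p U6) {x : E6} (hx : x ∈ U6)
    (hB : BB p x ≠ 0) (a : ℂ) :
    ContDiffAt ℝ ∞ (fun y : E6 × ℂ => RR p y.1 y.2) (x, a) := by
  have hpx : ContDiffAt ℝ ∞ p x := hp.contDiffAt (isOpen_U6.mem_nhds hx)
  have hBx : ContDiffAt ℝ ∞ (BB p) x := (BB_cont hp).contDiffAt (isOpen_U6.mem_nhds hx)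
  obtain ⟨h1, h2⟩ := sect_d_smooth hpx
  have f1 : ContDiffAt ℝ ∞ (fun y : E6 × ℂ => y.1) (x, a) := contDiffAt_fst
  have f2 : ContDiffAt ℝ ∞ (fun y : E6 × ℂ => y.2) (x, a) := contDiffAt_snd
  have g1 : ContDiffAt ℝ ∞ (fun y : E6 × ℂ => ham (d1 p y.1)) (x, a) :=
    ContDiffAt.comp (x, a) (g := fun y => ham (d1 p y)) h1 f1
  have g2 : ContDiffAt ℝ ∞ (fun y : E6 × ℂ => ham (d2 p y.1)) (x, a) :=
    ContDiffAt.comp (x, a) (g := fun y => ham (d2 p y)) h2 f1
  have gB : ContDiffAt ℝ ∞ (fun y : E6 × ℂ => BB p y.1) (x, a) :=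
    ContDiffAt.comp (x, a) (g := BB p) hBx f1
  have i1 : ContDiffAt ℝ ∞ (fun y : E6 × ℂ => y.2.im) (x, a) :=
    Complex.imCLM.contDiff.contDiffAt.comp (x, a) f2
  have i2 : ContDiffAt ℝ ∞ (fun y : E6 × ℂ => y.2.re) (x, a) :=
    Complex.reCLM.contDiff.contDiffAt.comp (x, a) f2
  unfold RR
  exact ((i1.div gB hB).smul g1).sub ((i2.div gB hB).smul g2)

private theorem sect_local {p : E6 → ℂ} (hp : IsLefschetz X6 p) {x : E6} (hx : x ∈ U6)
    (hs : Function.Surjective (fderiv ℝ p x)) :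
    ∃ t > 0, ∃ N ∈ 𝓝 x, ∀ y ∈ N, ∀ a b : ℂ, ‖a‖ ≤ t → ‖b‖ ≤ t →
      y + RR p y a ∈ U6 ∧
      ‖p (y + RR p y a) - p (y + RR p y b) - (a - b)‖ ≤ (1 / 2) * ‖a - b‖ := by
  have hp' : ContDiffOn ℝ ∞ p U6 := hp.smooth
  have hB : BB p x ≠ 0 := BB_ne hp hx hs
  have hR0 : RR p x 0 = 0 := by simp [RR]
  have hRs := sect_RR_smooth hp' hx hB 0
  have hS : ContDiffAt ℝ ∞ (fun y : E6 × ℂ => y.1 + RR p y.1 y.2) (x, 0) :=
    contDiffAt_fst.add hRs
  have hval : (fun y : E6 × ℂ => y.1 + RR p y.1 y.2) (x, 0) = x := by simp [hR0]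
  have hpx : ContDiffAt ℝ ∞ p x := hp'.contDiffAt (isOpen_U6.mem_nhds hx)
  have hH : ContDiffAt ℝ ∞ (fun y : E6 × ℂ => p (y.1 + RR p y.1 y.2)) (x, 0) := by
    refine ContDiffAt.comp (x, (0 : ℂ)) (g := p) ?_ hS
    show ContDiffAt ℝ ∞ p (x + RR p x 0)
    rw [hR0, add_zero]; exact hpx
  have hst := hH.hasStrictFDerivAt (by simp)
  set H' := fderiv ℝ (fun y : E6 × ℂ => p (y.1 + RR p y.1 y.2)) (x, 0) with hH'
  -- the derivative in the second variable
  have hpart : ∀ b : ℂ, H' (0, b) = b := by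
    let L : ℂ →L[ℝ] E6 :=
      Complex.imCLM.smulRight ((BB p x)⁻¹ • ham (d1 p x)) -
        Complex.reCLM.smulRight ((BB p x)⁻¹ • ham (d2 p x))
    have hL : ∀ a, L a = RR p x a := by
      intro a
      simp only [L, RR, sub_apply, ContinuousLinearMap.smulRight_apply,
        Complex.imCLM_apply, Complex.reCLM_apply, smul_smul, div_eq_mul_inv]
    have e1 : HasFDerivAt (fun a : ℂ => x + L a) L 0 := (L.hasFDerivAt).const_add x
    have e2 : HasFDerivAt p (fderiv ℝ p x) (x + L 0) := by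
      rw [map_zero, add_zero]
      exact (hpx.differentiableAt (by simp)).hasFDerivAt
    have e3 : HasFDerivAt (fun a : ℂ => p (x + L a)) ((fderiv ℝ p x).comp L) 0 := e2.comp 0 e1
    have e4 : HasFDerivAt (fun a : ℂ => ((x, a) : E6 × ℂ))
        (ContinuousLinearMap.inr ℝ E6 ℂ) (0 : ℂ) := hasFDerivAt_prodMk_right x 0
    have e5 : HasFDerivAt (fun a : ℂ => p (x + RR p x a))
        (H'.comp (ContinuousLinearMap.inr ℝ E6 ℂ)) 0 :=
      hst.hasFDerivAt.comp (0 : ℂ) e4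
    have e6 : (fun a : ℂ => p (x + RR p x a)) = fun a : ℂ => p (x + L a) := by
      funext a; rw [hL]
    rw [e6] at e5
    have e7 := e5.unique e3
    intro b
    have e8 := congrArg (fun l : ℂ →L[ℝ] ℂ => l b) e7
    simp only [ContinuousLinearMap.comp_apply, ContinuousLinearMap.inr_apply, hL] at e8
    rw [e8, p_RR p x b hB]
  have hev := hst.isLittleO.def (c := 1 / 2) (by norm_num)
  have hcont : ∀ᶠ y : E6 × ℂ in 𝓝 (x, 0), y.1 + RR p y.1 y.2 ∈ U6 := by
    apply hS.continuousAt.eventually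
    rw [hval]; exact isOpen_U6.mem_nhds hx
  rw [Metric.eventually_nhds_iff] at hcont
  obtain ⟨e1, he1, hc⟩ := hcont
  rw [Metric.eventually_nhds_iff] at hev
  obtain ⟨e2, he2, hd⟩ := hev
  set e := min e1 e2 with he
  have hepos : 0 < e := lt_min he1 he2
  refine ⟨e / 2, by positivity, Metric.ball x e, Metric.ball_mem_nhds x hepos, ?_⟩
  intro y hy a b ha hb
  have hd1 : ∀ c : ℂ, ‖c‖ ≤ e / 2 → dist ((y, c) : E6 × ℂ) (x, 0) < e := by
    intro c hcn
    rw [Prod.dist_eq]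
    apply max_lt (Metric.mem_ball.1 hy)
    simp only [dist_zero_right]; linarith
  refine ⟨hc (y := (y, a)) ((hd1 a ha).trans_le (min_le_left _ _)), ?_⟩
  have h3 : dist (((y, a), (y, b)) : (E6 × ℂ) × (E6 × ℂ)) ((x, 0), (x, 0)) < e2 := by
    rw [Prod.dist_eq]
    exact max_lt ((hd1 a ha).trans_le (min_le_right _ _)) ((hd1 b hb).trans_le (min_le_right _ _))
  have h4 := hd h3
  simp only [Prod.mk_sub_mk, sub_self] at h4
  rw [hpart] at h4
  have h5 : ‖((0 : E6), a - b)‖ = ‖a - b‖ := by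
    rw [Prod.norm_def]; simp
  rw [h5] at h4
  exact h4

private theorem sect_uniform {p : E6 → ℂ} (hp : IsLefschetz X6 p) {S : Set E6} (hS : S ⊆ U6)
    (hc : ∀ x ∈ U6, x ∈ closure S → x ∈ S) (hG : ∀ g ∈ G6, ∀ x ∈ S, g x ∈ S)
    (hb : Q6.Bdd S) (hreg : ∀ x ∈ S, Function.Surjective (fderiv ℝ p x)) :
    ∃ t > 0, ∀ x ∈ S, ∀ a b : ℂ, ‖a‖ ≤ t → ‖b‖ ≤ t → x + RR p x a ∈ U6 ∧
      ‖p (x + RR p x a) - p (x + RR p x b) - (a - b)‖ ≤ (1 / 2) * ‖a - b‖ := by
  have hp' : ContDiffOn ℝ ∞ p U6 := hp.smooth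
  have hpG : ∀ g ∈ G6, ∀ x ∈ U6, p (g x) = p x := hp.inv
  obtain ⟨K, hKS, hK, hrep⟩ := compact_rep hS hc hG hb
  have key : ∃ t > 0, ∀ x ∈ K, ∀ a b : ℂ, ‖a‖ ≤ t → ‖b‖ ≤ t → x + RR p x a ∈ U6 ∧
      ‖p (x + RR p x a) - p (x + RR p x b) - (a - b)‖ ≤ (1 / 2) * ‖a - b‖ := by
    refine hK.induction_on (p := fun s => ∃ t > 0, ∀ x ∈ s, ∀ a b : ℂ, ‖a‖ ≤ t → ‖b‖ ≤ t →
      x + RR p x a ∈ U6 ∧
      ‖p (x + RR p x a) - p (x + RR p x b) - (a - b)‖ ≤ (1 / 2) * ‖a - b‖) ?_ ?_ ?_ ?_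
    · exact ⟨1, one_pos, by simp⟩
    · rintro s s' hss ⟨t, ht, h⟩
      exact ⟨t, ht, fun x hx => h x (hss hx)⟩
    · rintro s s' ⟨t, ht, h⟩ ⟨t', ht', h'⟩
      refine ⟨min t t', lt_min ht ht', ?_⟩
      rintro x (hx | hx) a b ha hb
      · exact h x hx a b (ha.trans (min_le_left _ _)) (hb.trans (min_le_left _ _))
      · exact h' x hx a b (ha.trans (min_le_right _ _)) (hb.trans (min_le_right _ _))
    · intro x hx
      obtain ⟨t, ht, N, hN, h⟩ := sect_local hp (hS (hKS hx)) (hreg x (hKS hx))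
      exact ⟨N, mem_nhdsWithin_of_mem_nhds hN, t, ht, h⟩
  obtain ⟨t, ht, h⟩ := key
  refine ⟨t, ht, ?_⟩
  intro x hx a b ha hb
  obtain ⟨g, hg, hgx⟩ := hrep x hx
  obtain ⟨k, hk, hk1, hk2⟩ := inv_mem6 g hg
  have hRg : ∀ c, g x + RR p (g x) c = g (x + RR p x c) := by
    intro c
    rw [RR_G hp' hpG hg (hS hx), fderiv6 g hg]
    abel
  have hmem : ∀ c : ℂ, ‖c‖ ≤ t → x + RR p x c ∈ U6 := by
    intro c hc
    have h1 := (h (g x) hgx c c hc hc).1
    rw [hRg] at h1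
    have h2 := maps6 k hk _ h1
    rwa [hk1] at h2
  refine ⟨hmem a ha, ?_⟩
  have h3 := (h (g x) hgx a b ha hb).2
  rw [hRg, hRg, hpG g hg _ (hmem a ha), hpG g hg _ (hmem b hb)] at h3
  exact h3

theorem local_sections {p : E6 → ℂ} (hp : IsLefschetz X6 p) {S : Set E6} (hS : S ⊆ U6)
    (hc : ∀ x ∈ U6, x ∈ closure S → x ∈ S) (hG : ∀ g ∈ G6, ∀ x ∈ S, g x ∈ S)
    (hb : Q6.Bdd S) (hreg : ∀ x ∈ S, Function.Surjective (fderiv ℝ p x)) :
    ∃ e > 0, ∃ T : E6 → ℂ → E6,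
      ContinuousOn (fun y : E6 × ℂ => T y.1 y.2) {y | y.1 ∈ S ∧ ‖y.2 - p y.1‖ ≤ e} ∧
      ∀ x ∈ S, T x (p x) = x ∧ ∀ w, ‖w - p x‖ ≤ e → T x w ∈ U6 ∧ p (T x w) = w ∧
        ∀ g ∈ G6, T (g x) w = g (T x w) := by
  classical
  have hp' : ContDiffOn ℝ ∞ p U6 := hp.smooth
  have hpG : ∀ g ∈ G6, ∀ x ∈ U6, p (g x) = p x := hp.inv
  obtain ⟨t, ht, hu⟩ := sect_uniform hp hS hc hG hb hreg
  have hR0 : ∀ x, RR p x 0 = 0 := by intro x; simp [RR]
  -- existence
  have hex : ∀ x ∈ S, ∀ w : ℂ, ‖w - p x‖ ≤ t / 2 → ∃ a : ℂ, ‖a‖ ≤ t ∧ p (x + RR p x a) = w := by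
    intro x hx w hw
    let f : ℂ → ℂ := fun a => a - (p (x + RR p x a) - w)
    have hmaps : MapsTo f (Metric.closedBall 0 t) (Metric.closedBall 0 t) := by
      intro a ha
      rw [mem_closedBall_zero_iff] at ha ⊢
      have h1 := (hu x hx a 0 ha (by simpa using ht.le)).2
      rw [hR0, add_zero, sub_zero] at h1
      have h2 : f a = -(p (x + RR p x a) - p x - a) + (w - p x) := by simp only [f]; ring
      rw [h2]
      calc ‖-(p (x + RR p x a) - p x - a) + (w - p x)‖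
          ≤ ‖-(p (x + RR p x a) - p x - a)‖ + ‖w - p x‖ := norm_add_le _ _
        _ ≤ (1 / 2) * ‖a‖ + t / 2 := by rw [norm_neg]; linarith
        _ ≤ t := by linarith
    have hcontr : ContractingWith (1 / 2 : NNReal)
        (hmaps.restrict f (Metric.closedBall 0 t) (Metric.closedBall 0 t)) := by
      constructor
      · rw [← NNReal.coe_lt_coe]; norm_num
      · apply LipschitzWith.of_dist_le_mul
        rintro ⟨a, ha⟩ ⟨b, hb'⟩
        rw [mem_closedBall_zero_iff] at ha hb'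
        have h1 := (hu x hx a b ha hb').2
        simp only [Subtype.dist_eq, MapsTo.val_restrict_apply, dist_eq_norm]
        have h2 : f a - f b = -(p (x + RR p x a) - p (x + RR p x b) - (a - b)) := by
          simp only [f]; ring
        rw [h2, norm_neg]
        simpa using h1
    obtain ⟨a, ha, hfix, -⟩ := hcontr.exists_fixedPoint' Metric.isClosed_closedBall.isComplete
      hmaps (x := 0) (by simpa using ht.le) (edist_ne_top _ _)
    refine ⟨a, by simpa using ha, ?_⟩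
    have h3 : a - (p (x + RR p x a) - w) = a := hfix
    have h4 : p (x + RR p x a) - w = 0 := by simpa using h3
    exact sub_eq_zero.1 h4
  -- estimate
  have hest : ∀ x ∈ S, ∀ a b : ℂ, ‖a‖ ≤ t → ‖b‖ ≤ t →
      ‖a - b‖ ≤ 2 * ‖p (x + RR p x a) - p (x + RR p x b)‖ := by
    intro x hx a b ha hb
    have h1 := (hu x hx a b ha hb).2
    have h2 : ‖a - b‖ ≤ ‖p (x + RR p x a) - p (x + RR p x b)‖ +
        ‖p (x + RR p x a) - p (x + RR p x b) - (a - b)‖ := by
      have := norm_sub_le (p (x + RR p x a) - p (x + RR p x b))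
        (p (x + RR p x a) - p (x + RR p x b) - (a - b))
      simpa using this
    linarith
  let A : E6 → ℂ → ℂ := fun x w =>
    if h : ∃ a : ℂ, ‖a‖ ≤ t ∧ p (x + RR p x a) = w then h.choose else 0
  have hA : ∀ x ∈ S, ∀ w : ℂ, ‖w - p x‖ ≤ t / 2 → ‖A x w‖ ≤ t ∧ p (x + RR p x (A x w)) = w := by
    intro x hx w hw
    have h := hex x hx w hw
    simp only [A, dif_pos h]
    exact h.choose_spec
  have hAu : ∀ x ∈ S, ∀ a : ℂ, ‖a‖ ≤ t → ‖p (x + RR p x a) - p x‖ ≤ t / 2 →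
      A x (p (x + RR p x a)) = a := by
    intro x hx a ha hw
    obtain ⟨h1, h2⟩ := hA x hx _ hw
    have h3 := hest x hx _ _ h1 ha
    rw [h2, sub_self, norm_zero, mul_zero] at h3
    exact sub_eq_zero.1 (norm_le_zero_iff.1 h3)
  refine ⟨t / 2, by positivity, fun x w => x + RR p x (A x w), ?_, ?_⟩
  · rintro ⟨x, w⟩ ⟨hx, hw⟩
    simp only at hx hw
    have hxU : x ∈ U6 := hS hx
    have hB : BB p x ≠ 0 := BB_ne hp hxU (hreg x hx)
    obtain ⟨ha, hpa⟩ := hA x hx w hw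
    set a := A x w with hadef
    have hmem := (hu x hx a a ha ha).1
    -- continuity of `A`
    have hAc : ContinuousWithinAt (fun y : E6 × ℂ => A y.1 y.2)
        {y | y.1 ∈ S ∧ ‖y.2 - p y.1‖ ≤ t / 2} (x, w) := by
      have hF : ContinuousAt (fun y : E6 × ℂ => p (y.1 + RR p y.1 a)) (x, w) := by
        have h1 : ContinuousAt (fun y : E6 × ℂ => y.1 + RR p y.1 a) (x, w) := by
          have h2 := (sect_RR_smooth hp' hxU hB a).continuousAt
          have h3 : ContinuousAt (fun y : E6 × ℂ => (y.1, a)) (x, w) :=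
            continuousAt_fst.prodMk continuousAt_const
          have h4 : ContinuousAt (fun y : E6 × ℂ => RR p y.1 a) (x, w) :=
            ContinuousAt.comp (x := (x, w)) (g := fun y : E6 × ℂ => RR p y.1 y.2)
              (f := fun y : E6 × ℂ => (y.1, a)) h2 h3
          exact continuousAt_fst.add h4
        have h5 : ContinuousAt p (x + RR p x a) :=
          (hp'.contDiffAt (isOpen_U6.mem_nhds hmem)).continuousAt
        exact ContinuousAt.comp (x := (x, w)) (g := p)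
          (f := fun y : E6 × ℂ => y.1 + RR p y.1 a) h5 h1
      have hlim : Tendsto (fun y : E6 × ℂ => 2 * ‖y.2 - p (y.1 + RR p y.1 a)‖)
          (𝓝[{y | y.1 ∈ S ∧ ‖y.2 - p y.1‖ ≤ t / 2}] (x, w)) (𝓝 0) := by
        have h1 : ContinuousAt (fun y : E6 × ℂ => 2 * ‖y.2 - p (y.1 + RR p y.1 a)‖) (x, w) :=
          continuousAt_const.mul (continuousAt_snd.sub hF).norm
        have h2 := h1.tendsto
        simp only [hpa, sub_self, norm_zero, mul_zero] at h2
        exact h2.mono_left nhdsWithin_le_nhds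
      rw [ContinuousWithinAt, tendsto_iff_norm_sub_tendsto_zero]
      refine squeeze_zero' (Eventually.of_forall fun _ => norm_nonneg _) ?_ hlim
      filter_upwards [self_mem_nhdsWithin] with y hy
      obtain ⟨h1, h2⟩ := hA y.1 hy.1 y.2 hy.2
      have h3 := hest y.1 hy.1 _ _ h1 ha
      rw [h2] at h3
      exact h3
    have h2 := (sect_RR_smooth hp' hxU hB a).continuousAt
    have h3 : ContinuousWithinAt (fun y : E6 × ℂ => (y.1, A y.1 y.2))
        {y | y.1 ∈ S ∧ ‖y.2 - p y.1‖ ≤ t / 2} (x, w) :=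
      continuousWithinAt_fst.prodMk hAc
    have h4 : ContinuousWithinAt (fun y : E6 × ℂ => RR p y.1 (A y.1 y.2))
        {y | y.1 ∈ S ∧ ‖y.2 - p y.1‖ ≤ t / 2} (x, w) :=
      ContinuousAt.comp_continuousWithinAt (x := (x, w))
        (g := fun y : E6 × ℂ => RR p y.1 y.2) (f := fun y : E6 × ℂ => (y.1, A y.1 y.2)) h2 h3
    exact continuousWithinAt_fst.add h4
  · intro x hx
    have hxU : x ∈ U6 := hS hx
    constructor
    · have h1 := hAu x hx 0 (by simpa using ht.le)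
        (by rw [hR0, add_zero, sub_self, norm_zero]; positivity)
      rw [hR0, add_zero] at h1
      show x + RR p x (A x (p x)) = x
      rw [h1, hR0, add_zero]
    · intro w hw
      obtain ⟨ha, hpa⟩ := hA x hx w hw
      have hmem := (hu x hx _ _ ha ha).1
      refine ⟨hmem, hpa, ?_⟩
      intro g hg
      have hgx := hG g hg x hx
      have hRg : ∀ c, g x + RR p (g x) c = g (x + RR p x c) := by
        intro c
        rw [RR_G hp' hpG hg hxU, fderiv6 g hg]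
        abel
      have h1 : p (g x + RR p (g x) (A x w)) = w := by
        rw [hRg, hpG g hg _ hmem, hpa]
      have h2 : A (g x) w = A x w := by
        have h3 := hAu (g x) hgx (A x w) ha (by rw [h1, hpG g hg x hxU]; exact hw)
        rwa [h1] at h3
      show g x + RR p (g x) (A (g x) w) = g (x + RR p x (A x w))
      rw [h2, hRg]

end Pool.Agent.LF
end
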