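import Pool.Agent.LF.Mg_MP_639418_gt.G002
import Pool.Agent.LF.Mg_MP_639418_gt.G004
import Pool.Agent.LF.Quo

section

/-! # Task Trans: transport, interpolating between local sections and `Phi` -/

open Set Filter Topology
open scoped ContDiff

namespace Pool.Agent.LF

/-- gluing two continuous pieces separated by a continuous function -/
private theorem trans_glue {X Y : Type} [TopologicalSpace X] [TopologicalSpace Y] {f : X → Y}
    {D : Set X} {φ : X → ℝ} (hφ : ContinuousOn φ D) (c : ℝ)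
    (h1 : ContinuousOn f {x | x ∈ D ∧ φ x ≤ c}) (h2 : ContinuousOn f {x | x ∈ D ∧ c ≤ φ x}) :
    ContinuousOn f D := by
  intro x hx
  have hφx := hφ x hx
  rcases lt_trichotomy (φ x) c with h | h | h
  · refine (h1 x ⟨hx, h.le⟩).mono_of_mem_nhdsWithin ?_
    have := hφx.eventually (gt_mem_nhds h)
    filter_upwards [this, self_mem_nhdsWithin] with y hy hyD
    exact ⟨hyD, hy.le⟩
  · have h3 := (h1 x ⟨hx, h.le⟩).union (h2 x ⟨hx, h.ge⟩)
    refine h3.mono fun y hy => ?_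
    rcases le_total (φ y) c with h' | h'
    · exact Or.inl ⟨hy, h'⟩
    · exact Or.inr ⟨hy, h'⟩
  · refine (h2 x ⟨hx, h.le⟩).mono_of_mem_nhdsWithin ?_
    have := hφx.eventually (lt_mem_nhds h)
    filter_upwards [this, self_mem_nhdsWithin] with y hy hyD
    exact ⟨hyD, hy.le⟩

/-- uniform closeness on a compact set -/
private theorem trans_unif {F : Type} [NormedAddCommGroup F] {K : Set E6} (hK : IsCompact K)
    {p : E6 → ℂ} (hp : ContinuousOn p K) {e : ℝ} (he : 0 < e) {Y : E6 → ℂ → F}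
    (hY : ContinuousOn (fun y : E6 × ℂ => Y y.1 y.2) {y | y.1 ∈ K ∧ ‖y.2 - p y.1‖ ≤ e})
    {ε : ℝ} (hε : 0 < ε) :
    ∃ δ > 0, δ ≤ e ∧ ∀ x ∈ K, ∀ w, ‖w - p x‖ ≤ δ → ‖Y x w - Y x (p x)‖ ≤ ε := by
  have hc : IsCompact (K ×ˢ Metric.closedBall (0 : ℂ) e) :=
    hK.prod (isCompact_closedBall 0 e)
  have hf : ContinuousOn (fun y : E6 × ℂ => Y y.1 (p y.1 + y.2))
      (K ×ˢ Metric.closedBall (0 : ℂ) e) := by
    have hg : ContinuousOn (fun y : E6 × ℂ => (y.1, p y.1 + y.2))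
        (K ×ˢ Metric.closedBall (0 : ℂ) e) := by
      refine continuousOn_fst.prodMk (ContinuousOn.add ?_ continuousOn_snd)
      exact hp.comp continuousOn_fst fun y hy => hy.1
    refine hY.comp hg fun y hy => ?_
    refine ⟨hy.1, ?_⟩
    have := hy.2
    rw [mem_closedBall_zero_iff] at this
    simpa using this
  have hu := hc.uniformContinuousOn_of_continuous hf
  rw [Metric.uniformContinuousOn_iff] at hu
  obtain ⟨δ, hδ, h⟩ := hu ε hε
  refine ⟨min (δ / 2) e, lt_min (by linarith) he, min_le_right _ _, fun x hx w hw => ?_⟩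
  have h1 := h (x, w - p x) ⟨hx, by
      rw [mem_closedBall_zero_iff]; exact hw.trans (min_le_right _ _)⟩ (x, 0)
      ⟨hx, by rw [mem_closedBall_zero_iff, norm_zero]; exact he.le⟩ (by
        rw [Prod.dist_eq, dist_self, dist_zero_right]
        refine max_lt hδ ?_
        have := hw.trans (min_le_left _ _)
        simp only
        linarith)
  simp only [add_sub_cancel, add_zero, dist_eq_norm] at h1
  exact h1.le

theorem transport {p : E6 → ℂ} (hp : IsLefschetz X6 p) {eta : E6 → ℝ} {Phi : E6 → ℂ → E6}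
    (hh : Hor p eta Phi) (z₁ : ℂ) {r : E6 → ℝ} (hr : ContinuousOn r U6)
    (hrG : ∀ g ∈ G6, ∀ x ∈ U6, r (g x) = r x)
    (hreg : ∀ x ∈ U6, 0 < r x → p x = z₁ → Function.Surjective (fderiv ℝ p x))
    {d : ℝ} (hd : 0 < d) (hrd : ∀ x ∈ U6, 2 ≤ eta x → d ≤ r x) :
    ∃ e > 0, ∃ T : E6 → ℂ → E6,
      ContinuousOn (fun y : E6 × ℂ => T y.1 y.2)
        ({x | x ∈ Fib U6 p (Metric.closedBall z₁ e) ∧ d ≤ r x} ×ˢ Metric.closedBall z₁ e) ∧
      ∀ x ∈ Fib U6 p (Metric.closedBall z₁ e), d ≤ r x → T x (p x) = x ∧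
        ∀ w ∈ Metric.closedBall z₁ e, T x w ∈ U6 ∧ p (T x w) = w ∧
          (∀ g ∈ G6, T (g x) w = g (T x w)) ∧ (3 ≤ eta x → T x w = Phi x w) := by
  have hpc : ContinuousOn p U6 := hp.smooth.continuousOn
  have hpG : ∀ g ∈ G6, ∀ x ∈ U6, p (g x) = p x := hp.inv
  obtain ⟨e0, he0, hcrit⟩ := crit_near hp z₁
  -- convexity of U6
  have hconv : ∀ x ∈ U6, ∀ y ∈ U6, ∀ s : ℝ, 0 ≤ s → s ≤ 1 → x + (s • (y - x)) ∈ U6 := by
    intro x hx y hy s h0 h1
    have hx' : 0 < x 3 := hx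
    have hy' : 0 < y 3 := hy
    change 0 < x 3 + s * (y 3 - x 3)
    have : x 3 + s * (y 3 - x 3) = (1 - s) * x 3 + s * y 3 := by ring
    rw [this]
    rcases h0.eq_or_lt with h | h
    · rw [← h]; simpa using hx'
    · have := mul_pos h hy'
      have := mul_nonneg (sub_nonneg.2 h1) hx'.le
      linarith
  -- affine maps
  have haff : ∀ g ∈ G6, ∀ x y : E6, ∀ s : ℝ, g (x + s • (y - x)) = g x + s • (g y - g x) := by
    intro g hg x y s
    have := affine6 g hg x 0 (y - x) s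
    simp only [zero_add, add_zero, sub_self, add_sub_cancel] at this
    rw [← this]; abel
  -- the set `S`
  let S : Set E6 := {x | x ∈ U6 ∧ ‖p x - z₁‖ ≤ e0 ∧ eta x ≤ 4 ∧ d / 2 ≤ r x}
  have hSU : S ⊆ U6 := fun x hx => hx.1
  have hcl : ∀ (f g : E6 → ℝ), ContinuousOn f U6 → ContinuousOn g U6 → ∀ T : Set E6,
      T ⊆ U6 → (∀ y ∈ T, f y ≤ g y) → ∀ x ∈ U6, x ∈ closure T → f x ≤ g x := by
    intro f g hf hg T hT hTfg x hx hxT
    have : (𝓝[T] x).NeBot := mem_closure_iff_nhdsWithin_neBot.1 hxT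
    have h1 : Tendsto f (𝓝[T] x) (𝓝 (f x)) := (hf x hx).mono_left (nhdsWithin_mono _ hT)
    have h2 : Tendsto g (𝓝[T] x) (𝓝 (g x)) := (hg x hx).mono_left (nhdsWithin_mono _ hT)
    exact le_of_tendsto_of_tendsto h1 h2 (by filter_upwards [self_mem_nhdsWithin] using hTfg)
  have hpz : ContinuousOn (fun x => ‖p x - z₁‖) U6 := (hpc.sub continuousOn_const).norm
  have hSc : ∀ x ∈ U6, x ∈ closure S → x ∈ S := by
    intro x hx hxS
    refine ⟨hx, ?_, ?_, ?_⟩
    · exact hcl (fun x => ‖p x - z₁‖) (fun _ => e0) hpz continuousOn_const S hSU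
        (fun y hy => hy.2.1) x hx hxS
    · exact hcl eta (fun _ => 4) hh.cont continuousOn_const S hSU
        (fun y hy => hy.2.2.1) x hx hxS
    · exact hcl (fun _ => d / 2) r continuousOn_const hr S hSU
        (fun y hy => hy.2.2.2) x hx hxS
  have hSG : ∀ g ∈ G6, ∀ x ∈ S, g x ∈ S := by
    intro g hg x hx
    refine ⟨maps6 g hg x hx.1, ?_, ?_, ?_⟩
    · rw [hpG g hg x hx.1]; exact hx.2.1
    · rw [hh.inv g hg x hx.1]; exact hx.2.2.1
    · rw [hrG g hg x hx.1]; exact hx.2.2.2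
  have hbd : Q6.Bdd {x | x ∈ U6 ∧ ‖p x - z₁‖ ≤ e0 ∧ eta x ≤ 4} := by
    refine bdd_mono (hh.proper (max 4 (‖z₁‖ + e0))) fun x hx => ⟨hx.1, ?_, ?_⟩
    · exact hx.2.2.trans (le_max_left _ _)
    · refine le_trans ?_ (le_max_right _ _)
      have h1 : ‖p x‖ ≤ ‖p x - z₁‖ + ‖z₁‖ := by
        simpa using norm_add_le (p x - z₁) z₁
      have := hx.2.1
      linarith
  have hSb : Q6.Bdd S := bdd_mono hbd fun x hx => ⟨hx.1, hx.2.1, hx.2.2.1⟩
  have hSreg : ∀ x ∈ S, Function.Surjective (fderiv ℝ p x) := by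
    intro x hx
    by_contra hns
    have h1 := hcrit x hx.1 hx.2.1 hns
    exact hns (hreg x hx.1 (by have := hx.2.2.2; linarith) h1)
  obtain ⟨e1, he1, T1, hT1c, hT1⟩ := local_sections hp hSU hSc hSG hSb hSreg
  -- the interpolation
  let c : E6 → ℝ := fun x => max 0 (eta x - 2)
  let Y : E6 → ℂ → E6 := fun x w => T1 x w + c x • (Phi x w - T1 x w)
  let S3 : Set E6 := {x | x ∈ U6 ∧ ‖p x - z₁‖ ≤ e0 ∧ eta x ≤ 3 ∧ d ≤ r x}
  have hS3S : S3 ⊆ S := fun x hx => ⟨hx.1, hx.2.1, by have := hx.2.2.1; linarith,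
    by have := hx.2.2.2; linarith⟩
  have hS3U : S3 ⊆ U6 := fun x hx => hx.1
  have hS3c : ∀ x ∈ U6, x ∈ closure S3 → x ∈ S3 := by
    intro x hx hxS
    refine ⟨hx, ?_, ?_, ?_⟩
    · exact hcl (fun x => ‖p x - z₁‖) (fun _ => e0) hpz continuousOn_const S3 hS3U
        (fun y hy => hy.2.1) x hx hxS
    · exact hcl eta (fun _ => 3) hh.cont continuousOn_const S3 hS3U
        (fun y hy => hy.2.2.1) x hx hxS
    · exact hcl (fun _ => d) r continuousOn_const hr S3 hS3U
        (fun y hy => hy.2.2.2) x hx hxS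
  have hS3G : ∀ g ∈ G6, ∀ x ∈ S3, g x ∈ S3 := by
    intro g hg x hx
    refine ⟨maps6 g hg x hx.1, ?_, ?_, ?_⟩
    · rw [hpG g hg x hx.1]; exact hx.2.1
    · rw [hh.inv g hg x hx.1]; exact hx.2.2.1
    · rw [hrG g hg x hx.1]; exact hx.2.2.2
  have hS3b : Q6.Bdd S3 := bdd_mono hSb hS3S
  obtain ⟨K, hKS, hKc, hKr⟩ := compact_rep hS3U hS3c hS3G hS3b
  -- continuity of `Y`
  have hYc : ContinuousOn (fun y : E6 × ℂ => Y y.1 y.2) {y | y.1 ∈ S3 ∧ ‖y.2 - p y.1‖ ≤ e1} := by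
    have heta : ContinuousOn (fun y : E6 × ℂ => eta y.1)
        {y : E6 × ℂ | y.1 ∈ S3 ∧ ‖y.2 - p y.1‖ ≤ e1} :=
      hh.cont.comp continuousOn_fst fun y hy => hy.1.1
    refine trans_glue heta 2 ?_ ?_
    · refine (hT1c.mono ?_).congr ?_
      · intro y hy
        exact ⟨hS3S hy.1.1, hy.1.2⟩
      · intro y hy
        have : c y.1 = 0 := max_eq_left (by have := hy.2; linarith)
        simp only [Y, this, zero_smul, add_zero]
    · have h1 : ContinuousOn (fun y : E6 × ℂ => T1 y.1 y.2)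
          {y : E6 × ℂ | y ∈ {y : E6 × ℂ | y.1 ∈ S3 ∧ ‖y.2 - p y.1‖ ≤ e1} ∧ 2 ≤ eta y.1} :=
        hT1c.mono fun y hy => ⟨hS3S hy.1.1, hy.1.2⟩
      have h2 : ContinuousOn (fun y : E6 × ℂ => Phi y.1 y.2)
          {y : E6 × ℂ | y ∈ {y : E6 × ℂ | y.1 ∈ S3 ∧ ‖y.2 - p y.1‖ ≤ e1} ∧ 2 ≤ eta y.1} :=
        hh.Phi_cont.mono fun y hy => ⟨⟨hy.1.1.1, by have := hy.2; linarith⟩, mem_univ _⟩
      have h3 : ContinuousOn (fun y : E6 × ℂ => c y.1)
          {y : E6 × ℂ | y ∈ {y : E6 × ℂ | y.1 ∈ S3 ∧ ‖y.2 - p y.1‖ ≤ e1} ∧ 2 ≤ eta y.1} :=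
        (continuousOn_const.sup (heta.sub continuousOn_const)).mono fun y hy => hy.1
      exact h1.add (h3.smul (h2.sub h1))
  have hYself : ∀ x ∈ S3, Y x (p x) = x := by
    intro x hx
    have h1 : T1 x (p x) = x := (hT1 x (hS3S hx)).1
    rcases le_or_gt (eta x) 2 with h | h
    · have : c x = 0 := max_eq_left (by linarith)
      simp only [Y, this, zero_smul, add_zero, h1]
    · have h2 : Phi x (p x) = x := hh.Phi_self x hx.1 (by linarith)
      simp only [Y, h1, h2, sub_self, smul_zero, add_zero]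
  have hYU : ∀ x ∈ S3, ∀ w, ‖w - p x‖ ≤ e1 → Y x w ∈ U6 := by
    intro x hx w hw
    have h1 : T1 x w ∈ U6 := ((hT1 x (hS3S hx)).2 w hw).1
    rcases le_or_gt (eta x) 2 with h | h
    · have : c x = 0 := max_eq_left (by linarith)
      simp only [Y, this, zero_smul, add_zero, h1]
    · have h2 : Phi x w ∈ U6 := (hh.Phi_mem x hx.1 (by linarith) w).1
      refine hconv _ h1 _ h2 _ (le_max_left _ _) (max_le zero_le_one ?_)
      have := hx.2.2.1
      linarith
  have hYG : ∀ x ∈ S3, ∀ w, ‖w - p x‖ ≤ e1 → ∀ g ∈ G6, Y (g x) w = g (Y x w) := by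
    intro x hx w hw g hg
    have h1 : T1 (g x) w = g (T1 x w) := ((hT1 x (hS3S hx)).2 w hw).2.2 g hg
    have hc : c (g x) = c x := by simp only [c, hh.inv g hg x hx.1]
    simp only [Y]
    rw [haff g hg, hc, h1]
    rcases le_or_gt (eta x) 2 with h | h
    · have : c x = 0 := max_eq_left (by linarith)
      simp only [this, zero_smul, add_zero]
    · rw [hh.Phi_G x hx.1 (by linarith) w g hg]
  -- smallness
  let W : E6 → ℂ → ℝ × ℝ × ℂ := fun x w => (eta (Y x w), r (Y x w), p (Y x w))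
  have hWc : ContinuousOn (fun y : E6 × ℂ => W y.1 y.2) {y | y.1 ∈ K ∧ ‖y.2 - p y.1‖ ≤ e1} := by
    have hY' : ContinuousOn (fun y : E6 × ℂ => Y y.1 y.2)
        {y | y.1 ∈ K ∧ ‖y.2 - p y.1‖ ≤ e1} := hYc.mono fun y hy => ⟨hKS hy.1, hy.2⟩
    have hm : MapsTo (fun y : E6 × ℂ => Y y.1 y.2) {y | y.1 ∈ K ∧ ‖y.2 - p y.1‖ ≤ e1} U6 :=
      fun y hy => hYU _ (hKS hy.1) _ hy.2
    exact (hh.cont.comp hY' hm).prodMk ((hr.comp hY' hm).prodMk (hpc.comp hY' hm))
  obtain ⟨ε, hε, hε1, hε2, hε3, hε4⟩ : ∃ ε > 0, ε ≤ 1 ∧ ε ≤ d / 2 ∧ ε ≤ e0 / 2 ∧ ε ≤ e1 / 2 := by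
    refine ⟨min (min 1 (d / 2)) (min (e0 / 2) (e1 / 2)), ?_, ?_, ?_, ?_, ?_⟩
    · exact lt_min (lt_min one_pos (by linarith)) (lt_min (by linarith) (by linarith))
    · exact (min_le_left _ _).trans (min_le_left _ _)
    · exact (min_le_left _ _).trans (min_le_right _ _)
    · exact (min_le_right _ _).trans (min_le_left _ _)
    · exact (min_le_right _ _).trans (min_le_right _ _)
  obtain ⟨δ, hδ, hδe, hδW⟩ := trans_unif hKc (hpc.mono (hKS.trans hS3U)) he1 hWc hε
  -- transfer to `S3`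
  have hclose : ∀ x ∈ S3, ∀ w, ‖w - p x‖ ≤ δ →
      |eta (Y x w) - eta x| ≤ ε ∧ |r (Y x w) - r x| ≤ ε ∧ ‖p (Y x w) - p x‖ ≤ ε := by
    intro x hx w hw
    obtain ⟨g, hg, hgK⟩ := hKr x hx
    have hpx := hpG g hg x hx.1
    have h1 := hδW (g x) hgK w (by rw [hpx]; exact hw)
    have h2 : Y (g x) w = g (Y x w) := hYG x hx w (hw.trans hδe) g hg
    have h3 : Y (g x) (p (g x)) = g x := hYself (g x) (hKS hgK)
    have hYx := hYU x hx w (hw.trans hδe)
    simp only [W, h2, h3] at h1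
    rw [hh.inv g hg x hx.1, hrG g hg x hx.1, hpx, hh.inv g hg _ hYx, hrG g hg _ hYx,
      hpG g hg _ hYx] at h1
    have h4 := (norm_fst_le _).trans h1
    have h5 := (norm_snd_le _).trans h1
    have h6 := (norm_fst_le _).trans h5
    have h7 := (norm_snd_le _).trans h5
    exact ⟨h4, h6, h7⟩
  -- the radius
  obtain ⟨e, he, hee0, heδ, hee1⟩ : ∃ e > 0, e ≤ e0 / 2 ∧ 2 * e ≤ δ ∧ 2 * e ≤ e1 / 2 := by
    refine ⟨min (e0 / 2) (min (δ / 2) (e1 / 4)), ?_, ?_, ?_, ?_⟩
    · exact lt_min (by linarith) (lt_min (by linarith) (by linarith))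
    · exact min_le_left _ _
    · have := (min_le_right (e0 / 2) (min (δ / 2) (e1 / 4))).trans (min_le_left _ _)
      linarith
    · have := (min_le_right (e0 / 2) (min (δ / 2) (e1 / 4))).trans (min_le_right _ _)
      linarith
  have hdist : ∀ x ∈ Fib U6 p (Metric.closedBall z₁ e), ∀ w ∈ Metric.closedBall z₁ e,
      ‖w - p x‖ ≤ 2 * e := by
    intro x hx w hw
    have h1 : ‖p x - z₁‖ ≤ e := by rw [← dist_eq_norm]; exact hx.2
    have h2 : ‖w - z₁‖ ≤ e := by rw [← dist_eq_norm]; exact hw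
    have h3 : w - p x = (w - z₁) - (p x - z₁) := by ring
    rw [h3]
    exact (norm_sub_le _ _).trans (by linarith)
  have hmem3 : ∀ x ∈ Fib U6 p (Metric.closedBall z₁ e), d ≤ r x → eta x ≤ 3 → x ∈ S3 := by
    intro x hx hrx hex
    have h1 : ‖p x - z₁‖ ≤ e := by rw [← dist_eq_norm]; exact hx.2
    exact ⟨hx.1, by linarith, hex, hrx⟩
  have hYS : ∀ x ∈ Fib U6 p (Metric.closedBall z₁ e), d ≤ r x → eta x ≤ 3 →
      ∀ w ∈ Metric.closedBall z₁ e, Y x w ∈ S ∧ ‖w - p (Y x w)‖ ≤ e1 := by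
    intro x hx hrx hex w hw
    have hx3 := hmem3 x hx hrx hex
    have hwx := hdist x hx w hw
    obtain ⟨h1, h2, h3⟩ := hclose x hx3 w (by linarith)
    have h4 : ‖p x - z₁‖ ≤ e := by rw [← dist_eq_norm]; exact hx.2
    have h5 := (abs_le.1 h1).2
    have h6 := (abs_le.1 h2).1
    refine ⟨⟨hYU x hx3 w (by linarith), ?_, ?_, ?_⟩, ?_⟩
    · have : p (Y x w) - z₁ = (p (Y x w) - p x) + (p x - z₁) := by ring
      rw [this]
      exact (norm_add_le _ _).trans (by linarith)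
    · linarith
    · linarith
    · have : w - p (Y x w) = (w - p x) - (p (Y x w) - p x) := by ring
      rw [this]
      exact (norm_sub_le _ _).trans (by linarith)
  have hY3 : ∀ x ∈ Fib U6 p (Metric.closedBall z₁ e), d ≤ r x → eta x = 3 →
      ∀ w ∈ Metric.closedBall z₁ e, T1 (Y x w) w = Phi x w := by
    intro x hx hrx hex w hw
    have hc : c x = 1 := by
      simp only [c, hex]; norm_num
    have hYP : Y x w = Phi x w := by simp only [Y, hc, one_smul, add_sub_cancel]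
    obtain ⟨h1, h2⟩ := hYS x hx hrx hex.le w hw
    have h3 := (hh.Phi_mem x hx.1 (by linarith) w).2.2
    have h4 := (hT1 _ h1).1
    rw [hYP, h3] at h4
    rw [hYP, h4]
  refine ⟨e, he, fun x w => if eta x ≤ 3 then T1 (Y x w) w else Phi x w, ?_, ?_⟩
  · have heta : ContinuousOn (fun y : E6 × ℂ => eta y.1)
        ({x | x ∈ Fib U6 p (Metric.closedBall z₁ e) ∧ d ≤ r x} ×ˢ Metric.closedBall z₁ e) :=
      hh.cont.comp continuousOn_fst fun y hy => hy.1.1.1
    refine trans_glue heta 3 ?_ ?_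
    · have hY' : ContinuousOn (fun y : E6 × ℂ => (Y y.1 y.2, y.2))
          {x | x ∈ ({x | x ∈ Fib U6 p (Metric.closedBall z₁ e) ∧ d ≤ r x} ×ˢ
            Metric.closedBall z₁ e) ∧ eta x.1 ≤ 3} := by
        refine ContinuousOn.prodMk (hYc.mono ?_) continuousOn_snd
        intro y hy
        refine ⟨hmem3 y.1 hy.1.1.1 hy.1.1.2 hy.2, ?_⟩
        have := hdist y.1 hy.1.1.1 y.2 hy.1.2
        linarith
      have h1 : ContinuousOn (fun y : E6 × ℂ => T1 (Y y.1 y.2) y.2)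
          {x | x ∈ ({x | x ∈ Fib U6 p (Metric.closedBall z₁ e) ∧ d ≤ r x} ×ˢ
            Metric.closedBall z₁ e) ∧ eta x.1 ≤ 3} :=
        hT1c.comp hY' fun y hy => hYS y.1 hy.1.1.1 hy.1.1.2 hy.2 y.2 hy.1.2
      refine h1.congr fun y hy => ?_
      have h2 : eta y.1 ≤ 3 := hy.2
      simp only [h2, if_true]
    · have h1 : ContinuousOn (fun y : E6 × ℂ => Phi y.1 y.2)
          {x | x ∈ ({x | x ∈ Fib U6 p (Metric.closedBall z₁ e) ∧ d ≤ r x} ×ˢ
            Metric.closedBall z₁ e) ∧ 3 ≤ eta x.1} :=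
        hh.Phi_cont.mono fun y hy => ⟨⟨hy.1.1.1.1, by have := hy.2; linarith⟩, mem_univ _⟩
      refine h1.congr fun y hy => ?_
      have h2 : 3 ≤ eta y.1 := hy.2
      rcases h2.eq_or_lt with h | h
      · simp only [← h, le_refl, if_true]
        exact hY3 y.1 hy.1.1.1 hy.1.1.2 h.symm y.2 hy.1.2
      · simp only [not_le.2 h, if_false]
  · intro x hx hrx
    have hgx : ∀ g ∈ G6, eta (g x) = eta x := fun g hg => hh.inv g hg x hx.1
    by_cases hex : eta x ≤ 3
    · have hx3 := hmem3 x hx hrx hex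
      refine ⟨?_, fun w hw => ?_⟩
      · simp only [hex, if_true]
        rw [hYself x hx3]
        exact (hT1 x (hS3S hx3)).1
      · obtain ⟨h1, h2⟩ := hYS x hx hrx hex w hw
        obtain ⟨h3, h4, h5⟩ := (hT1 _ h1).2 w h2
        have hwx := hdist x hx w hw
        simp only [hex, if_true]
        refine ⟨h3, h4, fun g hg => ?_, fun h => ?_⟩
        · rw [hgx g hg]
          simp only [hex, if_true]
          rw [hYG x hx3 w (by linarith) g hg]
          exact h5 g hg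
        · exact hY3 x hx hrx (le_antisymm hex h) w hw
    · have hex' : 1 < eta x := by
        have := not_le.1 hex
        linarith
      refine ⟨?_, fun w hw => ?_⟩
      · simp only [hex, if_false]
        exact hh.Phi_self x hx.1 hex'
      · simp only [hex, if_false]
        obtain ⟨h1, h2, h3⟩ := hh.Phi_mem x hx.1 hex' w
        refine ⟨h1, h3, fun g hg => ?_, fun _ => trivial⟩
        rw [hgx g hg]
        simp only [hex, if_false]
        exact hh.Phi_G x hx.1 hex' w g hg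

end Pool.Agent.LF
end

section

/-! # Task NearA: displacement estimate -/

open Set Filter Topology
open scoped ContDiff

namespace Pool.Agent.LF

/-- transport over a small disc changes `r` by a small amount -/
theorem transport_near {p : E6 → ℂ} (hp : IsLefschetz X6 p) {eta : E6 → ℝ}
    {Phi : E6 → ℂ → E6} (hh : Hor p eta Phi) (z₁ : ℂ) {r : E6 → ℝ} (hr : ContinuousOn r U6)
    (hrG : ∀ g ∈ G6, ∀ x ∈ U6, r (g x) = r x) {d d₀ : ℝ}
    (hrd : ∀ x ∈ U6, 2 ≤ eta x → r x = d₀) {e : ℝ} (he : 0 < e) {T : E6 → ℂ → E6}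
    (hT : ContinuousOn (fun y : E6 × ℂ => T y.1 y.2)
        ({x | x ∈ Fib U6 p (Metric.closedBall z₁ e) ∧ d ≤ r x} ×ˢ Metric.closedBall z₁ e))
    (hT' : ∀ x ∈ Fib U6 p (Metric.closedBall z₁ e), d ≤ r x → T x (p x) = x ∧
        ∀ w ∈ Metric.closedBall z₁ e, T x w ∈ U6 ∧ p (T x w) = w ∧
          (∀ g ∈ G6, T (g x) w = g (T x w)) ∧ (3 ≤ eta x → T x w = Phi x w))
    {t : ℝ} (ht : 0 < t) :
    ∃ e' > 0, e' ≤ e ∧ ∀ x ∈ Fib U6 p (Metric.closedBall z₁ e'), d ≤ r x →
      ∀ w ∈ Metric.closedBall z₁ e', |r (T x w) - r x| ≤ t := by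
  have hpc : ContinuousOn p U6 := hp.smooth.continuousOn
  have hpG : ∀ g ∈ G6, ∀ x ∈ U6, p (g x) = p x := hp.inv
  have hUo : IsOpen U6 := isOpen_U6
  have hUm : ∀ g ∈ G6, ∀ x ∈ U6, g x ∈ U6 := maps6
  set S : Set E6 := {x | x ∈ U6 ∧ p x ∈ Metric.closedBall z₁ e ∧ d ≤ r x ∧ eta x ≤ 3} with hS
  have hSU : S ⊆ U6 := fun x hx => hx.1
  have hSc : ∀ x ∈ U6, x ∈ closure S → x ∈ S := by
    intro x hx hxc
    have hne : (𝓝[S] x).NeBot := mem_closure_iff_nhdsWithin_neBot.1 hxc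
    have hle : 𝓝[S] x ≤ 𝓝[U6] x := nhdsWithin_mono x hSU
    refine ⟨hx, ?_, ?_, ?_⟩
    · exact Metric.isClosed_closedBall.mem_of_tendsto ((hpc x hx).mono_left hle)
        (eventually_nhdsWithin_of_forall fun y hy => hy.2.1)
    · exact ge_of_tendsto ((hr x hx).mono_left hle)
        (eventually_nhdsWithin_of_forall fun y hy => hy.2.2.1)
    · exact le_of_tendsto ((hh.cont x hx).mono_left hle)
        (eventually_nhdsWithin_of_forall fun y hy => hy.2.2.2)
  have hSG : ∀ g ∈ G6, ∀ x ∈ S, g x ∈ S := by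
    intro g hg x hx
    refine ⟨hUm g hg x hx.1, ?_, ?_, ?_⟩
    · rw [hpG g hg x hx.1]; exact hx.2.1
    · rw [hrG g hg x hx.1]; exact hx.2.2.1
    · rw [hh.inv g hg x hx.1]; exact hx.2.2.2
  have hSb : Q6.Bdd S := by
    refine bdd_mono (hh.proper (max 3 (‖z₁‖ + e))) ?_
    intro x hx
    refine ⟨hx.1, hx.2.2.2.trans (le_max_left _ _), ?_⟩
    have h3 : ‖p x - z₁‖ ≤ e := by
      have := hx.2.1
      rwa [Metric.mem_closedBall, dist_eq_norm] at this
    have : ‖p x‖ ≤ ‖z₁‖ + e := by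
      calc ‖p x‖ = ‖(p x - z₁) + z₁‖ := by ring_nf
        _ ≤ ‖p x - z₁‖ + ‖z₁‖ := norm_add_le _ _
        _ ≤ ‖z₁‖ + e := by linarith
    exact this.trans (le_max_right _ _)
  obtain ⟨K, hKS, hK, hKG⟩ := compact_rep hSU hSc hSG hSb
  -- uniform continuity on `K × closedBall`
  have hKb : IsCompact (K ×ˢ Metric.closedBall z₁ e) := hK.prod (isCompact_closedBall z₁ e)
  have hF : ContinuousOn (fun y : E6 × ℂ => r (T y.1 y.2) - r y.1)
      (K ×ˢ Metric.closedBall z₁ e) := by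
    have h1 : ContinuousOn (fun y : E6 × ℂ => T y.1 y.2) (K ×ˢ Metric.closedBall z₁ e) := by
      refine hT.mono ?_
      rintro ⟨x, w⟩ ⟨h1, h2⟩
      exact ⟨⟨⟨(hKS h1).1, (hKS h1).2.1⟩, (hKS h1).2.2.1⟩, h2⟩
    refine ContinuousOn.sub ?_ ?_
    · refine hr.comp h1 ?_
      rintro ⟨x, w⟩ ⟨h1, h2⟩
      exact ((hT' x ⟨(hKS h1).1, (hKS h1).2.1⟩ (hKS h1).2.2.1).2 w h2).1
    · refine hr.comp continuousOn_fst ?_
      rintro ⟨x, w⟩ ⟨h1, h2⟩
      exact (hKS h1).1
  have hU := hKb.uniformContinuousOn_of_continuous hF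
  rw [Metric.uniformContinuousOn_iff_le] at hU
  obtain ⟨δ, hδ, hδ'⟩ := hU t ht
  refine ⟨min e (δ / 2), lt_min he (by linarith), min_le_left _ _, ?_⟩
  intro x hx hdx w hw
  have hx1 : x ∈ Fib U6 p (Metric.closedBall z₁ e) :=
    ⟨hx.1, Metric.closedBall_subset_closedBall (min_le_left _ _) hx.2⟩
  have hw1 : w ∈ Metric.closedBall z₁ e :=
    Metric.closedBall_subset_closedBall (min_le_left _ _) hw
  rcases le_total (eta x) 3 with h | h
  · have hxS : x ∈ S := ⟨hx.1, hx1.2, hdx, h⟩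
    obtain ⟨g, hg, hgx⟩ := hKG x hxS
    have hpx : p x ∈ Metric.closedBall z₁ e := hx1.2
    have hgxS := hKS hgx
    have hpg : p (g x) = p x := hpG g hg x hx.1
    have key := hδ' (g x, w) ⟨hgx, hw1⟩ (g x, p x) ⟨hgx, hpx⟩ (by
      rw [Prod.dist_eq]
      simp only [dist_self]
      refine max_le hδ.le ?_
      have h1 : dist w z₁ ≤ δ / 2 := by
        have := hw; rw [Metric.mem_closedBall] at this; exact this.trans (min_le_right _ _)
      have h2 : dist (p x) z₁ ≤ δ / 2 := by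
        have := hx.2; rw [Metric.mem_closedBall] at this; exact this.trans (min_le_right _ _)
      have h3 := dist_triangle_right w (p x) z₁
      linarith)
    have h1 : T (g x) (p x) = g x := by
      have := (hT' (g x) ⟨hgxS.1, hgxS.2.1⟩ hgxS.2.2.1).1
      rwa [hpg] at this
    have h2 : T (g x) w = g (T x w) := ((hT' x hx1 hdx).2 w hw1).2.2.1 g hg
    have h3 : T x w ∈ U6 := ((hT' x hx1 hdx).2 w hw1).1
    simp only [h1, h2, hrG g hg _ h3, hrG g hg x hx.1, sub_self] at key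
    rwa [Real.dist_eq, sub_zero] at key
  · have h1 : T x w = Phi x w := ((hT' x hx1 hdx).2 w hw1).2.2.2 h
    have h2 := hh.Phi_mem x hx.1 (by linarith) w
    rw [h1, hrd (Phi x w) h2.1 (by rw [h2.2.1]; linarith), hrd x hx.1 (by linarith), sub_self,
      abs_zero]
    exact ht.le

end Pool.Agent.LF
end

section

/-! # Task NearB: construction of the local data -/

open Set Filter Topology
open scoped ContDiff

namespace Pool.Agent.LF

theorem exists_localData {p : E6 → ℂ} (hp : IsLefschetz X6 p) (z₁ : ℂ) :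
    Nonempty (LocalData U6 p z₁) := by
  obtain ⟨eta, Phi, hh⟩ := exists_hor hp
  have hUo : IsOpen U6 := isOpen_U6
  have hUm : ∀ g ∈ G6, ∀ x ∈ U6, g x ∈ U6 := maps6
  obtain ⟨r, I, psi, d₀, hd₀, hr, hrG, hrd₀, hrreg, hrV, hpc, hpi, hpm, hpb, hpo, -⟩ :=
    morse_balls hp z₁ (V := {x | x ∈ U6 ∧ eta x < 2})
      (by
        have h := hh.cont.isOpen_inter_preimage hUo (isOpen_Iio (a := (2 : ℝ)))
        exact h)
      (fun g hg x hx hV => ⟨hUm g hg x hx, by rw [hh.inv g hg x hx]; exact hV.2⟩)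
      (fun x hx hns _ => ⟨hx, by
        by_contra hlt
        exact hns (hh.reg x hx (by linarith [not_lt.1 hlt]))⟩)
  have hrfar : ∀ x ∈ U6, 2 ≤ eta x → r x = d₀ := by
    intro x hx h
    by_contra hne
    have := hrV x hx (lt_of_le_of_ne (hrd₀ x hx) hne)
    exact absurd this.2 (not_lt.2 h)
  obtain ⟨d, hd⟩ : ∃ d : ℝ, d = d₀ / 6 := ⟨_, rfl⟩
  have hdpos : 0 < d := by rw [hd]; positivity
  have h5d : 5 * d < d₀ := by rw [hd]; linarith
  obtain ⟨e₁, he₁, T, hT, hT'⟩ := transport hp hh z₁ hr hrG hrreg hdpos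
    (fun x hx h => by rw [hrfar x hx h]; linarith)
  obtain ⟨e₂, he₂, he₂₁, hnear⟩ := transport_near hp hh z₁ hr hrG hrfar he₁ hT hT' hdpos
  have he : 0 < min e₂ (d / 2) := lt_min he₂ (by linarith)
  have hb₂ : Metric.closedBall z₁ (min e₂ (d / 2)) ⊆ Metric.closedBall z₁ e₂ :=
    Metric.closedBall_subset_closedBall (min_le_left _ _)
  have hb₁ : Metric.closedBall z₁ (min e₂ (d / 2)) ⊆ Metric.closedBall z₁ e₁ :=
    hb₂.trans (Metric.closedBall_subset_closedBall he₂₁)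
  have hF₁ : ∀ x ∈ Fib U6 p (Metric.closedBall z₁ (min e₂ (d / 2))),
      x ∈ Fib U6 p (Metric.closedBall z₁ e₁) := fun x hx => ⟨hx.1, hb₁ hx.2⟩
  have hF₂ : ∀ x ∈ Fib U6 p (Metric.closedBall z₁ (min e₂ (d / 2))),
      x ∈ Fib U6 p (Metric.closedBall z₁ e₂) := fun x hx => ⟨hx.1, hb₂ hx.2⟩
  refine ⟨{
    e := min e₂ (d / 2)
    d := d
    r := r
    I := I
    psi := psi
    T := T
    e_pos := he
    e_lt := lt_of_le_of_lt (min_le_right _ _) (by linarith)
    r_cont := hr.mono fun x hx => hx.1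
    psi_cont := fun i => (hpc i).mono fun z hz => lt_of_le_of_lt hz h5d
    psi_inj := fun i => (hpi i).mono fun z hz => lt_of_le_of_lt hz h5d
    psi_mem := fun i z hz => hpm i z (lt_of_le_of_lt hz h5d)
    ball := fun x hx hrx => ?_
    sep := fun i => ⟨_, hpo i, fun x hx hrx => ⟨?_, ?_⟩⟩
    T_cont := hT.mono ?_
    T_mem := fun x hx hdx w hw =>
      ⟨((hT' x (hF₁ x hx) hdx).2 w (hb₁ hw)).1, ((hT' x (hF₁ x hx) hdx).2 w (hb₁ hw)).2.1⟩
    T_self := fun x hx hdx => (hT' x (hF₁ x hx) hdx).1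
    T_near₁ := fun x hx hdx hx2 w hw => ?_
    T_near₂ := fun x hx hdx hx2 w hw => ?_ }⟩
  · obtain ⟨i, z, hz, rfl⟩ := hpb x hx.1 (lt_of_le_of_lt hrx h5d)
    exact ⟨i, z, by rw [← (hpm i z hz).2.2]; exact hrx, rfl⟩
  · rintro ⟨z, hz, rfl⟩
    exact ⟨z, by rw [← (hpm i z hz).2.2]; exact hrx, rfl⟩
  · rintro ⟨z, hz, rfl⟩
    exact ⟨z, lt_of_le_of_lt hz h5d, rfl⟩
  · rintro ⟨x, w⟩ ⟨h1, h2⟩
    exact ⟨⟨hF₁ x h1.1, h1.2⟩, hb₁ h2⟩
  · have := (abs_le.1 (hnear x (hF₂ x hx) hdx w (hb₂ hw))).2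
    linarith
  · have := (abs_le.1 (hnear x (hF₂ x hx) hdx w (hb₂ hw))).2
    linarith

end Pool.Agent.LF
end

section

/-! # Task NearC: construction of `Ret` -/

open Set Filter Topology
open scoped ContDiff

namespace Pool.Agent.LF

theorem exists_ret {p : E6 → ℂ} (hp : IsLefschetz X6 p) (z₀ : ℂ)
    (hreg : ∀ x ∈ U6, p x = z₀ → Function.Surjective (fderiv ℝ p x)) :
    ∃ e T, Ret p z₀ e T := by
  obtain ⟨eta, Phi, hh⟩ := exists_hor hp
  obtain ⟨e, he, T, hT, hT'⟩ := transport hp hh z₀ (r := fun _ => (1 : ℝ)) continuousOn_const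
    (fun _ _ _ _ => rfl) (fun x hx _ h => hreg x hx h) (d := 1) one_pos (fun _ _ _ => le_rfl)
  refine ⟨e, T, he, ?_, ?_, ?_, ?_, ?_⟩
  · refine hT.mono ?_
    rintro ⟨x, w⟩ ⟨h1, h2⟩
    exact ⟨⟨h1, le_rfl⟩, h2⟩
  · intro x hx w hw
    exact ⟨((hT' x hx le_rfl).2 w hw).1, ((hT' x hx le_rfl).2 w hw).2.1⟩
  · intro x hx
    exact (hT' x hx le_rfl).1
  · intro x hx w hw
    exact ((hT' x hx le_rfl).2 w hw).2.2.1
  · intro L hL
    obtain ⟨M, hM⟩ := bdd_image (S := L ∩ U6) inter_subset_right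
      (bdd_mono hL inter_subset_left) hh.cont hh.inv
    refine bdd_mono (hh.proper (max (max 3 M) (‖z₀‖ + e))) ?_
    rintro x ⟨hx, hxL⟩
    have hz₀ : z₀ ∈ Metric.closedBall z₀ e := Metric.mem_closedBall_self he.le
    obtain ⟨h1, h2, -, h4⟩ := (hT' x hx le_rfl).2 z₀ hz₀
    refine ⟨hx.1, ?_, ?_⟩
    · rcases le_total (eta x) 3 with h | h
      · exact h.trans ((le_max_left _ _).trans (le_max_left _ _))
      · have h5 := h4 h
        have h6 := (hh.Phi_mem x hx.1 (by linarith) z₀).2.1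
        have h7 := hM (T x z₀) ⟨hxL, h1⟩
        rw [h5, h6] at h7
        exact (le_abs_self _).trans (h7.trans ((le_max_right _ _).trans (le_max_left _ _)))
    · have h3 : ‖p x - z₀‖ ≤ e := by
        have := hx.2
        rwa [Metric.mem_closedBall, dist_eq_norm] at this
      have : ‖p x‖ ≤ ‖z₀‖ + e := by
        calc ‖p x‖ = ‖(p x - z₀) + z₀‖ := by ring_nf
          _ ≤ ‖p x - z₀‖ + ‖z₀‖ := norm_add_le _ _
          _ ≤ ‖z₀‖ + e := by linarith
      exact this.trans (le_max_right _ _)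

end Pool.Agent.LF
end

section

end

section

/-! # Task IntA: divergence theorem -/

open Set Filter Topology MeasureTheory
open scoped ContDiff

namespace Pool.Agent.LF

private theorem isOpen_U6' : IsOpen U6 := isOpen_lt continuous_const (continuous_apply 3)

private theorem integral_fderiv_zero {F : E6 → ℝ} (hF : ContDiff ℝ ∞ F)
    (hc : HasCompactSupport F) (v : E6) :
    Integrable (fun x => fderiv ℝ F x v) ∧ ∫ x, fderiv ℝ F x v = 0 := by
  have hcont : Continuous (fun x => fderiv ℝ F x v) :=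
    (hF.continuous_fderiv (by simp)).clm_apply continuous_const
  have hcs : HasCompactSupport (fun x => fderiv ℝ F x v) := hc.fderiv_apply ℝ v
  have hI : Integrable (fun x => fderiv ℝ F x v) := hcont.integrable_of_hasCompactSupport hcs
  refine ⟨hI, ?_⟩
  have h := integral_mul_fderiv_eq_neg_fderiv_mul_of_integrable (μ := (volume : Measure E6))
    (f := F) (g := fun _ => (1 : ℝ)) (v := v) (by simpa using hI) (by simp)
    (by simpa using hF.continuous.integrable_of_hasCompactSupport hc)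
    (fun x _ => (hF.differentiable (by simp)) x) (fun x _ => differentiableAt_const _)
  simpa using h.symm

/-- divergence theorem for a compactly supported function -/
theorem integral_zero {p : E6 → ℂ} (hp : ContDiffOn ℝ ∞ p U6) {th : E6 → ℝ}
    (hs : ContDiff ℝ ∞ th) (hc : HasCompactSupport th) (hU : tsupport th ⊆ U6) :
    ∫ x, (2 * BB p x * th x + fderiv ℝ th x (NN p x)) = 0 := by
  have hN : ∀ i : Fin 6, ∀ x ∈ U6, ContDiffAt ℝ ∞ (fun y => NN p y i) x := by
    intro i x hx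
    have h1 : ContDiffAt ℝ ∞ (NN p) x := (NN_cont hp).contDiffAt (isOpen_U6'.mem_nhds hx)
    exact (contDiffAt_pi.1 h1) i
  have hz : ∀ i : Fin 6, ∀ x, x ∉ tsupport th → (fun y => th y * NN p y i) =ᶠ[𝓝 x] fun _ => 0 := by
    intro i x hx
    have h1 : th =ᶠ[𝓝 x] 0 := notMem_tsupport_iff_eventuallyEq.1 hx
    filter_upwards [h1] with y hy
    simp [hy]
  have hF : ∀ i : Fin 6, ContDiff ℝ ∞ (fun y => th y * NN p y i) := by
    intro i
    rw [contDiff_iff_contDiffAt]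
    intro x
    by_cases hx : x ∈ tsupport th
    · exact hs.contDiffAt.mul (hN i x (hU hx))
    · exact contDiffAt_const.congr_of_eventuallyEq (hz i x hx)
  have hFc : ∀ i : Fin 6, HasCompactSupport (fun y => th y * NN p y i) := fun i =>
    hc.mul_right
  have key : ∀ x, 2 * BB p x * th x + fderiv ℝ th x (NN p x) =
      ∑ i : Fin 6, fderiv ℝ (fun y => th y * NN p y i) x (Pi.single i 1) := by
    intro x
    by_cases hx : x ∈ tsupport th
    · have hxU := hU hx
      have h1 : ∀ i : Fin 6, fderiv ℝ (fun y => th y * NN p y i) x (Pi.single i 1) =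
          th x * fderiv ℝ (fun y => NN p y i) x (Pi.single i 1) +
            NN p x i * fderiv ℝ th x (Pi.single i 1) := by
        intro i
        rw [fderiv_fun_mul (hs.differentiable (by simp) x)
          ((hN i x hxU).differentiableAt (by simp))]
        simp
      simp_rw [h1]
      rw [Finset.sum_add_distrib, ← Finset.mul_sum, div_NN hp hxU]
      have h2 : fderiv ℝ th x (NN p x) = ∑ i : Fin 6, NN p x i * fderiv ℝ th x (Pi.single i 1) := by
        conv_lhs => rw [← Finset.univ_sum_single (NN p x)]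
        rw [map_sum]
        refine Finset.sum_congr rfl fun i _ => ?_
        have : (Pi.single i (NN p x i) : E6) = NN p x i • Pi.single i (1 : ℝ) := by
          rw [← Pi.single_smul]; simp
        rw [this, map_smul]; simp
      rw [h2]; ring
    · have h1 : ∀ i : Fin 6, fderiv ℝ (fun y => th y * NN p y i) x = 0 := by
        intro i
        rw [(hz i x hx).fderiv_eq]; simp
      have h2 : th =ᶠ[𝓝 x] 0 := notMem_tsupport_iff_eventuallyEq.1 hx
      have h3 : fderiv ℝ th x = 0 := by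
        rw [h2.fderiv_eq]; simp
      have h4 : th x = 0 := h2.eq_of_nhds
      simp [h1, h3, h4]
  simp_rw [key]
  rw [integral_finsetSum]
  · exact Finset.sum_eq_zero fun i _ => (integral_fderiv_zero (hF i) (hFc i) _).2
  · exact fun i _ => (integral_fderiv_zero (hF i) (hFc i) _).1

end Pool.Agent.LF
end

section

/-! # Task IntC: partition of unity for the group -/

open Set Filter Topology MeasureTheory
open scoped ContDiff

namespace Pool.Agent.LF

namespace IntC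

/-- one-dimensional bump, `∑ b1 (s + k) = 1` -/
noncomputable def b1 (s : ℝ) : ℝ := Real.smoothTransition (s + 1) - Real.smoothTransition s

theorem b1_smooth : ContDiff ℝ ∞ b1 := by
  unfold b1
  exact (Real.smoothTransition.contDiff.comp (contDiff_id.add contDiff_const)).sub
    Real.smoothTransition.contDiff

theorem b1_nonneg (s : ℝ) : 0 ≤ b1 s :=
  sub_nonneg.2 (Real.smoothTransition.monotone (by linarith))

theorem b1_supp {s : ℝ} (h : b1 s ≠ 0) : -1 < s ∧ s < 1 := by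
  by_contra hc
  apply h
  unfold b1
  rcases le_or_gt s (-1) with h1 | h1
  · rw [Real.smoothTransition.zero_of_nonpos (by linarith),
      Real.smoothTransition.zero_of_nonpos (by linarith), sub_zero]
  · have h2 : 1 ≤ s := by
      by_contra h3
      exact hc ⟨h1, lt_of_not_ge h3⟩
    rw [Real.smoothTransition.one_of_one_le (by linarith),
      Real.smoothTransition.one_of_one_le h2, sub_self]

theorem b1_sum (s : ℝ) : ∑ᶠ k : ℤ, b1 (s + k) = 1 := by
  have hf0 : 0 ≤ s - ⌊s⌋ := sub_nonneg.2 (Int.floor_le s)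
  have hf1 : s - ⌊s⌋ < 1 := by linarith [Int.lt_floor_add_one s]
  have hsub : (Function.support fun k : ℤ => b1 (s + k)) ⊆
      (({-⌊s⌋, -⌊s⌋ - 1} : Finset ℤ) : Set ℤ) := by
    intro k hk
    have h1 := b1_supp (Function.mem_support.1 hk)
    have h2 : (-2 : ℝ) < ((⌊s⌋ + k : ℤ) : ℝ) := by
      push_cast
      linarith [h1.1]
    have h3 : ((⌊s⌋ + k : ℤ) : ℝ) < 1 := by
      push_cast
      linarith [h1.2]
    have h4 : -2 < ⌊s⌋ + k := by exact_mod_cast h2
    have h5 : ⌊s⌋ + k < 1 := by exact_mod_cast h3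
    simp only [Finset.coe_insert, Finset.coe_singleton, Set.mem_insert_iff, Set.mem_singleton_iff]
    omega
  rw [finsum_eq_sum_of_support_subset _ hsub, Finset.sum_pair (by omega)]
  push_cast
  unfold b1
  rw [show s + -(⌊s⌋ : ℝ) = s - ⌊s⌋ by ring, show s + (-(⌊s⌋ : ℝ) - 1) = s - ⌊s⌋ - 1 by ring,
    show s - ⌊s⌋ - 1 + 1 = s - (⌊s⌋ : ℝ) by ring,
    Real.smoothTransition.one_of_one_le (show 1 ≤ s - (⌊s⌋ : ℝ) + 1 by linarith),
    Real.smoothTransition.zero_of_nonpos (show s - (⌊s⌋ : ℝ) - 1 ≤ 0 by linarith)]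
  ring

/-- the level coordinate -/
noncomputable def lev (x : E6) : ℝ := Real.log (x 3) / Real.log (Real.goldenRatio ^ 2)

/-- second coordinate of `(x0, x1) = α (1,1) + β (φ, φ')` -/
noncomputable def be (a b : ℝ) : ℝ := (a - b) / Real.sqrt 5

/-- first coordinate -/
noncomputable def al (a b : ℝ) : ℝ := a - be a b * Real.goldenRatio

theorem be_add (a b : ℝ) (m n : ℤ) :
    be (a + (m + n * Real.goldenRatio)) (b + (m + n * Real.goldenConj)) = be a b + n := by
  unfold be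
  have h5 : (0 : ℝ) < Real.sqrt 5 := Real.sqrt_pos.2 (by norm_num)
  have h := Real.goldenRatio_sub_goldenConj
  field_simp
  linear_combination (n : ℝ) * h

theorem al_add (a b : ℝ) (m n : ℤ) :
    al (a + (m + n * Real.goldenRatio)) (b + (m + n * Real.goldenConj)) = al a b + m := by
  unfold al
  rw [be_add]
  ring

theorem log_pos' : 0 < Real.log (Real.goldenRatio ^ 2) := by
  apply Real.log_pos
  have := Real.one_lt_goldenRatio
  nlinarith

theorem lev_g (k a b : ℤ) (x : E6) (hx : x ∈ U6) : lev (g6 k a b x) = lev x + k := by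
  have hx' : 0 < x 3 := hx
  unfold lev
  have h1 : g6 k a b x 3 = Real.goldenRatio ^ (2 * k) * x 3 := rfl
  rw [h1, Real.log_mul (zpow_ne_zero _ Real.goldenRatio_pos.ne') hx'.ne', zpow_mul,
    Real.log_zpow]
  have := log_pos'
  have h2 : (Real.goldenRatio ^ (2 : ℤ) : ℝ) = Real.goldenRatio ^ 2 := by norm_cast
  rw [h2, add_div, mul_div_assoc, div_self this.ne', mul_one, add_comm]

/-- the partition function -/
noncomputable def bb (x : E6) : ℝ := b1 (lev x) * (b1 (al (x 0) (x 1)) * b1 (be (x 0) (x 1)))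

theorem bb_nonneg (x : E6) : 0 ≤ bb x :=
  mul_nonneg (b1_nonneg _) (mul_nonneg (b1_nonneg _) (b1_nonneg _))

theorem bb_smooth : ContDiffOn ℝ ∞ bb U6 := by
  unfold bb
  have hc : ∀ i : Fin 6, ContDiff ℝ ∞ fun x : E6 => x i := fun i => contDiff_apply ℝ ℝ i
  have hbe : ContDiff ℝ ∞ fun x : E6 => be (x 0) (x 1) := by
    unfold be
    exact ((hc 0).sub (hc 1)).div_const _
  have hal : ContDiff ℝ ∞ fun x : E6 => al (x 0) (x 1) := by
    unfold al
    exact (hc 0).sub (hbe.mul contDiff_const)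
  have hlev : ContDiffOn ℝ ∞ lev U6 := by
    unfold lev
    apply ContDiffOn.div_const
    exact (hc 3).contDiffOn.log fun x hx => (show 0 < x 3 from hx).ne'
  exact (b1_smooth.comp_contDiffOn hlev).mul
    ((b1_smooth.comp hal).mul (b1_smooth.comp hbe)).contDiffOn

theorem bb_g (k a b : ℤ) (x : E6) (hx : x ∈ U6) : bb (g6 k a b x) = b1 (lev x + k) *
    (b1 (al (Real.goldenRatio ^ (2 * k) * x 0) (Real.goldenConj ^ (2 * k) * x 1) + a) *
      b1 (be (Real.goldenRatio ^ (2 * k) * x 0) (Real.goldenConj ^ (2 * k) * x 1) + b)) := by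
  unfold bb
  rw [lev_g k a b x hx]
  have h0 : g6 k a b x 0 = Real.goldenRatio ^ (2 * k) * x 0 + (a + b * Real.goldenRatio) := rfl
  have h1 : g6 k a b x 1 = Real.goldenConj ^ (2 * k) * x 1 + (a + b * Real.goldenConj) := rfl
  rw [h0, h1, be_add, al_add]

theorem g6_inj {k a b k' a' b' : ℤ} (h : g6 k a b = g6 k' a' b') : k = k' ∧ a = a' ∧ b = b' := by
  have e1 := congrFun (congrFun h (fun _ => 1)) 3
  have e2 : Real.goldenRatio ^ (2 * k) * (1 : ℝ) = Real.goldenRatio ^ (2 * k') * 1 := e1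
  have e3 : Real.goldenRatio ^ (2 * k) = Real.goldenRatio ^ (2 * k') := by linarith
  have e4 : 2 * k = 2 * k' :=
    zpow_right_injective₀ Real.goldenRatio_pos Real.one_lt_goldenRatio.ne' e3
  have f0 := congrFun (congrFun h (fun _ => 0)) 0
  have f1 := congrFun (congrFun h (fun _ => 0)) 1
  have f0' : Real.goldenRatio ^ (2 * k) * (0 : ℝ) + (a + b * Real.goldenRatio) =
    Real.goldenRatio ^ (2 * k') * (0 : ℝ) + (a' + b' * Real.goldenRatio) := f0
  have f1' : Real.goldenConj ^ (2 * k) * (0 : ℝ) + (a + b * Real.goldenConj) =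
    Real.goldenConj ^ (2 * k') * (0 : ℝ) + (a' + b' * Real.goldenConj) := f1
  rw [mul_zero, mul_zero] at f0' f1'
  have hb : (b : ℝ) = b' := by
    have h1 := be_add 0 0 a b
    have h2 := be_add 0 0 a' b'
    rw [f0', f1'] at h1
    linarith
  have ha : (a : ℝ) = a' := by
    have h1 := al_add 0 0 a b
    have h2 := al_add 0 0 a' b'
    rw [f0', f1'] at h1
    linarith
  exact ⟨by omega, by exact_mod_cast ha, by exact_mod_cast hb⟩

/-- parametrisation of the group -/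
noncomputable def par : ℤ × ℤ × ℤ ≃ G6 :=
  Equiv.ofBijective (fun t => ⟨g6 t.1 t.2.1 t.2.2, t.1, t.2.1, t.2.2, rfl⟩) (by
    constructor
    · rintro ⟨k, a, b⟩ ⟨k', a', b'⟩ h
      have h1 := g6_inj (Subtype.ext_iff.1 h)
      simp only at h1
      rw [h1.1, h1.2.1, h1.2.2]
    · rintro ⟨g, k, a, b, rfl⟩
      exact ⟨(k, a, b), rfl⟩)

theorem bb_cpt (S : Set E6) (hS : Q6.Bdd S) :
    ∃ K ⊆ U6, IsCompact K ∧ ∀ x ∈ S, x ∈ U6 → bb x ≠ 0 → x ∈ K := by
  obtain ⟨K, hKU, hK, hSK⟩ := hS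
  -- bounds of the invariants
  have hm : ∃ c : ℝ, ∀ x ∈ K, |m6 x| ≤ c ∧ |x 4| ≤ c ∧ |x 5| ≤ c := by
    have hc1 : Continuous fun x : E6 => |m6 x| + (|x 4| + |x 5|) := by
      unfold m6
      fun_prop
    obtain ⟨c, hc⟩ := (hK.image hc1).bddAbove
    refine ⟨c, fun x hx => ?_⟩
    have h1 : |m6 x| + (|x 4| + |x 5|) ≤ c := hc (Set.mem_image_of_mem _ hx)
    have := abs_nonneg (m6 x)
    have := abs_nonneg (x 4)
    have := abs_nonneg (x 5)
    refine ⟨?_, ?_, ?_⟩ <;> linarith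
  obtain ⟨c, hc⟩ := hm
  have hphi1 := Real.one_lt_goldenRatio
  have hphi2 := Real.goldenRatio_lt_two
  have hsq : Real.goldenRatio ^ 2 ≤ 4 := by nlinarith
  have h5 : (0 : ℝ) < Real.sqrt 5 := Real.sqrt_pos.2 (by norm_num)
  have h53 : Real.sqrt 5 ≤ 3 := by
    rw [Real.sqrt_le_left (by norm_num)]
    norm_num
  refine ⟨Set.Icc ![-10, -10, -(4 * |c|), 1 / 4, -|c|, -|c|] ![10, 10, 4 * |c|, 4, |c|, |c|],
    ?_, isCompact_Icc, ?_⟩
  · intro x hx
    have h3 := hx.1 3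
    have h4 : (1 / 4 : ℝ) ≤ x 3 := h3
    show 0 < x 3
    linarith
  · intro x hx hxU hb
    have hx3 : 0 < x 3 := hxU
    have hb1 := b1_supp (left_ne_zero_of_mul hb)
    have hb2 := b1_supp (left_ne_zero_of_mul (right_ne_zero_of_mul hb))
    have hb3 := b1_supp (right_ne_zero_of_mul (right_ne_zero_of_mul hb))
    -- level
    have hL := log_pos'
    have hl1 : -Real.log (Real.goldenRatio ^ 2) < Real.log (x 3) := by
      have := hb1.1
      unfold lev at this
      rw [lt_div_iff₀ hL] at this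
      linarith
    have hl2 : Real.log (x 3) < Real.log (Real.goldenRatio ^ 2) := by
      have := hb1.2
      unfold lev at this
      rw [div_lt_iff₀ hL] at this
      linarith
    have hq2 : x 3 < Real.goldenRatio ^ 2 := (Real.log_lt_log_iff hx3 (by positivity)).1 hl2
    have hq1 : (Real.goldenRatio ^ 2)⁻¹ < x 3 := by
      rw [← Real.log_inv] at hl1
      exact (Real.log_lt_log_iff (by positivity) hx3).1 hl1
    have hq1' : 1 / 4 ≤ x 3 := by
      refine le_trans ?_ hq1.le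
      rw [one_div]
      exact inv_anti₀ (by positivity) hsq
    -- x0, x1
    have hx0 : |x 0| ≤ 10 := by
      have e : x 0 = al (x 0) (x 1) + be (x 0) (x 1) * Real.goldenRatio := by
        unfold al
        ring
      rw [e, abs_le]
      constructor <;> nlinarith [hb2.1, hb2.2, hb3.1, hb3.2]
    have hx1 : |x 1| ≤ 10 := by
      have e : x 1 = x 0 - be (x 0) (x 1) * Real.sqrt 5 := by
        unfold be
        field_simp
        ring
      have e0 : x 0 = al (x 0) (x 1) + be (x 0) (x 1) * Real.goldenRatio := by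
        unfold al
        ring
      rw [abs_le]
      constructor <;> nlinarith [hb2.1, hb2.2, hb3.1, hb3.2]
    -- invariants
    obtain ⟨g, ⟨k, a, b, rfl⟩, hg⟩ := hSK x hx
    have hcx := hc _ hg
    have hmg : m6 (g6 k a b x) = m6 x := by
      have h1 : m6 (g6 k a b x) =
        (Real.goldenConj ^ (2 * k) * x 2) * (Real.goldenRatio ^ (2 * k) * x 3) := rfl
      rw [h1]
      unfold m6
      have h2 : Real.goldenConj ^ (2 * k) * Real.goldenRatio ^ (2 * k) = 1 := by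
        rw [← mul_zpow, mul_comm, Real.goldenRatio_mul_goldenConj, zpow_mul]
        norm_num
      linear_combination (x 2 * x 3) * h2
    have h4g : g6 k a b x 4 = x 4 := rfl
    have h5g : g6 k a b x 5 = x 5 := rfl
    rw [hmg, h4g, h5g] at hcx
    have hcc : c ≤ |c| := le_abs_self c
    have hx2 : |x 2| ≤ 4 * |c| := by
      have h1 : |x 2| * x 3 ≤ c := by
        have := hcx.1
        unfold m6 at this
        rwa [abs_mul, abs_of_pos hx3] at this
      nlinarith [abs_nonneg (x 2)]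
    constructor
    · intro i
      fin_cases i
      · exact (abs_le.1 hx0).1
      · exact (abs_le.1 hx1).1
      · exact (abs_le.1 hx2).1
      · exact hq1'
      · exact (abs_le.1 (hcx.2.1.trans hcc)).1
      · exact (abs_le.1 (hcx.2.2.trans hcc)).1
    · intro i
      fin_cases i
      · exact (abs_le.1 hx0).2
      · exact (abs_le.1 hx1).2
      · exact (abs_le.1 hx2).2
      · exact (hq2.le.trans hsq)
      · exact (abs_le.1 (hcx.2.1.trans hcc)).2
      · exact (abs_le.1 (hcx.2.2.trans hcc)).2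

theorem bb_fin (K : Set E6) (hKU : K ⊆ U6) (hK : IsCompact K) :
    {g | g ∈ G6 ∧ ∃ x ∈ K, bb (g x) ≠ 0}.Finite := by
  have hS : Q6.Bdd {x | ∃ g ∈ G6, g x ∈ K} :=
    ⟨K, hKU, hK, fun x hx => hx⟩
  obtain ⟨K', hK'U, hK', h⟩ := bb_cpt _ hS
  refine (disc6 (K ∪ K') (Set.union_subset hKU hK'U) (hK.union hK')).subset ?_
  rintro g ⟨hg, x, hx, hb⟩
  refine ⟨hg, x, Or.inl hx, Or.inr (h _ ?_ (maps6 g hg x (hKU hx)) hb)⟩
  obtain ⟨g', hg', h1, h2⟩ := inv_mem6 g hg
  exact ⟨g', hg', by rw [h1]; exact hx⟩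

end IntC

open IntC in
/-- a partition of unity subordinate to the group: `b ≥ 0` smooth on `U6`, the sum over the group
of `b (g x)` is locally finite and equal to one, and the support of `b` meets a bounded invariant
set in a relatively compact set -/
theorem exists_unity : ∃ b : E6 → ℝ, ContDiffOn ℝ ∞ b U6 ∧ (∀ x, 0 ≤ b x) ∧
    (∀ K ⊆ U6, IsCompact K → {g | g ∈ G6 ∧ ∃ x ∈ K, b (g x) ≠ 0}.Finite) ∧
    (∀ x ∈ U6, ∑ᶠ g : G6, b (g.1 x) = 1) ∧
    (∀ S : Set E6, Q6.Bdd S → ∃ K ⊆ U6, IsCompact K ∧ ∀ x ∈ S, x ∈ U6 → b x ≠ 0 → x ∈ K) := by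
  refine ⟨bb, bb_smooth, bb_nonneg, bb_fin, ?_, bb_cpt⟩
  intro x hx
  rw [← finsum_comp_equiv par]
  have hfin : (Function.support fun t : ℤ × ℤ × ℤ => bb ((par t).1 x)).Finite := by
    have h1 := bb_fin {x} (by simpa using hx) isCompact_singleton
    have h2 : (Function.support fun t : ℤ × ℤ × ℤ => bb ((par t).1 x)) ⊆
        (fun t => (par t).1) ⁻¹' {g | g ∈ G6 ∧ ∃ y ∈ ({x} : Set E6), bb (g y) ≠ 0} := by
      intro t ht
      exact ⟨(par t).2, x, rfl, ht⟩
    refine (h1.preimage ?_).subset h2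
    intro s _ t _ hst
    exact par.injective (Subtype.ext hst)
  rw [finsum_curry₃ _ hfin]
  have e : ∀ k a b : ℤ, bb ((par (k, a, b)).1 x) = b1 (lev x + k) *
    (b1 (al (Real.goldenRatio ^ (2 * k) * x 0) (Real.goldenConj ^ (2 * k) * x 1) + a) *
      b1 (be (Real.goldenRatio ^ (2 * k) * x 0) (Real.goldenConj ^ (2 * k) * x 1) + b)) :=
    fun k a b => bb_g k a b x hx
  simp only [e, ← mul_finsum, b1_sum, mul_one]

end Pool.Agent.LF
end

section

/-! # Task VolA: the closure of a bounded clopen subset of the fibre minus `C6` -/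

open Set Filter Topology
open scoped ContDiff

namespace Pool.Agent.LF

/-- a bounded invariant subset `B` of the fibre over `R`, clopen in the fibre minus `C6` -/
structure VolSet (p : E6 → ℂ) (R : ℝ) (B : Set E6) : Prop where
  sub : ∀ x ∈ B, x ∈ U6 ∧ p x = R ∧ x ∉ C6
  inv : ∀ g ∈ G6, ∀ x ∈ U6, (g x ∈ B ↔ x ∈ B)
  clopen : ∀ x ∈ U6, p x = R → x ∉ C6 → ∃ O ∈ 𝓝 x, ∀ x' ∈ O, x' ∈ U6 → p x' = R →
      x' ∉ C6 → (x' ∈ B ↔ x ∈ B)
  bdd : Q6.Bdd B

private theorem h6_smooth : ContDiff ℝ ∞ h6 := by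
  unfold h6 m6
  fun_prop

/-- limit points of `B` lie over `R`; those outside `B` lie in `C6`, where `h6 = 0` -/
theorem VolSet.limit {p : E6 → ℂ} (hL : IsLefschetz X6 p) {R₀ R : ℝ} (hb : Big p R₀)
    (hR : R₀ < R) {B : Set E6} (hB : VolSet p R B) {x : E6} (hx : x ∈ U6)
    (hxB : x ∈ closure B) : p x = R ∧ (x ∉ B → x ∈ C6) ∧ (x ∈ C6 → h6 x = 0) := by
  have hpc : ContinuousAt p x := (hL.smooth.contDiffAt (isOpen_U6.mem_nhds hx)).continuousAt
  have hpx : p x = R := by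
    have h1 : p x ∈ closure ({(R : ℂ)} : Set ℂ) := by
      rw [mem_closure_iff_nhds] at hxB ⊢
      intro t ht
      obtain ⟨y, hy1, hy2⟩ := hxB _ (hpc ht)
      exact ⟨p y, hy1, by simp [(hB.sub y hy2).2.1]⟩
    simpa using h1
  refine ⟨hpx, fun hxn => ?_, fun hxC => ?_⟩
  · by_contra hxC
    obtain ⟨O, hO, h⟩ := hB.clopen x hx hpx hxC
    obtain ⟨y, hy1, hy2⟩ := (mem_closure_iff_nhds.1 hxB) O hO
    obtain ⟨h1, h2, h3⟩ := hB.sub y hy2
    exact hxn ((h y hy1 h1 h2 h3).1 hy2)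
  · by_contra hne
    have hlt : h6 x < 0 := lt_of_le_of_ne hxC.2.2.2 hne
    obtain ⟨O, hO, h⟩ := near_C hL.smooth hb hR hxC hpx
    have hO2 : {y | h6 y < 0} ∈ 𝓝 x :=
      (isOpen_lt h6_smooth.continuous continuous_const).mem_nhds hlt
    obtain ⟨y, hy1, hy2⟩ := (mem_closure_iff_nhds.1 hxB) _ (inter_mem hO hO2)
    obtain ⟨h1, h2, h3⟩ := hB.sub y hy2
    exact h3 (h y hy1.1 h2 (le_of_lt hy1.2))

/-- at the limit points of `B` in `C6` the function `h6 + l v^2` increases along `BB * NN` -/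
theorem VolSet.deriv_pos {p : E6 → ℂ} (hL : IsLefschetz X6 p) {R₀ R : ℝ} (hb : Big p R₀)
    (hR : R₀ < R) {l : ℝ} {x : E6} (hx : x ∈ C6) (hpx : p x = R) (hh : h6 x = 0) :
    BB p x ≠ 0 ∧ 0 < BB p x * fderiv ℝ (fun y : E6 => h6 y + l * y 5 ^ 2) x (NN p x) := by
  have hxU : x ∈ U6 := hx.1
  have hx5 : x 5 = 0 := hx.2.2.1
  have hn : R₀ ≤ ‖p x‖ := by
    rw [hpx, Complex.norm_real, Real.norm_eq_abs]
    exact le_trans hR.le (le_abs_self R)
  have hne : BB p x ≠ 0 := BB_ne hL hxU (hb.surj x hxU hn)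
  refine ⟨hne, ?_⟩
  have h1 : 0 < fderiv ℝ h6 x ((BB p x)⁻¹ • NN p x) := by
    refine hb.out x hx hn hh _ ?_ ?_
    · rw [map_smul, p_NN, smul_zero]
    · intro w hw
      have : om ((BB p x)⁻¹ • NN p x) w = (BB p x)⁻¹ * om (NN p x) w := by
        simp only [om, Pi.smul_apply, smul_eq_mul]; ring
      rw [this, om_NN p x w hw, ← mul_assoc, inv_mul_cancel₀ hne, one_mul]
  have h2 : HasFDerivAt (fun y : E6 => h6 y + l * y 5 ^ 2) (fderiv ℝ h6 x) x := by
    have ha : HasFDerivAt h6 (fderiv ℝ h6 x) x :=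
      (h6_smooth.contDiffAt.differentiableAt (by simp)).hasFDerivAt
    have hb' : HasFDerivAt (fun y : E6 => y 5)
        (ContinuousLinearMap.proj (R := ℝ) (φ := fun _ : Fin 6 => ℝ) 5) x :=
      (ContinuousLinearMap.proj (R := ℝ) (φ := fun _ : Fin 6 => ℝ) 5).hasFDerivAt
    have hc := (hb'.pow 2).const_mul l
    have hd := ha.add hc
    refine hd.congr_fderiv ?_
    ext v
    simp [hx5]
  rw [h2.fderiv]
  rw [map_smul, smul_eq_mul] at h1
  have h3 : BB p x * fderiv ℝ h6 x (NN p x) =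
      BB p x ^ 2 * ((BB p x)⁻¹ * fderiv ℝ h6 x (NN p x)) := by
    field_simp
  rw [h3]
  exact mul_pos (by positivity) h1

end Pool.Agent.LF
end
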